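import Pool.Agent.Run7.h308.PG

set_option autoImplicit false
set_option maxHeartbeats 800000

namespace Run7.h308

open Matrix MeasureTheory Filter Topology Set
open scoped ComplexOrder

variable {p q : ℕ}

/-- the adjoint of a contraction is a contraction -/
lemma contr_adj {b : Matrix (Fin p) (Fin q) ℂ} (h : ∀ x, ns (b *ᵥ x) ≤ ns x) (y : Fin p → ℂ) :
    ns (bᴴ *ᵥ y) ≤ ns y := by
  have h1 : (ns (bᴴ *ᵥ y) : ℂ) = star y ⬝ᵥ (b *ᵥ (bᴴ *ᵥ y)) := by
    rw [← star_dot_self, star_mulVec, conjTranspose_conjTranspose, ← dotProduct_mulVec]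
  have h2 := dot_cs y (b *ᵥ (bᴴ *ᵥ y))
  rw [← h1, Complex.norm_real, Real.norm_of_nonneg (ns_nonneg _)] at h2
  have h3 := h (bᴴ *ᵥ y)
  have h4 := ns_nonneg y
  have h5 := ns_nonneg (bᴴ *ᵥ y)
  have h6 : ns (bᴴ *ᵥ y) ^ 2 ≤ ns y * ns (bᴴ *ᵥ y) :=
    h2.trans (mul_le_mul_of_nonneg_left h3 h4)
  by_contra hc
  push Not at hc
  nlinarith

lemma unit_mat {b : Matrix (Fin p) (Fin q) ℂ} {s11 : Matrix (Fin p) (Fin p) ℂ}
    {s22 : Matrix (Fin q) (Fin q) ℂ} (h11 : s11 * s11ᴴ = 1 - b * bᴴ) (h22 : s22ᴴ * s22 = 1 - bᴴ * b)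
    (hd : (1 - b * bᴴ).det ≠ 0) :
    (fromBlocks s11 b (-(s22 * bᴴ * (1 - b * bᴴ)⁻¹ * s11)) s22)ᴴ *
      fromBlocks s11 b (-(s22 * bᴴ * (1 - b * bᴴ)⁻¹ * s11)) s22 = 1 := by
  obtain ⟨d, hdd⟩ : ∃ d, d = 1 - b * bᴴ := ⟨_, rfl⟩
  rw [← hdd] at h11 hd ⊢
  have hu : IsUnit d.det := hd.isUnit
  have hdh : dᴴ = d := by
    rw [hdd, conjTranspose_sub, conjTranspose_mul, conjTranspose_conjTranspose, conjTranspose_one]
  have hdih : (d⁻¹)ᴴ = d⁻¹ := by rw [conjTranspose_nonsing_inv, hdh]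
  have hbd : b * (s22ᴴ * s22) = d * b := by
    rw [h22, hdd, Matrix.mul_sub, Matrix.sub_mul, Matrix.mul_one, Matrix.one_mul, Matrix.mul_assoc]
  obtain ⟨s21, hs⟩ : ∃ s21, s21 = s22 * bᴴ * d⁻¹ * s11 := ⟨_, rfl⟩
  rw [← hs]
  have hsh : s21ᴴ = s11ᴴ * d⁻¹ * b * s22ᴴ := by
    rw [hs]
    simp only [conjTranspose_mul, conjTranspose_conjTranspose, hdih, Matrix.mul_assoc]
  have e12 : s21ᴴ * s22 = s11ᴴ * b := by
    calc s21ᴴ * s22 = s11ᴴ * d⁻¹ * (b * (s22ᴴ * s22)) := by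
          rw [hsh]
          simp only [Matrix.mul_assoc]
      _ = s11ᴴ * (d⁻¹ * d) * b := by
          rw [hbd]
          simp only [Matrix.mul_assoc]
      _ = s11ᴴ * b := by rw [Matrix.nonsing_inv_mul _ hu, Matrix.mul_one]
  have e21 : s22ᴴ * s21 = bᴴ * s11 := by
    have := congrArg conjTranspose e12
    rwa [conjTranspose_mul, conjTranspose_mul, conjTranspose_conjTranspose,
      conjTranspose_conjTranspose] at this
  have hs11 : s11.det ≠ 0 := by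
    intro h
    have h1 := congrArg Matrix.det h11
    rw [det_mul, h, zero_mul] at h1
    exact hd h1.symm
  have e1 : s11ᴴ * d⁻¹ * s11 = 1 := by
    rw [← h11]
    have hu1 : IsUnit s11.det := hs11.isUnit
    have hu2 : IsUnit (s11ᴴ).det := by
      rw [det_conjTranspose, isUnit_iff_ne_zero, star_ne_zero]
      exact hs11
    rw [Matrix.mul_inv_rev, ← Matrix.mul_assoc, Matrix.mul_nonsing_inv _ hu2, Matrix.one_mul,
      Matrix.nonsing_inv_mul _ hu1]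
  have e11 : s11ᴴ * s11 + s21ᴴ * s21 = 1 := by
    have h1 : s21ᴴ * s21 = s11ᴴ * (1 - d) * d⁻¹ * s11 := by
      calc s21ᴴ * s21 = s21ᴴ * s22 * (bᴴ * d⁻¹ * s11) := by
            conv_lhs =>
              arg 2
              rw [hs]
            simp only [Matrix.mul_assoc]
        _ = s11ᴴ * (b * bᴴ) * d⁻¹ * s11 := by
            rw [e12]
            simp only [Matrix.mul_assoc]
        _ = _ := by
            have h2 : b * bᴴ = 1 - d := by rw [hdd, sub_sub_cancel]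
            rw [h2]
    rw [h1, Matrix.mul_sub, Matrix.sub_mul, Matrix.sub_mul, Matrix.mul_one, e1, Matrix.mul_assoc s11ᴴ d,
      Matrix.mul_nonsing_inv _ hu, Matrix.mul_one]
    abel
  rw [fromBlocks_conjTranspose, fromBlocks_multiply, conjTranspose_neg, ← fromBlocks_one]
  have a11 : s11ᴴ * s11 + -s21ᴴ * -s21 = 1 := by rw [Matrix.neg_mul, Matrix.mul_neg, neg_neg, e11]
  have a12 : s11ᴴ * b + -s21ᴴ * s22 = 0 := by rw [Matrix.neg_mul, e12, add_neg_cancel]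
  have a21 : bᴴ * s11 + s22ᴴ * -s21 = 0 := by rw [Matrix.mul_neg, e21, add_neg_cancel]
  have a22 : bᴴ * b + s22ᴴ * s22 = 1 := by rw [h22, add_sub_cancel]
  rw [a11, a12, a21, a22]

lemma entry_le {ι : Type} [Fintype ι] [DecidableEq ι] {s : Matrix ι ι ℂ} (h : sᴴ * s = 1) (i k : ι) :
    ‖s i k‖ ≤ 1 := by
  have h1 := le_ns (s *ᵥ Pi.single k 1) i
  rw [unit_ns h, ns_single, mulVec_single_one, col_apply] at h1
  exact (sq_le_one_iff₀ (norm_nonneg _)).1 h1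

/-- passing from a unitary boundary function to a `j`-inner function -/
theorem jinner_of_T {T : ℂ → Matrix (Fin p ⊕ Fin q) (Fin p ⊕ Fin q) ℂ} (hT : MP (BddHolOn disc) T)
    {t : ℝ → Matrix (Fin p ⊕ Fin q) (Fin p ⊕ Fin q) ℂ} (ht : ∀ᵐ θ ∂m, NTLim T (pt θ) (t θ))
    (hu : ∀ᵐ θ ∂m, (t θ)ᴴ * t θ = 1) (hd : ∀ᵐ θ ∂m, (t θ).toBlocks₂₂.det ≠ 0)
    {f : ℂ → Matrix (Fin p) (Fin q) ℂ} (hf : ContinuousOn f disc)
    (hTf : ∀ z ∈ disc, (T z).toBlocks₁₂ = f z) :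
    JInner p q (fun z => pg (T z)) ∧ IsEta (fun z => pg (T z)) f := by
  have b11 : MP (BddType disc) (fun z => (T z).toBlocks₁₁) := fun i k => BddType.of_bdd (hT (Sum.inl i) (Sum.inl k))
  have b12 : MP (BddType disc) (fun z => (T z).toBlocks₁₂) := fun i k => BddType.of_bdd (hT (Sum.inl i) (Sum.inr k))
  have b21 : MP (BddType disc) (fun z => (T z).toBlocks₂₁) := fun i k => BddType.of_bdd (hT (Sum.inr i) (Sum.inl k))
  have b22 : MP (BddType disc) (fun z => (T z).toBlocks₂₂) := fun i k => BddType.of_bdd (hT (Sum.inr i) (Sum.inr k))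
  have bI : MP (BddType disc) (fun z => (T z).toBlocks₂₂⁻¹) := MP.bt_inv b22
  have hW : MP (BddType disc) (fun z => pg (T z)) := by
    intro i k
    rcases i with i | i <;> rcases k with k | k
    · exact Alg.bt.msub b11 (Alg.bt.mm (Alg.bt.mm b12 bI) b21) i k
    · exact Alg.bt.mm b12 bI i k
    · exact (Alg.bt.mm bI b21 i k).neg
    · exact bI i k
  have hdG : ∀ᶠ z in GF, (T z).toBlocks₂₂.det ≠ 0 := by
    refine bt_ne_of_bv (Alg.bt.det (M := fun z => (T z).toBlocks₂₂) b22)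
      (b := fun θ => (t θ).toBlocks₂₂.det) ?_ hd
    filter_upwards [ht] with θ h K
    have h2 : Continuous (fun A : Matrix (Fin q) (Fin q) ℂ => A.det) := Continuous.matrix_det continuous_id
    exact (h2.tendsto _).comp (tendsto_b22 (h K))
  have hJC : ∀ᶠ z in GF, JC (pg (T z)) := by
    filter_upwards [hdG, GF.disc] with z h1 h2
    exact pg_JC h1 (mat_max hT ht hu h2)
  have hNT : ∀ᵐ θ ∂m, NTLim (fun z => pg (T z)) (pt θ) (pg (t θ)) := by
    filter_upwards [ht, hd] with θ h1 h2 K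
    have t11 := tendsto_b11 (h1 K)
    have t12 := tendsto_b12 (h1 K)
    have t21 := tendsto_b21 (h1 K)
    have tI := tendsto_minv (tendsto_b22 (h1 K)) h2
    refine tendsto_mat fun i k => ?_
    rcases i with i | i <;> rcases k with k | k
    · exact tendsto_entry (t11.sub (tendsto_mm (tendsto_mm t12 tI) t21)) i k
    · exact tendsto_entry (tendsto_mm t12 tI) i k
    · exact (tendsto_entry (tendsto_mm tI t21) i k).neg
    · exact tendsto_entry tI i k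
  have hJU : ∀ᵐ θ ∂m, JU (pg (t θ)) := by
    filter_upwards [hu, hd] with θ h1 h2
    exact pg_JU h2 h1
  have hcontr : ∀ z ∈ disc, AnAt (fun z => pg (T z)) z → JC (pg (T z)) := by
    intro z hz h x
    have hc : Tendsto (fun w => qf (pg (T w) *ᵥ x)) (𝓝[≠] z) (𝓝 (qf (pg (T z) *ᵥ x))) := by
      have h1 : Tendsto (fun w => pg (T w)) (𝓝[≠] z) (𝓝 (pg (T z))) :=
        h.cont.tendsto.mono_left nhdsWithin_le_nhds
      exact (continuous_qf.tendsto _).comp (tendsto_mulVec h1 x)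
    refine le_of_tendsto hc ?_
    filter_upwards [GF.punct hJC hz] with w hw
    exact hw x
  refine ⟨⟨hW, ?_, fun z hz h => (JC_iff _).2 (hcontr z hz h), ?_⟩, ?_⟩
  · have hdet : ∀ᶠ z in GF, (pg (T z)).det ≠ 0 := by
      refine bt_ne_of_bv (Alg.bt.det hW) (b := fun θ => (pg (t θ)).det) ?_ ?_
      · filter_upwards [hNT] with θ h K
        have h2 : Continuous (fun A : Matrix (Fin p ⊕ Fin q) (Fin p ⊕ Fin q) ℂ => A.det) :=
          Continuous.matrix_det continuous_id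
        exact (h2.tendsto _).comp (h K)
      · filter_upwards [hJU] with θ h h0
        have h1 := congrArg Matrix.det h.inv_mul
        rw [det_mul, h0, mul_zero, det_one] at h1
        exact zero_ne_one h1
    have han : ∀ᶠ z in GF, AnAt (fun z => pg (T z)) z := by
      have h2 : ∀ᶠ z in GF, ∀ i k, AnalyticAt ℂ (fun z => pg (T z) i k) z := by
        rw [eventually_all]
        intro i
        rw [eventually_all]
        intro k
        exact (hW i k).an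
      exact h2
    obtain ⟨z, hz, h1, h2⟩ := GF.exists (han.and hdet)
    exact ⟨z, hz, h1, h2⟩
  · filter_upwards [hNT, hJU] with θ h1 h2
    exact ⟨_, h1, h2⟩
  · intro z hz h
    have hd22 := (hcontr z hz h).det22
    have h1 : f z * (pg (T z)).toBlocks₂₂ = (pg (T z)).toBlocks₁₂ := by
      have hc : Tendsto (fun w => pg (T w)) (𝓝[≠] z) (𝓝 (pg (T z))) :=
        h.cont.tendsto.mono_left nhdsWithin_le_nhds
      have hfc : Tendsto f (𝓝[≠] z) (𝓝 (f z)) :=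
        ((hf.continuousAt (isOpen_disc.mem_nhds hz)).tendsto).mono_left nhdsWithin_le_nhds
      have h5 : ∀ᶠ w in 𝓝[≠] z, w ∈ disc :=
        eventually_nhdsWithin_of_eventually_nhds (isOpen_disc.mem_nhds hz)
      refine tendsto_nhds_unique ((tendsto_mm hfc (tendsto_b22 hc)).congr' ?_) (tendsto_b12 hc)
      filter_upwards [h5] with w hw
      rw [← hTf w hw]
      rfl
    show f z = (pg (T z)).toBlocks₁₂ * (pg (T z)).toBlocks₂₂⁻¹
    rw [← h1, Matrix.mul_assoc, Matrix.mul_nonsing_inv _ hd22.isUnit, Matrix.mul_one]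

theorem arov {f : ℂ → Matrix (Fin p) (Fin q) ℂ} (hf : Schur f) (h1 : HasPseudocontinuation f)
    (h2 : LogDetIntegrable f) : ∃ W, JInner p q W ∧ IsEta W f := by
  obtain ⟨b, hb, hdet, -⟩ := h2
  obtain ⟨g, hg1, hg2⟩ := h1
  have hbc : ∀ᵐ θ ∂m, ∀ x, ns (b θ *ᵥ x) ≤ ns x := by
    filter_upwards [hb] with θ h x
    have t1 : Tendsto (fun r : ℝ => ns (f (r * pt θ) *ᵥ x)) (𝓝[<] 1) (𝓝 (ns (b θ *ᵥ x))) :=
      (continuous_ns.tendsto _).comp (tendsto_mulVec h.radial x)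
    refine le_of_tendsto t1 ?_
    filter_upwards [ev_Ico] with r hr
    exact hf.contr (rad_mem hr.1.le hr.2 θ) x
  have hd1 : ∀ᵐ θ ∂m, (1 - b θ * (b θ)ᴴ).PosDef := by
    filter_upwards [hbc, hdet] with θ h3 h4
    have h5 : (1 - (b θ)ᴴᴴ * (b θ)ᴴ).PosSemidef := (contr_iff _).2 (contr_adj h3)
    rw [conjTranspose_conjTranspose] at h5
    refine h5.posDef_iff_det_ne_zero.2 fun h6 => ?_
    rw [h6] at h4
    simp at h4
  have hd2 : ∀ᵐ θ ∂m, (1 - (b θ)ᴴ * b θ).PosDef := by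
    filter_upwards [hbc, hdet] with θ h3 h4
    refine ((contr_iff _).2 h3).posDef_iff_det_ne_zero.2 fun h6 => ?_
    rw [det_one_sub_mul_comm] at h4
    rw [h6] at h4
    simp at h4
  obtain ⟨fs, hfs⟩ : ∃ fs : ℂ → Matrix (Fin q) (Fin p) ℂ, fs = fun z => (g (rf z))ᴴ := ⟨_, rfl⟩
  have bfs : MP (BddType disc) fs := by
    intro i k
    rw [hfs]
    exact (hg1 k i).refl_in
  have lfs : ∀ᵐ θ ∂m, NTLim fs (pt θ) (b θ)ᴴ := by
    filter_upwards [hb, hg2] with θ h3 ⟨L, h4, h5⟩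
    have h6 : L = b θ := tendsto_nhds_unique h4.radial h3.radial
    rw [h6] at h5
    rw [hfs]
    exact fun K => tendsto_ct ((h5.refl (norm_pt θ)) K)
  have bf : MP (BddType disc) f := hf.bdd.mono fun _ h => BddType.of_bdd h
  have bD2 : MP (BddType disc) (fun z => 1 - fs z * f z) :=
    Alg.bt.msub (Alg.bt.mconst 1) (Alg.bt.mm bfs bf)
  have bD1 : MP (BddType disc) (fun z => 1 - f z * fs z) :=
    Alg.bt.msub (Alg.bt.mconst 1) (Alg.bt.mm bf bfs)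
  have lD2 : ∀ᵐ θ ∂m, NTLim (fun z => 1 - fs z * f z) (pt θ) (1 - (b θ)ᴴ * b θ) := by
    filter_upwards [hb, lfs] with θ h3 h4 K
    exact tendsto_const_nhds.sub (tendsto_mm (h4 K) (h3 K))
  have lD1 : ∀ᵐ θ ∂m, NTLim (fun z => 1 - f z * fs z) (pt θ) (1 - b θ * (b θ)ᴴ) := by
    filter_upwards [hb, lfs] with θ h3 h4 K
    exact tendsto_const_nhds.sub (tendsto_mm (h3 K) (h4 K))
  obtain ⟨R2, r2, bR2, lR2, hr2⟩ := chol q _ _ bD2 lD2 hd2
  obtain ⟨R1, r1, bR1, lR1, hr1⟩ := chol p (fun z => (1 - f z * fs z)ᵀ) (fun θ => (1 - b θ * (b θ)ᴴ)ᵀ)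
    (by
      intro i k
      show BddType disc (fun z => (1 - f z * fs z : Matrix (Fin p) (Fin p) ℂ) k i)
      exact bD1 k i) (by
      filter_upwards [lD1] with θ h3 K
      exact tendsto_mat fun i k => tendsto_entry (h3 K) k i) (by
      filter_upwards [hd1] with θ h3
      exact h3.transpose)
  have bS11 : MP (BddType disc) (fun z => (R1 z)ᵀ) := fun i k => bR1 k i
  have lS11 : ∀ᵐ θ ∂m, NTLim (fun z => (R1 z)ᵀ) (pt θ) (r1 θ)ᵀ := by
    filter_upwards [lR1] with θ h3 K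
    exact tendsto_mat fun i k => tendsto_entry (h3 K) k i
  have hs11 : ∀ᵐ θ ∂m, (r1 θ)ᵀ * ((r1 θ)ᵀ)ᴴ = 1 - b θ * (b θ)ᴴ := by
    filter_upwards [hr1] with θ h3
    have h4 : ((r1 θ)ᵀ)ᴴ = ((r1 θ)ᴴ)ᵀ := by
      ext i k
      rfl
    rw [h4, ← transpose_mul, h3, transpose_transpose]
  obtain ⟨S, hS⟩ : ∃ S : ℂ → Matrix (Fin p ⊕ Fin q) (Fin p ⊕ Fin q) ℂ,
    S = fun z => fromBlocks (R1 z)ᵀ (f z) (-(R2 z * fs z * (1 - f z * fs z)⁻¹ * (R1 z)ᵀ)) (R2 z) := ⟨_, rfl⟩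
  obtain ⟨s, hs⟩ : ∃ s : ℝ → Matrix (Fin p ⊕ Fin q) (Fin p ⊕ Fin q) ℂ,
    s = fun θ => fromBlocks (r1 θ)ᵀ (b θ) (-(r2 θ * (b θ)ᴴ * (1 - b θ * (b θ)ᴴ)⁻¹ * (r1 θ)ᵀ)) (r2 θ) := ⟨_, rfl⟩
  have bS21 : MP (BddType disc) (fun z => R2 z * fs z * (1 - f z * fs z)⁻¹ * (R1 z)ᵀ) :=
    Alg.bt.mm (Alg.bt.mm (Alg.bt.mm bR2 bfs) (MP.bt_inv bD1)) bS11
  have bS : MP (BddType disc) S := by
    intro i k
    rw [hS]
    rcases i with i | i <;> rcases k with k | k
    · exact bS11 i k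
    · exact bf i k
    · exact (bS21 i k).neg
    · exact bR2 i k
  have lS : ∀ᵐ θ ∂m, NTLim S (pt θ) (s θ) := by
    filter_upwards [lS11, hb, lfs, lR2, lD1, hd1] with θ h3 h4 h5 h6 h7 h8 K
    rw [hS, hs]
    refine tendsto_mat fun i k => ?_
    rcases i with i | i <;> rcases k with k | k
    · exact tendsto_entry (h3 K) i k
    · exact tendsto_entry (h4 K) i k
    · exact (tendsto_entry (tendsto_mm (tendsto_mm (tendsto_mm (h6 K) (h5 K))
        (tendsto_minv (h7 K) h8.det_pos.ne')) (h3 K)) i k).neg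
    · exact tendsto_entry (h6 K) i k
  have us : ∀ᵐ θ ∂m, (s θ)ᴴ * s θ = 1 := by
    filter_upwards [hs11, hr2, hd1] with θ h3 h4 h5
    rw [hs]
    exact unit_mat h3 h4 h5.det_pos.ne'
  -- common inner multiplier
  obtain ⟨β, ⟨hβb, hβne, βb, lβ, hβ1⟩, hψ⟩ := mult_fam (ι := (Fin p ⊕ Fin q) × (Fin p ⊕ Fin q))
    (φ := fun ik z => S z ik.1 ik.2) (fun ik => bS ik.1 ik.2) (b := fun ik θ => s θ ik.1 ik.2) (by
      intro ik
      filter_upwards [lS] with θ h3 K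
      exact tendsto_entry (h3 K) ik.1 ik.2) (by
      intro ik
      filter_upwards [us] with θ h3
      exact entry_le h3 _ _)
  choose ψ hψ1 hψ2 using hψ
  obtain ⟨Ψ, hΨ⟩ : ∃ Ψ : ℂ → Matrix (Fin p ⊕ Fin q) (Fin p ⊕ Fin q) ℂ,
    Ψ = fun z => Matrix.of fun i k => ψ (i, k) z := ⟨_, rfl⟩
  have bΨ : MP (BddHolOn disc) Ψ := by
    intro i k
    rw [hΨ]
    exact hψ1 (i, k)
  have hΨe : ∀ᶠ z in GF, Ψ z = β z • S z := by
    have : ∀ᶠ z in GF, ∀ ik : (Fin p ⊕ Fin q) × (Fin p ⊕ Fin q), β z * S z ik.1 ik.2 = ψ ik z := by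
      rw [eventually_all]
      exact hψ2
    filter_upwards [this] with z hz
    ext i k
    rw [hΨ]
    exact (hz (i, k)).symm
  obtain ⟨T, hT⟩ : ∃ T : ℂ → Matrix (Fin p ⊕ Fin q) (Fin p ⊕ Fin q) ℂ,
    T = fun z => fromBlocks (Ψ z).toBlocks₁₁ (f z) (β z • (Ψ z).toBlocks₂₁) (Ψ z).toBlocks₂₂ := ⟨_, rfl⟩
  have bT : MP (BddHolOn disc) T := by
    intro i k
    rw [hT]
    rcases i with i | i <;> rcases k with k | k
    · exact bΨ (Sum.inl i) (Sum.inl k)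
    · exact hf.bdd i k
    · exact hβb.mul (bΨ (Sum.inr i) (Sum.inl k))
    · exact bΨ (Sum.inr i) (Sum.inr k)
  obtain ⟨t, ht⟩ : ∃ t : ℝ → Matrix (Fin p ⊕ Fin q) (Fin p ⊕ Fin q) ℂ,
    t = fun θ => fromBlocks (βb θ • (s θ).toBlocks₁₁) (b θ) (βb θ • (βb θ • (s θ).toBlocks₂₁))
      (βb θ • (s θ).toBlocks₂₂) := ⟨_, rfl⟩
  have lT : ∀ᵐ θ ∂m, NTLim T (pt θ) (t θ) := by
    have h3 : ∀ᵐ θ ∂m, ∀ L, NTLim (fun z => β z • S z) (pt θ) L → NTLim Ψ (pt θ) L := by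
      refine GF.nt ?_
      filter_upwards [hΨe] with z hz
      exact hz.symm
    filter_upwards [h3, lβ, lS, hb] with θ h4 h5 h6 h7 K
    have h8 : Tendsto Ψ (𝓝[{z : ℂ | ‖z‖ < 1 ∧ ‖z - pt θ‖ ≤ K * (1 - ‖z‖)}] (pt θ)) (𝓝 (βb θ • s θ)) :=
      h4 _ (fun K => Tendsto.smul (h5 K) (h6 K)) K
    rw [hT, ht]
    refine tendsto_mat fun i k => ?_
    rcases i with i | i <;> rcases k with k | k
    · exact tendsto_entry h8 (Sum.inl i) (Sum.inl k)
    · exact tendsto_entry (h7 K) i k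
    · exact (h5 K).mul (tendsto_entry h8 (Sum.inr i) (Sum.inl k))
    · exact tendsto_entry h8 (Sum.inr i) (Sum.inr k)
  have hts : ∀ θ, t θ = (fromBlocks 1 0 0 (βb θ • 1) : Matrix (Fin p ⊕ Fin q) (Fin p ⊕ Fin q) ℂ) * s θ *
      fromBlocks (βb θ • 1) 0 0 1 := by
    intro θ
    have h12 : (s θ).toBlocks₁₂ = b θ := by
      rw [hs]
      rfl
    rw [ht]
    simp only
    conv_rhs => rw [← fromBlocks_toBlocks (s θ), fromBlocks_multiply, fromBlocks_multiply]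
    simp [h12]
  have ut : ∀ᵐ θ ∂m, (t θ)ᴴ * t θ = 1 := by
    filter_upwards [us, hβ1] with θ h3 h4
    have hc : βb θ * (starRingEnd ℂ) (βb θ) = 1 := by
      rw [Complex.mul_conj, Complex.normSq_eq_norm_sq, h4]
      simp
    obtain ⟨X, hX⟩ : ∃ X : Matrix (Fin p ⊕ Fin q) (Fin p ⊕ Fin q) ℂ,
      X = fromBlocks 1 0 0 (βb θ • 1) := ⟨_, rfl⟩
    obtain ⟨Y, hY⟩ : ∃ Y : Matrix (Fin p ⊕ Fin q) (Fin p ⊕ Fin q) ℂ,
      Y = fromBlocks (βb θ • 1) 0 0 1 := ⟨_, rfl⟩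
    have hXX : Xᴴ * X = 1 := by
      rw [hX, fromBlocks_conjTranspose, fromBlocks_multiply]
      simp [smul_smul, hc]
    have hYY : Yᴴ * Y = 1 := by
      rw [hY, fromBlocks_conjTranspose, fromBlocks_multiply]
      simp [smul_smul, hc]
    rw [hts θ, ← hX, ← hY, conjTranspose_mul, conjTranspose_mul]
    calc Yᴴ * ((s θ)ᴴ * Xᴴ) * (X * s θ * Y) = Yᴴ * ((s θ)ᴴ * (Xᴴ * X) * s θ) * Y := by
          simp only [Matrix.mul_assoc]
      _ = 1 := by rw [hXX, Matrix.mul_one, h3, Matrix.mul_one, hYY]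
  have dt : ∀ᵐ θ ∂m, (t θ).toBlocks₂₂.det ≠ 0 := by
    filter_upwards [hr2, hβ1, hd2] with θ h3 h4 h5
    have h6 : (t θ).toBlocks₂₂ = βb θ • r2 θ := by
      rw [ht, hs]
      simp
    rw [h6, det_smul]
    refine mul_ne_zero (pow_ne_zero _ ?_) ?_
    · rw [← norm_ne_zero_iff, h4]
      exact one_ne_zero
    · intro h7
      have h8 := congrArg Matrix.det h3
      rw [det_mul, h7, mul_zero] at h8
      exact h5.det_pos.ne h8
  obtain ⟨h3, h4⟩ := jinner_of_T bT lT ut dt (f := f) (MP.bdd_cont hf.bdd) (by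
    intro z _
    rw [hT]
    rfl)
  exact ⟨_, h3, h4⟩

/-- the full description of the functions `η_W`, `W` left regular -/
theorem eta_lr_iff {f : ℂ → Matrix (Fin p) (Fin q) ℂ} (hf : Schur f) :
    (∃ W, LeftRegular W ∧ IsEta W f) ↔ (HasPseudocontinuation f ∧ LogDetIntegrable f) := by
  rw [eta_iff]
  constructor
  · rintro ⟨W, h1, h2⟩
    exact nec hf h1 h2
  · rintro ⟨h1, h2⟩
    exact arov hf h1 h2

end Run7.h308
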