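import Pool.Agent.Run7.h442.BA.Stm

/-!
Project BA, piece N: counting on the discrete torus from volumes.
-/

set_option autoImplicit false

namespace Pool.Agent.Run7.h308.BAN

open MeasureTheory Filter Pool.Agent.W792.LL Pool.Agent.W792.WA Pool.Agent.N659.HB
open Pool.Agent.Run7.h442.BA
open Pool.Agent.W788.MFP.Four (T e NN adj)
open scoped Topology ENNReal

noncomputable section

/-- one coordinate of the kinetic energy -/
def g (x : UnitAddCircle) : ℝ := 2 - 2 * (fourier 1 x).re

theorem g_coe (t : ℝ) : g (t : UnitAddCircle) = 2 - 2 * Real.cos (2 * Real.pi * t) := by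
  unfold g
  rw [fourier_coe_apply]
  have : (2 * (Real.pi : ℂ) * Complex.I * ((1 : ℤ) : ℂ) * (t : ℂ) / ((1 : ℝ) : ℂ)) =
      ((2 * Real.pi * t : ℝ) : ℂ) * Complex.I := by
    push_cast
    ring
  rw [this, Complex.exp_ofReal_mul_I_re]

theorem g_lip (x y : UnitAddCircle) : |g x - g y| ≤ 4 * Real.pi * dist x y := by
  induction x using QuotientAddGroup.induction_on with
  | H a =>
  induction y using QuotientAddGroup.induction_on with
  | H b =>
  have h1 : dist (a : UnitAddCircle) (b : UnitAddCircle) = |(a - b) - round (a - b)| := by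
    rw [dist_eq_norm]
    have : (a : UnitAddCircle) - (b : UnitAddCircle) = ((a - b : ℝ) : UnitAddCircle) := by
      norm_cast
    rw [this, UnitAddCircle.norm_eq]
  change |g (a : UnitAddCircle) - g (b : UnitAddCircle)| ≤
    4 * Real.pi * dist (a : UnitAddCircle) (b : UnitAddCircle)
  rw [h1, g_coe, g_coe]
  have h2 : Real.cos (2 * Real.pi * b) = Real.cos (2 * Real.pi * (b + round (a - b))) := by
    have : 2 * Real.pi * (b + round (a - b)) =
        2 * Real.pi * b + (round (a - b) : ℤ) * (2 * Real.pi) := by ring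
    rw [this, Real.cos_add_int_mul_two_pi]
  rw [h2]
  have h3 := Real.abs_cos_sub_cos_le (2 * Real.pi * (b + round (a - b))) (2 * Real.pi * a)
  have h4 : 2 * Real.pi * (b + round (a - b)) - 2 * Real.pi * a =
      2 * Real.pi * -(a - b - round (a - b)) := by ring
  rw [h4, abs_mul, abs_neg, abs_of_pos (by positivity : 0 < 2 * Real.pi)] at h3
  have h5 : 2 - 2 * Real.cos (2 * Real.pi * a) -
      (2 - 2 * Real.cos (2 * Real.pi * (b + round (a - b)))) =
      2 * (Real.cos (2 * Real.pi * (b + round (a - b))) - Real.cos (2 * Real.pi * a)) := by ring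
  rw [h5, abs_mul, abs_of_pos (by norm_num : (0 : ℝ) < 2)]
  nlinarith

variable {d L : ℕ} [NeZero L]

/-- Every point of the circle is close to a grid point. -/
theorem near (x : UnitAddCircle) : ∃ j : ZMod L,
    x ∈ Metric.closedBall (ZMod.toAddCircle j) (1 / (2 * (L : ℝ))) := by
  have hL : (0 : ℝ) < L := by exact_mod_cast Nat.pos_of_ne_zero (NeZero.ne L)
  induction x using QuotientAddGroup.induction_on with
  | H a =>
  refine ⟨((round (a * L) : ℤ) : ZMod L), ?_⟩
  rw [Metric.mem_closedBall, ZMod.toAddCircle_intCast]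
  change dist ((a : ℝ) : UnitAddCircle) ((((round (a * L) : ℤ) : ℝ) / (L : ℝ) : ℝ) : UnitAddCircle) ≤ _
  rw [dist_eq_norm]
  have h1 : ((a : ℝ) : UnitAddCircle) - ((((round (a * L) : ℤ) : ℝ) / (L : ℝ) : ℝ) : UnitAddCircle)
      = ((a - ((round (a * L) : ℤ) : ℝ) / L : ℝ) : UnitAddCircle) := by norm_cast
  rw [h1]
  rw [UnitAddCircle.norm_eq]
  refine (round_le _ 0).trans ?_
  rw [Int.cast_zero, sub_zero]
  have h2 : a - ((round (a * L) : ℤ) : ℝ) / L = (a * L - round (a * L)) / L := by
    field_simp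
  rw [h2, abs_div, abs_of_pos hL]
  have h3 := abs_sub_round (a * L)
  rw [div_le_div_iff₀ hL (by positivity)]
  nlinarith

theorem g_grid (j : ZMod L) : g (ZMod.toAddCircle j) = 2 - 2 * (ZMod.stdAddChar j : ℂ).re := by
  unfold g
  rw [fourier_one, ZMod.stdAddChar_apply]
  congr 3

theorem lap_eq (k : UnitAddTorus (Fin d)) : lap d k = ∑ i, g (k i) := rfl

theorem adj_eq (j : T d L) : 2 * d - adj j = ∑ i, g (ZMod.toAddCircle (j i)) := by
  simp only [g_grid, adj]
  rw [Finset.sum_sub_distrib]
  simp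
  ring

theorem main (hD : S_D3L) : S_CNTL := by
  intro d a₁ a₂ hd h1 h2
  obtain ⟨c, hc, hD⟩ := hD d a₁ a₂ hd h1 h2
  have hpi := Real.pi_pos
  have hd' : (0 : ℝ) < d := by exact_mod_cast hd
  refine ⟨c / 2, 4 * Real.pi * d, by positivity, by positivity, ?_⟩
  intro L _ E t hE1 hE2 ht ht1
  have hL : (0 : ℝ) < L := by exact_mod_cast Nat.pos_of_ne_zero (NeZero.ne L)
  have ht0 : 0 < t := lt_of_lt_of_le (by positivity) ht
  have hv := hD E (t / 2) hE1 hE2 (by positivity) (by linarith)
  set F : Finset (T d L) := Finset.univ.filter fun k : T d L => |2 * d - adj k - E| ≤ t with hF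
  have hsub : {k : UnitAddTorus (Fin d) | |lap d k - E| ≤ t / 2} ⊆
      ⋃ j ∈ F, Set.pi Set.univ fun i : Fin d =>
        Metric.closedBall (ZMod.toAddCircle (j i)) (1 / (2 * (L : ℝ))) := by
    intro k hk
    choose j hj using fun i => near (L := L) (k i)
    simp only [Set.mem_iUnion]
    refine ⟨j, ?_, fun i _ => hj i⟩
    rw [hF, Finset.mem_filter]
    refine ⟨Finset.mem_univ _, ?_⟩
    have h3 : |(∑ i, g (ZMod.toAddCircle (j i))) - ∑ i, g (k i)| ≤ t / 2 := by
      rw [← Finset.sum_sub_distrib]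
      refine (Finset.abs_sum_le_sum_abs _ _).trans ?_
      have h4 : ∀ i ∈ (Finset.univ : Finset (Fin d)),
          |g (ZMod.toAddCircle (j i)) - g (k i)| ≤ 2 * Real.pi / L := by
        intro i _
        refine (g_lip _ _).trans ?_
        have h5 := hj i
        rw [Metric.mem_closedBall, dist_comm] at h5
        calc 4 * Real.pi * dist (ZMod.toAddCircle (j i)) (k i)
            ≤ 4 * Real.pi * (1 / (2 * (L : ℝ))) := by gcongr
          _ = 2 * Real.pi / L := by field_simp; ring
      refine (Finset.sum_le_sum h4).trans ?_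
      rw [Finset.sum_const, Finset.card_univ, Fintype.card_fin, nsmul_eq_mul]
      have h6 : 4 * Real.pi * d ≤ t * L := by rwa [div_le_iff₀ hL] at ht
      rw [← mul_div_assoc, div_le_iff₀ hL]
      nlinarith
    have h7 : |lap d k - E| ≤ t / 2 := hk
    rw [lap_eq] at h7
    rw [adj_eq]
    have h8 : (∑ i, g (ZMod.toAddCircle (j i))) - E
        = ((∑ i, g (ZMod.toAddCircle (j i))) - ∑ i, g (k i)) + ((∑ i, g (k i)) - E) := by ring
    rw [h8]
    refine (abs_add_le _ _).trans ?_
    linarith
  have hvol : volume {k : UnitAddTorus (Fin d) | |lap d k - E| ≤ t / 2}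
      ≤ (F.card : ℝ≥0∞) * ENNReal.ofReal (1 / L) ^ d := by
    refine (measure_mono hsub).trans ((measure_biUnion_finset_le _ _).trans ?_)
    have h9 : ∀ j ∈ F, volume (Set.pi Set.univ fun i : Fin d =>
        Metric.closedBall (ZMod.toAddCircle (j i)) (1 / (2 * (L : ℝ))))
        ≤ ENNReal.ofReal (1 / L) ^ d := by
      intro j _
      rw [volume_pi_pi]
      have h10 : ∀ i : Fin d, volume (Metric.closedBall (ZMod.toAddCircle (j i))
          (1 / (2 * (L : ℝ)))) ≤ ENNReal.ofReal (1 / L) := by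
        intro i
        rw [AddCircle.volume_closedBall]
        refine ENNReal.ofReal_le_ofReal ((min_le_right _ _).trans (le_of_eq ?_))
        field_simp
      refine (Finset.prod_le_prod' fun i _ => h10 i).trans (le_of_eq ?_)
      rw [Finset.prod_const, Finset.card_univ, Fintype.card_fin]
    refine (Finset.sum_le_sum h9).trans (le_of_eq ?_)
    rw [Finset.sum_const, nsmul_eq_mul]
  have hreal : dos d E (t / 2) ≤ F.card * (1 / (L : ℝ)) ^ d := by
    unfold dos
    have h11 := ENNReal.toReal_mono (ENNReal.mul_ne_top (ENNReal.natCast_ne_top _)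
      (ENNReal.pow_ne_top ENNReal.ofReal_ne_top)) hvol
    refine h11.trans (le_of_eq ?_)
    rw [ENNReal.toReal_mul, ENNReal.toReal_natCast, ENNReal.toReal_pow,
      ENNReal.toReal_ofReal (by positivity)]
  have h12 : c * (t / 2) ≤ F.card * (1 / (L : ℝ)) ^ d := hv.trans hreal
  have h13 : c * (t / 2) * (L : ℝ) ^ d ≤ F.card := by
    have h14 : (F.card : ℝ) * (1 / (L : ℝ)) ^ d * (L : ℝ) ^ d = F.card := by
      rw [mul_assoc, ← mul_pow, one_div_mul_cancel hL.ne', one_pow, mul_one]
    calc c * (t / 2) * (L : ℝ) ^ d ≤ (F.card * (1 / (L : ℝ)) ^ d) * (L : ℝ) ^ d := by gcongr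
      _ = F.card := h14
  unfold NN
  linarith

end

end Pool.Agent.Run7.h308.BAN
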