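import Pool.Agent.Run7.h442.BA.Stm
import Pool.Agent.W792.LL.Dia

/-!
Project BA, piece X2: the effective phase commutes with shifts of the momentum.
-/

set_option autoImplicit false

namespace Pool.Agent.Run7.h308.BAX2

open MeasureTheory Filter Pool.Agent.W792.LL Pool.Agent.W792.WA Pool.Agent.N659.HB
open Pool.Agent.Run7.h442.BA
open scoped Topology ComplexConjugate

noncomputable section

local instance : MeasureSpace UnitAddCircle := ⟨AddCircle.haarAddCircle⟩

local instance : Measure.IsAddHaarMeasure (volume : Measure UnitAddCircle) :=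
  inferInstanceAs (Measure.IsAddHaarMeasure AddCircle.haarAddCircle)

local instance : IsProbabilityMeasure (volume : Measure UnitAddCircle) :=
  inferInstanceAs (IsProbabilityMeasure AddCircle.haarAddCircle)

variable {d : ℕ}

/-- The shift as an element of the torus. -/
def hh (h : Fin d → ℝ) : UnitAddTorus (Fin d) := fun i => ((h i : ℝ) : UnitAddCircle)

theorem sft_eq (h : Fin d → ℝ) (k : UnitAddTorus (Fin d)) : sft h k = k + hh h := rfl

theorem mF_add (n : Fin d → ℤ) (x y : UnitAddTorus (Fin d)) :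
    UnitAddTorus.mFourier n (x + y) = UnitAddTorus.mFourier n x * UnitAddTorus.mFourier n y := by
  simp only [UnitAddTorus.mFourier, ContinuousMap.coe_mk, Pi.add_apply, ← Finset.prod_mul_distrib]
  refine Finset.prod_congr rfl fun i _ => ?_
  simp only [fourier_apply, smul_add, AddCircle.toCircle_add, Circle.coe_mul]

/-- The phase at a site. -/
def ph (h : Fin d → ℝ) (x : Fin d → ℤ) : ℂ := UnitAddTorus.mFourier x (hh h)

theorem ph_norm (h : Fin d → ℝ) (x : Fin d → ℤ) : ‖ph h x‖ = 1 := by
  simp only [ph, UnitAddTorus.mFourier, ContinuousMap.coe_mk, norm_prod, fourier_apply,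
    Circle.norm_coe, Finset.prod_const_one]

theorem ph_mul_conj (h : Fin d → ℝ) (x : Fin d → ℤ) : ph h x * conj (ph h x) = 1 := by
  rw [Complex.mul_conj, Complex.normSq_eq_norm_sq, ph_norm]; simp

theorem ph_sub (h : Fin d → ℝ) (x y : Fin d → ℤ) : ph h (x - y) = ph h x * conj (ph h y) := by
  rw [sub_eq_add_neg, ph, UnitAddTorus.mFourier_add, UnitAddTorus.mFourier_neg]; rfl

theorem coeff_shift (m m' : C(UnitAddTorus (Fin d), ℂ)) (h : Fin d → ℝ)
    (hm : ∀ k, m' k = m (sft h k)) (x : Fin d → ℤ) :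
    UnitAddTorus.mFourierCoeff m' x = ph h x * UnitAddTorus.mFourierCoeff m x := by
  unfold UnitAddTorus.mFourierCoeff
  have h1 : ∀ t : UnitAddTorus (Fin d), UnitAddTorus.mFourier (-x) t • m' t
      = ph h x * (UnitAddTorus.mFourier (-x) (t + hh h) • m (t + hh h)) := by
    intro t
    rw [hm, sft_eq, mF_add, smul_eq_mul, smul_eq_mul]
    have h2 : ph h x * UnitAddTorus.mFourier (-x) (hh h) = 1 := by
      rw [UnitAddTorus.mFourier_neg]; exact ph_mul_conj h x
    linear_combination (-(UnitAddTorus.mFourier (-x) t * m (t + hh h))) * h2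
  simp only [h1]
  rw [integral_const_mul]
  congr 1
  exact integral_add_right_eq_self
    (μ := (volume : Measure (UnitAddTorus (Fin d))))
    (fun t => UnitAddTorus.mFourier (-x) t • m t) (hh h)

theorem clm_ext {T T' : l2 (Fin d → ℤ) →L[ℂ] l2 (Fin d → ℤ)}
    (h : ∀ y x, T (dl y) x = T' (dl y) x) : T = T' := by
  ext1 u
  have hs := lp.hasSum_single (p := 2) (by norm_num) u
  have h1 := hs.mapL T
  have h2 := hs.mapL T'
  have h3 : ∀ y, T (lp.single 2 y (u y)) = T' (lp.single 2 y (u y)) := by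
    intro y
    have h4 : (lp.single 2 y (u y) : l2 (Fin d → ℤ)) = u y • dl y := by
      rw [dl, ← lp.single_smul, smul_eq_mul, mul_one]
    have h5 : T (dl y) = T' (dl y) := by
      ext x; exact h y x
    rw [h4, map_smul, map_smul, h5]
  simp only [h3] at h1
  exact h1.unique h2

theorem coeff_sub (a b : C(UnitAddTorus (Fin d), ℂ)) (x : Fin d → ℤ) :
    UnitAddTorus.mFourierCoeff (a - b : C(UnitAddTorus (Fin d), ℂ)) x
      = UnitAddTorus.mFourierCoeff a x - UnitAddTorus.mFourierCoeff b x := by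
  unfold UnitAddTorus.mFourierCoeff
  rw [← integral_sub]
  · refine integral_congr_ae (Filter.Eventually.of_forall fun t => ?_)
    simp only [ContinuousMap.sub_apply, smul_eq_mul, mul_sub]
  · have hc : Continuous fun t : UnitAddTorus (Fin d) => UnitAddTorus.mFourier (-x) t • a t :=
      (UnitAddTorus.mFourier (-x)).continuous.smul a.continuous
    exact hc.integrable_of_hasCompactSupport (HasCompactSupport.of_compactSpace _)
  · have hc : Continuous fun t : UnitAddTorus (Fin d) => UnitAddTorus.mFourier (-x) t • b t :=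
      (UnitAddTorus.mFourier (-x)).continuous.smul b.continuous
    exact hc.integrable_of_hasCompactSupport (HasCompactSupport.of_compactSpace _)

theorem opr_inj (hS : S_SYMB) {a b : C(UnitAddTorus (Fin d), ℂ)} (h : opr a = opr b) : a = b := by
  have h1 : ∀ x, UnitAddTorus.mFourierCoeff a x = UnitAddTorus.mFourierCoeff b x := by
    intro x
    have ha := (hS d).2.2.2.2 a x 0
    have hb := (hS d).2.2.2.2 b x 0
    rw [sub_zero] at ha hb
    rw [← ha, ← hb, h]
  have h2 : opr (a - b) = 0 := by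
    refine clm_ext fun y x => ?_
    rw [(hS d).2.2.2.2, coeff_sub, h1, sub_self]; rfl
  have h3 := (hS d).2.1 (a - b)
  rw [h2, norm_zero] at h3
  exact sub_eq_zero.1 (norm_eq_zero.1 h3.symm)

theorem dia_apply (c : (Fin d → ℤ) → ℂ) (hc : ∀ x, ‖c x‖ ≤ 1) (u : l2 (Fin d → ℤ))
    (x : Fin d → ℤ) : dia c u x = c x * u x := (DiaP.main _ c hc).1 u x

theorem cay_norm (v : ℝ) : ‖cay v‖ ≤ 1 := by
  unfold cay
  rw [norm_div]
  have h1 : ‖(v : ℂ) + Complex.I‖ = ‖(v : ℂ) - Complex.I‖ := by
    have : (v : ℂ) + Complex.I = conj ((v : ℂ) - Complex.I) := by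
      simp
    rw [this, Complex.norm_conj]
  rw [h1]
  exact div_self_le_one _

/-- The diagonal unitary. -/
def DD (h : Fin d → ℝ) : l2 (Fin d → ℤ) →L[ℂ] l2 (Fin d → ℤ) := dia (ph h)

/-- Its inverse. -/
def DI (h : Fin d → ℝ) : l2 (Fin d → ℤ) →L[ℂ] l2 (Fin d → ℤ) := dia fun x => conj (ph h x)

theorem DD_apply (h : Fin d → ℝ) (u : l2 (Fin d → ℤ)) (x : Fin d → ℤ) :
    DD h u x = ph h x * u x := dia_apply _ (fun x => (ph_norm h x).le) u x

theorem DI_apply (h : Fin d → ℝ) (u : l2 (Fin d → ℤ)) (x : Fin d → ℤ) :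
    DI h u x = conj (ph h x) * u x :=
  dia_apply _ (fun x => by rw [Complex.norm_conj]; exact (ph_norm h x).le) u x

theorem dc_apply (v : (Fin d → ℤ) → ℝ) (u : l2 (Fin d → ℤ)) (x : Fin d → ℤ) :
    dc v u x = cay (v x) * u x := dia_apply _ (fun _ => cay_norm _) u x

theorem DD_DI (h : Fin d → ℝ) : DD h * DI h = 1 := by
  ext u x
  change DD h (DI h u) x = u x
  rw [DD_apply, DI_apply, ← mul_assoc, ph_mul_conj, one_mul]

theorem DI_DD (h : Fin d → ℝ) : DI h * DD h = 1 := by
  ext u x
  change DI h (DD h u) x = u x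
  rw [DI_apply, DD_apply, ← mul_assoc, mul_comm (conj _), ph_mul_conj, one_mul]

theorem dc_DI (h : Fin d → ℝ) (v : (Fin d → ℤ) → ℝ) : DI h * dc v = dc v * DI h := by
  ext u x
  change DI h (dc v u) x = dc v (DI h u) x
  rw [DI_apply, dc_apply, dc_apply, DI_apply]; ring

theorem DI_dl (h : Fin d → ℝ) (y : Fin d → ℤ) : DI h (dl y) = conj (ph h y) • dl y := by
  classical
  ext x
  rw [DI_apply, lp.coeFn_smul, Pi.smul_apply, smul_eq_mul]
  by_cases hxy : x = y
  · rw [hxy]
  · have : (dl y : l2 (Fin d → ℤ)) x = 0 := by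
      unfold dl
      exact lp.single_apply_ne (E := fun _ : Fin d → ℤ => ℂ) 2 y (1 : ℂ) hxy
    rw [this]; ring

theorem opr_shift (hS : S_SYMB) (m m' : C(UnitAddTorus (Fin d), ℂ)) (h : Fin d → ℝ)
    (hm : ∀ k, m' k = m (sft h k)) : opr m' = DD h * opr m * DI h := by
  refine clm_ext fun y x => ?_
  change _ = DD h (opr m (DI h (dl y))) x
  rw [(hS d).2.2.2.2, coeff_shift m m' h hm, DD_apply, DI_dl, map_smul, lp.coeFn_smul,
    Pi.smul_apply, smul_eq_mul, (hS d).2.2.2.2, ph_sub]
  ring

theorem norm_shift (m m' : C(UnitAddTorus (Fin d), ℂ)) (h : Fin d → ℝ)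
    (hm : ∀ k, m' k = m (sft h k)) : ‖m'‖ ≤ ‖m‖ :=
  (ContinuousMap.norm_le _ (norm_nonneg _)).2 fun k => by rw [hm]; exact m.norm_coe_le_norm _

theorem sft_cont (h : Fin d → ℝ) : Continuous (sft h) := by
  have : sft h = fun k => k + hh h := rfl
  rw [this]
  fun_prop

theorem csym_shift (hS : S_SYMB) (hC : S_CSYM) (ν : Measure ℝ) [IsProbabilityMeasure ν]
    (m m' : C(UnitAddTorus (Fin d), ℂ)) (h : Fin d → ℝ) (h1 : ‖m‖ < 1)
    (hm : ∀ k, m' k = m (sft h k)) (k : UnitAddTorus (Fin d)) :
    csym ν m' k = csym ν m (sft h k) := by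
  have h1' : ‖m'‖ < 1 := (norm_shift m m' h hm).trans_lt h1
  have hr : ∀ v, rsv m' v = DD h * rsv m v * DI h := by
    intro v
    have ha := ((hC ν d m h1).1 v).2.1
    have hb := ((hC ν d m' h1').1 v).2.2
    have hA : (1 - opr m' * dc v) * (DD h * rsv m v * DI h) = 1 := by
      rw [opr_shift hS m m' h hm]
      have e1 : (1 - DD h * opr m * DI h * dc v) * (DD h * rsv m v * DI h)
          = DD h * rsv m v * DI h - DD h * opr m * (DI h * dc v) * DD h * rsv m v * DI h := by
        noncomm_ring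
      have e2 : DD h * opr m * (DI h * dc v) * DD h * rsv m v * DI h
          = DD h * opr m * dc v * (DI h * DD h) * rsv m v * DI h := by
        rw [dc_DI]; noncomm_ring
      have e3 : DD h * rsv m v * DI h - DD h * opr m * dc v * 1 * rsv m v * DI h
          = DD h * ((1 - opr m * dc v) * rsv m v) * DI h := by
        noncomm_ring
      rw [e1, e2, DI_DD, e3, ha, mul_one, DD_DI]
    calc rsv m' v = rsv m' v * ((1 - opr m' * dc v) * (DD h * rsv m v * DI h)) := by
          rw [hA, mul_one]
      _ = (rsv m' v * (1 - opr m' * dc v)) * (DD h * rsv m v * DI h) :=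
          (mul_assoc (rsv m' v) (1 - opr m' * dc v) (DD h * rsv m v * DI h)).symm
      _ = DD h * rsv m v * DI h := by rw [hb, one_mul]
  let c' : C(UnitAddTorus (Fin d), ℂ) := ⟨fun k => csym ν m (sft h k),
    (csym ν m).continuous.comp (sft_cont h)⟩
  have h2 : opr (csym ν m') = opr c' := by
    rw [opr_shift hS (csym ν m) c' h (fun _ => rfl)]
    ext u x
    rw [← ((hC ν d m' h1').2.1 u x).2.2.1]
    change _ = DD h (opr (csym ν m) (DI h u)) x
    rw [DD_apply, ← ((hC ν d m h1).2.1 (DI h u) x).2.2.1, ← integral_const_mul]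
    refine integral_congr_ae (Filter.Eventually.of_forall fun v => ?_)
    beta_reduce
    rw [hr v]
    change dc v (DD h (rsv m v (DI h u))) x = _
    rw [dc_apply, DD_apply, dc_apply]; ring
  have h3 := opr_inj hS h2
  rw [h3]
  rfl

theorem sft_neg (h : Fin d → ℝ) (k : UnitAddTorus (Fin d)) :
    sft h (sft (fun i => -h i) k) = k := by
  ext i
  simp only [sft]
  rw [AddCircle.coe_neg, neg_add_cancel_right]

/-- The effective phase commutes with shifts of the momentum. -/
theorem main (hS : S_SYMB) (hC : S_CSYM) : Pool.Agent.Run7.h442.BA.S_SHF := by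
  intro ν _ d m m' h h1 hm k
  have hc := csym_shift hS hC ν m m' h h1 hm
  unfold psi toC
  have hf : (fun k => csym ν m' k / (1 + m' k * csym ν m' k))
      = fun k => (fun k => csym ν m k / (1 + m k * csym ν m k)) (sft h k) := by
    funext k
    simp only [hc, hm]
  by_cases hcon : Continuous fun k => csym ν m k / (1 + m k * csym ν m k)
  · have hcon' : Continuous fun k => csym ν m' k / (1 + m' k * csym ν m' k) := by
      rw [hf]
      exact hcon.comp (sft_cont h)
    rw [dif_pos hcon, dif_pos hcon']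
    simp only [ContinuousMap.coe_mk, hc, hm]
  · have hcon' : ¬ Continuous fun k => csym ν m' k / (1 + m' k * csym ν m' k) := by
      intro hc'
      apply hcon
      rw [hf] at hc'
      have h4 := hc'.comp (sft_cont fun i => -h i)
      have h5 : ((fun k => (fun k => csym ν m k / (1 + m k * csym ν m k)) (sft h k))
          ∘ sft fun i => -h i) = fun k => csym ν m k / (1 + m k * csym ν m k) := by
        funext k
        simp only [Function.comp_apply, sft_neg]
      rw [h5] at h4
      exact h4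
    rw [dif_neg hcon, dif_neg hcon']
    rfl

end

end Pool.Agent.Run7.h308.BAX2
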