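import Pool.Agent.Run7.h442.BA.Stm

/-!
Project BA, piece X3: invariance of the hyperbolic Lipschitz condition.
-/

set_option autoImplicit false

namespace Pool.Agent.Run7.h308.BAX3

open MeasureTheory Filter Pool.Agent.W792.LL Pool.Agent.W792.WA Pool.Agent.N659.HB
open Pool.Agent.Run7.h442.BA
open scoped Topology ComplexConjugate

noncomputable section

/-! ## The hyperbolic triangle inequality -/

theorem up_eq {a b : ℂ} (A B : UpperHalfPlane) (hA : (A : ℂ) = conj a) (hB : (B : ℂ) = conj b)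
    {s : ℝ} (hs : 0 ≤ s) (h : ‖a - b‖ ^ 2 ≤ 4 * s ^ 2 * (a.im * b.im)) :
    Real.sinh (dist A B / 2) ≤ s := by
  have hA' : A.im = -a.im := by rw [← UpperHalfPlane.coe_im, hA, Complex.conj_im]
  have hB' : B.im = -b.im := by rw [← UpperHalfPlane.coe_im, hB, Complex.conj_im]
  have hp : 0 < A.im * B.im := mul_pos A.im_pos B.im_pos
  rw [UpperHalfPlane.sinh_half_dist, div_le_iff₀ (by positivity)]
  have h1 : dist (A : ℂ) (B : ℂ) = ‖a - b‖ := by
    rw [hA, hB, dist_eq_norm, ← map_sub, Complex.norm_conj]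
  rw [h1]
  refine abs_le_of_sq_le_sq' ?_ (by positivity) |>.2
  rw [mul_pow, mul_pow, Real.sq_sqrt hp.le, hA', hB']
  linarith

theorem tri {a b c : ℂ} (ha : a.im < 0) (hb : b.im < 0) (hc : c.im < 0) {s1 s2 : ℝ} (h1 : 0 ≤ s1)
    (h2 : 0 ≤ s2) (hab : ‖a - b‖ ^ 2 ≤ 4 * s1 ^ 2 * (a.im * b.im))
    (hbc : ‖b - c‖ ^ 2 ≤ 4 * s2 ^ 2 * (b.im * c.im)) :
    ‖a - c‖ ^ 2 ≤ 4 * (s1 * Real.sqrt (1 + s2 ^ 2) + s2 * Real.sqrt (1 + s1 ^ 2)) ^ 2
      * (a.im * c.im) := by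
  obtain ⟨A, hA⟩ : ∃ A : UpperHalfPlane, (A : ℂ) = conj a :=
    ⟨⟨conj a, by rw [Complex.conj_im]; linarith⟩, rfl⟩
  obtain ⟨B, hB⟩ : ∃ B : UpperHalfPlane, (B : ℂ) = conj b :=
    ⟨⟨conj b, by rw [Complex.conj_im]; linarith⟩, rfl⟩
  obtain ⟨C, hC⟩ : ∃ C : UpperHalfPlane, (C : ℂ) = conj c :=
    ⟨⟨conj c, by rw [Complex.conj_im]; linarith⟩, rfl⟩
  have e1 := up_eq A B hA hB h1 hab
  have e2 := up_eq B C hB hC h2 hbc
  have p1 : 0 ≤ Real.sinh (dist A B / 2) := Real.sinh_nonneg_iff.2 (by positivity)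
  have p2 : 0 ≤ Real.sinh (dist B C / 2) := Real.sinh_nonneg_iff.2 (by positivity)
  have c1 : Real.cosh (dist A B / 2) ≤ Real.sqrt (1 + s1 ^ 2) := by
    refine Real.le_sqrt_of_sq_le ?_
    rw [Real.cosh_sq']
    gcongr
  have c2 : Real.cosh (dist B C / 2) ≤ Real.sqrt (1 + s2 ^ 2) := by
    refine Real.le_sqrt_of_sq_le ?_
    rw [Real.cosh_sq']
    gcongr
  have h3 : Real.sinh (dist A C / 2)
      ≤ s1 * Real.sqrt (1 + s2 ^ 2) + s2 * Real.sqrt (1 + s1 ^ 2) := by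
    have h4 : dist A C / 2 ≤ dist A B / 2 + dist B C / 2 := by
      have := dist_triangle A B C; linarith
    refine (Real.sinh_le_sinh.2 h4).trans ?_
    rw [Real.sinh_add]
    have q1 := Real.cosh_pos (dist A B / 2)
    have q2 := Real.cosh_pos (dist B C / 2)
    have g1 : Real.sinh (dist A B / 2) * Real.cosh (dist B C / 2) ≤ s1 * Real.sqrt (1 + s2 ^ 2) := by
      gcongr
    have g2 : Real.cosh (dist A B / 2) * Real.sinh (dist B C / 2)
        ≤ Real.sqrt (1 + s1 ^ 2) * s2 := by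
      gcongr
    linarith
  have hA' : A.im = -a.im := by rw [← UpperHalfPlane.coe_im, hA, Complex.conj_im]
  have hC' : C.im = -c.im := by rw [← UpperHalfPlane.coe_im, hC, Complex.conj_im]
  have hp : 0 < A.im * C.im := mul_pos A.im_pos C.im_pos
  rw [UpperHalfPlane.sinh_half_dist, div_le_iff₀ (by positivity)] at h3
  have h5 : dist (A : ℂ) (C : ℂ) = ‖a - c‖ := by
    rw [hA, hC, dist_eq_norm, ← map_sub, Complex.norm_conj]
  rw [h5] at h3
  have h6 := pow_le_pow_left₀ (norm_nonneg _) h3 2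
  refine h6.trans (le_of_eq ?_)
  rw [mul_pow, mul_pow, Real.sq_sqrt hp.le, hA', hC']
  ring

/-! ## The Cayley transform -/

theorem cay_ne {X : ℂ} (hX : X.im ≤ 0) : X - Complex.I ≠ 0 := by
  intro h
  have : (X - Complex.I).im = 0 := by rw [h]; rfl
  rw [Complex.sub_im, Complex.I_im] at this
  linarith

theorem cayx_zero (X : ℂ) : cayx X 0 = (X + Complex.I) / (X - Complex.I) := by
  unfold cayx
  simp

theorem one_sub (X : ℂ) (hX : X.im ≤ 0) :
    1 - ‖cayx X 0‖ ^ 2 = -4 * X.im / ‖X - Complex.I‖ ^ 2 := by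
  have h0 : ‖X - Complex.I‖ ^ 2 ≠ 0 := by
    have := norm_pos_iff.2 (cay_ne hX)
    positivity
  rw [cayx_zero, norm_div, div_pow, eq_div_iff h0, sub_mul, one_mul, div_mul_cancel₀ _ h0]
  rw [← Complex.normSq_eq_norm_sq, ← Complex.normSq_eq_norm_sq, Complex.normSq_apply,
    Complex.normSq_apply]
  simp only [Complex.sub_re, Complex.sub_im, Complex.add_re, Complex.add_im, Complex.I_re,
    Complex.I_im]
  ring

theorem cay_lt {X : ℂ} (hX : X.im < 0) : ‖cayx X 0‖ < 1 := by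
  have h := one_sub X hX.le
  have h1 := norm_pos_iff.2 (cay_ne hX.le)
  have h2 : 0 < -4 * X.im / ‖X - Complex.I‖ ^ 2 := by
    apply div_pos
    · linarith
    · positivity
  have h3 : ‖cayx X 0‖ ^ 2 < 1 := by linarith
  exact (sq_lt_one_iff₀ (norm_nonneg _)).1 h3

theorem sub_sq {X Y : ℂ} (hX : X.im ≤ 0) (hY : Y.im ≤ 0) :
    ‖cayx X 0 - cayx Y 0‖ ^ 2
      = 4 * ‖X - Y‖ ^ 2 / (‖X - Complex.I‖ ^ 2 * ‖Y - Complex.I‖ ^ 2) := by
  have h1 := cay_ne hX
  have h2 := cay_ne hY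
  have h3 : cayx X 0 - cayx Y 0
      = (-2 * Complex.I) * (X - Y) / ((X - Complex.I) * (Y - Complex.I)) := by
    rw [cayx_zero, cayx_zero]
    field_simp
    ring
  rw [h3, norm_div, norm_mul, norm_mul, norm_mul, norm_neg, Complex.norm_I, div_pow]
  simp only [mul_pow]
  norm_num

/-- The pseudohyperbolic inequality in the two models. -/
theorem transfer {X Y : ℂ} (hX : X.im < 0) (hY : Y.im < 0) (t : ℝ) :
    ‖cayx X 0 - cayx Y 0‖ ^ 2 ≤ t ^ 2 * ((1 - ‖cayx X 0‖ ^ 2) * (1 - ‖cayx Y 0‖ ^ 2)) ↔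
      ‖X - Y‖ ^ 2 ≤ 4 * t ^ 2 * (X.im * Y.im) := by
  have h1 := norm_pos_iff.2 (cay_ne hX.le)
  have h2 := norm_pos_iff.2 (cay_ne hY.le)
  rw [sub_sq hX.le hY.le, one_sub X hX.le, one_sub Y hY.le]
  have h3 : t ^ 2 * (-4 * X.im / ‖X - Complex.I‖ ^ 2 * (-4 * Y.im / ‖Y - Complex.I‖ ^ 2))
      = (16 * t ^ 2 * (X.im * Y.im)) / (‖X - Complex.I‖ ^ 2 * ‖Y - Complex.I‖ ^ 2) := by
    field_simp
    ring
  rw [h3, div_le_div_iff_of_pos_right (by positivity)]
  constructor <;> intro h <;> linarith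

/-! ## Numbers -/

theorem sqrt_le (s : ℝ) : Real.sqrt (1 + s ^ 2) ≤ 1 + s ^ 2 / 2 := by
  refine Real.sqrt_le_iff.2 ⟨by positivity, ?_⟩
  nlinarith [sq_nonneg (s ^ 2)]

theorem numbers {g t s1 s2 : ℝ} (hg : 0 < g) (hg1 : g ≤ 1) (ht : 0 ≤ t) (htg : t ≤ g / 8)
    (h1 : s1 = Real.sqrt (1 - g) * t) (h2 : s2 = g / 8 * t) :
    s1 * Real.sqrt (1 + s2 ^ 2) + s2 * Real.sqrt (1 + s1 ^ 2) ≤ t := by
  have e1 : Real.sqrt (1 - g) ≤ 1 - g / 2 := by
    refine Real.sqrt_le_iff.2 ⟨by linarith, ?_⟩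
    nlinarith [sq_nonneg g]
  have e0 : 0 ≤ Real.sqrt (1 - g) := Real.sqrt_nonneg _
  have f1 : s1 ≤ (1 - g / 2) * t := by rw [h1]; gcongr
  have f0 : 0 ≤ s1 := by rw [h1]; positivity
  have f2 : 0 ≤ s2 := by rw [h2]; positivity
  have t1 : t ≤ 1 / 8 := by linarith
  have f3 : s2 ^ 2 ≤ g / 64 := by
    rw [h2]
    have : (g / 8 * t) ^ 2 = g * (g * t ^ 2) / 64 := by ring
    rw [this]
    have h3 : g * t ^ 2 ≤ 1 := by nlinarith
    nlinarith
  have f4 : s1 ^ 2 ≤ 1 := by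
    have : s1 ≤ 1 := by nlinarith
    nlinarith
  have g1 : s1 * Real.sqrt (1 + s2 ^ 2) ≤ (1 - g / 2) * t * (1 + g / 128) := by
    refine mul_le_mul f1 ((sqrt_le s2).trans (by linarith)) (Real.sqrt_nonneg _) ?_
    have : 0 ≤ 1 - g / 2 := by linarith
    positivity
  have g2 : s2 * Real.sqrt (1 + s1 ^ 2) ≤ g / 8 * t * (3 / 2) := by
    rw [← h2]
    exact mul_le_mul_of_nonneg_left ((sqrt_le s1).trans (by linarith)) f2
  have g3 : (1 - g / 2) * t * (1 + g / 128) + g / 8 * t * (3 / 2) ≤ t := by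
    have : (1 - g / 2) * t * (1 + g / 128) + g / 8 * t * (3 / 2)
        = t * (1 - g * (1 / 2 - 1 / 128 - 3 / 16) - g ^ 2 / 256) := by ring
    rw [this]
    have h4 : 1 - g * (1 / 2 - 1 / 128 - 3 / 16) - g ^ 2 / 256 ≤ 1 := by nlinarith [sq_nonneg g]
    calc t * (1 - g * (1 / 2 - 1 / 128 - 3 / 16) - g ^ 2 / 256) ≤ t * 1 := by gcongr
      _ = t := mul_one t
  linarith

/-! ## Measures -/

theorem lev_prob (ψ : C(UnitAddCircle, ℝ)) (l : ℝ) : IsProbabilityMeasure (lev ψ l) := by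
  have h : IsProbabilityMeasure (volume.restrict (Set.Ioc (0 : ℝ) 1)) := ⟨by simp⟩
  unfold lev
  refine Measure.isProbabilityMeasure_map ?_
  have : Continuous fun φ : ℝ => l * ψ (φ : UnitAddCircle) :=
    continuous_const.mul (ψ.continuous.comp (AddCircle.continuous_mk' (1 : ℝ)))
  exact this.measurable.aemeasurable

theorem lev_supp (ψ : C(UnitAddCircle, ℝ)) (hψ : ∀ t, |ψ t| ≤ 1) {l : ℝ} (hl : 0 < l) :
    lev ψ l (Set.Icc (-l) l)ᶜ = 0 := by
  unfold lev
  have hc : Continuous fun φ : ℝ => l * ψ (φ : UnitAddCircle) :=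
    continuous_const.mul (ψ.continuous.comp (AddCircle.continuous_mk' (1 : ℝ)))
  rw [Measure.map_apply hc.measurable measurableSet_Icc.compl]
  have : (fun φ : ℝ => l * ψ (φ : UnitAddCircle)) ⁻¹' (Set.Icc (-l) l)ᶜ = ∅ := by
    ext φ
    simp only [Set.mem_preimage, Set.mem_compl_iff, Set.mem_Icc, Set.mem_empty_iff_false,
      iff_false, not_not]
    have := abs_le.1 (hψ (φ : UnitAddCircle))
    constructor <;> nlinarith
  rw [this, measure_empty]

theorem conv_supp (μ ν : Measure ℝ) [IsProbabilityMeasure μ] [IsProbabilityMeasure ν] {a b : ℝ}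
    (h1 : μ (Set.Icc (-a) a)ᶜ = 0) (h2 : ν (Set.Icc (-b) b)ᶜ = 0) :
    (μ.conv ν) (Set.Icc (-(a + b)) (a + b))ᶜ = 0 := by
  unfold Measure.conv
  rw [Measure.map_apply measurable_add measurableSet_Icc.compl]
  have hsub : (fun x : ℝ × ℝ => x.1 + x.2) ⁻¹' (Set.Icc (-(a + b)) (a + b))ᶜ
      ⊆ ((Set.Icc (-a) a)ᶜ ×ˢ Set.univ) ∪ (Set.univ ×ˢ (Set.Icc (-b) b)ᶜ) := by
    rintro ⟨x, y⟩ hxy
    by_contra hcon
    simp only [Set.mem_union, Set.mem_prod, Set.mem_compl_iff, Set.mem_univ, and_true, true_and,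
      not_or, not_not, Set.mem_Icc] at hcon
    apply hxy
    simp only [Set.mem_Icc]
    constructor <;> linarith [hcon.1.1, hcon.1.2, hcon.2.1, hcon.2.2]
  refine measure_mono_null hsub (measure_union_null ?_ ?_)
  · rw [Measure.prod_prod, h1, zero_mul]
  · rw [Measure.prod_prod, h2, mul_zero]

theorem mean_le (ρ' : Measure ℝ) [IsProbabilityMeasure ρ'] {b : ℝ}
    (h : ρ' (Set.Icc (-b) b)ᶜ = 0) : ‖((∫ a, a ∂ρ' : ℝ) : ℂ)‖ ≤ b := by
  rw [Complex.norm_real]
  have h1 : ∀ᵐ a ∂ρ', ‖a‖ ≤ b := by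
    have : ∀ᵐ a ∂ρ', a ∈ Set.Icc (-b) b := by
      rw [ae_iff]; exact h
    filter_upwards [this] with a ha
    rw [Real.norm_eq_abs]
    exact abs_le.2 ha
  refine (norm_integral_le_of_norm_le_const h1).trans (le_of_eq ?_)
  simp

/-! ## The family of symbols -/

theorem wz_cont {d : ℕ} (K : C(UnitAddTorus (Fin d), ℝ)) {z : ℂ} (hz : 0 < z.im) :
    Continuous (Function.uncurry (wz K z)) := by
  unfold Function.uncurry wz cayx
  refine Continuous.div (by fun_prop) (by fun_prop) ?_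
  rintro ⟨k, a⟩ h
  have h1 := congrArg Complex.im h
  simp only [Complex.sub_im, Complex.add_im, Complex.ofReal_im, Complex.I_im,
    Complex.zero_im] at h1
  linarith

theorem cayx_le {x : ℂ} (hx : x.im ≤ 0) (a : ℝ) : ‖cayx x a‖ ≤ 1 := by
  unfold cayx
  rw [norm_div]
  refine div_le_one_of_le₀ ?_ (norm_nonneg _)
  refine abs_le_of_sq_le_sq' ?_ (norm_nonneg _) |>.2
  rw [← Complex.normSq_eq_norm_sq, ← Complex.normSq_eq_norm_sq, Complex.normSq_apply,
    Complex.normSq_apply]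
  simp only [Complex.sub_re, Complex.sub_im, Complex.add_re, Complex.add_im, Complex.I_re,
    Complex.I_im, Complex.ofReal_re, Complex.ofReal_im]
  nlinarith

theorem sft_cont {d : ℕ} (h : Fin d → ℝ) : Continuous (sft h) := by
  have : sft h = fun k => k + (fun i => ((h i : ℝ) : UnitAddCircle)) := rfl
  rw [this]
  fun_prop

/-! ## The invariance -/

theorem main (hG : S_GRAM) (hXB : S_XB) (hSH : Pool.Agent.Run7.h442.BA.S_SHF) (hPSI : S_PSI)
    (hUX : S_UX) (hUUC : S_UUC) : S_LIPZ := by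
  obtain ⟨c, hc0, hc1, hG⟩ := hG
  refine ⟨c, hc0, hc1, ?_⟩
  intro ψ hψ ν _ d K r η R D CK ρ' _ hr hη hηR hR hD hCK hρ' hK z hzi hKD S hS s hs hHL
  have hη0 : 0 < η := by linarith
  have hrD : r ≤ D := by linarith
  have hηD : η ≤ D := by linarith
  have hD0 : 0 < D := by linarith
  -- the measure
  have := lev_prob ψ r
  set ρ : Measure ℝ := (lev ψ r).conv ρ' with hρ
  have : IsProbabilityMeasure ρ := by
    rw [hρ]; exact Measure.probabilitymeasure_of_probabilitymeasures_conv _ _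
  have hsupp : ρ (Set.Icc (-(r + r / 8)) (r + r / 8))ᶜ = 0 :=
    conv_supp _ _ (lev_supp ψ hψ.bound hr) hρ'
  -- the numbers
  set g : ℝ := gz c η r D with hg
  have hgpos : 0 < g := by rw [hg]; unfold gz; positivity
  have hg1 : g ≤ 1 := by
    rw [hg]; unfold gz
    have h1 : η * r / D ^ 2 ≤ 1 := by
      rw [div_le_one (by positivity)]
      nlinarith
    have h2 : (η * r / D ^ 2) ^ 6 ≤ 1 := pow_le_one₀ (by positivity) h1
    nlinarith [pow_pos (by positivity : 0 < η * r / D ^ 2) 6]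
  set Λ : ℝ := Lz c η r D CK with hΛ
  have hΛe : Λ = 256 * D ^ 4 * CK / (η ^ 3 * r ^ 2 * g) := rfl
  have hΛpos : 0 < Λ := by rw [hΛe]; positivity
  have hhz : hz c η r D CK = g / (8 * Λ) := rfl
  -- basic bounds
  let x : UnitAddTorus (Fin d) → ℂ := fun k => (K k : ℂ) - z
  have hxim : ∀ k, (x k).im < 0 := by
    intro k
    simp only [x, Complex.sub_im, Complex.ofReal_im]
    linarith
  have hxS : ∀ k p, ‖x k + S p‖ ≤ D := by
    intro k p
    refine (norm_add_le _ _).trans ?_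
    have := hKD k
    linarith [(hS p).1]
  have hXim : ∀ k p, η * r ^ 2 / (16 * D ^ 2) ≤ -(xm ρ (x k) (S p)).im := by
    intro k p
    have h1 := (hXB ψ hψ r η ρ' hr hη hρ' (x k) (S p) (hxim k).le (hS p).2).2.1
    have h2 : 0 < ‖x k + S p‖ := by
      rw [norm_pos_iff]
      intro h3
      have := congrArg Complex.im h3
      rw [Complex.add_im, Complex.zero_im] at this
      linarith [hxim k, (hS p).2]
    have h3 : η * r ^ 2 / (16 * D ^ 2) ≤ η * r ^ 2 / (16 * ‖x k + S p‖ ^ 2) := by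
      gcongr
      exact hxS k p
    linarith [hxim k]
  have hβ : 0 < η * r ^ 2 / (16 * D ^ 2) := by positivity
  have hXneg : ∀ k p, (xm ρ (x k) (S p)).im < 0 := fun k p => by linarith [hXim k p]
  have hXnorm : ∀ k, ‖xm ρ (x k) (S k)‖ ≤ D := by
    intro k
    have h1 := (hXB ψ hψ r η ρ' hr hη hρ' (x k) (S k) (hxim k).le (hS k).2).1
    have h2 := mean_le ρ' hρ'
    have h3 : 50 * r ^ 2 / η ≤ r / 2 := by
      rw [div_le_iff₀ hη0]
      nlinarith
    have h4 := hKD k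
    have h5 : ‖xm ρ (x k) (S k)‖ ≤ ‖xm ρ (x k) (S k) - (x k + ((∫ a, a ∂ρ' : ℝ) : ℂ))‖
        + (‖x k‖ + ‖((∫ a, a ∂ρ' : ℝ) : ℂ)‖) := by
      refine le_trans ?_ (add_le_add_right (norm_add_le _ _) _)
      have := norm_add_le (xm ρ (x k) (S k) - (x k + ((∫ a, a ∂ρ' : ℝ) : ℂ)))
        (x k + ((∫ a, a ∂ρ' : ℝ) : ℂ))
      rwa [sub_add_cancel] at this
    have h6 : ‖x k‖ + R ≤ D := h4
    linarith
  -- the key estimate
  have key : ∀ (h : Fin d → ℝ) (k : UnitAddTorus (Fin d)), n1 h ≤ hz c η r D CK →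
      ‖xm ρ (x (sft h k)) (S (sft h k)) - xm ρ (x k) (S k)‖ ^ 2
        ≤ 4 * (Λ * n1 h) ^ 2 * ((xm ρ (x (sft h k)) (S (sft h k))).im * (xm ρ (x k) (S k)).im) := by
    intro h k hh
    have hn : 0 ≤ n1 h := Finset.sum_nonneg fun i _ => abs_nonneg _
    set t : ℝ := Λ * n1 h with ht
    have ht0 : 0 ≤ t := by positivity
    have htg : t ≤ g / 8 := by
      rw [hhz, le_div_iff₀ (by positivity)] at hh
      rw [ht]; linarith
    set X1 := xm ρ (x (sft h k)) (S (sft h k)) with hX1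
    set Y0 := xm ρ (x (sft h k)) (S k) with hY0
    set X0 := xm ρ (x k) (S k) with hX0
    have i1 : X1.im < 0 := hXneg _ _
    have i2 : Y0.im < 0 := hXneg _ _
    have i3 : X0.im < 0 := hXneg _ _
    have i4 : (S (sft h k)).im < 0 := by linarith [(hS (sft h k)).2]
    have i5 : (S k).im < 0 := by linarith [(hS k).2]
    -- step 1
    have st0 : ‖S (sft h k) - S k‖ ^ 2 ≤ 4 * t ^ 2 * ((S (sft h k)).im * (S k).im) := by
      have h1 := hHL h hh k
      rw [hs, hs] at h1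
      exact (transfer i4 i5 t).1 h1
    have st1 : ‖X1 - Y0‖ ^ 2 ≤ 4 * (Real.sqrt (1 - g) * t) ^ 2 * (X1.im * Y0.im) := by
      have h1 := hG ψ hψ r η D ρ' hr hη0 hrD hηD hρ' (x (sft h k)) (S (sft h k)) (S k)
        (hxim _).le (hS _).2 (hS _).2 (hxS _ _) (hxS _ _)
      have h2 : 0 < (S (sft h k)).im * (S k).im := mul_pos_of_neg_of_neg i4 i5
      have h3 : 0 < X1.im * Y0.im := mul_pos_of_neg_of_neg i1 i2
      have h4 : (1 - g) * ‖S (sft h k) - S k‖ ^ 2 * (X1.im * Y0.im)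
          ≤ (1 - g) * (4 * t ^ 2 * ((S (sft h k)).im * (S k).im)) * (X1.im * Y0.im) := by
        have : 0 ≤ 1 - g := by linarith
        gcongr
      have h5 : ‖X1 - Y0‖ ^ 2 * ((S (sft h k)).im * (S k).im)
          ≤ (4 * ((1 - g) * t ^ 2) * (X1.im * Y0.im)) * ((S (sft h k)).im * (S k).im) := by
        refine h1.trans (h4.trans (le_of_eq ?_))
        ring
      have h6 := le_of_mul_le_mul_right h5 h2
      rw [mul_pow, Real.sq_sqrt (by linarith)]
      exact h6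
    -- step 2
    have st2 : ‖Y0 - X0‖ ^ 2 ≤ 4 * (g / 8 * t) ^ 2 * (Y0.im * X0.im) := by
      have h1 := (hXB ψ hψ r η ρ' hr hη hρ' (x (sft h k)) (S k) (hxim _).le (hS k).2).2.2
        (x k) (hxim k).le
      have h2 : ‖x (sft h k) - x k‖ ≤ CK * n1 h := by
        have : x (sft h k) - x k = ((K (sft h k) - K k : ℝ) : ℂ) := by
          simp only [x]; push_cast; ring
        rw [this, Complex.norm_real]
        exact hK h k
      have h3 : ‖Y0 - X0‖ ≤ 4 * D ^ 2 / η ^ 2 * (CK * n1 h) := by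
        refine h1.trans ?_
        have h4 : 4 * (‖x (sft h k) + S k‖ * ‖x k + S k‖) / η ^ 2 ≤ 4 * D ^ 2 / η ^ 2 := by
          have : ‖x (sft h k) + S k‖ * ‖x k + S k‖ ≤ D * D :=
            mul_le_mul (hxS _ _) (hxS _ _) (norm_nonneg _) hD0.le
          rw [sq D]
          gcongr
        exact mul_le_mul h4 h2 (norm_nonneg _) (by positivity)
      have h5 : (η * r ^ 2 / (16 * D ^ 2)) ^ 2 ≤ Y0.im * X0.im := by
        have a1 := hXim (sft h k) k
        have a2 := hXim k k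
        have : Y0.im * X0.im = (-Y0.im) * (-X0.im) := by ring
        rw [this, sq]
        exact mul_le_mul a1 a2 hβ.le (by linarith)
      have h6 : 4 * D ^ 2 / η ^ 2 * (CK * n1 h)
          = 2 * (g / 8 * t) * (η * r ^ 2 / (16 * D ^ 2)) := by
        rw [ht, hΛe]
        field_simp
        ring
      calc ‖Y0 - X0‖ ^ 2 ≤ (4 * D ^ 2 / η ^ 2 * (CK * n1 h)) ^ 2 :=
            pow_le_pow_left₀ (norm_nonneg _) h3 2
        _ = 4 * (g / 8 * t) ^ 2 * (η * r ^ 2 / (16 * D ^ 2)) ^ 2 := by rw [h6]; ring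
        _ ≤ 4 * (g / 8 * t) ^ 2 * (Y0.im * X0.im) := by gcongr
    have st3 := tri i1 i2 i3 (by positivity) (by positivity) st1 st2
    refine st3.trans ?_
    have h7 := numbers hgpos hg1 ht0 htg rfl rfl
    have h8 : 0 < X1.im * X0.im := mul_pos_of_neg_of_neg i1 i3
    have h9 : 0 ≤ Real.sqrt (1 - g) * t * Real.sqrt (1 + (g / 8 * t) ^ 2)
        + g / 8 * t * Real.sqrt (1 + (Real.sqrt (1 - g) * t) ^ 2) := by positivity
    have h10 := pow_le_pow_left₀ h9 h7 2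
    gcongr
  refine ⟨?_, ?_⟩
  · intro h k hh
    have h1 := key h k hh
    have hn : 0 ≤ n1 h := Finset.sum_nonneg fun i _ => abs_nonneg _
    have h2 : |(xm ρ (x (sft h k)) (S (sft h k))).im| ≤ D :=
      (Complex.abs_im_le_norm _).trans (hXnorm _)
    have h3 : |(xm ρ (x k) (S k)).im| ≤ D := (Complex.abs_im_le_norm _).trans (hXnorm _)
    have h4 : (xm ρ (x (sft h k)) (S (sft h k))).im * (xm ρ (x k) (S k)).im ≤ D * D := by
      refine (le_abs_self _).trans ?_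
      rw [abs_mul]
      exact mul_le_mul h2 h3 (abs_nonneg _) hD0.le
    have h5 : ‖xm ρ (x (sft h k)) (S (sft h k)) - xm ρ (x k) (S k)‖ ^ 2
        ≤ (4 * D * Λ * n1 h) ^ 2 := by
      refine h1.trans ?_
      calc 4 * (Λ * n1 h) ^ 2 * ((xm ρ (x (sft h k)) (S (sft h k))).im * (xm ρ (x k) (S k)).im)
          ≤ 4 * (Λ * n1 h) ^ 2 * (D * D) := by gcongr
        _ ≤ (4 * D * Λ * n1 h) ^ 2 := by
            have : (4 * D * Λ * n1 h) ^ 2 = 16 * ((Λ * n1 h) ^ 2 * (D * D)) := by ring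
            rw [this]
            have : 0 ≤ (Λ * n1 h) ^ 2 * (D * D) := by positivity
            linarith
    exact abs_le_of_sq_le_sq' h5 (by positivity) |>.2
  · -- the symbol
    have hs1 : ‖s‖ < 1 := by
      rw [ContinuousMap.norm_lt_iff _ one_pos]
      intro k
      rw [hs]
      exact cay_lt (by linarith [(hS k).2])
    have hUU := hUUC d ρ (r + r / 8) 1 (wz K z) s hsupp (wz_cont K hzi) zero_le_one le_rfl
      (fun k a _ => cayx_le (hxim k).le a) hs1.le (by linarith)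
    set m : C(UnitAddTorus (Fin d), ℂ) := UU ρ (wz K z) s with hm
    have hmk : ∀ k, m k = cayx (xm ρ (x k) (S k)) 0 := by
      intro k
      rw [hUU.1 k, hs k]
      exact (hUX ρ (r + r / 8) (x k) (S k) hsupp (hxim k) (by linarith [(hS k).2])).2.2
    have hm1 : ‖m‖ < 1 := by
      rw [ContinuousMap.norm_lt_iff _ one_pos]
      intro k
      rw [hmk]
      exact cay_lt (hXneg k k)
    intro h hh k
    have hn : 0 ≤ n1 h := Finset.sum_nonneg fun i _ => abs_nonneg _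
    let m' : C(UnitAddTorus (Fin d), ℂ) := ⟨fun k => m (sft h k), m.continuous.comp (sft_cont h)⟩
    have hm' : ∀ k, m' k = m (sft h k) := fun _ => rfl
    have hm'1 : ‖m'‖ ≤ ‖m‖ :=
      (ContinuousMap.norm_le _ (norm_nonneg _)).2 fun k => m.norm_coe_le_norm _
    have h1 := (hPSI ν d ‖m‖ m' m (norm_nonneg _) hm1 hm'1 le_rfl).2.1 ((Λ * n1 h) ^ 2)
      (by positivity) ?_ k
    · rw [hSH ν d m m' h hm1 hm' k] at h1
      exact h1
    · intro k
      rw [hm', hmk, hmk]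
      exact (transfer (hXneg _ _) (hXneg _ _) (Λ * n1 h)).2 (key h k hh)

end

end Pool.Agent.Run7.h308.BAX3
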