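import Pool.Agent.Run7.h308.Smir

set_option autoImplicit false
set_option maxHeartbeats 800000

namespace Run7.h308

open Complex MeasureTheory Filter Topology Set Metric

lemma nontriv_mul {g h : ℂ → ℂ} (hg : DifferentiableOn ℂ g disc) (hh : DifferentiableOn ℂ h disc)
    (h1 : ∃ z ∈ disc, g z ≠ 0) (h2 : ∃ z ∈ disc, h z ≠ 0) : ∃ z ∈ disc, g z * h z ≠ 0 := by
  have h3 := ev_ne hg h1 zero_mem_disc
  have h4 := ev_ne hh h2 zero_mem_disc
  have h5 : ∀ᶠ z in 𝓝[≠] (0 : ℂ), z ∈ disc :=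
    eventually_nhdsWithin_of_eventually_nhds (isOpen_disc.mem_nhds zero_mem_disc)
  obtain ⟨z, ⟨h6, h7⟩, h8⟩ := ((h3.and h4).and h5).exists
  exact ⟨z, h8, mul_ne_zero h6 h7⟩

/-- the filter of complements of zero sets -/
def GF : Filter ℂ where
  sets := {S | ∃ h : ℂ → ℂ, BddHolOn disc h ∧ (∃ z ∈ disc, h z ≠ 0) ∧ ∀ z ∈ disc, h z ≠ 0 → z ∈ S}
  univ_sets := ⟨fun _ => 1, BddHolOn.const _ _, ⟨0, zero_mem_disc, one_ne_zero⟩, fun _ _ _ => trivial⟩
  sets_of_superset := fun ⟨h, h1, h2, h3⟩ hST => ⟨h, h1, h2, fun z hz hz' => hST (h3 z hz hz')⟩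
  inter_sets := by
    rintro S T ⟨g, g1, g2, g3⟩ ⟨h, h1, h2, h3⟩
    refine ⟨fun z => g z * h z, g1.mul h1, nontriv_mul g1.1 h1.1 g2 h2, fun z hz hz' => ?_⟩
    exact ⟨g3 z hz (left_ne_zero_of_mul hz'), h3 z hz (right_ne_zero_of_mul hz')⟩

lemma GF.mk {P : ℂ → Prop} {h : ℂ → ℂ} (h1 : BddHolOn disc h) (h2 : ∃ z ∈ disc, h z ≠ 0)
    (h3 : ∀ z ∈ disc, h z ≠ 0 → P z) : ∀ᶠ z in GF, P z := ⟨h, h1, h2, h3⟩

lemma GF.out {P : ℂ → Prop} (hP : ∀ᶠ z in GF, P z) : ∃ h : ℂ → ℂ, BddHolOn disc h ∧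
    (∃ z ∈ disc, h z ≠ 0) ∧ ∀ z ∈ disc, h z ≠ 0 → P z := hP

lemma GF.disc : ∀ᶠ z in GF, z ∈ disc :=
  GF.mk (BddHolOn.const _ 1) ⟨0, zero_mem_disc, one_ne_zero⟩ fun _ hz _ => hz

lemma GF.punct {P : ℂ → Prop} (hP : ∀ᶠ z in GF, P z) {x : ℂ} (hx : x ∈ Run7.h308.disc) :
    ∀ᶠ z in 𝓝[≠] x, P z := by
  obtain ⟨h, h1, h2, h3⟩ := GF.out hP
  have h5 : ∀ᶠ z in 𝓝[≠] x, z ∈ Run7.h308.disc :=
    eventually_nhdsWithin_of_eventually_nhds (isOpen_disc.mem_nhds hx)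
  filter_upwards [ev_ne h1.1 h2 hx, h5] with z h6 h7
  exact h3 z h7 h6

lemma GF.exists {P : ℂ → Prop} (hP : ∀ᶠ z in GF, P z) : ∃ z ∈ Run7.h308.disc, P z := by
  obtain ⟨h, h1, ⟨z, hz, hz2⟩, h3⟩ := GF.out hP
  exact ⟨z, hz, h3 z hz hz2⟩

instance : GF.NeBot := ⟨fun h => by
  have : ∀ᶠ z in GF, False := by rw [h]; trivial
  obtain ⟨_, _, h⟩ := GF.exists this
  exact h⟩

lemma GF.nhds {P : ℂ → Prop} (hP : ∀ᶠ z in GF, P z) : ∀ᶠ z in GF, ∀ᶠ w in 𝓝 z, P w := by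
  obtain ⟨h, h1, h2, h3⟩ := GF.out hP
  refine GF.mk h1 h2 fun z hz hz2 => ?_
  have h4 : ContinuousAt h z := (h1.1.differentiableAt (isOpen_disc.mem_nhds hz)).continuousAt
  filter_upwards [isOpen_disc.mem_nhds hz, h4.eventually_ne hz2] with w hw hw2
  exact h3 w hw hw2

lemma GF.cone {P : ℂ → Prop} (hP : ∀ᶠ z in GF, P z) : ∀ᵐ θ ∂m, ∀ K : ℝ,
    ∀ᶠ z in 𝓝[{z : ℂ | ‖z‖ < 1 ∧ ‖z - pt θ‖ ≤ K * (1 - ‖z‖)}] (pt θ), P z := by
  obtain ⟨h, h1, h2, h3⟩ := GF.out hP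
  obtain ⟨b, hb⟩ := exists_BV h1
  have hb0 := (log_int h1 h2 (BV.of_nt hb)).1
  filter_upwards [hb, hb0] with θ h4 h5 K
  have h6 := (h4 K).eventually_ne h5
  have h7 : ∀ᶠ z in 𝓝[{z : ℂ | ‖z‖ < 1 ∧ ‖z - pt θ‖ ≤ K * (1 - ‖z‖)}] (pt θ), ‖z‖ < 1 := by
    filter_upwards [self_mem_nhdsWithin] with z hz
    exact hz.1
  filter_upwards [h6, h7] with z hz hz2
  exact h3 z (mem_disc.2 hz2) hz

lemma GF.nt {E : Type} [TopologicalSpace E] {f g : ℂ → E} (hP : ∀ᶠ z in GF, f z = g z) :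
    ∀ᵐ θ ∂m, ∀ L, NTLim f (pt θ) L → NTLim g (pt θ) L := by
  filter_upwards [GF.cone hP] with θ h L hL K
  exact (hL K).congr' (h K)

lemma GF.ne {h : ℂ → ℂ} (h1 : BddHolOn Run7.h308.disc h) (h2 : ∃ z ∈ Run7.h308.disc, h z ≠ 0) :
    ∀ᶠ z in GF, h z ≠ 0 := GF.mk h1 h2 fun _ _ h => h

lemma GF.ne' {h : ℂ → ℂ} (h1 : BddHolOn Run7.h308.disc h) (h2 : ∃ z ∈ Run7.h308.disc, h z ≠ 0) :
    ∀ᶠ z in GF, h z ≠ 0 := GF.ne h1 h2

lemma cont_eq {E : Type*} [TopologicalSpace E] [T2Space E] {f g : ℂ → E}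
    (hf : ContinuousOn f disc) (hg : ContinuousOn g disc)
    (h : ∀ᶠ z in GF, f z = g z) {z : ℂ} (hz : z ∈ disc) : f z = g z := by
  have h1 := (hf.continuousAt (isOpen_disc.mem_nhds hz)).tendsto
  have h2 := (hg.continuousAt (isOpen_disc.mem_nhds hz)).tendsto
  have h3 : Tendsto f (𝓝[≠] z) (𝓝 (f z)) := h1.mono_left nhdsWithin_le_nhds
  have h4 : Tendsto g (𝓝[≠] z) (𝓝 (g z)) := h2.mono_left nhdsWithin_le_nhds
  exact tendsto_nhds_unique (h3.congr' (GF.punct h hz)) h4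

lemma cont_le {f g : ℂ → ℝ} (hf : ContinuousOn f disc) (hg : ContinuousOn g disc)
    (h : ∀ᶠ z in GF, f z ≤ g z) {z : ℂ} (hz : z ∈ disc) : f z ≤ g z := by
  have h1 := (hf.continuousAt (isOpen_disc.mem_nhds hz)).tendsto
  have h2 := (hg.continuousAt (isOpen_disc.mem_nhds hz)).tendsto
  have h3 : Tendsto f (𝓝[≠] z) (𝓝 (f z)) := h1.mono_left nhdsWithin_le_nhds
  have h4 : Tendsto g (𝓝[≠] z) (𝓝 (g z)) := h2.mono_left nhdsWithin_le_nhds
  exact le_of_tendsto_of_tendsto h3 h4 (GF.punct h hz)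

/-! ### functions of bounded type -/

lemma BddType.iff {f : ℂ → ℂ} : BddType disc f ↔ ∃ g h : ℂ → ℂ, BddHolOn disc g ∧ BddHolOn disc h ∧
    (∃ z ∈ disc, h z ≠ 0) ∧ ∀ᶠ z in GF, h z ≠ 0 ∧ f z = g z / h z := by
  constructor
  · rintro ⟨g, h, hg, hh, h1, h2⟩
    exact ⟨g, h, hg, hh, h1, GF.mk hh h1 fun z hz hz2 => ⟨hz2, h2 z hz hz2⟩⟩
  · rintro ⟨g, h, hg, hh, h1, h2⟩
    obtain ⟨k, k1, k2, k3⟩ := GF.out h2
    refine ⟨fun z => g z * k z, fun z => h z * k z, hg.mul k1, hh.mul k1, nontriv_mul hh.1 k1.1 h1 k2,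
      fun z hz hz2 => ?_⟩
    have h3 := k3 z hz (right_ne_zero_of_mul hz2)
    rw [h3.2]
    have := right_ne_zero_of_mul hz2
    have := h3.1
    field_simp

lemma BddType.congr {f g : ℂ → ℂ} (hf : BddType disc f) (h : ∀ᶠ z in GF, f z = g z) :
    BddType disc g := by
  rw [BddType.iff] at hf ⊢
  obtain ⟨a, b, ha, hb, h1, h2⟩ := hf
  refine ⟨a, b, ha, hb, h1, ?_⟩
  filter_upwards [h2, h] with z h3 h4
  exact ⟨h3.1, by rw [← h4, h3.2]⟩

lemma BddType.of_bdd {f : ℂ → ℂ} (hf : BddHolOn disc f) : BddType disc f :=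
  ⟨f, fun _ => 1, hf, BddHolOn.const _ _, ⟨0, zero_mem_disc, one_ne_zero⟩, fun z _ _ => by simp⟩

lemma BddType.const (c : ℂ) : BddType disc (fun _ => c) := BddType.of_bdd (BddHolOn.const _ c)

lemma BddType.mul {f g : ℂ → ℂ} (hf : BddType disc f) (hg : BddType disc g) :
    BddType disc (fun z => f z * g z) := by
  rw [BddType.iff] at hf hg ⊢
  obtain ⟨a, b, ha, hb, h1, h2⟩ := hf
  obtain ⟨a', b', ha', hb', h1', h2'⟩ := hg
  refine ⟨fun z => a z * a' z, fun z => b z * b' z, ha.mul ha', hb.mul hb',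
    nontriv_mul hb.1 hb'.1 h1 h1', ?_⟩
  filter_upwards [h2, h2'] with z h3 h4
  refine ⟨mul_ne_zero h3.1 h4.1, ?_⟩
  rw [h3.2, h4.2, div_mul_div_comm]

lemma BddType.add {f g : ℂ → ℂ} (hf : BddType disc f) (hg : BddType disc g) :
    BddType disc (fun z => f z + g z) := by
  rw [BddType.iff] at hf hg ⊢
  obtain ⟨a, b, ha, hb, h1, h2⟩ := hf
  obtain ⟨a', b', ha', hb', h1', h2'⟩ := hg
  refine ⟨fun z => a z * b' z + b z * a' z, fun z => b z * b' z, (ha.mul hb').add (hb.mul ha'),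
    hb.mul hb', nontriv_mul hb.1 hb'.1 h1 h1', ?_⟩
  filter_upwards [h2, h2'] with z h3 h4
  refine ⟨mul_ne_zero h3.1 h4.1, ?_⟩
  rw [h3.2, h4.2, div_add_div _ _ h3.1 h4.1]

lemma BddType.neg {f : ℂ → ℂ} (hf : BddType disc f) : BddType disc (fun z => - f z) := by
  have := (BddType.const (-1)).mul hf
  simpa using this

lemma BddType.sub {f g : ℂ → ℂ} (hf : BddType disc f) (hg : BddType disc g) :
    BddType disc (fun z => f z - g z) := by
  simpa [sub_eq_add_neg] using hf.add hg.neg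

lemma BddType.sum {ι : Type*} (s : Finset ι) {f : ι → ℂ → ℂ} (hf : ∀ i ∈ s, BddType disc (f i)) :
    BddType disc (fun z => ∑ i ∈ s, f i z) := by
  classical
  induction s using Finset.induction_on with
  | empty => simpa using BddType.const 0
  | insert i s hi ih =>
    have h1 := (hf i (Finset.mem_insert_self i s)).add (ih fun j hj => hf j (Finset.mem_insert_of_mem hj))
    simpa [Finset.sum_insert hi] using h1

lemma BddType.prod {ι : Type*} (s : Finset ι) {f : ι → ℂ → ℂ} (hf : ∀ i ∈ s, BddType disc (f i)) :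
    BddType disc (fun z => ∏ i ∈ s, f i z) := by
  classical
  induction s using Finset.induction_on with
  | empty => simpa using BddType.const 1
  | insert i s hi ih =>
    have h1 := (hf i (Finset.mem_insert_self i s)).mul (ih fun j hj => hf j (Finset.mem_insert_of_mem hj))
    simpa [Finset.prod_insert hi] using h1

lemma BddType.dich {f : ℂ → ℂ} (hf : BddType disc f) :
    (∀ᶠ z in GF, f z = 0) ∨ (∀ᶠ z in GF, f z ≠ 0) := by
  rw [BddType.iff] at hf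
  obtain ⟨a, b, ha, hb, h1, h2⟩ := hf
  by_cases h : ∃ z ∈ disc, a z ≠ 0
  · right
    filter_upwards [h2, GF.ne ha h] with z h3 h4
    rw [h3.2]
    exact div_ne_zero h4 h3.1
  · left
    push Not at h
    filter_upwards [h2, GF.disc] with z h3 h4
    rw [h3.2, h z h4, zero_div]

lemma BddType.inv {f : ℂ → ℂ} (hf : BddType disc f) : BddType disc (fun z => (f z)⁻¹) := by
  have hf' := hf
  rw [BddType.iff] at hf
  obtain ⟨a, b, ha, hb, h1, h2⟩ := hf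
  by_cases h : ∃ z ∈ disc, a z ≠ 0
  · rw [BddType.iff]
    refine ⟨b, a, hb, ha, h, ?_⟩
    filter_upwards [h2, GF.ne ha h] with z h3 h4
    exact ⟨h4, by rw [h3.2, inv_div]⟩
  · push Not at h
    refine (BddType.const 0).congr ?_
    filter_upwards [h2, GF.disc] with z h3 h4
    rw [h3.2, h z h4, zero_div, inv_zero]

lemma BddType.div {f g : ℂ → ℂ} (hf : BddType disc f) (hg : BddType disc g) :
    BddType disc (fun z => f z / g z) := by
  simpa [div_eq_mul_inv] using hf.mul hg.inv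

lemma BddType.an {f : ℂ → ℂ} (hf : BddType disc f) : ∀ᶠ z in GF, AnalyticAt ℂ f z := by
  rw [BddType.iff] at hf
  obtain ⟨a, b, ha, hb, h1, h2⟩ := hf
  filter_upwards [GF.nhds h2, GF.disc] with z h3 h4
  have h5 : AnalyticAt ℂ (fun z => a z / b z) z :=
    (analyticOnNhd_disc ha.1 z h4).div (analyticOnNhd_disc hb.1 z h4) h3.self_of_nhds.1
  refine h5.congr ?_
  filter_upwards [h3] with w hw
  exact hw.2.symm

lemma BddType.bv {f : ℂ → ℂ} (hf : BddType disc f) :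
    ∃ b : ℝ → ℂ, (∀ᵐ θ ∂m, NTLim f (pt θ) (b θ)) ∧ AEStronglyMeasurable b m ∧
      Integrable (fun θ => Real.posLog ‖b θ‖) m := by
  rw [BddType.iff] at hf
  obtain ⟨g, h, hg, hh, h1, h2⟩ := hf
  obtain ⟨a, ha⟩ := exists_BV hg
  obtain ⟨l, hl⟩ := exists_BV hh
  obtain ⟨hl0, hl1⟩ := log_int hh h1 (BV.of_nt hl)
  have ham := (BV.of_nt ha).aesm hg.1.continuousOn
  have hlm := (BV.of_nt hl).aesm hh.1.continuousOn
  obtain ⟨C, hC⟩ := hg.2
  have haC := (BV.of_nt ha).bound hC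
  have hm : AEStronglyMeasurable (fun θ => a θ / l θ) m := by
    simp_rw [div_eq_mul_inv]
    exact ham.mul hlm.inv₀
  refine ⟨fun θ => a θ / l θ, ?_, hm, ?_⟩
  · have h3 : ∀ᵐ θ ∂m, ∀ L, NTLim (fun z => g z / h z) (pt θ) L → NTLim f (pt θ) L := by
      refine GF.nt ?_
      filter_upwards [h2] with z hz
      exact hz.2.symm
    filter_upwards [ha, hl, hl0, h3] with θ h4 h5 h6 h7
    exact h7 _ (h4.div h5 h6)
  · refine Integrable.mono' (g := fun θ => Real.posLog C + |Real.log ‖l θ‖|) ?_ ?_ ?_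
    · exact (integrable_const _).add hl1.abs
    · exact (Real.continuous_posLog.comp continuous_norm).comp_aestronglyMeasurable hm
    · filter_upwards [haC] with θ h3
      rw [Real.norm_of_nonneg Real.posLog_nonneg, norm_div, div_eq_mul_inv]
      refine Real.posLog_mul.trans ?_
      refine add_le_add ?_ ?_
      · exact Real.posLog_le_posLog (norm_nonneg _) h3
      · rw [Real.posLog_apply, Real.log_inv]
        exact max_le (abs_nonneg _) (neg_le_abs _)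

lemma BddType.bv_ne {f : ℂ → ℂ} (hf : BddType disc f) (hne : ∀ᶠ z in GF, f z ≠ 0) {b : ℝ → ℂ}
    (hb : BV f b) : (∀ᵐ θ ∂m, b θ ≠ 0) ∧ Integrable (fun θ => Real.log ‖b θ‖) m := by
  rw [BddType.iff] at hf
  obtain ⟨g, h, hg, hh, h1, h2⟩ := hf
  obtain ⟨a, ha⟩ := exists_BV hg
  obtain ⟨l, hl⟩ := exists_BV hh
  obtain ⟨hl0, hl1⟩ := log_int hh h1 (BV.of_nt hl)
  have hg0 : ∃ z ∈ disc, g z ≠ 0 := by
    obtain ⟨z, hz, h3, h4⟩ := GF.exists (hne.and h2)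
    refine ⟨z, hz, fun h5 => h3 ?_⟩
    rw [h4.2, h5, zero_div]
  obtain ⟨ha0, ha1⟩ := log_int hg hg0 (BV.of_nt ha)
  have h3 : ∀ᵐ θ ∂m, ∀ L, NTLim (fun z => g z / h z) (pt θ) L → NTLim f (pt θ) L := by
    refine GF.nt ?_
    filter_upwards [h2] with z hz
    exact hz.2.symm
  have heq : ∀ᵐ θ ∂m, b θ = a θ / l θ := by
    filter_upwards [ha, hl, hl0, h3, hb] with θ h4 h5 h6 h7 h8
    exact tendsto_nhds_unique h8 (NTLim.radial (h7 _ (h4.div h5 h6)))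
  constructor
  · filter_upwards [heq, ha0, hl0] with θ h4 h5 h6
    rw [h4]
    exact div_ne_zero h5 h6
  · refine (ha1.sub hl1).congr ?_
    filter_upwards [heq, ha0, hl0] with θ h4 h5 h6
    simp only [Pi.sub_apply]
    rw [h4, norm_div, Real.log_div (norm_ne_zero_iff.2 h5) (norm_ne_zero_iff.2 h6)]

/-- removable singularities -/
lemma BddType.ext {f : ℂ → ℂ} (hf : BddType disc f) {C : ℝ} (hC : ∀ᶠ z in GF, ‖f z‖ ≤ C) :
    ∃ F : ℂ → ℂ, BddHolOn disc F ∧ (∀ z ∈ disc, ‖F z‖ ≤ C) ∧ ∀ᶠ z in GF, f z = F z := by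
  rw [BddType.iff] at hf
  obtain ⟨g, h, hg, hh, h1, h2⟩ := hf
  set q : ℂ → ℂ := fun w => g w / h w with hq
  set F : ℂ → ℂ := fun z => limUnder (𝓝[≠] z) q with hF
  have hFe : ∀ z ∈ disc, h z ≠ 0 → F z = q z := by
    intro z hz hz2
    have h3 : ContinuousAt q z := ((analyticOnNhd_disc hg.1 z hz).div (analyticOnNhd_disc hh.1 z hz) hz2).continuousAt
    exact (h3.tendsto.mono_left nhdsWithin_le_nhds).limUnder_eq
  have hqC : ∀ᶠ z in GF, ‖q z‖ ≤ C := by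
    filter_upwards [hC, h2] with z h3 h4
    simp only [hq]
    rwa [← h4.2]
  have hdiff : ∀ x ∈ disc, DifferentiableAt ℂ F x := by
    intro x hx
    have h3 : ∀ᶠ z in 𝓝[≠] x, z ∈ disc ∧ h z ≠ 0 ∧ ‖q z‖ ≤ C := by
      have h5 : ∀ᶠ z in 𝓝[≠] x, z ∈ disc :=
        eventually_nhdsWithin_of_eventually_nhds (isOpen_disc.mem_nhds hx)
      filter_upwards [h5, ev_ne hh.1 h1 hx, GF.punct hqC hx] with z h6 h7 h8
      exact ⟨h6, h7, h8⟩
    rw [eventually_nhdsWithin_iff] at h3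
    obtain ⟨U, hU, hUo, hxU⟩ := _root_.eventually_nhds_iff.1 h3
    have h4 : DifferentiableOn ℂ q (U \ {x}) := by
      intro z hz
      obtain ⟨h6, h7, h8⟩ := hU z hz.1 hz.2
      exact ((analyticOnNhd_disc hg.1 z h6).div (analyticOnNhd_disc hh.1 z h6) h7).differentiableAt.differentiableWithinAt
    have h5 := differentiableOn_update_limUnder_of_bddAbove (hUo.mem_nhds hxU) h4 (by
      refine ⟨C, ?_⟩
      rintro _ ⟨z, hz, rfl⟩
      exact (hU z hz.1 hz.2).2.2)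
    have h6 := h5.differentiableAt (hUo.mem_nhds hxU)
    refine h6.congr_of_eventuallyEq ?_
    filter_upwards [hUo.mem_nhds hxU] with z hz
    by_cases hzx : z = x
    · rw [hzx, Function.update_self]
    · rw [Function.update_of_ne hzx]
      obtain ⟨h6, h7, h8⟩ := hU z hz hzx
      exact hFe z h6 h7
  have hFd : DifferentiableOn ℂ F disc := fun x hx => (hdiff x hx).differentiableWithinAt
  have hFf : ∀ᶠ z in GF, f z = F z := by
    filter_upwards [h2, GF.disc] with z h3 h4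
    rw [h3.2, hFe z h4 h3.1]
  have hb : ∀ z ∈ disc, ‖F z‖ ≤ C := by
    intro z hz
    refine cont_le (g := fun _ => C) hFd.continuousOn.norm continuousOn_const ?_ hz
    filter_upwards [hFf, hC] with z h3 h4
    rwa [← h3]
  exact ⟨F, ⟨hFd, C, hb⟩, hb, hFf⟩

lemma conj_const {u w : ℂ → ℂ} (hu : BddHolOn disc u) (hw : BddHolOn disc w) {a b : ℝ → ℂ}
    (ha : BV u a) (hb : BV w b) (h : ∀ᵐ θ ∂m, b θ = (starRingEnd ℂ) (a θ)) {z : ℂ} (hz : z ∈ disc) :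
    u z = u 0 := by
  have hw0 : w 0 = (starRingEnd ℂ) (u 0) := by
    rw [← bdd_zero hu ha, ← bdd_zero hw hb, ← integral_conj]
    exact integral_congr_ae h
  have h1 : BddHolOn disc (fun z => u z + - u 0) := hu.add (BddHolOn.const _ _)
  have h2 : BddHolOn disc (fun z => w z + - w 0) := hw.add (BddHolOn.const _ _)
  have b1 : BV (fun z => u z + - u 0) (fun θ => a θ + - u 0) := ha.add (BV.const _)
  have b2 : BV (fun z => w z + - w 0) (fun θ => b θ + - w 0) := hb.add (BV.const _)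
  have h3 := bdd_zero (h1.mul h2) (b1.mul b2)
  simp only [add_neg_cancel, mul_zero] at h3
  obtain ⟨C, hC⟩ := h1.2
  have hbd := b1.bound hC
  have h4 : ∫ θ, ‖a θ + - u 0‖ ^ 2 ∂m = 0 := by
    have h5 : ∫ θ, ((‖a θ + - u 0‖ ^ 2 : ℝ) : ℂ) ∂m = 0 := by
      refine Eq.trans (integral_congr_ae ?_) h3
      filter_upwards [h] with θ h6
      rw [h6, hw0, ← map_neg, ← map_add, Complex.mul_conj, Complex.normSq_eq_norm_sq]
    rw [integral_complex_ofReal] at h5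
    exact_mod_cast h5
  have h5 : Integrable (fun θ => ‖a θ + - u 0‖ ^ 2) m := by
    refine Integrable.of_bound ((b1.aesm h1.1.continuousOn).norm.pow 2) (C ^ 2) ?_
    filter_upwards [hbd] with θ h6
    rw [norm_pow, norm_norm]
    exact pow_le_pow_left₀ (norm_nonneg _) h6 2
  have h6 := (integral_eq_zero_iff_of_nonneg (fun θ => by positivity) h5).1 h4
  have h7 := max_bdd h1 b1 (C := 0) (by
    filter_upwards [h6] with θ h7
    simp only [Pi.zero_apply] at h7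
    have := pow_eq_zero_iff (two_ne_zero) |>.1 h7
    exact this.le) hz
  have h8 := norm_le_zero_iff.1 h7
  rw [← sub_eq_add_neg, sub_eq_zero] at h8
  exact h8

end Run7.h308
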