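import Pool.Agent.Run7.h308.Fatou

set_option autoImplicit false
set_option maxHeartbeats 800000

namespace Run7.h308

open Complex MeasureTheory Filter Topology Set Metric

lemma mem_disc {z : ℂ} : z ∈ disc ↔ ‖z‖ < 1 := by simp [disc]

lemma isOpen_disc : IsOpen disc := isOpen_ball

lemma zero_mem_disc : (0 : ℂ) ∈ disc := by simp [disc]

lemma continuous_pt : Continuous pt := by unfold pt; fun_prop

lemma two_pi_pos : (0 : ℝ) < 2 * Real.pi := by positivity

instance : IsProbabilityMeasure m := ⟨by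
  unfold m
  rw [Measure.smul_apply, Measure.restrict_apply MeasurableSet.univ, univ_inter, Real.volume_Ioc,
    sub_zero, smul_eq_mul, ← ENNReal.ofReal_mul (by positivity), inv_mul_cancel₀ two_pi_pos.ne',
    ENNReal.ofReal_one]⟩

lemma ae_m {P : ℝ → Prop} (h : ∀ᵐ t : ℝ, P t) : ∀ᵐ t ∂m, P t := by
  unfold m
  exact Measure.ae_smul_measure (ae_restrict_of_ae h) _

lemma integral_m {E : Type*} [NormedAddCommGroup E] [NormedSpace ℝ E] (f : ℝ → E) :
    ∫ θ, f θ ∂m = (2 * Real.pi)⁻¹ • ∫ θ in (0 : ℝ)..(2 * Real.pi), f θ := by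
  unfold m
  rw [integral_smul_measure, intervalIntegral.integral_of_le two_pi_pos.le,
    ENNReal.toReal_ofReal (by positivity)]

lemma integral_m_circle {E : Type*} [NormedAddCommGroup E] [NormedSpace ℝ E] (f : ℂ → E) (r : ℝ) :
    ∫ θ, f (r * pt θ) ∂m = Real.circleAverage f 0 r := by
  rw [integral_m, Real.circleAverage]
  simp [circleMap, pt]

/-- radial boundary function -/
def BV {E : Type*} [TopologicalSpace E] (f : ℂ → E) (b : ℝ → E) : Prop :=
  ∀ᵐ θ ∂m, Tendsto (fun r : ℝ => f (r * pt θ)) (𝓝[<] 1) (𝓝 (b θ))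

lemma rad_mem {r : ℝ} (h0 : 0 ≤ r) (h1 : r < 1) (θ : ℝ) : (r : ℂ) * pt θ ∈ disc := by
  rw [mem_disc, norm_mul, norm_pt, mul_one, Complex.norm_real, Real.norm_of_nonneg h0]
  exact h1

lemma ev_Ico : ∀ᶠ r : ℝ in 𝓝[<] 1, 0 < r ∧ r < 1 := by
  filter_upwards [Ioo_mem_nhdsLT zero_lt_one] with r hr
  exact hr

lemma tendsto_rad_nt (θ : ℝ) : Tendsto (fun r : ℝ => (r : ℂ) * pt θ) (𝓝[<] 1)
    (𝓝[{z : ℂ | ‖z‖ < 1 ∧ ‖z - pt θ‖ ≤ 1 * (1 - ‖z‖)}] (pt θ)) := by
  refine tendsto_nhdsWithin_iff.2 ⟨?_, ?_⟩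
  · have h : Continuous (fun r : ℝ => (r : ℂ) * pt θ) := by fun_prop
    have := h.tendsto 1
    simp only [ofReal_one, one_mul] at this
    exact this.mono_left nhdsWithin_le_nhds
  · filter_upwards [ev_Ico] with r hr
    have hn : ‖(r : ℂ) * pt θ‖ = r := by
      rw [norm_mul, norm_pt, mul_one, Complex.norm_real, Real.norm_of_nonneg hr.1.le]
    refine ⟨by rw [hn]; exact hr.2, ?_⟩
    rw [hn]
    have : (r : ℂ) * pt θ - pt θ = ((r - 1 : ℝ) : ℂ) * pt θ := by push_cast; ring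
    rw [this, norm_mul, norm_pt, mul_one, Complex.norm_real, Real.norm_eq_abs,
      abs_of_nonpos (by linarith [hr.2])]
    linarith

lemma NTLim.radial {E : Type} [TopologicalSpace E] {F : ℂ → E} {θ : ℝ} {L : E}
    (h : NTLim F (pt θ) L) : Tendsto (fun r : ℝ => F (r * pt θ)) (𝓝[<] 1) (𝓝 L) :=
  (h 1).comp (tendsto_rad_nt θ)

lemma exists_BV {h : ℂ → ℂ} (hh : BddHolOn disc h) :
    ∃ b : ℝ → ℂ, (∀ᵐ θ ∂m, NTLim h (pt θ) (b θ)) := by
  have := ae_m (fatou hh)
  classical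
  refine ⟨fun θ => if H : ∃ l, NTLim h (pt θ) l then H.choose else 0, ?_⟩
  filter_upwards [this] with θ hθ
  rw [dif_pos hθ]
  exact hθ.choose_spec

lemma BV.of_nt {E : Type} [TopologicalSpace E] {h : ℂ → E} {b : ℝ → E}
    (H : ∀ᵐ θ ∂m, NTLim h (pt θ) (b θ)) : BV h b := by
  filter_upwards [H] with θ hθ
  exact hθ.radial

lemma BV.unique {E : Type*} [TopologicalSpace E] [T2Space E] {h : ℂ → E} {b b' : ℝ → E}
    (H : BV h b) (H' : BV h b') : b =ᵐ[m] b' := by
  filter_upwards [H, H'] with θ h1 h2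
  exact tendsto_nhds_unique h1 h2

lemma BV.congr_ae {E : Type*} [TopologicalSpace E] {h : ℂ → E} {b b' : ℝ → E}
    (H : BV h b) (H' : b =ᵐ[m] b') : BV h b' := by
  filter_upwards [H, H'] with θ h1 h2
  rwa [← h2]

lemma BV.congr {E : Type*} [TopologicalSpace E] {h h' : ℂ → E} {b : ℝ → E}
    (H : BV h b) (H' : ∀ z ∈ disc, h z = h' z) : BV h' b := by
  filter_upwards [H] with θ h1
  refine h1.congr' ?_
  filter_upwards [ev_Ico] with r hr
  exact H' _ (rad_mem hr.1.le hr.2 θ)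

lemma cont_rad {E : Type*} [TopologicalSpace E] {h : ℂ → E} (hc : ContinuousOn h disc) {r : ℝ}
    (h0 : 0 ≤ r) (h1 : r < 1) : Continuous fun θ => h (r * pt θ) :=
  hc.comp_continuous (continuous_const.mul continuous_pt) fun θ => rad_mem h0 h1 θ

/-- a sequence of radii tending to one -/
noncomputable def rs (k : ℕ) : ℝ := 1 - 1 / ((k : ℝ) + 2)

lemma rs_pos (k : ℕ) : 0 < rs k := by
  unfold rs
  have : 1 / ((k : ℝ) + 2) < 1 := by
    rw [div_lt_one (by positivity)]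
    have : (0 : ℝ) ≤ k := k.cast_nonneg
    linarith
  linarith

lemma rs_lt (k : ℕ) : rs k < 1 := by
  unfold rs
  have : 0 < 1 / ((k : ℝ) + 2) := by positivity
  linarith

lemma rs_tendsto : Tendsto rs atTop (𝓝[<] 1) := by
  refine tendsto_nhdsWithin_iff.2 ⟨?_, Eventually.of_forall fun k => rs_lt k⟩
  have h : Tendsto (fun k : ℕ => 1 / ((k : ℝ) + 2)) atTop (𝓝 0) := by
    have := (tendsto_one_div_add_atTop_nhds_zero_nat (𝕜 := ℝ)).comp (tendsto_add_atTop_nat 1)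
    refine this.congr fun k => ?_
    simp only [Function.comp]
    push_cast
    congr 1
    ring
  have := h.const_sub 1
  rwa [sub_zero] at this

lemma BV.aesm {h : ℂ → ℂ} {b : ℝ → ℂ} (H : BV h b) (hc : ContinuousOn h disc) :
    AEStronglyMeasurable b m := by
  refine aestronglyMeasurable_of_tendsto_ae atTop (f := fun (k : ℕ) θ => h (rs k * pt θ))
    (fun k => (cont_rad hc (rs_pos k).le (rs_lt k)).aestronglyMeasurable) ?_
  filter_upwards [H] with θ hθ
  exact hθ.comp rs_tendsto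

/-- the Herglotz kernel -/
noncomputable def hk (z : ℂ) (θ : ℝ) : ℂ := (pt θ + z) / (pt θ - z)

/-- the Poisson kernel -/
noncomputable def pk (z : ℂ) (θ : ℝ) : ℝ := (1 - ‖z‖ ^ 2) / ‖pt θ - z‖ ^ 2

lemma pt_sub_ne {z : ℂ} (hz : z ∈ disc) (θ : ℝ) : pt θ - z ≠ 0 := by
  intro h
  rw [sub_eq_zero] at h
  rw [mem_disc, ← h, norm_pt] at hz
  exact lt_irrefl _ hz

lemma norm_pt_sub (z : ℂ) (θ : ℝ) : 1 - ‖z‖ ≤ ‖pt θ - z‖ := by
  have := norm_sub_norm_le (pt θ) z
  rwa [norm_pt] at this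

lemma hk_re (z : ℂ) (θ : ℝ) : (hk z θ).re = pk z θ := by
  have := congrFun (poissonKernel_eq_re_herglotzRieszKernel (c := 0) (w := z)) (pt θ)
  simp only [poissonKernel, Function.comp_apply, herglotzRieszKernel, sub_zero, norm_pt,
    one_pow] at this
  exact this.symm

lemma pk_nonneg {z : ℂ} (hz : z ∈ disc) (θ : ℝ) : 0 ≤ pk z θ := by
  rw [mem_disc] at hz
  unfold pk
  have : ‖z‖ ^ 2 ≤ 1 := pow_le_one₀ (norm_nonneg _) hz.le
  positivity [sub_nonneg.2 this]

lemma norm_hk_le {z : ℂ} (hz : z ∈ disc) (θ : ℝ) : ‖hk z θ‖ ≤ 2 / (1 - ‖z‖) := by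
  rw [mem_disc] at hz
  unfold hk
  rw [norm_div]
  have h1 : ‖pt θ + z‖ ≤ 2 := by
    have := norm_add_le (pt θ) z
    rw [norm_pt] at this
    linarith
  exact div_le_div₀ (by norm_num) h1 (by linarith) (norm_pt_sub z θ)

lemma pk_le {z : ℂ} (hz : z ∈ disc) (θ : ℝ) : pk z θ ≤ 2 / (1 - ‖z‖) := by
  rw [← hk_re]
  exact (Complex.re_le_norm _).trans (norm_hk_le hz θ)

lemma continuous_hk {z : ℂ} (hz : z ∈ disc) : Continuous (hk z) :=
  (continuous_pt.add continuous_const).div (continuous_pt.sub continuous_const) (pt_sub_ne hz)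

lemma continuous_pk {z : ℂ} (hz : z ∈ disc) : Continuous (pk z) := by
  have : pk z = fun θ => (hk z θ).re := by ext θ; rw [hk_re]
  rw [this]
  exact Complex.continuous_re.comp (continuous_hk hz)

lemma smul_mem_disc {z : ℂ} (hz : z ∈ disc) {r : ℝ} (h0 : 0 ≤ r) (h1 : r ≤ 1) : (r : ℂ) * z ∈ disc := by
  rw [mem_disc] at hz ⊢
  rw [norm_mul, Complex.norm_real, Real.norm_of_nonneg h0]
  nlinarith [norm_nonneg z]

lemma poisson_r {E : Type*} [NormedAddCommGroup E] [NormedSpace ℂ E] [CompleteSpace E]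
    {h : ℂ → E} (hd : DifferentiableOn ℂ h disc) {r : ℝ} (h0 : 0 ≤ r) (h1 : r < 1)
    {z : ℂ} (hz : z ∈ disc) : ∫ θ, pk z θ • h (r * pt θ) ∂m = h (r * z) := by
  have hd' : DiffContOnCl ℂ (fun w : ℂ => h (r * w)) (ball 0 1) := by
    apply DifferentiableOn.diffContOnCl
    rw [closure_ball _ one_ne_zero]
    refine hd.comp (by fun_prop) fun w hw => ?_
    rw [mem_closedBall, dist_zero_right] at hw
    rw [mem_disc, norm_mul, Complex.norm_real, Real.norm_of_nonneg h0]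
    nlinarith [norm_nonneg w]
  have h2 := hd'.circleAverage_re_herglotzRieszKernel_smul (w := z) (by simpa [disc] using hz)
  rw [← integral_m_circle] at h2
  rw [← h2]
  congr 1
  ext θ
  simp only [ofReal_one, one_mul, Pi.smul_apply', Function.comp_apply]
  rw [← hk_re]
  simp [hk, herglotzRieszKernel]

lemma integral_pk {z : ℂ} (hz : z ∈ disc) : ∫ θ, pk z θ ∂m = 1 := by
  have := poisson_r (h := fun _ => (1 : ℂ)) (differentiableOn_const _) le_rfl zero_lt_one hz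
  have h2 : ∫ θ, pk z θ • (1 : ℂ) ∂m = ((∫ θ, pk z θ ∂m : ℝ) : ℂ) := by
    rw [← integral_complex_ofReal]
    congr 1
    ext θ
    simp
  rw [h2] at this
  exact_mod_cast this

lemma bdd_rad {h : ℂ → ℂ} (hh : BddHolOn disc h) : ∃ C : ℝ, 0 ≤ C ∧ ∀ r : ℝ, 0 ≤ r → r < 1 →
    ∀ θ, ‖h (r * pt θ)‖ ≤ C := by
  obtain ⟨_, C, hC⟩ := hh
  exact ⟨|C|, abs_nonneg _, fun r h0 h1 θ => (hC _ (rad_mem h0 h1 θ)).trans (le_abs_self _)⟩

/-- Poisson formula for bounded holomorphic functions -/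
theorem poisson {h : ℂ → ℂ} (hh : BddHolOn disc h) {b : ℝ → ℂ} (hb : BV h b) {z : ℂ}
    (hz : z ∈ disc) : ∫ θ, pk z θ • b θ ∂m = h z := by
  obtain ⟨C, hC0, hC⟩ := bdd_rad hh
  have h1 : Tendsto (fun r : ℝ => ∫ θ, pk z θ • h (r * pt θ) ∂m) (𝓝[<] 1)
      (𝓝 (∫ θ, pk z θ • b θ ∂m)) := by
    refine tendsto_integral_filter_of_dominated_convergence (fun _ => 2 / (1 - ‖z‖) * C) ?_ ?_
      (integrable_const _) ?_
    · filter_upwards [ev_Ico] with r hr
      exact ((continuous_pk hz).smul (cont_rad hh.1.continuousOn hr.1.le hr.2)).aestronglyMeasurable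
    · filter_upwards [ev_Ico] with r hr
      refine Eventually.of_forall fun θ => ?_
      rw [norm_smul, Real.norm_of_nonneg (pk_nonneg hz θ)]
      exact mul_le_mul (pk_le hz θ) (hC r hr.1.le hr.2 θ) (norm_nonneg _)
        ((pk_nonneg hz θ).trans (pk_le hz θ))
    · filter_upwards [hb] with θ hθ
      exact hθ.const_smul _
  have h2 : Tendsto (fun r : ℝ => h (r * z)) (𝓝[<] 1) (𝓝 (h z)) := by
    have h3 : ContinuousAt h z := (hh.1 z hz).continuousWithinAt.continuousAt (isOpen_disc.mem_nhds hz)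
    have h4 : Tendsto (fun r : ℝ => (r : ℂ) * z) (𝓝[<] 1) (𝓝 z) := by
      have h : Continuous (fun r : ℝ => (r : ℂ) * z) := by fun_prop
      have := h.tendsto 1
      simp only [ofReal_one, one_mul] at this
      exact this.mono_left nhdsWithin_le_nhds
    exact h3.tendsto.comp h4
  refine tendsto_nhds_unique (h1.congr' ?_) h2
  filter_upwards [ev_Ico] with r hr
  exact poisson_r hh.1 hr.1.le hr.2 hz

lemma BV.bound {h : ℂ → ℂ} {b : ℝ → ℂ} (hb : BV h b) {C : ℝ} (hC : ∀ z ∈ disc, ‖h z‖ ≤ C) :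
    ∀ᵐ θ ∂m, ‖b θ‖ ≤ C := by
  filter_upwards [hb] with θ hθ
  refine le_of_tendsto hθ.norm ?_
  filter_upwards [ev_Ico] with r hr
  exact hC _ (rad_mem hr.1.le hr.2 θ)

/-- maximum principle for bounded holomorphic functions -/
theorem max_bdd {h : ℂ → ℂ} (hh : BddHolOn disc h) {b : ℝ → ℂ} (hb : BV h b) {C : ℝ}
    (hC : ∀ᵐ θ ∂m, ‖b θ‖ ≤ C) {z : ℂ} (hz : z ∈ disc) : ‖h z‖ ≤ C := by
  rw [← poisson hh hb hz]
  have h1 : ‖∫ θ, pk z θ • b θ ∂m‖ ≤ ∫ θ, pk z θ * C ∂m := by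
    refine norm_integral_le_of_norm_le ?_ ?_
    · exact (Integrable.of_bound (continuous_pk hz).aestronglyMeasurable (2 / (1 - ‖z‖))
        (Eventually.of_forall fun θ => by
          rw [Real.norm_of_nonneg (pk_nonneg hz θ)]; exact pk_le hz θ)).mul_const C
    · filter_upwards [hC] with θ hθ
      rw [norm_smul, Real.norm_of_nonneg (pk_nonneg hz θ)]
      exact mul_le_mul_of_nonneg_left hθ (pk_nonneg hz θ)
  rwa [integral_mul_const, integral_pk hz, one_mul] at h1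

lemma BddHolOn.mul {D : Set ℂ} {f g : ℂ → ℂ} (hf : BddHolOn D f) (hg : BddHolOn D g) :
    BddHolOn D (fun z => f z * g z) := by
  obtain ⟨h1, C, hC⟩ := hf
  obtain ⟨h2, C', hC'⟩ := hg
  refine ⟨h1.mul h2, |C| * |C'|, fun z hz => ?_⟩
  rw [norm_mul]
  exact mul_le_mul ((hC z hz).trans (le_abs_self _)) ((hC' z hz).trans (le_abs_self _))
    (norm_nonneg _) (abs_nonneg _)

lemma BddHolOn.add {D : Set ℂ} {f g : ℂ → ℂ} (hf : BddHolOn D f) (hg : BddHolOn D g) :
    BddHolOn D (fun z => f z + g z) := by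
  obtain ⟨h1, C, hC⟩ := hf
  obtain ⟨h2, C', hC'⟩ := hg
  refine ⟨h1.add h2, C + C', fun z hz => (norm_add_le _ _).trans (add_le_add (hC z hz) (hC' z hz))⟩

lemma BddHolOn.const (D : Set ℂ) (c : ℂ) : BddHolOn D (fun _ => c) :=
  ⟨differentiableOn_const _, ‖c‖, fun _ _ => le_rfl⟩

lemma BddHolOn.neg {D : Set ℂ} {f : ℂ → ℂ} (hf : BddHolOn D f) : BddHolOn D (fun z => - f z) := by
  obtain ⟨h1, C, hC⟩ := hf
  exact ⟨h1.neg, C, fun z hz => by rw [norm_neg]; exact hC z hz⟩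

lemma BddHolOn.sum {D : Set ℂ} {ι : Type*} (s : Finset ι) {f : ι → ℂ → ℂ}
    (hf : ∀ i ∈ s, BddHolOn D (f i)) : BddHolOn D (fun z => ∑ i ∈ s, f i z) := by
  classical
  induction s using Finset.induction_on with
  | empty => simpa using BddHolOn.const D 0
  | insert i s hi ih =>
    simp only [Finset.sum_insert hi]
    exact (hf i (Finset.mem_insert_self _ _)).add (ih fun j hj => hf j (Finset.mem_insert_of_mem hj))

lemma BddHolOn.prod {D : Set ℂ} {ι : Type*} (s : Finset ι) {f : ι → ℂ → ℂ}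
    (hf : ∀ i ∈ s, BddHolOn D (f i)) : BddHolOn D (fun z => ∏ i ∈ s, f i z) := by
  classical
  induction s using Finset.induction_on with
  | empty => simpa using BddHolOn.const D 1
  | insert i s hi ih =>
    simp only [Finset.prod_insert hi]
    exact (hf i (Finset.mem_insert_self _ _)).mul (ih fun j hj => hf j (Finset.mem_insert_of_mem hj))

end Run7.h308
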