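import Pool.Agent.Run7.h308.Nec

set_option autoImplicit false
set_option maxHeartbeats 800000

namespace Run7.h308

open Matrix MeasureTheory Filter Topology Set
open scoped ComplexOrder

lemma scalar_factor {u : ℝ → ℝ} (hu : Integrable u m) : ∃ ρ : ℂ → ℂ, BddType disc ρ ∧
    ∃ b : ℝ → ℂ, (∀ᵐ θ ∂m, NTLim ρ (pt θ) (b θ)) ∧ ∀ᵐ θ ∂m, ‖b θ‖ = Real.exp (u θ) := by
  have h1 : Integrable (fun θ => max (u θ) 0) m := hu.pos_part
  have h2 : Integrable (fun θ => max (-u θ) 0) m := hu.neg.pos_part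
  have f1 := finite_mv h1
  have f2 := finite_mv h2
  obtain ⟨a, ha⟩ := exists_BV (BddHolOn.Sg (mv fun θ => max (u θ) 0))
  obtain ⟨b, hb⟩ := exists_BV (BddHolOn.Sg (mv fun θ => max (-u θ) 0))
  have ha1 := bv_outer h1 (fun θ => le_max_right _ _) (BV.of_nt ha)
  have hb1 := bv_outer h2 (fun θ => le_max_right _ _) (BV.of_nt hb)
  refine ⟨fun z => Sg (mv fun θ => max (-u θ) 0) z / Sg (mv fun θ => max (u θ) 0) z,
    (BddType.of_bdd (BddHolOn.Sg _)).div (BddType.of_bdd (BddHolOn.Sg _)), fun θ => b θ / a θ, ?_, ?_⟩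
  · filter_upwards [ha, hb, ha1] with θ h3 h4 h5
    refine h4.div h3 ?_
    intro h6
    rw [h6, norm_zero] at h5
    exact (Real.exp_pos _).ne h5
  · filter_upwards [ha1, hb1] with θ h3 h4
    rw [norm_div, h3, h4, ← Real.exp_sub]
    congr 1
    rcases le_total (u θ) 0 with h | h
    · rw [max_eq_left (by linarith), max_eq_right h]
      ring
    · rw [max_eq_right (by linarith), max_eq_left h]
      ring

lemma sq_of_log {ρ σ : ℂ} (hσ : 0 < σ) (h : ‖ρ‖ = Real.exp (Real.log ‖σ‖ / 2)) : star ρ * ρ = σ := by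
  have h1 : star ρ * ρ = ((‖ρ‖ ^ 2 : ℝ) : ℂ) := by
    rw [Complex.star_def, mul_comm, Complex.mul_conj, Complex.normSq_eq_norm_sq]
  have hn : 0 < ‖σ‖ := norm_pos_iff.2 hσ.ne'
  rw [h1, h, ← Real.exp_nat_mul]
  have h2 : ((2 : ℕ) : ℝ) * (Real.log ‖σ‖ / 2) = Real.log ‖σ‖ := by
    push_cast
    ring
  rw [h2, Real.exp_log hn]
  have h3 : σ = (σ.re : ℂ) := by
    have h4 := Complex.pos_iff.1 hσ
    exact Complex.ext rfl (by rw [Complex.ofReal_im]; exact h4.2.symm)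
  have h4 : 0 < σ.re := (Complex.pos_iff.1 hσ).1
  rw [h3, Complex.norm_real, Real.norm_of_nonneg h4.le]

theorem chol (n : ℕ) : ∀ (D : ℂ → Matrix (Fin n) (Fin n) ℂ) (d : ℝ → Matrix (Fin n) (Fin n) ℂ),
    MP (BddType disc) D → (∀ᵐ θ ∂m, NTLim D (pt θ) (d θ)) → (∀ᵐ θ ∂m, (d θ).PosDef) →
    ∃ (R : ℂ → Matrix (Fin n) (Fin n) ℂ) (r : ℝ → Matrix (Fin n) (Fin n) ℂ),
      MP (BddType disc) R ∧ (∀ᵐ θ ∂m, NTLim R (pt θ) (r θ)) ∧ ∀ᵐ θ ∂m, (r θ)ᴴ * r θ = d θ := by
  induction n with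
  | zero =>
    intro D d _ _ _
    refine ⟨fun _ => 1, fun _ => 1, fun i => i.elim0, Eventually.of_forall fun θ K => tendsto_const_nhds,
      Eventually.of_forall fun θ => ?_⟩
    ext i
    exact i.elim0
  | succ n ih =>
    intro D d hD hDd hd
    obtain ⟨e, -⟩ : ∃ e : Fin n ⊕ Fin 1 ≃ Fin (n + 1), True := ⟨finSumFinEquiv, trivial⟩
    set Dt : ℂ → Matrix (Fin n ⊕ Fin 1) (Fin n ⊕ Fin 1) ℂ := fun z => (D z).submatrix e e with hDt
    set dt : ℝ → Matrix (Fin n ⊕ Fin 1) (Fin n ⊕ Fin 1) ℂ := fun θ => (d θ).submatrix e e with hdt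
    have bDt : MP (BddType disc) Dt := fun i k => hD (e i) (e k)
    have lDt : ∀ᵐ θ ∂m, NTLim Dt (pt θ) (dt θ) := by
      filter_upwards [hDd] with θ h K
      exact tendsto_mat fun i k => tendsto_entry (h K) (e i) (e k)
    have pdt : ∀ᵐ θ ∂m, (dt θ).PosDef := by
      filter_upwards [hd] with θ h
      exact h.submatrix e.injective
    have pdt11 : ∀ᵐ θ ∂m, (dt θ).toBlocks₁₁.PosDef := by
      filter_upwards [pdt] with θ h
      exact h.submatrix Sum.inl_injective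
    obtain ⟨R, r, bR, lR, hr⟩ := ih (fun z => (Dt z).toBlocks₁₁) (fun θ => (dt θ).toBlocks₁₁)
      (fun i k => bDt (Sum.inl i) (Sum.inl k)) (by
        filter_upwards [lDt] with θ h K
        exact tendsto_b11 (h K)) pdt11
    -- Schur complement
    set σM : ℂ → Matrix (Fin 1) (Fin 1) ℂ := fun z => (Dt z).toBlocks₂₂ -
      (Dt z).toBlocks₂₁ * (Dt z).toBlocks₁₁⁻¹ * (Dt z).toBlocks₁₂ with hσM
    set σm : ℝ → Matrix (Fin 1) (Fin 1) ℂ := fun θ => (dt θ).toBlocks₂₂ -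
      (dt θ).toBlocks₂₁ * (dt θ).toBlocks₁₁⁻¹ * (dt θ).toBlocks₁₂ with hσm
    have bI : MP (BddType disc) (fun z => (Dt z).toBlocks₁₁⁻¹) :=
      MP.bt_inv (M := fun z => (Dt z).toBlocks₁₁) fun i k => bDt (Sum.inl i) (Sum.inl k)
    have b12 : MP (BddType disc) (fun z => (Dt z).toBlocks₁₂) := fun i k => bDt (Sum.inl i) (Sum.inr k)
    have b21 : MP (BddType disc) (fun z => (Dt z).toBlocks₂₁) := fun i k => bDt (Sum.inr i) (Sum.inl k)
    have b22 : MP (BddType disc) (fun z => (Dt z).toBlocks₂₂) := fun i k => bDt (Sum.inr i) (Sum.inr k)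
    have bσ : MP (BddType disc) σM := Alg.bt.msub b22 (Alg.bt.mm (Alg.bt.mm b21 bI) b12)
    have lI : ∀ᵐ θ ∂m, NTLim (fun z => (Dt z).toBlocks₁₁⁻¹) (pt θ) (dt θ).toBlocks₁₁⁻¹ := by
      filter_upwards [lDt, pdt11] with θ h1 h2 K
      exact tendsto_minv (tendsto_b11 (h1 K)) h2.det_pos.ne'
    have lσ : ∀ᵐ θ ∂m, NTLim σM (pt θ) (σm θ) := by
      filter_upwards [lDt, lI] with θ h1 h2 K
      exact (tendsto_b22 (h1 K)).sub (tendsto_mm (tendsto_mm (tendsto_b21 (h1 K)) (h2 K)) (tendsto_b12 (h1 K)))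
    have pσ : ∀ᵐ θ ∂m, 0 < σm θ 0 0 := by
      filter_upwards [pdt, pdt11] with θ h1 h2
      have hd1 := h1.det_pos
      have hd2 := h2.det_pos
      have hinv : Invertible (dt θ).toBlocks₁₁ := Matrix.invertibleOfIsUnitDet _ hd2.ne'.isUnit
      have h3 : (dt θ).det = (dt θ).toBlocks₁₁.det * (σm θ).det := by
        conv_lhs => rw [← fromBlocks_toBlocks (dt θ), det_fromBlocks₁₁]
        rw [hσm]
        simp only [invOf_eq_nonsing_inv]
      have h4 : (σm θ).det = σm θ 0 0 := Matrix.det_fin_one _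
      rw [← h4]
      rw [h3] at hd1
      exact (mul_pos_iff_of_pos_left hd2).1 hd1
    have hσne : ∀ᶠ z in GF, σM z 0 0 ≠ 0 := by
      rcases (bσ 0 0).dich with h | h
      · exfalso
        have h1 := GF.cone h
        obtain ⟨θ, h2, h3, h4⟩ := (h1.and (lσ.and pσ)).exists
        have := tendsto_neBot θ
        have t1 := tendsto_entry (h3 1) 0 0
        have t2 : Tendsto (fun z => σM z 0 0) (𝓝[{z : ℂ | ‖z‖ < 1 ∧ ‖z - pt θ‖ ≤ 1 * (1 - ‖z‖)}] (pt θ))
            (𝓝 0) := tendsto_const_nhds.congr' ((h2 1).mono fun z hz => hz.symm)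
        exact h4.ne' (tendsto_nhds_unique t1 t2)
      · exact h
    have hlog := ((bσ 0 0).bv_ne hσne (b := fun θ => σm θ 0 0) (by
      filter_upwards [lσ] with θ h
      exact tendsto_entry h.radial 0 0)).2
    obtain ⟨ρ, bρ, ρb, lρ, hρ⟩ := scalar_factor (hlog.div_const 2)
    -- the factor
    obtain ⟨X, hX⟩ : ∃ X : ℂ → Matrix (Fin n) (Fin 1) ℂ,
      X = fun z => R z * ((Dt z).toBlocks₁₁⁻¹ * (Dt z).toBlocks₁₂) := ⟨_, rfl⟩
    obtain ⟨x, hx⟩ : ∃ x : ℝ → Matrix (Fin n) (Fin 1) ℂ,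
      x = fun θ => r θ * ((dt θ).toBlocks₁₁⁻¹ * (dt θ).toBlocks₁₂) := ⟨_, rfl⟩
    have bX : MP (BddType disc) X := by
      rw [hX]
      exact Alg.bt.mm bR (Alg.bt.mm bI b12)
    have lX : ∀ᵐ θ ∂m, NTLim X (pt θ) (x θ) := by
      filter_upwards [lR, lI, lDt] with θ h1 h2 h3 K
      rw [hX, hx]
      exact tendsto_mm (h1 K) (tendsto_mm (h2 K) (tendsto_b12 (h3 K)))
    obtain ⟨Rt, hRt⟩ : ∃ Rt : ℂ → Matrix (Fin n ⊕ Fin 1) (Fin n ⊕ Fin 1) ℂ,
      Rt = fun z => fromBlocks (R z) (X z) 0 (ρ z • 1) := ⟨_, rfl⟩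
    obtain ⟨rt, hrt⟩ : ∃ rt : ℝ → Matrix (Fin n ⊕ Fin 1) (Fin n ⊕ Fin 1) ℂ,
      rt = fun θ => fromBlocks (r θ) (x θ) 0 (ρb θ • 1) := ⟨_, rfl⟩
    have bRt : MP (BddType disc) Rt := by
      intro i k
      rw [hRt]
      rcases i with i | i <;> rcases k with k | k
      · exact bR i k
      · exact bX i k
      · exact BddType.const 0
      · exact Alg.bt.msmul bρ (Alg.bt.mconst (1 : Matrix (Fin 1) (Fin 1) ℂ)) i k
    have lRt : ∀ᵐ θ ∂m, NTLim Rt (pt θ) (rt θ) := by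
      filter_upwards [lR, lX, lρ] with θ h1 h2 h3 K
      rw [hRt, hrt]
      refine tendsto_mat fun i k => ?_
      rcases i with i | i <;> rcases k with k | k
      · exact tendsto_entry (h1 K) i k
      · exact tendsto_entry (h2 K) i k
      · exact tendsto_const_nhds
      · exact (h3 K).mul_const _
    have hrr : ∀ᵐ θ ∂m, (rt θ)ᴴ * rt θ = dt θ := by
      filter_upwards [hr, hρ, pσ, pdt, pdt11] with θ h1 h2 h3 h4 h5
      have hherm : (dt θ)ᴴ = dt θ := h4.1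
      have h21 : (dt θ).toBlocks₁₂ᴴ = (dt θ).toBlocks₂₁ := by
        have h6 := hherm
        rw [← fromBlocks_toBlocks (dt θ), fromBlocks_conjTranspose] at h6
        exact (fromBlocks_inj.1 h6).2.2.1
      have h11 : (dt θ).toBlocks₁₁ᴴ = (dt θ).toBlocks₁₁ := h5.1
      have hu : IsUnit (dt θ).toBlocks₁₁.det := h5.det_pos.ne'.isUnit
      have e12 : (r θ)ᴴ * x θ = (dt θ).toBlocks₁₂ := by
        rw [hx]
        simp only
        rw [← Matrix.mul_assoc, h1, ← Matrix.mul_assoc, Matrix.mul_nonsing_inv _ hu, Matrix.one_mul]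
      have e21 : (x θ)ᴴ * r θ = (dt θ).toBlocks₂₁ := by
        have := congrArg conjTranspose e12
        rwa [conjTranspose_mul, conjTranspose_conjTranspose, h21] at this
      have e22 : (x θ)ᴴ * x θ + (ρb θ • (1 : Matrix (Fin 1) (Fin 1) ℂ))ᴴ * (ρb θ • 1) = (dt θ).toBlocks₂₂ := by
        have h6 : (x θ)ᴴ * x θ = (dt θ).toBlocks₂₁ * (dt θ).toBlocks₁₁⁻¹ * (dt θ).toBlocks₁₂ := by
          conv_lhs => rw [hx]
          simp only
          have h7 : (r θ * ((dt θ).toBlocks₁₁⁻¹ * (dt θ).toBlocks₁₂))ᴴ * r θ = (dt θ).toBlocks₂₁ := by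
            rw [← e21, hx]
          rw [← Matrix.mul_assoc, h7, ← Matrix.mul_assoc]
        have h7 := sq_of_log h3 h2
        have h8 : (ρb θ • (1 : Matrix (Fin 1) (Fin 1) ℂ))ᴴ * (ρb θ • 1) = σm θ := by
          ext i k
          have hi : i = 0 := Subsingleton.elim _ _
          have hk : k = 0 := Subsingleton.elim _ _
          rw [hi, hk, ← h7]
          simp [Matrix.mul_apply]
        rw [h6, h8, hσm]
        simp
      rw [hrt]
      simp only
      rw [fromBlocks_conjTranspose, fromBlocks_multiply, conjTranspose_zero]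
      simp only [Matrix.mul_zero, Matrix.zero_mul, add_zero]
      rw [h1, e12, e21, e22, fromBlocks_toBlocks]
    refine ⟨fun z => (Rt z).submatrix e.symm e.symm, fun θ => (rt θ).submatrix e.symm e.symm,
      fun i k => bRt (e.symm i) (e.symm k), ?_, ?_⟩
    · filter_upwards [lRt] with θ h K
      exact tendsto_mat fun i k => tendsto_entry (h K) (e.symm i) (e.symm k)
    · filter_upwards [hrr] with θ h
      rw [conjTranspose_submatrix, submatrix_mul_equiv, h, hdt]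
      simp

end Run7.h308
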