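import Mathlib

set_option autoImplicit false

namespace Run7.h308

open MeasureTheory Filter Topology Matrix
open scoped ComplexOrder

/-- The point `e^{iθ}` of the unit circle. -/
noncomputable def pt (θ : ℝ) : ℂ := Complex.exp (θ * Complex.I)

/-- Normalised Lebesgue measure on the unit circle, parametrised by the angle in `(0, 2π]`. -/
noncomputable def m : Measure ℝ :=
  ENNReal.ofReal (2 * Real.pi)⁻¹ • (volume.restrict (Set.Ioc 0 (2 * Real.pi)))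

/-- The open unit disc. -/
def disc : Set ℂ := Metric.ball 0 1

/-- The exterior `{|z| > 1}` of the closed unit disc (a bounded holomorphic function on it extends
to the point at infinity). -/
def extr : Set ℂ := {z | 1 < ‖z‖}

/-- `L` is the nontangential limit of `F` at the point `ζ` of the circle, from inside the disc. -/
def NTLim {E : Type} [TopologicalSpace E] (F : ℂ → E) (ζ : ℂ) (L : E) : Prop :=
  ∀ K : ℝ, Tendsto F (𝓝[{z : ℂ | ‖z‖ < 1 ∧ ‖z - ζ‖ ≤ K * (1 - ‖z‖)}] ζ) (𝓝 L)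

/-- `L` is the nontangential limit of `F` at the point `ζ` of the circle, from outside. -/
def NTLimExt {E : Type} [TopologicalSpace E] (F : ℂ → E) (ζ : ℂ) (L : E) : Prop :=
  ∀ K : ℝ, Tendsto F (𝓝[{z : ℂ | 1 < ‖z‖ ∧ ‖z - ζ‖ ≤ K * (‖z‖ - 1)}] ζ) (𝓝 L)

/-- Bounded holomorphic functions on `D`. -/
def BddHolOn (D : Set ℂ) (g : ℂ → ℂ) : Prop :=
  DifferentiableOn ℂ g D ∧ ∃ C : ℝ, ∀ z ∈ D, ‖g z‖ ≤ C

/-- `f` and `F` agree on `D` off the zeros of some bounded holomorphic function which does not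
vanish identically (they are the same meromorphic function). -/
def EqOff (D : Set ℂ) {E : Type} (f F : ℂ → E) : Prop :=
  ∃ h : ℂ → ℂ, BddHolOn D h ∧ (∃ z ∈ D, h z ≠ 0) ∧ ∀ z ∈ D, h z ≠ 0 → f z = F z

/-- Meromorphic functions of bounded type on `D`: quotients of bounded holomorphic functions
(the values at zeros of the denominator are irrelevant). -/
def BddType (D : Set ℂ) (f : ℂ → ℂ) : Prop :=
  ∃ g h : ℂ → ℂ, BddHolOn D g ∧ BddHolOn D h ∧ (∃ z ∈ D, h z ≠ 0) ∧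
    ∀ z ∈ D, h z ≠ 0 → f z = g z / h z

/-- The signature matrix `j = diag (I_p, -I_q)`. -/
def J (p q : ℕ) : Matrix (Fin p ⊕ Fin q) (Fin p ⊕ Fin q) ℂ := Matrix.fromBlocks 1 0 0 (-1)

/-- The matrix function `F` is analytic at `z`. -/
def AnAt {ι κ : Type} (F : ℂ → Matrix ι κ ℂ) (z : ℂ) : Prop :=
  ∀ i k, AnalyticAt ℂ (fun w => F w i k) z

/-- The class `𝒰(p,q)` of `j`-inner functions. -/
structure JInner (p q : ℕ) (W : ℂ → Matrix (Fin p ⊕ Fin q) (Fin p ⊕ Fin q) ℂ) : Prop where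
  bddType : ∀ i k, BddType disc (fun z => W z i k)
  det : ∃ z ∈ disc, AnAt W z ∧ (W z).det ≠ 0
  contr : ∀ z ∈ disc, AnAt W z → (J p q - (W z)ᴴ * J p q * W z).PosSemidef
  bdry : ∀ᵐ θ ∂m, ∃ L, NTLim W (pt θ) L ∧ Lᴴ * J p q * L = J p q

/-- `p × q` Schur functions. -/
def Schur {p q : ℕ} (f : ℂ → Matrix (Fin p) (Fin q) ℂ) : Prop :=
  (∀ i k, DifferentiableOn ℂ (fun z => f z i k) disc) ∧
    ∀ z ∈ disc, (1 - (f z)ᴴ * f z).PosSemidef

/-- `f = η_W = W₁₂ W₂₂⁻¹`. -/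
def IsEta {p q : ℕ} (W : ℂ → Matrix (Fin p ⊕ Fin q) (Fin p ⊕ Fin q) ℂ)
    (f : ℂ → Matrix (Fin p) (Fin q) ℂ) : Prop :=
  ∀ z ∈ disc, AnAt W z → f z = (W z).toBlocks₁₂ * ((W z).toBlocks₂₂)⁻¹

/-- The Smirnov class `𝒩₊` of holomorphic functions. -/
structure Smirnov (F : ℂ → ℂ) : Prop where
  holo : DifferentiableOn ℂ F disc
  bddType : BddType disc F
  sup : ∃ b : ℝ → ℂ, (∀ᵐ θ ∂m, NTLim F (pt θ) (b θ)) ∧
    (⨆ r ∈ Set.Ico (0 : ℝ) 1, ∫⁻ θ, ENNReal.ofReal (Real.posLog ‖F (r * pt θ)‖) ∂m) =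
      ∫⁻ θ, ENNReal.ofReal (Real.posLog ‖b θ‖) ∂m ∧
    ∫⁻ θ, ENNReal.ofReal (Real.posLog ‖b θ‖) ∂m < ⊤

/-- The meromorphic function `f` is (represented by) a function of class `𝒩₊`. -/
def InSmirnov (f : ℂ → ℂ) : Prop := ∃ F, Smirnov F ∧ EqOff disc f F

/-- A-singular functions: `W` and `W⁻¹` are in `𝒩₊`. -/
def ASingular {p q : ℕ} (W : ℂ → Matrix (Fin p ⊕ Fin q) (Fin p ⊕ Fin q) ℂ) : Prop :=
  (∀ i k, InSmirnov (fun z => W z i k)) ∧ (∀ i k, InSmirnov (fun z => (W z)⁻¹ i k))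

/-- The class `𝒰_lr(p,q)` of left regular `j`-inner functions: those without non-constant
A-singular right divisor. -/
def LeftRegular {p q : ℕ} (W : ℂ → Matrix (Fin p ⊕ Fin q) (Fin p ⊕ Fin q) ℂ) : Prop :=
  JInner p q W ∧ ∀ W₁ : ℂ → Matrix (Fin p ⊕ Fin q) (Fin p ⊕ Fin q) ℂ,
    JInner p q W₁ → ASingular W₁ → JInner p q (fun z => W z * (W₁ z)⁻¹) →
      ∃ C, EqOff disc W₁ (fun _ => C)

/-- `f` has a pseudocontinuation. -/
def HasPseudocontinuation {p q : ℕ} (f : ℂ → Matrix (Fin p) (Fin q) ℂ) : Prop :=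
  ∃ g : ℂ → Matrix (Fin p) (Fin q) ℂ, (∀ i k, BddType extr (fun z => g z i k)) ∧
    ∀ᵐ θ ∂m, ∃ L, NTLim f (pt θ) L ∧ NTLimExt g (pt θ) L

/-- `∫ log det (I - f f*) dm > -∞` for the boundary function of `f`. -/
def LogDetIntegrable {p q : ℕ} (f : ℂ → Matrix (Fin p) (Fin q) ℂ) : Prop :=
  ∃ b : ℝ → Matrix (Fin p) (Fin q) ℂ, (∀ᵐ θ ∂m, NTLim f (pt θ) (b θ)) ∧
    (∀ᵐ θ ∂m, 0 < (1 - b θ * (b θ)ᴴ).det.re) ∧
    Integrable (fun θ => Real.log (1 - b θ * (b θ)ᴴ).det.re) m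

end Run7.h308
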