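import Pool.Agent.Run7.h308.MatA

set_option autoImplicit false
set_option maxHeartbeats 800000

namespace Run7.h308

open Matrix
open scoped ComplexOrder

variable {p q : ℕ}

lemma ns_single_sub {q : ℕ} (k : Fin q) (a : Fin q → ℂ) :
    ns (Pi.single k 1 - a) = 1 - 2 * (a k).re + ns a := by
  have h : ∀ b c : ℂ, ‖b - c‖ ^ 2 = ‖b‖ ^ 2 - 2 * (b * (starRingEnd ℂ) c).re + ‖c‖ ^ 2 := by
    intro b c
    rw [← Complex.normSq_eq_norm_sq, ← Complex.normSq_eq_norm_sq, ← Complex.normSq_eq_norm_sq,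
      Complex.normSq_sub]
    ring
  unfold ns
  simp_rw [Pi.sub_apply, h]
  rw [Finset.sum_add_distrib, Finset.sum_sub_distrib]
  have h1 := ns_single (ι := Fin q) k
  unfold ns at h1
  rw [h1]
  congr 2
  rw [Finset.sum_eq_single k]
  · simp
  · intro b _ hb
    simp [hb]
  · simp

lemma ptwise {u : Matrix (Fin p ⊕ Fin q) (Fin p ⊕ Fin q) ℂ} (hu : JU u) {ε0 : Matrix (Fin p) (Fin q) ℂ}
    {g : Matrix (Fin q) (Fin p) ℂ} {y : Fin p → ℂ} {f l : Fin q → ℂ} {k : Fin q}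
    (h1 : u *ᵥ Sum.elim y f = Sum.elim (ε0 *ᵥ l) l) (h2 : g *ᵥ y + f = Pi.single k 1) :
    2 * (f k).re = 1 + (ns y - ns (g *ᵥ y)) + (ns l - ns (ε0 *ᵥ l)) := by
  have h3 := hu.qf (Sum.elim y f)
  rw [h1, qf_elim, qf_elim] at h3
  have hf : f = Pi.single k 1 - g *ᵥ y := by rw [← h2, add_sub_cancel_left]
  have h4 : ns f = 1 - 2 * ((g *ᵥ y) k).re + ns (g *ᵥ y) := by rw [hf, ns_single_sub]
  have h5 : (f k).re = 1 - ((g *ᵥ y) k).re := by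
    rw [hf, Pi.sub_apply, Pi.single_eq_same, Complex.sub_re, Complex.one_re]
  rw [h5]
  linarith

lemma ptwise_bound {ε0 : Matrix (Fin p) (Fin q) ℂ}
    {g : Matrix (Fin q) (Fin p) ℂ} {y : Fin p → ℂ} {f l : Fin q → ℂ} {k : Fin q}
    (h2 : g *ᵥ y + f = Pi.single k 1)
    (h3 : 2 * (f k).re = 1 + (ns y - ns (g *ᵥ y)) + (ns l - ns (ε0 *ᵥ l)))
    (hl : ns (ε0 *ᵥ l) ≤ ns l) (hg : ns (g *ᵥ y) ≤ ns y) {w : ℝ} (hw0 : 0 ≤ w)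
    (hw : ns y ≤ w * (ns y - ns (g *ᵥ y))) (j : Fin p) : ‖y j‖ ≤ 1 + 3 * w := by
  have hf : f = Pi.single k 1 - g *ᵥ y := by rw [← h2, add_sub_cancel_left]
  have h5 : (f k).re = 1 - ((g *ᵥ y) k).re := by
    rw [hf, Pi.sub_apply, Pi.single_eq_same, Complex.sub_re, Complex.one_re]
  obtain ⟨Y, hY⟩ : ∃ Y, Y = Real.sqrt (ns y) := ⟨_, rfl⟩
  have hY0 : 0 ≤ Y := by rw [hY]; exact Real.sqrt_nonneg _
  have hY2 : Y ^ 2 = ns y := by rw [hY]; exact Real.sq_sqrt (ns_nonneg y)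
  have h6 : |((g *ᵥ y) k).re| ≤ Y := by
    refine (Complex.abs_re_le_norm _).trans ?_
    rw [hY]
    exact Real.le_sqrt_of_sq_le ((le_ns _ k).trans hg)
  have h7 := (abs_le.1 h6).1
  have h8 : ns y - ns (g *ᵥ y) ≤ 1 + 2 * Y := by
    rw [h5] at h3
    linarith
  have h9 : Y ^ 2 ≤ w * (1 + 2 * Y) := by
    rw [hY2]
    exact hw.trans (mul_le_mul_of_nonneg_left h8 hw0)
  have h10 : Y ≤ 1 + 3 * w := by
    by_contra hc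
    push Not at hc
    nlinarith
  refine le_trans ?_ h10
  rw [hY]
  exact Real.le_sqrt_of_sq_le (le_ns _ j)

/-- the form `D₀` -/
noncomputable def Qf (ε0 : Matrix (Fin p) (Fin q) ℂ) (a b : Fin q → ℂ) : ℂ :=
  star a ⬝ᵥ b - star (ε0 *ᵥ a) ⬝ᵥ (ε0 *ᵥ b)

lemma Qf_self (ε0 : Matrix (Fin p) (Fin q) ℂ) (a : Fin q → ℂ) :
    Qf ε0 a a = ((ns a - ns (ε0 *ᵥ a) : ℝ) : ℂ) := by
  unfold Qf
  rw [star_dot_self, star_dot_self]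
  push_cast
  rfl

lemma star_dot_comm {n : ℕ} (a b : Fin n → ℂ) : star b ⬝ᵥ a = (starRingEnd ℂ) (star a ⬝ᵥ b) := by
  rw [starRingEnd_apply, Matrix.star_dotProduct]
  

lemma Qf_cs {ε0 : Matrix (Fin p) (Fin q) ℂ} (hpos : ∀ a, ns (ε0 *ᵥ a) ≤ ns a) {a : Fin q → ℂ}
    (ha : 0 < ns a - ns (ε0 *ᵥ a)) (b : Fin q → ℂ) :
    ‖Qf ε0 a b‖ ^ 2 ≤ (ns a - ns (ε0 *ᵥ a)) * (ns b - ns (ε0 *ᵥ b)) := by
  set α : ℝ := ns a - ns (ε0 *ᵥ a) with hα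
  set γ := Qf ε0 a b with hγ
  have hαne : (α : ℂ) ≠ 0 := by exact_mod_cast ha.ne'
  have hconj : Qf ε0 b a = (starRingEnd ℂ) γ := by
    rw [hγ]
    unfold Qf
    rw [map_sub, ← star_dot_comm, ← star_dot_comm]
  have hexp : ∀ t : ℂ, Qf ε0 (b - t • a) (b - t • a) =
      Qf ε0 b b - t * Qf ε0 b a - (starRingEnd ℂ) t * Qf ε0 a b + (starRingEnd ℂ) t * t * Qf ε0 a a := by
    intro t
    unfold Qf
    rw [mulVec_sub, mulVec_smul]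
    simp only [star_sub, star_smul, sub_dotProduct, dotProduct_sub, smul_dotProduct, dotProduct_smul,
      smul_eq_mul, Complex.star_def]
    ring
  have h1 := hexp (γ / α)
  rw [hconj, ← hγ, Qf_self ε0 a, Qf_self, Qf_self, ← hα] at h1
  have h2 : γ / α * (starRingEnd ℂ) γ = ((‖γ‖ ^ 2 / α : ℝ) : ℂ) := by
    rw [div_mul_eq_mul_div, Complex.mul_conj, Complex.normSq_eq_norm_sq]
    push_cast
    rfl
  have h3 : (starRingEnd ℂ) (γ / α) * γ = ((‖γ‖ ^ 2 / α : ℝ) : ℂ) := by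
    rw [map_div₀, Complex.conj_ofReal, div_mul_eq_mul_div, mul_comm, Complex.mul_conj,
      Complex.normSq_eq_norm_sq]
    push_cast
    rfl
  have h4 : (starRingEnd ℂ) (γ / α) * (γ / α) * (α : ℂ) = ((‖γ‖ ^ 2 / α : ℝ) : ℂ) := by
    rw [mul_assoc, div_mul_cancel₀ _ hαne, h3]
  rw [h2, h3, h4] at h1
  have h5 : ns (b - (γ / α) • a) - ns (ε0 *ᵥ (b - (γ / α) • a)) =
      ns b - ns (ε0 *ᵥ b) - ‖γ‖ ^ 2 / α - ‖γ‖ ^ 2 / α + ‖γ‖ ^ 2 / α := by exact_mod_cast h1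
  have h6 := hpos (b - (γ / α) • a)
  have h7 : ‖γ‖ ^ 2 / α ≤ ns b - ns (ε0 *ᵥ b) := by linarith
  rw [div_le_iff₀ ha] at h7
  linarith

lemma eps_facts {M : Matrix (Fin p ⊕ Fin q) (Fin p ⊕ Fin q) ℂ} (hM : JC M)
    {ε0 : Matrix (Fin p) (Fin q) ℂ} (hε : ε0 = M.toBlocks₁₂ * M.toBlocks₂₂⁻¹) :
    ε0 * M.toBlocks₂₂ = M.toBlocks₁₂ ∧
    (∃ δ : ℝ, 0 < δ ∧ δ ≤ 1 ∧ ∀ a, δ * ns a ≤ ns a - ns (ε0 *ᵥ a)) ∧
    ∀ k : Fin q, 1 ≤ ns (M.toBlocks₂₂ *ᵥ Pi.single k 1) - ns (ε0 *ᵥ (M.toBlocks₂₂ *ᵥ Pi.single k 1)) := by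
  have hu : IsUnit M.toBlocks₂₂.det := hM.det22.isUnit
  have h1 : ε0 * M.toBlocks₂₂ = M.toBlocks₁₂ := by
    rw [hε, Matrix.mul_assoc, Matrix.nonsing_inv_mul _ hu, Matrix.mul_one]
  have h2 : ∀ b : Fin q → ℂ, ns b ≤ ns (M.toBlocks₂₂ *ᵥ b) - ns (ε0 *ᵥ (M.toBlocks₂₂ *ᵥ b)) := by
    intro b
    have h := hM (Sum.elim 0 b)
    rw [mulVec_elim, qf_elim, qf_elim] at h
    simp only [mulVec_zero, zero_add, ns_zero] at h
    rw [mulVec_mulVec, h1]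
    linarith
  refine ⟨h1, ?_, fun k => by have := h2 (Pi.single k 1); rwa [ns_single] at this⟩
  obtain ⟨S, hS⟩ : ∃ S, S = ∑ i, ∑ j, ‖M.toBlocks₂₂ i j‖ ^ 2 := ⟨_, rfl⟩
  have hS0 : 0 ≤ S := by
    rw [hS]
    exact Finset.sum_nonneg fun _ _ => Finset.sum_nonneg fun _ _ => by positivity
  refine ⟨1 / (1 + S), by positivity, ?_, fun a => ?_⟩
  · rw [div_le_one (by positivity)]
    linarith
  · obtain ⟨b, hb⟩ : ∃ b, b = M.toBlocks₂₂⁻¹ *ᵥ a := ⟨_, rfl⟩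
    have hab : M.toBlocks₂₂ *ᵥ b = a := by
      rw [hb, mulVec_mulVec, Matrix.mul_nonsing_inv _ hu, one_mulVec]
    have h3 := h2 b
    rw [hab] at h3
    have h4 := ns_mulVec_le M.toBlocks₂₂ b
    rw [hab, ← hS] at h4
    rw [div_mul_eq_mul_div, one_mul, div_le_iff₀ (by positivity)]
    have h5 := ns_nonneg b
    nlinarith

lemma inv_bound {ε0 : Matrix (Fin p) (Fin q) ℂ} {k : Matrix (Fin q) (Fin p) ℂ}
    (hk : ∀ x, ns (k *ᵥ x) ≤ ns x) {δ : ℝ} (hδ : 0 < δ) (hδ1 : δ ≤ 1)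
    (hε : ∀ a, δ * ns a ≤ ns a - ns (ε0 *ᵥ a)) (a : Fin q → ℂ) :
    ns a ≤ (2 / δ * (1 + 2 / δ)) * ns ((1 + k * ε0) *ᵥ a) := by
  have h1 : a = (1 + k * ε0) *ᵥ a - k *ᵥ (ε0 *ᵥ a) := by
    rw [add_mulVec, one_mulVec, mulVec_mulVec, add_sub_cancel_right]
  have h2 := ns_sub_le ((1 + k * ε0) *ᵥ a) (k *ᵥ (ε0 *ᵥ a)) (s := δ / 2) (by positivity)
  rw [← h1] at h2
  have h3 : ns (k *ᵥ (ε0 *ᵥ a)) ≤ (1 - δ) * ns a := by
    have := hk (ε0 *ᵥ a)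
    have := hε a
    linarith
  have h4 := ns_nonneg a
  have h5 : (1 + δ / 2) * ns (k *ᵥ (ε0 *ᵥ a)) ≤ (1 - δ / 2) * ns a := by
    have h6 := mul_le_mul_of_nonneg_left h3 (show 0 ≤ 1 + δ / 2 by positivity)
    have h7 : 0 ≤ δ ^ 2 / 2 * ns a := by positivity
    calc (1 + δ / 2) * ns (k *ᵥ (ε0 *ᵥ a)) ≤ (1 + δ / 2) * ((1 - δ) * ns a) := h6
      _ = (1 - δ / 2) * ns a - δ ^ 2 / 2 * ns a := by ring
      _ ≤ _ := by linarith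
  have h6 : δ / 2 * ns a ≤ (1 + 1 / (δ / 2)) * ns ((1 + k * ε0) *ᵥ a) := by linarith
  have h7 : (1 : ℝ) / (δ / 2) = 2 / δ := by field_simp
  rw [h7] at h6
  have h8 : ns a = 2 / δ * (δ / 2 * ns a) := by field_simp
  rw [h8]
  calc 2 / δ * (δ / 2 * ns a) ≤ 2 / δ * ((1 + 2 / δ) * ns ((1 + k * ε0) *ᵥ a)) :=
        mul_le_mul_of_nonneg_left h6 (by positivity)
    _ = _ := by ring

end Run7.h308
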