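import Pool.Agent.Run7.h308.BT
import Pool.Agent.Run7.h308.MatB

set_option autoImplicit false
set_option maxHeartbeats 800000

namespace Run7.h308

open Matrix MeasureTheory Filter Topology Set

/-- classes of functions closed under the algebra operations -/
structure Alg (P : (ℂ → ℂ) → Prop) : Prop where
  const : ∀ c : ℂ, P (fun _ => c)
  add : ∀ f g : ℂ → ℂ, P f → P g → P (fun z => f z + g z)
  mul : ∀ f g : ℂ → ℂ, P f → P g → P (fun z => f z * g z)

/-- matrix functions with entries in a class -/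
def MP (P : (ℂ → ℂ) → Prop) {ι κ : Type*} (M : ℂ → Matrix ι κ ℂ) : Prop := ∀ i k, P (fun z => M z i k)

namespace Alg
variable {P : (ℂ → ℂ) → Prop} (hP : Alg P)
include hP

lemma neg {f : ℂ → ℂ} (hf : P f) : P (fun z => - f z) := by
  have := hP.mul _ _ (hP.const (-1)) hf
  simpa using this

lemma sub {f g : ℂ → ℂ} (hf : P f) (hg : P g) : P (fun z => f z - g z) := by
  have := hP.add _ _ hf (hP.neg hg)
  simpa [sub_eq_add_neg] using this

lemma sum {ι : Type*} (s : Finset ι) {f : ι → ℂ → ℂ} (hf : ∀ i ∈ s, P (f i)) :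
    P (fun z => ∑ i ∈ s, f i z) := by
  classical
  induction s using Finset.induction_on with
  | empty => simpa using hP.const 0
  | insert i s hi ih =>
    have h1 := hP.add _ _ (hf i (Finset.mem_insert_self i s))
      (ih fun j hj => hf j (Finset.mem_insert_of_mem hj))
    simpa [Finset.sum_insert hi] using h1

lemma prod {ι : Type*} (s : Finset ι) {f : ι → ℂ → ℂ} (hf : ∀ i ∈ s, P (f i)) :
    P (fun z => ∏ i ∈ s, f i z) := by
  classical
  induction s using Finset.induction_on with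
  | empty => simpa using hP.const 1
  | insert i s hi ih =>
    have h1 := hP.mul _ _ (hf i (Finset.mem_insert_self i s))
      (ih fun j hj => hf j (Finset.mem_insert_of_mem hj))
    simpa [Finset.prod_insert hi] using h1

lemma mm {ι κ l : Type*} [Fintype κ] {M : ℂ → Matrix ι κ ℂ} {N : ℂ → Matrix κ l ℂ}
    (hM : MP P M) (hN : MP P N) : MP P (fun z => M z * N z) := by
  intro i k
  simp only [mul_apply]
  exact hP.sum _ fun j _ => hP.mul _ _ (hM i j) (hN j k)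

lemma madd {ι κ : Type*} {M N : ℂ → Matrix ι κ ℂ}
    (hM : MP P M) (hN : MP P N) : MP P (fun z => M z + N z) := fun i k => hP.add _ _ (hM i k) (hN i k)

lemma msub {ι κ : Type*} {M N : ℂ → Matrix ι κ ℂ}
    (hM : MP P M) (hN : MP P N) : MP P (fun z => M z - N z) := fun i k => hP.sub (hM i k) (hN i k)

lemma mconst {ι κ : Type*} (C : Matrix ι κ ℂ) : MP P (fun _ => C) := fun _ _ => hP.const _

lemma msmul {ι κ : Type*} {c : ℂ → ℂ} (hc : P c) {M : ℂ → Matrix ι κ ℂ}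
    (hM : MP P M) : MP P (fun z => c z • M z) := fun i k => hP.mul _ _ hc (hM i k)

lemma det {ι : Type*} [Fintype ι] [DecidableEq ι] {M : ℂ → Matrix ι ι ℂ} (hM : MP P M) :
    P (fun z => (M z).det) := by
  simp only [det_apply']
  refine hP.sum _ fun σ _ => hP.mul _ _ (hP.const _) (hP.prod _ fun i _ => hM _ _)

lemma adj {ι : Type*} [Fintype ι] [DecidableEq ι] {M : ℂ → Matrix ι ι ℂ} (hM : MP P M) :
    MP P (fun z => (M z).adjugate) := by
  intro i k
  simp only [adjugate_apply]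
  refine hP.det (M := fun z => (M z).updateRow k (Pi.single i 1)) fun a b => ?_
  by_cases h : a = k
  · subst h
    simp only [updateRow_self]
    exact hP.const _
  · simp only [updateRow_ne h]
    exact hM a b

lemma inv {ι : Type*} [Fintype ι] [DecidableEq ι] {M : ℂ → Matrix ι ι ℂ} (hM : MP P M)
    (hd : P (fun z => ((M z).det)⁻¹)) : MP P (fun z => (M z)⁻¹) := by
  intro i k
  have h1 : P (fun z => (M z).det⁻¹ * (M z).adjugate i k) := hP.mul _ _ hd (hP.adj hM i k)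
  refine cast (congrArg P ?_) h1
  funext z
  simp only [inv_def, Matrix.smul_apply, smul_eq_mul, Ring.inverse_eq_inv']

end Alg

lemma Alg.bt : Alg (BddType disc) :=
  ⟨fun c => BddType.const c, fun _ _ h1 h2 => h1.add h2, fun _ _ h1 h2 => h1.mul h2⟩

lemma Alg.sm : Alg Sm := ⟨fun c => Sm.const c, fun _ _ h1 h2 => h1.add h2, fun _ _ h1 h2 => h1.mul h2⟩

lemma Alg.bdd : Alg (BddHolOn disc) :=
  ⟨fun c => BddHolOn.const _ c, fun _ _ h1 h2 => h1.add h2, fun _ _ h1 h2 => h1.mul h2⟩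

lemma Alg.diff : Alg (fun f => DifferentiableOn ℂ f disc) :=
  ⟨fun _ => differentiableOn_const _, fun _ _ h1 h2 => h1.add h2, fun _ _ h1 h2 => h1.mul h2⟩

lemma Alg.an (z : ℂ) : Alg (fun f => AnalyticAt ℂ f z) :=
  ⟨fun _ => analyticAt_const, fun _ _ h1 h2 => h1.add h2, fun _ _ h1 h2 => h1.mul h2⟩

lemma MP.bt_inv {ι : Type*} [Fintype ι] [DecidableEq ι] {M : ℂ → Matrix ι ι ℂ}
    (hM : MP (BddType disc) M) : MP (BddType disc) (fun z => (M z)⁻¹) :=
  Alg.bt.inv hM (Alg.bt.det hM).inv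

lemma MP.mono {P Q : (ℂ → ℂ) → Prop} (h : ∀ f, P f → Q f) {ι κ : Type*} {M : ℂ → Matrix ι κ ℂ}
    (hM : MP P M) : MP Q M := fun i k => h _ (hM i k)

lemma MP.cont {ι κ : Type*} {M : ℂ → Matrix ι κ ℂ}
    (hM : MP (fun f => DifferentiableOn ℂ f disc) M) : ContinuousOn M disc :=
  continuousOn_pi.2 fun i => continuousOn_pi.2 fun k => (hM i k).continuousOn

lemma Sm.diff {f : ℂ → ℂ} (h : Sm f) : DifferentiableOn ℂ f disc := h.1

lemma MP.sm_cont {ι κ : Type*} {M : ℂ → Matrix ι κ ℂ} (hM : MP Sm M) : ContinuousOn M disc :=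
  MP.cont (hM.mono fun _ h => h.1)

lemma MP.bdd_cont {ι κ : Type*} {M : ℂ → Matrix ι κ ℂ} (hM : MP (BddHolOn disc) M) : ContinuousOn M disc :=
  MP.cont (hM.mono fun _ h => h.1)

lemma MP.bdd_sm {ι κ : Type*} {M : ℂ → Matrix ι κ ℂ} (hM : MP (BddHolOn disc) M) : MP Sm M :=
  hM.mono fun _ h => Sm.of_bdd h

/-- combine entrywise limits -/
lemma bv_mat {ι κ : Type} [Finite ι] [Finite κ] {M : ℂ → Matrix ι κ ℂ}
    (h : ∀ i k, ∃ b : ℝ → ℂ, ∀ᵐ θ ∂m, NTLim (fun z => M z i k) (pt θ) (b θ)) :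
    ∃ b : ℝ → Matrix ι κ ℂ, ∀ᵐ θ ∂m, NTLim M (pt θ) (b θ) := by
  choose b hb using h
  refine ⟨fun θ => fun i k => b i k θ, ?_⟩
  have h1 : ∀ᵐ θ ∂m, ∀ i k, NTLim (fun z => M z i k) (pt θ) (b i k θ) := by
    rw [ae_all_iff]
    intro i
    rw [ae_all_iff]
    exact hb i
  filter_upwards [h1] with θ h2 K
  exact tendsto_pi_nhds.2 fun i => tendsto_pi_nhds.2 fun k => h2 i k K

lemma MP.sm_bv {ι κ : Type} [Finite ι] [Finite κ] {M : ℂ → Matrix ι κ ℂ} (hM : MP Sm M) :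
    ∃ b : ℝ → Matrix ι κ ℂ, ∀ᵐ θ ∂m, NTLim M (pt θ) (b θ) := bv_mat fun i k => (hM i k).bv

lemma MP.bdd_bv {ι κ : Type} [Finite ι] [Finite κ] {M : ℂ → Matrix ι κ ℂ} (hM : MP (BddHolOn disc) M) :
    ∃ b : ℝ → Matrix ι κ ℂ, ∀ᵐ θ ∂m, NTLim M (pt θ) (b θ) := bv_mat fun i k => exists_BV (hM i k)

lemma tendsto_mm {α ι κ l : Type*} [Fintype κ] {F : Filter α} {M : α → Matrix ι κ ℂ} {N : α → Matrix κ l ℂ}
    {a : Matrix ι κ ℂ} {b : Matrix κ l ℂ} (hM : Tendsto M F (𝓝 a)) (hN : Tendsto N F (𝓝 b)) :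
    Tendsto (fun z => M z * N z) F (𝓝 (a * b)) := by
  have h : Continuous (fun x : Matrix ι κ ℂ × Matrix κ l ℂ => x.1 * x.2) := by
    apply Continuous.matrix_mul
    · exact continuous_fst
    · exact continuous_snd
  have h2 : Tendsto (fun z => ((M z, N z) : Matrix ι κ ℂ × Matrix κ l ℂ)) F (𝓝 (a, b)) :=
    hM.prodMk_nhds hN
  have h3 : Tendsto (fun x : Matrix ι κ ℂ × Matrix κ l ℂ => x.1 * x.2) (𝓝 (a, b)) (𝓝 (a * b)) :=
    h.tendsto (a, b)
  exact h3.comp h2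

lemma tendsto_entry {α ι κ : Type*} {F : Filter α} {M : α → Matrix ι κ ℂ}
    {a : Matrix ι κ ℂ} (hM : Tendsto M F (𝓝 a)) (i : ι) (k : κ) :
    Tendsto (fun z => M z i k) F (𝓝 (a i k)) :=
  tendsto_pi_nhds.1 (tendsto_pi_nhds.1 hM i) k

lemma tendsto_mat {α ι κ : Type*} {F : Filter α} {M : α → Matrix ι κ ℂ}
    {a : Matrix ι κ ℂ} (h : ∀ i k, Tendsto (fun z => M z i k) F (𝓝 (a i k))) : Tendsto M F (𝓝 a) :=
  tendsto_pi_nhds.2 fun i => tendsto_pi_nhds.2 fun k => h i k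

lemma tendsto_b11 {α ι κ ι' κ' : Type*} {F : Filter α} {M : α → Matrix (ι ⊕ ι') (κ ⊕ κ') ℂ}
    {a : Matrix (ι ⊕ ι') (κ ⊕ κ') ℂ} (hM : Tendsto M F (𝓝 a)) :
    Tendsto (fun z => (M z).toBlocks₁₁) F (𝓝 a.toBlocks₁₁) :=
  tendsto_mat fun i k => tendsto_entry hM (Sum.inl i) (Sum.inl k)

lemma tendsto_b12 {α ι κ ι' κ' : Type*} {F : Filter α} {M : α → Matrix (ι ⊕ ι') (κ ⊕ κ') ℂ}
    {a : Matrix (ι ⊕ ι') (κ ⊕ κ') ℂ} (hM : Tendsto M F (𝓝 a)) :
    Tendsto (fun z => (M z).toBlocks₁₂) F (𝓝 a.toBlocks₁₂) :=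
  tendsto_mat fun i k => tendsto_entry hM (Sum.inl i) (Sum.inr k)

lemma tendsto_b21 {α ι κ ι' κ' : Type*} {F : Filter α} {M : α → Matrix (ι ⊕ ι') (κ ⊕ κ') ℂ}
    {a : Matrix (ι ⊕ ι') (κ ⊕ κ') ℂ} (hM : Tendsto M F (𝓝 a)) :
    Tendsto (fun z => (M z).toBlocks₂₁) F (𝓝 a.toBlocks₂₁) :=
  tendsto_mat fun i k => tendsto_entry hM (Sum.inr i) (Sum.inl k)

lemma tendsto_b22 {α ι κ ι' κ' : Type*} {F : Filter α} {M : α → Matrix (ι ⊕ ι') (κ ⊕ κ') ℂ}
    {a : Matrix (ι ⊕ ι') (κ ⊕ κ') ℂ} (hM : Tendsto M F (𝓝 a)) :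
    Tendsto (fun z => (M z).toBlocks₂₂) F (𝓝 a.toBlocks₂₂) :=
  tendsto_mat fun i k => tendsto_entry hM (Sum.inr i) (Sum.inr k)

lemma tendsto_mulVec {α ι κ : Type*} [Fintype κ] {F : Filter α} {M : α → Matrix ι κ ℂ}
    {a : Matrix ι κ ℂ} (hM : Tendsto M F (𝓝 a)) (x : κ → ℂ) :
    Tendsto (fun z => M z *ᵥ x) F (𝓝 (a *ᵥ x)) := by
  have h : Continuous (fun A : Matrix ι κ ℂ => A *ᵥ x) := Continuous.matrix_mulVec continuous_id continuous_const
  exact (h.tendsto a).comp hM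

lemma continuous_ns {ι : Type*} [Fintype ι] : Continuous (ns : (ι → ℂ) → ℝ) := by
  unfold ns
  fun_prop

variable {p q : ℕ}

lemma continuous_qf : Continuous (qf : (Fin p ⊕ Fin q → ℂ) → ℝ) := by
  unfold qf ns
  fun_prop

lemma AnAt.cont {ι κ : Type} {W : ℂ → Matrix ι κ ℂ} {z : ℂ} (h : AnAt W z) : ContinuousAt W z :=
  continuousAt_pi.2 fun i => continuousAt_pi.2 fun k => (h i k).continuousAt

/-- basic facts about `j`-inner functions -/
lemma JInner.ev {W : ℂ → Matrix (Fin p ⊕ Fin q) (Fin p ⊕ Fin q) ℂ} (h : JInner p q W) :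
    ∀ᶠ z in GF, AnAt W z ∧ JC (W z) ∧ (W z).det ≠ 0 := by
  have h1 : ∀ᶠ z in GF, AnAt W z := by
    have h2 : ∀ᶠ z in GF, ∀ i k, AnalyticAt ℂ (fun z => W z i k) z := by
      rw [eventually_all]
      intro i
      rw [eventually_all]
      intro k
      exact (h.bddType i k).an
    exact h2
  have h2 : ∀ᶠ z in GF, JC (W z) := by
    filter_upwards [h1, GF.disc] with z h3 h4
    exact (JC_iff _).1 (h.contr z h4 h3)
  have h3 : ∀ᶠ z in GF, (W z).det ≠ 0 := by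
    rcases (Alg.bt.det (M := W) h.bddType).dich with h4 | h4
    · exfalso
      obtain ⟨z, hz, hz1, hz2⟩ := h.det
      have h5 : AnalyticAt ℂ (fun z => (W z).det) z := (Alg.an z).det (M := W) hz1
      have h6 := h5.continuousAt.eventually_ne hz2
      have h7 : ∀ᶠ w in 𝓝[≠] z, (W w).det ≠ 0 := eventually_nhdsWithin_of_eventually_nhds h6
      obtain ⟨w, hw1, hw2⟩ := ((GF.punct h4 hz).and h7).exists
      exact hw2 hw1
    · exact h4
  filter_upwards [h1, h2, h3] with z a b c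
  exact ⟨a, b, c⟩

lemma JInner.kappa {W : ℂ → Matrix (Fin p ⊕ Fin q) (Fin p ⊕ Fin q) ℂ} (h : JInner p q W) :
    ∃ g : ℂ → Matrix (Fin q) (Fin p) ℂ, MP (BddHolOn disc) g ∧
      (∀ z ∈ disc, ∀ x, ns (g z *ᵥ x) ≤ ns x) ∧
      ∀ᶠ z in GF, g z = (W z).toBlocks₂₂⁻¹ * (W z).toBlocks₂₁ := by
  have hbt : MP (BddType disc) (fun z => (W z).toBlocks₂₂⁻¹ * (W z).toBlocks₂₁) := by
    refine Alg.bt.mm (MP.bt_inv (M := fun z => (W z).toBlocks₂₂) ?_) ?_
    · exact fun i k => h.bddType (Sum.inr i) (Sum.inr k)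
    · exact fun i k => h.bddType (Sum.inr i) (Sum.inl k)
  have hb : ∀ i k, ∀ᶠ z in GF, ‖((W z).toBlocks₂₂⁻¹ * (W z).toBlocks₂₁) i k‖ ≤ 1 := by
    intro i k
    filter_upwards [h.ev] with z hz
    have h1 := hz.2.1.kappa (Pi.single k 1)
    rw [ns_single] at h1
    have h2 := (le_ns _ i).trans h1
    rw [mulVec_single_one, col_apply] at h2
    exact (sq_le_one_iff₀ (norm_nonneg _)).1 h2
  choose g hg1 hg2 hg3 using fun i k => (hbt i k).ext (hb i k)
  have heq : ∀ᶠ z in GF, (fun i k => g i k z : Matrix (Fin q) (Fin p) ℂ) =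
      (W z).toBlocks₂₂⁻¹ * (W z).toBlocks₂₁ := by
    have : ∀ᶠ z in GF, ∀ i k, ((W z).toBlocks₂₂⁻¹ * (W z).toBlocks₂₁) i k = g i k z := by
      rw [eventually_all]
      intro i
      rw [eventually_all]
      intro k
      exact hg3 i k
    filter_upwards [this] with z hz
    ext i k
    exact (hz i k).symm
  refine ⟨fun z => fun i k => g i k z, fun i k => hg1 i k, ?_, heq⟩
  intro z hz x
  have hc : ContinuousOn (fun z => (fun i k => g i k z : Matrix (Fin q) (Fin p) ℂ)) disc :=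
    MP.bdd_cont (fun i k => hg1 i k)
  have hc2 : ContinuousOn (fun z => ns ((fun i k => g i k z : Matrix (Fin q) (Fin p) ℂ) *ᵥ x)) disc := by
    refine continuous_ns.comp_continuousOn ?_
    have h : Continuous (fun A : Matrix (Fin q) (Fin p) ℂ => A *ᵥ x) :=
      Continuous.matrix_mulVec continuous_id continuous_const
    exact h.comp_continuousOn hc
  refine cont_le hc2 (g := fun _ => ns x) continuousOn_const ?_ hz
  filter_upwards [heq, h.ev] with z h1 h2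
  rw [h1]
  exact h2.2.1.kappa x

/-- the boundary values of a `j`-inner function -/
lemma JInner.bv {W : ℂ → Matrix (Fin p ⊕ Fin q) (Fin p ⊕ Fin q) ℂ} (h : JInner p q W) :
    ∃ b : ℝ → Matrix (Fin p ⊕ Fin q) (Fin p ⊕ Fin q) ℂ, (∀ᵐ θ ∂m, NTLim W (pt θ) (b θ)) ∧
      (∀ᵐ θ ∂m, JU (b θ)) ∧ ∀ i k, AEStronglyMeasurable (fun θ => b θ i k) m ∧
        Integrable (fun θ => Real.posLog ‖b θ i k‖) m := by
  choose b hb1 hb2 hb3 using fun i k => (h.bddType i k).bv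
  have h1 : ∀ᵐ θ ∂m, ∀ i k, NTLim (fun z => W z i k) (pt θ) (b i k θ) := by
    rw [ae_all_iff]
    intro i
    rw [ae_all_iff]
    exact hb1 i
  have h2 : ∀ᵐ θ ∂m, NTLim W (pt θ) (fun i k => b i k θ) := by
    filter_upwards [h1] with θ h2 K
    exact tendsto_mat fun i k => h2 i k K
  refine ⟨fun θ => fun i k => b i k θ, h2, ?_, fun i k => ⟨hb2 i k, hb3 i k⟩⟩
  filter_upwards [h2, h.bdry] with θ h3 ⟨L, h4, h5⟩
  have h6 : L = (fun i k => b i k θ) := tendsto_nhds_unique h4.radial h3.radial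
  unfold JU
  rw [← h6]
  exact h5

end Run7.h308
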