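import Pool.Agent.Run7.h308.Defs

set_option autoImplicit false
set_option maxHeartbeats 800000

namespace Run7.h308

open Complex MeasureTheory Filter Topology Set Metric

lemma half_cone (Ψ : ℂ → ℂ) (hc : Continuous Ψ) (hd : ∀ w : ℂ, 0 < w.im → DifferentiableAt ℂ Ψ w)
    (B : ℝ) (hB : ∀ w, ‖Ψ w‖ ≤ B * ‖w‖)
    (h0 : ∀ η > 0, ∃ δ > 0, ∀ x : ℝ, |x| ≤ δ → ‖Ψ x‖ ≤ η * |x|) (K : ℝ) (hK : 0 ≤ K) :
    Tendsto (fun w => deriv Ψ w) (𝓝[{w : ℂ | 0 < w.im ∧ ‖w‖ ≤ K * w.im}] 0) (𝓝 0) := by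
  rw [Metric.tendsto_nhdsWithin_nhds]
  intro η' hη'
  obtain ⟨η, hη, rfl⟩ : ∃ η : ℝ, 0 < η ∧ η' = (2 * (K + 2) ^ 2 + 1) * η :=
    ⟨η' / (2 * (K + 2) ^ 2 + 1), by positivity, by field_simp⟩
  obtain ⟨δ, hδ, h1⟩ := h0 η hη
  refine ⟨min (δ / (2 * (K + 2))) (η * δ / (|B| + 1)), by positivity, fun {w₀} hw₀ h2 => ?_⟩
  obtain ⟨hw1, hw2⟩ := hw₀
  set ε := w₀.im with hε
  have hε' : 0 < ε := hw1
  rw [dist_zero_right, lt_min_iff, lt_div_iff₀ (by positivity),
    lt_div_iff₀ (by positivity)] at h2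
  have hεn : ε ≤ ‖w₀‖ := (le_abs_self _).trans (abs_im_le_norm _)
  have h2a : ε * (|B| + 1) < η * δ :=
    lt_of_le_of_lt (mul_le_mul_of_nonneg_right hεn (by positivity)) h2.2
  have h2b : ε * (2 * (K + 2)) < δ :=
    lt_of_le_of_lt (mul_le_mul_of_nonneg_right hεn (by positivity)) h2.1
  let U : Set ℂ := {w | 0 < w.im} ∩ ball 0 δ
  have hU : IsOpen U := (isOpen_lt continuous_const continuous_im).inter isOpen_ball
  have hcl : closure U ⊆ {w | 0 ≤ w.im} ∩ closedBall 0 δ := closure_minimal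
    (inter_subset_inter (fun w (hw : 0 < w.im) => hw.le) ball_subset_closedBall)
    ((isClosed_le continuous_const continuous_im).inter isClosed_closedBall)
  have hn : ∀ w : ℂ, 0 ≤ w.im → ‖w‖ ^ 2 + ε ^ 2 ≤ ‖w + ε * I‖ ^ 2 := fun w hw => by
    simp only [← normSq_eq_norm_sq, normSq_apply]
    simp
    nlinarith
  have hp : ∀ w : ℂ, 0 ≤ w.im → 0 < ‖w + ε * I‖ ^ 2 := fun w hw =>
    lt_of_lt_of_le (by positivity) (hn w hw)
  have hne : ∀ w : ℂ, 0 ≤ w.im → (w + ε * I) ^ 2 ≠ 0 := fun w hw =>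
    norm_pos_iff.1 (by rw [norm_pow]; exact hp w hw)
  have h3 : ∀ w ∈ closure U, ‖Ψ w / (w + ε * I) ^ 2‖ ≤ η / ε := fun w hw => by
    refine norm_le_of_forall_mem_frontier_norm_le (isBounded_ball.subset inter_subset_right)
      (f := fun w => Ψ w / (w + ε * I) ^ 2) ⟨fun z hz => ?_, ?_⟩ (fun z hz => ?_) hw
    · exact ((hd z hz.1).div (by fun_prop) (hne z (le_of_lt hz.1))).differentiableWithinAt
    · exact hc.continuousOn.div (by fun_prop) fun z hz => hne z (hcl hz).1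
    · have h4 := hcl hz.1
      have h5 : z ∉ U := fun h => hz.2 (by rwa [hU.interior_eq])
      have h6 := hn z h4.1
      have h7 : ‖z‖ ≤ δ := by simpa using h4.2
      rw [norm_div, norm_pow, div_le_div_iff₀ (hp z h4.1) hε']
      by_cases h8 : 0 < z.im
      · have h9 : ‖z‖ = δ := le_antisymm h7 (not_lt.1 fun h => h5 ⟨h8, by simpa using h⟩)
        have h10 := (hB z).trans (mul_le_mul_of_nonneg_right (le_abs_self B) (norm_nonneg _))
        rw [h9] at h6 h10
        have h11 := mul_le_mul_of_nonneg_right h10 hε'.le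
        have h12 := mul_le_mul_of_nonneg_left h6 hη.le
        nlinarith [mul_lt_mul_of_pos_right h2a hδ, mul_pos hε' hδ, mul_pos hη (pow_pos hε' 2)]
      · have h9 : z = (z.re : ℂ) := Complex.ext rfl (le_antisymm (not_lt.1 h8) h4.1)
        have h10 : |z.re| = ‖z‖ := by rw [h9]; simp
        have h11 := h1 z.re (by rwa [h10])
        rw [← h9, h10] at h11
        have h12 := mul_le_mul_of_nonneg_right h11 hε'.le
        have h13 : ‖z‖ * ε ≤ ‖z + ε * I‖ ^ 2 := by nlinarith [sq_nonneg (‖z‖ - ε)]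
        nlinarith [mul_le_mul_of_nonneg_left h13 hη.le]
  have hb : ∀ w ∈ closedBall w₀ (ε / 2), ‖w‖ ≤ (K + 1 / 2) * ε := fun w hw => by
    rw [mem_closedBall, dist_eq_norm] at hw
    have h6 := norm_add_le (w - w₀) w₀
    rw [sub_add_cancel] at h6
    linarith
  have h4 : ∀ w ∈ closedBall w₀ (ε / 2), w ∈ U := fun w hw => by
    have h7 := hb w hw
    rw [mem_closedBall, dist_eq_norm] at hw
    have h5 := (abs_im_le_norm _).trans hw
    rw [sub_im, ← hε, abs_le] at h5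
    refine ⟨show 0 < w.im by linarith, ?_⟩
    rw [mem_ball, dist_zero_right]
    nlinarith
  have h5 := norm_deriv_le_of_forall_mem_sphere_norm_le (half_pos hε') (C := (K + 2) ^ 2 * η * ε)
    (f := Ψ) (c := w₀) ⟨fun z hz => (hd z (h4 z (ball_subset_closedBall hz)).1).differentiableWithinAt,
      hc.continuousOn⟩ (fun z hz => by
      have hz' := sphere_subset_closedBall hz
      have h6 := h4 z hz'
      have h7 := h3 z (subset_closure h6)
      rw [norm_div, norm_pow, div_le_div_iff₀ (hp z (le_of_lt h6.1)) hε'] at h7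
      have h8 := norm_add_le z (ε * I)
      have h8' : ‖(ε : ℂ) * I‖ = ε := by simp [abs_of_pos hε']
      rw [h8'] at h8
      have h8'' := hb z hz'
      have h9 : ‖z + ε * I‖ ^ 2 ≤ ((K + 2) * ε) ^ 2 := pow_le_pow_left₀ (norm_nonneg _) (by linarith) 2
      refine le_of_mul_le_mul_right ?_ hε'
      nlinarith [mul_le_mul_of_nonneg_left h9 hη.le])
  rw [dist_zero_right]
  refine h5.trans_lt ?_
  rw [div_lt_iff₀ (half_pos hε')]
  nlinarith [mul_pos hη hε']

lemma norm_log_le {u : ℂ} (hu : ‖u - 1‖ ≤ 1 / 2) : ‖Complex.log u‖ ≤ 2 * ‖u - 1‖ := by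
  have h := Complex.norm_log_one_add_half_le_self (z := u - 1) hu
  rw [add_sub_cancel] at h
  have := norm_nonneg (u - 1)
  linarith

lemma norm_pt (θ : ℝ) : ‖pt θ‖ = 1 := Complex.norm_exp_ofReal_mul_I θ

lemma pt_ne (θ : ℝ) : pt θ ≠ 0 := Complex.exp_ne_zero _

theorem fatou_one (φ : ℂ → ℂ) (hφ : DifferentiableOn ℂ φ (ball 0 1))
    (hm : ∀ z, ‖z‖ < 1 → ‖φ z‖ ≤ 1) : ∀ᵐ t : ℝ, ∃ l, NTLim φ (pt t) l := by
  obtain ⟨P, hP⟩ := ((differentiableOn_dslope (ball_mem_nhds 0 one_pos)).2 hφ).isExactOn_ball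
  have hn : ∀ w : ℂ, 0 < w.im → ‖cexp (w * I)‖ < 1 := fun w hw => by
    rw [norm_exp, Real.exp_lt_one_iff]; simpa using hw
  have hΦ : ∀ w : ℂ, 0 < w.im →
      HasDerivAt (fun w => φ 0 * w - I * P (cexp (w * I))) (φ (cexp (w * I))) w := by
    intro w hw
    have h1 := ((hasDerivAt_id' w).const_mul (φ 0)).sub (((hP _ (by simpa using hn w hw)).comp w
      ((hasDerivAt_id' w).mul_const I).cexp).const_mul I)
    have h2 := sub_smul_dslope φ 0 (cexp (w * I))
    rw [sub_zero, smul_eq_mul] at h2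
    refine h1.congr_deriv ?_
    linear_combination h2 - dslope φ 0 (cexp (w * I)) * cexp (w * I) * (I_mul_I)
  obtain ⟨G, hG, hG1⟩ := ((convex_halfSpace_im_gt 0).lipschitzOnWith_of_nnnorm_hasDerivWithin_le
    (C := 1) (fun w hw => (hΦ w hw).hasDerivWithinAt)
    fun w hw => hm _ (hn w hw)).extend_finite_dimension
  have hG2 : ∀ w : ℂ, 0 < w.im → HasDerivAt G (φ (cexp (w * I))) w := fun w hw =>
    (hΦ w hw).congr_of_eventuallyEq (by
      filter_upwards [(isOpen_lt continuous_const continuous_im).mem_nhds hw] with z hz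
      exact (hG1 hz).symm)
  filter_upwards [(hG.comp isometry_ofReal.lipschitz).ae_differentiableAt (μ := volume)] with t ht
  obtain ⟨l, hl⟩ : ∃ l, HasDerivAt (G ∘ ofReal) l t := ⟨_, ht.hasDerivAt⟩
  have h1 : ∀ w : ℂ, 0 < w.im → HasDerivAt (fun w => G (t + w) - G t - l * w)
      (φ (cexp ((t + w) * I)) - l) w := fun w hw => by
    have := (((hG2 (t + w) (by simpa using hw)).comp_const_add (t : ℂ) w).sub_const (G t)).sub
      ((hasDerivAt_id' w).const_mul l)
    rwa [mul_one] at this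
  refine ⟨l, fun K => ?_⟩
  have h2 := half_cone (fun w => G (t + w) - G t - l * w) (by have := hG.continuous; fun_prop)
    (fun w hw => (h1 w hw).differentiableAt) (_ + ‖l‖) (fun w => by
      have := hG.norm_sub_le (t + w) t
      rw [add_sub_cancel_left] at this
      refine (norm_sub_le _ _).trans ?_
      rw [norm_mul, add_mul]
      exact add_le_add this le_rfl) (fun η hη => by
      have h3 := (hasDerivAt_iff_isLittleO_nhds_zero.1 hl).def hη
      obtain ⟨δ, hδ, h4⟩ := Metric.eventually_nhds_iff.1 h3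
      refine ⟨δ / 2, half_pos hδ, fun x hx => ?_⟩
      have := h4 (y := x) (by rw [dist_zero_right, Real.norm_eq_abs]; linarith)
      simpa [mul_comm l] using this) (2 * |K|) (by positivity)
  have h3 : Tendsto (fun z : ℂ => -I * Complex.log (z / pt t))
      (𝓝[{z : ℂ | ‖z‖ < 1 ∧ ‖z - pt t‖ ≤ K * (1 - ‖z‖)}] (pt t))
      (𝓝[{w : ℂ | 0 < w.im ∧ ‖w‖ ≤ 2 * |K| * w.im}] 0) := by
    have h4 : Tendsto (fun z : ℂ => z / pt t) (𝓝 (pt t)) (𝓝 1) := by
      have : Tendsto (fun z : ℂ => z / pt t) (𝓝 (pt t)) (𝓝 (pt t / pt t)) :=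
        (continuous_id.div_const _).tendsto _
      rwa [div_self (pt_ne t)] at this
    refine tendsto_nhdsWithin_iff.2 ⟨?_, ?_⟩
    · have h5 : Tendsto (fun z : ℂ => -I * Complex.log (z / pt t)) (𝓝 (pt t)) (𝓝 (-I * Complex.log 1)) :=
        (((continuousAt_clog (by simp)).tendsto.comp h4)).const_mul _
      simpa using h5.mono_left nhdsWithin_le_nhds
    · have h6 : ∀ᶠ z in 𝓝 (pt t), ‖z / pt t - 1‖ < 1 / 2 := by
        have := h4.eventually (Metric.ball_mem_nhds 1 (half_pos one_pos))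
        filter_upwards [this] with z hz
        rwa [dist_eq_norm] at hz
      have h6' : ∀ᶠ z in 𝓝 (pt t), z ≠ 0 := (continuousAt_id.eventually_ne (pt_ne t))
      filter_upwards [self_mem_nhdsWithin, nhdsWithin_le_nhds h6, nhdsWithin_le_nhds h6'] with z hz hz2 hz3
      have hzp : 0 < ‖z‖ := norm_pos_iff.2 hz3
      have him : (-I * Complex.log (z / pt t)).im = - Real.log ‖z‖ := by
        simp [Complex.log_re, norm_pt]
      have hlog : Real.log ‖z‖ < 0 := Real.log_neg hzp hz.1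
      have hlog2 : 1 - ‖z‖ ≤ - Real.log ‖z‖ := by
        have := Real.log_le_sub_one_of_pos hzp
        linarith
      refine ⟨by rw [him]; linarith, ?_⟩
      rw [him, norm_mul, norm_neg, norm_I, one_mul]
      refine (norm_log_le hz2.le).trans ?_
      have h7 : ‖z / pt t - 1‖ = ‖z - pt t‖ := by
        have : z / pt t - 1 = (z - pt t) / pt t := by
          rw [sub_div, div_self (pt_ne t)]
        rw [this, norm_div, norm_pt, div_one]
      rw [h7]
      have h8 : ‖z - pt t‖ ≤ |K| * (- Real.log ‖z‖) :=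
        hz.2.trans (mul_le_mul (le_abs_self K) hlog2 (by linarith [hz.1]) (abs_nonneg _))
      linarith
  have h4 := (h2.comp h3).add_const l
  rw [zero_add] at h4
  have h5 : ∀ᶠ z in 𝓝 (pt t), z ≠ 0 := (continuousAt_id.eventually_ne (pt_ne t))
  refine h4.congr' ?_
  filter_upwards [self_mem_nhdsWithin, nhdsWithin_le_nhds h5] with z hz hz3
  have hzp : 0 < ‖z‖ := norm_pos_iff.2 hz3
  have him : (-I * Complex.log (z / pt t)).im = - Real.log ‖z‖ := by
    simp [Complex.log_re, norm_pt]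
  have hlog : Real.log ‖z‖ < 0 := Real.log_neg hzp hz.1
  rw [Function.comp, (h1 _ (by rw [him]; linarith)).deriv, sub_add_cancel]
  congr 1
  have h7 : ((t : ℂ) + -I * Complex.log (z / pt t)) * I = t * I + Complex.log (z / pt t) := by
    linear_combination (-Complex.log (z / pt t)) * I_mul_I
  rw [h7, Complex.exp_add, Complex.exp_log (div_ne_zero hz3 (pt_ne t))]
  change pt t * (z / pt t) = z
  field_simp [pt_ne t]

lemma NTLim.const_mul {f : ℂ → ℂ} {ζ l : ℂ} (h : NTLim f ζ l) (c : ℂ) :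
    NTLim (fun z => c * f z) ζ (c * l) := fun K => (h K).const_mul c

/-- **Fatou's theorem** -/
theorem fatou {φ : ℂ → ℂ} (hφ : BddHolOn disc φ) : ∀ᵐ t : ℝ, ∃ l, NTLim φ (pt t) l := by
  obtain ⟨hd, C, hC⟩ := hφ
  have hC1 : 0 < |C| + 1 := by positivity
  have h := fatou_one (fun z => ((|C| + 1 : ℝ) : ℂ)⁻¹ * φ z) (hd.const_mul _) (fun z hz => by
    rw [norm_mul, norm_inv, Complex.norm_real, Real.norm_of_nonneg hC1.le, inv_mul_le_iff₀ hC1]
    have := hC z (by simpa [disc] using hz)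
    have := le_abs_self C
    linarith)
  filter_upwards [h] with t ht
  obtain ⟨l, hl⟩ := ht
  refine ⟨((|C| + 1 : ℝ) : ℂ) * l, ?_⟩
  have h2 := hl.const_mul (((|C| + 1 : ℝ) : ℂ))
  have hne : ((|C| + 1 : ℝ) : ℂ) ≠ 0 := by exact_mod_cast hC1.ne'
  have : (fun z => ((|C| + 1 : ℝ) : ℂ) * (((|C| + 1 : ℝ) : ℂ)⁻¹ * φ z)) = φ := by
    ext z; field_simp
  rw [this] at h2
  exact h2

end Run7.h308
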