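import Pool.Agent.Run7.h308.Herg

set_option autoImplicit false
set_option maxHeartbeats 800000

namespace Run7.h308

open Complex MeasureTheory Filter Topology Set Metric

instance factPi : Fact (0 < 2 * Real.pi) := ⟨two_pi_pos⟩

abbrev TT : Type := AddCircle (2 * Real.pi)

noncomputable abbrev muT : Measure TT := AddCircle.haarAddCircle

lemma mpT : MeasurePreserving (fun x : ℝ => (x : TT)) m muT := by
  have h := (AddCircle.measurePreserving_mk (2 * Real.pi) 0).smul_measure
    (ENNReal.ofReal (2 * Real.pi)⁻¹)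
  rw [zero_add] at h
  have e : ENNReal.ofReal (2 * Real.pi)⁻¹ • (volume : Measure TT) = muT := by
    rw [AddCircle.volume_eq_smul_haarAddCircle, smul_smul, ← ENNReal.ofReal_mul (by positivity),
      inv_mul_cancel₀ two_pi_pos.ne', ENNReal.ofReal_one, one_smul]
  rw [e] at h
  exact h

lemma ae_mem_Ioc : ∀ᵐ θ ∂m, θ ∈ Ioc (0 : ℝ) (2 * Real.pi) := by
  unfold m
  exact Measure.ae_smul_measure (ae_restrict_mem measurableSet_Ioc) _

lemma fourier_pt (n : ℤ) (θ : ℝ) : fourier n (θ : TT) = pt θ ^ n := by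
  rw [fourier_coe_apply]
  unfold pt
  rw [← Complex.exp_int_mul]
  congr 1
  have : (Real.pi : ℂ) ≠ 0 := by exact_mod_cast Real.pi_ne_zero
  push_cast
  field_simp

/-- trigonometric polynomials are dense in `L¹` -/
theorem dens {φ : ℝ → ℂ} (hφ : Integrable φ m) {ε : ℝ} (hε : 0 < ε) :
    ∃ a : ℤ →₀ ℂ, ∫ θ, ‖φ θ - a.sum (fun n c => c * pt θ ^ n)‖ ∂m < ε := by
  set φ' := hφ.1.mk φ with hφ'
  have hm : Measurable φ' := hφ.1.stronglyMeasurable_mk.measurable
  have hae : φ =ᵐ[m] φ' := hφ.1.ae_eq_mk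
  set Φ : TT → ℂ := fun t => φ' (AddCircle.equivIoc (2 * Real.pi) 0 t : ℝ) with hΦ
  have hΦm : Measurable Φ :=
    hm.comp (measurable_subtype_coe.comp (AddCircle.measurableEquivIoc (2 * Real.pi) 0).measurable)
  have hΦe : ∀ᵐ θ : ℝ ∂m, Φ (θ : TT) = φ θ := by
    filter_upwards [hae, ae_mem_Ioc] with θ h1 h2
    rw [hΦ, h1]
    simp only
    rw [AddCircle.equivIoc_coe_eq (by simpa using h2)]
  have hΦi : Integrable Φ muT := by
    rw [← mpT.integrable_comp hΦm.aestronglyMeasurable]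
    exact hφ.congr (by filter_upwards [hΦe] with θ h; exact h.symm)
  have hcl : hΦi.toL1 Φ ∈ (Submodule.span ℂ (range (@fourierLp (2 * Real.pi) _ 1 _))).topologicalClosure := by
    rw [span_fourierLp_closure_eq_top (by simp)]
    trivial
  have hmap : Submodule.span ℂ (range (@fourierLp (2 * Real.pi) _ 1 _)) =
      (Submodule.span ℂ (range (@fourier (2 * Real.pi)))).map
        (ContinuousMap.toLp (E := ℂ) 1 muT ℂ).toLinearMap := by
    rw [Submodule.map_span]
    unfold fourierLp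
    rw [range_comp']
    simp only [ContinuousLinearMap.coe_coe]
  rw [← SetLike.mem_coe, Submodule.topologicalClosure_coe, Metric.mem_closure_iff] at hcl
  obtain ⟨g, hg, hgd⟩ := hcl ε hε
  rw [hmap] at hg
  obtain ⟨P, hP, rfl⟩ := hg
  obtain ⟨a, ha⟩ := (Finsupp.mem_span_range_iff_exists_finsupp).1 hP
  refine ⟨a, ?_⟩
  rw [dist_eq_norm, L1.norm_eq_integral_norm] at hgd
  have h3 : ∫ t, ‖(hΦi.toL1 Φ - (ContinuousMap.toLp (E := ℂ) 1 muT ℂ) P : TT →₁[muT] ℂ) t‖ ∂muT =
      ∫ t, ‖Φ t - P t‖ ∂muT := by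
    refine integral_congr_ae ?_
    filter_upwards [Lp.coeFn_sub (hΦi.toL1 Φ) ((ContinuousMap.toLp (E := ℂ) 1 muT ℂ) P),
      hΦi.coeFn_toL1, ContinuousMap.coeFn_toLp (p := 1) (𝕜 := ℂ) muT P] with t h1 h2 h3
    rw [h1, Pi.sub_apply, h2, h3]
  have h4 : ∫ t, ‖Φ t - P t‖ ∂muT = ∫ θ, ‖φ θ - a.sum (fun n c => c * pt θ ^ n)‖ ∂m := by
    have hmm : Measurable (fun t : TT => ‖Φ t - P t‖) := (hΦm.sub P.continuous.measurable).norm
    rw [← mpT.map_eq, integral_map mpT.measurable.aemeasurable hmm.aestronglyMeasurable]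
    refine integral_congr_ae ?_
    filter_upwards [hΦe] with θ h
    rw [h, ← ha]
    congr 2
    rw [Finsupp.sum, Finsupp.sum, ContinuousMap.coe_sum, Finset.sum_apply]
    refine Finset.sum_congr rfl fun n _ => ?_
    rw [ContinuousMap.coe_smul, Pi.smul_apply, smul_eq_mul, fourier_pt]
  rw [← h4, ← h3]
  exact hgd

/-- uniqueness of Fourier coefficients for bounded functions -/
theorem ae_zero_of_four {w : ℝ → ℂ} (hw : AEStronglyMeasurable w m) {C : ℝ}
    (hC : ∀ᵐ θ ∂m, ‖w θ‖ ≤ C) (h : ∀ n : ℤ, ∫ θ, w θ * pt θ ^ n ∂m = 0) : ∀ᵐ θ ∂m, w θ = 0 := by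
  have hwi : Integrable w m := Integrable.of_bound hw C hC
  have hC0 : 0 ≤ |C| := abs_nonneg _
  have hci : Integrable (fun θ => (starRingEnd ℂ) (w θ)) m := by
    refine Integrable.of_bound ?_ C ?_
    · exact (Complex.continuous_conj.comp_aestronglyMeasurable hw)
    · filter_upwards [hC] with θ h1
      rwa [RCLike.norm_conj]
  have hsqi : Integrable (fun θ => ‖w θ‖ ^ 2) m := by
    refine Integrable.of_bound (hw.norm.pow 2) (|C| ^ 2) ?_
    filter_upwards [hC] with θ h1
    rw [norm_pow, norm_norm]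
    exact pow_le_pow_left₀ (norm_nonneg _) (h1.trans (le_abs_self _)) 2
  have key : ∀ ε : ℝ, 0 < ε → ∫ θ, ‖w θ‖ ^ 2 ∂m ≤ |C| * ε := by
    intro ε hε
    obtain ⟨a, ha⟩ := dens hci hε
    set P : ℝ → ℂ := fun θ => a.sum (fun n c => c * pt θ ^ n) with hP
    have hPc : Continuous P := by
      rw [hP]
      simp only [Finsupp.sum]
      refine continuous_finsetSum _ fun n _ => continuous_const.mul ?_
      exact continuous_pt.zpow₀ n fun θ => Or.inl (pt_ne θ)
    have hPi : Integrable P m := by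
      refine Integrable.of_bound hPc.aestronglyMeasurable (∑ n ∈ a.support, ‖a n‖)
        (Eventually.of_forall fun θ => ?_)
      rw [hP]
      simp only [Finsupp.sum]
      refine (norm_sum_le _ _).trans (Finset.sum_le_sum fun n _ => ?_)
      rw [norm_mul, norm_zpow, norm_pt, one_zpow, mul_one]
    have h1 : ∫ θ, w θ * P θ ∂m = 0 := by
      rw [hP]
      simp only [Finsupp.sum, Finset.mul_sum]
      rw [integral_finsetSum]
      · refine Finset.sum_eq_zero fun n _ => ?_
        have : ∀ θ, w θ * (a n * pt θ ^ n) = a n * (w θ * pt θ ^ n) := fun θ => by ring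
        simp_rw [this]
        rw [integral_const_mul, h n, mul_zero]
      · intro n _
        refine hwi.mul_bdd (c := ‖a n‖) ?_ (Eventually.of_forall fun θ => ?_)
        · exact (continuous_const.mul (continuous_pt.zpow₀ n fun θ => Or.inl (pt_ne θ))).aestronglyMeasurable
        · rw [norm_mul, norm_zpow, norm_pt, one_zpow, mul_one]
    have h2 : ((∫ θ, ‖w θ‖ ^ 2 ∂m : ℝ) : ℂ) = ∫ θ, w θ * ((starRingEnd ℂ) (w θ) - P θ) ∂m := by
      have h3 : ∀ θ, w θ * ((starRingEnd ℂ) (w θ) - P θ) = ((‖w θ‖ ^ 2 : ℝ) : ℂ) - w θ * P θ := by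
        intro θ
        rw [mul_sub, Complex.mul_conj, Complex.normSq_eq_norm_sq]
      simp_rw [h3]
      rw [integral_sub, h1, sub_zero, integral_complex_ofReal]
      · exact hsqi.ofReal
      · refine hPi.bdd_mul (c := C) hw hC
    have h4 : ∫ θ, ‖w θ‖ ^ 2 ∂m ≤ ‖((∫ θ, ‖w θ‖ ^ 2 ∂m : ℝ) : ℂ)‖ := by
      rw [Complex.norm_real]; exact le_abs_self _
    refine h4.trans ?_
    rw [h2]
    refine (norm_integral_le_of_norm_le (g := fun θ => |C| * ‖(starRingEnd ℂ) (w θ) - P θ‖)
      ((hci.sub hPi).norm.const_mul _) ?_).trans ?_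
    · filter_upwards [hC] with θ h5
      rw [norm_mul]
      exact mul_le_mul_of_nonneg_right (h5.trans (le_abs_self _)) (norm_nonneg _)
    · rw [integral_const_mul]
      exact mul_le_mul_of_nonneg_left ha.le hC0
  have h0 : ∫ θ, ‖w θ‖ ^ 2 ∂m ≤ 0 := by
    refine le_of_forall_pos_le_add fun ε hε => ?_
    have := key (ε / (|C| + 1)) (by positivity)
    refine this.trans ?_
    rw [zero_add, mul_div_assoc', div_le_iff₀ (by positivity)]
    nlinarith
  have h1 := (integral_eq_zero_iff_of_nonneg (fun θ => by positivity) hsqi).1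
    (le_antisymm h0 (integral_nonneg fun θ => by positivity))
  filter_upwards [h1] with θ h2
  simpa using h2

end Run7.h308
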