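import Pool.Agent.Run7.h308.Basic

set_option autoImplicit false
set_option maxHeartbeats 800000

namespace Run7.h308

open Complex MeasureTheory Filter Topology Set Metric

lemma integrable_hk (ν : Measure ℝ) [IsFiniteMeasure ν] {z : ℂ} (hz : z ∈ disc) :
    Integrable (hk z) ν :=
  Integrable.of_bound (continuous_hk hz).aestronglyMeasurable (2 / (1 - ‖z‖))
    (Eventually.of_forall fun θ => norm_hk_le hz θ)

lemma integrable_pk (ν : Measure ℝ) [IsFiniteMeasure ν] {z : ℂ} (hz : z ∈ disc) :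
    Integrable (pk z) ν :=
  Integrable.of_bound (continuous_pk hz).aestronglyMeasurable (2 / (1 - ‖z‖))
    (Eventually.of_forall fun θ => by
      rw [Real.norm_of_nonneg (pk_nonneg hz θ)]; exact pk_le hz θ)

/-- Herglotz integral of a finite measure -/
noncomputable def Hg (ν : Measure ℝ) (z : ℂ) : ℂ := ∫ θ, hk z θ ∂ν

/-- `exp (-H[ν])` -/
noncomputable def Sg (ν : Measure ℝ) (z : ℂ) : ℂ := Complex.exp (-(Hg ν z))

lemma hasDerivAt_hk {w : ℂ} {θ : ℝ} (h : pt θ - w ≠ 0) :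
    HasDerivAt (fun w => hk w θ) (2 * pt θ / (pt θ - w) ^ 2) w := by
  unfold hk
  have h1 : HasDerivAt (fun w : ℂ => pt θ + w) 1 w := by
    simpa using (hasDerivAt_id w).const_add (pt θ)
  have h2 : HasDerivAt (fun w : ℂ => pt θ - w) (-1) w := by
    simpa using (hasDerivAt_id w).const_sub (pt θ)
  have h3 := h1.div h2 h
  have h4 : (1 * (pt θ - w) - (pt θ + w) * -1) / (pt θ - w) ^ 2 = 2 * pt θ / (pt θ - w) ^ 2 := by
    ring
  rw [h4] at h3
  exact h3

lemma differentiableAt_Hg (ν : Measure ℝ) [IsFiniteMeasure ν] {w : ℂ} (hw : w ∈ disc) :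
    DifferentiableAt ℂ (Hg ν) w := by
  obtain ⟨ρ, h1, h2⟩ := exists_between (mem_disc.1 hw)
  have hball : Metric.ball (0:ℂ) ρ ∈ 𝓝 w := Metric.isOpen_ball.mem_nhds (by simpa using h1)
  have key := hasDerivAt_integral_of_dominated_loc_of_deriv_le (μ := ν) (𝕜 := ℂ)
    (F := fun w θ => hk w θ) (F' := fun w θ => 2 * pt θ / (pt θ - w) ^ 2) (x₀ := w)
    (s := Metric.ball (0:ℂ) ρ) (bound := fun _ => 2 / (1 - ρ) ^ 2) hball ?_ ?_ ?_ ?_ ?_ ?_
  · exact key.2.differentiableAt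
  · filter_upwards [hball] with x hx
    have hx1 : ‖x‖ < 1 := lt_trans (by simpa using hx) h2
    exact (integrable_hk ν (mem_disc.2 hx1)).aestronglyMeasurable
  · exact integrable_hk ν hw
  · apply Continuous.aestronglyMeasurable
    exact (continuous_const.mul continuous_pt).div ((continuous_pt.sub continuous_const).pow 2)
      fun θ => pow_ne_zero 2 (pt_sub_ne hw θ)
  · refine Eventually.of_forall fun θ x hx => ?_
    have hx1 : ‖x‖ < ρ := by simpa using hx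
    rw [norm_div, norm_mul, norm_pow, norm_pt, mul_one]
    have h3 := norm_pt_sub x θ
    have h4 : 0 < 1 - ρ := by linarith
    have h5 : 1 - ρ ≤ ‖pt θ - x‖ := by linarith
    have h6 : ‖(2:ℂ)‖ = 2 := by simp
    rw [h6]
    exact div_le_div_of_nonneg_left (by norm_num) (by positivity)
      (pow_le_pow_left₀ h4.le h5 2)
  · exact integrable_const _
  · refine Eventually.of_forall fun θ x hx => ?_
    have hx1 : ‖x‖ < 1 := lt_trans (by simpa using hx) h2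
    exact hasDerivAt_hk (pt_sub_ne (mem_disc.2 hx1) θ)

lemma differentiableOn_Hg (ν : Measure ℝ) [IsFiniteMeasure ν] : DifferentiableOn ℂ (Hg ν) disc :=
  fun _ hw => (differentiableAt_Hg ν hw).differentiableWithinAt

lemma Hg_re (ν : Measure ℝ) [IsFiniteMeasure ν] {w : ℂ} (hw : w ∈ disc) :
    (Hg ν w).re = ∫ θ, pk w θ ∂ν := by
  unfold Hg
  have h3 := integral_re (integrable_hk ν hw)
  rw [← RCLike.re_eq_complex_re, ← h3]
  congr 1
  ext θ
  exact hk_re w θ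

lemma Hg_re_nonneg (ν : Measure ℝ) [IsFiniteMeasure ν] {w : ℂ} (hw : w ∈ disc) :
    0 ≤ (Hg ν w).re := by
  rw [Hg_re ν hw]
  exact integral_nonneg fun θ => pk_nonneg hw θ

lemma norm_Sg (ν : Measure ℝ) (w : ℂ) : ‖Sg ν w‖ = Real.exp (-(Hg ν w).re) := by
  unfold Sg
  rw [Complex.norm_exp, Complex.neg_re]

lemma norm_Sg_le (ν : Measure ℝ) [IsFiniteMeasure ν] {w : ℂ} (hw : w ∈ disc) : ‖Sg ν w‖ ≤ 1 := by
  rw [norm_Sg, Real.exp_le_one_iff]
  linarith [Hg_re_nonneg ν hw]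

lemma Sg_ne_zero (ν : Measure ℝ) (w : ℂ) : Sg ν w ≠ 0 := Complex.exp_ne_zero _

lemma BddHolOn.Sg (ν : Measure ℝ) [IsFiniteMeasure ν] : BddHolOn disc (Sg ν) := by
  refine ⟨?_, 1, fun z hz => norm_Sg_le ν hz⟩
  unfold Run7.h308.Sg
  exact (differentiableOn_Hg ν).neg.cexp

lemma hk_zero (θ : ℝ) : hk 0 θ = 1 := by
  unfold hk
  rw [add_zero, sub_zero, div_self]
  exact pt_ne θ

lemma Hg_zero (ν : Measure ℝ) [IsFiniteMeasure ν] : Hg ν 0 = (ν.real univ : ℂ) := by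
  unfold Hg
  simp_rw [hk_zero]
  simp

lemma Sg_zero (ν : Measure ℝ) [IsFiniteMeasure ν] : Sg ν 0 = (Real.exp (-ν.real univ) : ℂ) := by
  unfold Sg
  rw [Hg_zero]
  push_cast
  rfl

lemma Hg_add (ν₁ ν₂ : Measure ℝ) [IsFiniteMeasure ν₁] [IsFiniteMeasure ν₂] {z : ℂ} (hz : z ∈ disc) :
    Hg (ν₁ + ν₂) z = Hg ν₁ z + Hg ν₂ z :=
  integral_add_measure (integrable_hk ν₁ hz) (integrable_hk ν₂ hz)

lemma Sg_add (ν₁ ν₂ : Measure ℝ) [IsFiniteMeasure ν₁] [IsFiniteMeasure ν₂] {z : ℂ} (hz : z ∈ disc) :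
    Sg (ν₁ + ν₂) z = Sg ν₁ z * Sg ν₂ z := by
  unfold Sg
  rw [Hg_add ν₁ ν₂ hz, neg_add, Complex.exp_add]

/-- the measure `v dm` -/
noncomputable def mv (v : ℝ → ℝ) : Measure ℝ := m.withDensity (fun θ => ENNReal.ofReal (v θ))

lemma finite_mv {v : ℝ → ℝ} (hv : Integrable v m) : IsFiniteMeasure (mv v) :=
  isFiniteMeasure_withDensity_ofReal hv.2

lemma integral_mv {E : Type*} [NormedAddCommGroup E] [NormedSpace ℝ E] {v : ℝ → ℝ}
    (hv : Integrable v m) (h0 : ∀ θ, 0 ≤ v θ) (f : ℝ → E) :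
    ∫ θ, f θ ∂(mv v) = ∫ θ, v θ • f θ ∂m := by
  unfold mv
  rw [integral_withDensity_eq_integral_toReal_smul₀ hv.1.aemeasurable.ennreal_ofReal
    (Eventually.of_forall fun θ => ENNReal.ofReal_lt_top)]
  congr 1
  ext θ
  rw [ENNReal.toReal_ofReal (h0 θ)]

/-- the Poisson integral of a function -/
noncomputable def Pz (v : ℝ → ℝ) (z : ℂ) : ℝ := ∫ θ, v θ * pk z θ ∂m

lemma integrable_mul_pk {v : ℝ → ℝ} (hv : Integrable v m) {z : ℂ} (hz : z ∈ disc) :
    Integrable (fun θ => v θ * pk z θ) m := by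
  refine hv.mul_bdd (c := 2 / (1 - ‖z‖)) (continuous_pk hz).aestronglyMeasurable ?_
  refine Eventually.of_forall fun θ => ?_
  rw [Real.norm_of_nonneg (pk_nonneg hz θ)]; exact pk_le hz θ

lemma Hg_mv_re {v : ℝ → ℝ} (hv : Integrable v m) (h0 : ∀ θ, 0 ≤ v θ) {z : ℂ} (hz : z ∈ disc) :
    (Hg (mv v) z).re = Pz v z := by
  have := finite_mv hv
  rw [Hg_re _ hz, integral_mv hv h0]
  rfl

lemma norm_Sg_mv {v : ℝ → ℝ} (hv : Integrable v m) (h0 : ∀ θ, 0 ≤ v θ) {z : ℂ} (hz : z ∈ disc) :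
    ‖Sg (mv v) z‖ = Real.exp (-(Pz v z)) := by
  rw [norm_Sg, Hg_mv_re hv h0 hz]

lemma mv_univ {v : ℝ → ℝ} (hv : Integrable v m) (h0 : ∀ θ, 0 ≤ v θ) :
    (mv v).real univ = ∫ θ, v θ ∂m := by
  have := finite_mv hv
  have h := integral_mv hv h0 (fun _ => (1 : ℝ))
  simpa using h

lemma Pz_nonneg {v : ℝ → ℝ} (h0 : ∀ θ, 0 ≤ v θ) {z : ℂ} (hz : z ∈ disc) :
    0 ≤ Pz v z := integral_nonneg fun θ => mul_nonneg (h0 θ) (pk_nonneg hz θ)

lemma Pz_add {u v : ℝ → ℝ} (hu : Integrable u m) (hv : Integrable v m) {z : ℂ} (hz : z ∈ disc) :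
    Pz (fun θ => u θ + v θ) z = Pz u z + Pz v z := by
  unfold Pz
  rw [← integral_add (integrable_mul_pk hu hz) (integrable_mul_pk hv hz)]
  congr 1
  ext θ
  ring

lemma Pz_const (c : ℝ) {z : ℂ} (hz : z ∈ disc) : Pz (fun _ => c) z = c := by
  unfold Pz
  rw [integral_const_mul, integral_pk hz, mul_one]

lemma Pz_mono {u v : ℝ → ℝ} (hu : Integrable u m) (hv : Integrable v m) (h : ∀ᵐ θ ∂m, u θ ≤ v θ)
    {z : ℂ} (hz : z ∈ disc) : Pz u z ≤ Pz v z := by
  unfold Pz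
  refine integral_mono_ae (integrable_mul_pk hu hz) (integrable_mul_pk hv hz) ?_
  filter_upwards [h] with θ hθ
  exact mul_le_mul_of_nonneg_right hθ (pk_nonneg hz θ)

lemma Pz_zero_pt {v : ℝ → ℝ} : Pz v 0 = ∫ θ, v θ ∂m := by
  unfold Pz
  congr 1
  ext θ
  rw [← hk_re, hk_zero]
  simp

/-- truncations -/
lemma integrable_trunc {v : ℝ → ℝ} (hv : Integrable v m) (h0 : ∀ θ, 0 ≤ v θ) (N : ℝ) (hN : 0 ≤ N) :
    Integrable (fun θ => min (v θ) N) m ∧ Integrable (fun θ => max (v θ - N) 0) m := by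
  constructor
  · refine hv.mono (hv.1.inf aestronglyMeasurable_const) (Eventually.of_forall fun θ => ?_)
    rw [Real.norm_of_nonneg (le_min (h0 θ) hN), Real.norm_of_nonneg (h0 θ)]
    exact min_le_left _ _
  · refine hv.mono ((hv.1.sub aestronglyMeasurable_const).sup aestronglyMeasurable_const)
      (Eventually.of_forall fun θ => ?_)
    rw [Real.norm_of_nonneg (le_max_right _ _), Real.norm_of_nonneg (h0 θ)]
    exact max_le (by linarith) (h0 θ)

lemma trunc_add (a N : ℝ) : min a N + max (a - N) 0 = a := by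
  rcases le_total a N with h | h
  · rw [min_eq_left h, max_eq_right (by linarith)]; ring
  · rw [min_eq_right h, max_eq_left (by linarith)]; ring

lemma tendsto_tail {v : ℝ → ℝ} (hv : Integrable v m) (h0 : ∀ θ, 0 ≤ v θ) {z : ℂ} (hz : z ∈ disc) :
    Tendsto (fun N : ℕ => Pz (fun θ => max (v θ - N) 0) z) atTop (𝓝 0) := by
  have key : Tendsto (fun N : ℕ => ∫ θ, max (v θ - N) 0 * pk z θ ∂m) atTop
      (𝓝 (∫ θ, (0 : ℝ) ∂m)) := by
   refine tendsto_integral_of_dominated_convergence (fun θ => v θ * pk z θ) (fun N => ?_)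
    (integrable_mul_pk hv hz) (fun N => Eventually.of_forall fun θ => ?_)
    (Eventually.of_forall fun θ => ?_)
   · exact (integrable_mul_pk (integrable_trunc hv h0 N N.cast_nonneg).2 hz).1
   · rw [Real.norm_of_nonneg (mul_nonneg (le_max_right _ _) (pk_nonneg hz θ))]
     refine mul_le_mul_of_nonneg_right (max_le ?_ (h0 θ)) (pk_nonneg hz θ)
     have : (0 : ℝ) ≤ N := N.cast_nonneg
     linarith
   · refine tendsto_const_nhds.congr' ?_
     filter_upwards [eventually_ge_atTop ⌈v θ⌉₊] with N hN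
     have : v θ ≤ N := (Nat.le_ceil _).trans (by exact_mod_cast hN)
     rw [max_eq_right (by linarith), zero_mul]
  simpa [Pz] using key

lemma Pz_min_le {v : ℝ → ℝ} (hv : Integrable v m) (h0 : ∀ θ, 0 ≤ v θ) (N : ℝ) (hN : 0 ≤ N) {z : ℂ}
    (hz : z ∈ disc) : Pz (fun θ => min (v θ) N) z ≤ N := by
  have h1 := Pz_mono (integrable_trunc hv h0 N hN).1 (integrable_const N)
    (Eventually.of_forall fun θ => min_le_right _ _) hz
  rwa [Pz_const N hz] at h1

lemma Pz_split {v : ℝ → ℝ} (hv : Integrable v m) (h0 : ∀ θ, 0 ≤ v θ) (N : ℝ) (hN : 0 ≤ N) {z : ℂ}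
    (hz : z ∈ disc) : Pz v z = Pz (fun θ => min (v θ) N) z + Pz (fun θ => max (v θ - N) 0) z := by
  rw [← Pz_add (integrable_trunc hv h0 N hN).1 (integrable_trunc hv h0 N hN).2 hz]
  congr 1
  ext θ
  rw [trunc_add]

end Run7.h308
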