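import Pool.Agent.Run7.h308.Sing

set_option autoImplicit false
set_option maxHeartbeats 800000

namespace Run7.h308

open Complex MeasureTheory Filter Topology Set Metric

/-- finitely atomic measures -/
def FinAt (ν : Measure ℝ) : Prop := ∃ S : Set ℝ, S.Finite ∧ ν Sᶜ = 0

lemma finAt_sum {ι : Type} [Finite ι] {ν : ι → Measure ℝ} (h : ∀ i, FinAt (ν i)) :
    FinAt (Measure.sum ν) := by
  choose S hS hS2 using h
  refine ⟨⋃ i, S i, finite_iUnion hS, ?_⟩
  rw [Measure.sum_apply _ (finite_iUnion hS).measurableSet.compl]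
  have : ∀ i, ν i (⋃ i, S i)ᶜ = 0 := fun i =>
    measure_mono_null (compl_subset_compl.2 (subset_iUnion S i)) (hS2 i)
  rw [ENNReal.tsum_eq_zero]
  exact this

lemma inner_sum (ν : ℕ → Measure ℝ) (hν : ∀ n, FinAt (ν n)) (hfin : IsFiniteMeasure (Measure.sum ν))
    {l : ℝ → ℂ} (hl : BV (Sg (Measure.sum ν)) l) : ∀ᵐ θ ∂m, ‖l θ‖ = 1 := by
  have h1 : ∀ᵐ θ ∂m, ‖l θ‖ ≤ 1 := hl.bound (fun z hz => norm_Sg_le _ hz)
  have hcont := (BddHolOn.Sg (Measure.sum ν)).1.continuousOn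
  have hli : Integrable (fun θ => ‖l θ‖) m :=
    Integrable.of_bound (hl.aesm hcont).norm 1 (by simpa using h1)
  have htot : (∑' n, ν n univ) ≠ ⊤ := by
    rw [← Measure.sum_apply _ MeasurableSet.univ]
    exact measure_ne_top _ _
  have h2 : ∀ s : Finset ℕ, Real.exp (-(∑' b : {x // x ∉ s}, ν b univ).toReal) ≤ ∫ θ, ‖l θ‖ ∂m := by
    intro s
    have hdec := Measure.sum_add_sum_compl (s : Set ℕ) ν
    have hf1 : IsFiniteMeasure (Measure.sum fun i : (s : Set ℕ) => ν i) :=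
      isFiniteMeasure_of_le (Measure.sum ν) (by rw [← hdec]; exact Measure.le_add_right le_rfl)
    have hf2 : IsFiniteMeasure (Measure.sum fun i : ((s : Set ℕ)ᶜ : Set ℕ) => ν i) :=
      isFiniteMeasure_of_le (Measure.sum ν) (by rw [← hdec]; exact Measure.le_add_left le_rfl)
    obtain ⟨a, ha⟩ := exists_BV (BddHolOn.Sg (Measure.sum fun i : (s : Set ℕ) => ν i))
    obtain ⟨b, hb⟩ := exists_BV (BddHolOn.Sg (Measure.sum fun i : ((s : Set ℕ)ᶜ : Set ℕ) => ν i))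
    have ha' := BV.of_nt ha
    have hb' := BV.of_nt hb
    have ha1 : ∀ᵐ θ ∂m, ‖a θ‖ = 1 := by
      obtain ⟨S, hS, hS2⟩ := finAt_sum (ν := fun i : (s : Set ℕ) => ν i) (fun i => hν i)
      exact inner_of_finite _ hS hS2 ha'
    have hl2 : BV (Sg (Measure.sum ν)) (fun θ => a θ * b θ) := by
      refine BV.congr (ha'.mul hb') fun z hz => ?_
      rw [← hdec]
      exact (Sg_add (Measure.sum fun i : (s : Set ℕ) => ν i)
        (Measure.sum fun i : ((s : Set ℕ)ᶜ : Set ℕ) => ν i) hz).symm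
    have heq := hl.unique hl2
    have hb0 := bdd_zero (BddHolOn.Sg (Measure.sum fun i : ((s : Set ℕ)ᶜ : Set ℕ) => ν i)) hb'
    rw [Sg_zero] at hb0
    have h3 : ‖∫ θ, b θ ∂m‖ = Real.exp (-(∑' b : {x // x ∉ s}, ν b univ).toReal) := by
      rw [hb0, Complex.norm_real, Real.norm_of_nonneg (Real.exp_pos _).le, measureReal_def,
        Measure.sum_apply _ MeasurableSet.univ]
      rfl
    rw [← h3]
    refine (norm_integral_le_integral_norm _).trans (le_of_eq ?_)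
    refine integral_congr_ae ?_
    filter_upwards [heq, ha1] with θ h4 h5
    rw [h4, norm_mul, h5, one_mul]
  have h3 : (1 : ℝ) ≤ ∫ θ, ‖l θ‖ ∂m := by
    have h4 := ENNReal.tendsto_tsum_compl_atTop_zero htot
    have h5 := (ENNReal.tendsto_toReal ENNReal.zero_ne_top).comp h4
    have h6 := h5.neg.rexp
    rw [ENNReal.toReal_zero, neg_zero, Real.exp_zero] at h6
    exact le_of_tendsto' h6 h2
  have h4 : ∫ θ, (1 - ‖l θ‖) ∂m = 0 := by
    refine le_antisymm ?_ (integral_nonneg_of_ae ?_)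
    · rw [integral_sub (integrable_const _) hli]
      simp
      exact h3
    · filter_upwards [h1] with θ h
      simp only [Pi.zero_apply]
      linarith
  have h5 := (integral_eq_zero_iff_of_nonneg_ae (f := fun θ => 1 - ‖l θ‖) (by
    filter_upwards [h1] with θ h
    simp only [Pi.zero_apply]
    linarith) ((integrable_const _).sub hli)).1 h4
  filter_upwards [h5] with θ h
  simp only [Pi.zero_apply] at h
  linarith

lemma Hg_mv_split {v : ℝ → ℝ} (hv : Integrable v m) (h0 : ∀ θ, 0 ≤ v θ) (N : ℝ) (hN : 0 ≤ N) {z : ℂ}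
    (hz : z ∈ disc) :
    Hg (mv v) z = Hg (mv fun θ => min (v θ) N) z + Hg (mv fun θ => max (v θ - N) 0) z := by
  have hi := integrable_trunc hv h0 N hN
  unfold Hg
  rw [integral_mv hv h0, integral_mv hi.1 (fun θ => le_min (h0 θ) hN),
    integral_mv hi.2 (fun θ => le_max_right _ _)]
  have hb : ∀ᵐ θ ∂m, ‖hk z θ‖ ≤ 2 / (1 - ‖z‖) := Eventually.of_forall fun θ => norm_hk_le hz θ
  have h1 : Integrable (fun θ => min (v θ) N • hk z θ) m := by
    have := hi.1.ofReal (𝕜 := ℂ) |>.mul_bdd (c := 2 / (1 - ‖z‖)) (continuous_hk hz).aestronglyMeasurable hb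
    exact this
  have h2 : Integrable (fun θ => max (v θ - N) 0 • hk z θ) m := by
    have := hi.2.ofReal (𝕜 := ℂ) |>.mul_bdd (c := 2 / (1 - ‖z‖)) (continuous_hk hz).aestronglyMeasurable hb
    exact this
  rw [← integral_add h1 h2]
  congr 1
  ext θ
  rw [← add_smul, trunc_add]

lemma step {v : ℝ → ℝ} (hvm : Measurable v) (hv : Integrable v m) (h0 : ∀ θ, 0 ≤ v θ) {bE : ℝ → ℂ}
    (hE : BV (Sg (mv v)) bE) (n : ℕ) :
    ∃ ν : Measure ℝ, IsFiniteMeasure ν ∧ FinAt ν ∧ ν univ ≤ (2⁻¹ : ENNReal) ^ n ∧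
      ∀ (h : ℂ → ℂ) (bν bh : ℝ → ℂ), BddHolOn disc h → h 0 = 0 → (∀ z ∈ disc, ‖h z‖ ≤ n) →
        BV (Sg ν) bν → BV h bh → (∀ᵐ θ ∂m, 0 ≤ (1 - bν θ * (bE θ)⁻¹ * bh θ).re) →
        IntegrableOn (fun θ => (1 - bν θ * (bE θ)⁻¹ * bh θ).re) {θ | v θ ≤ n} m ∧
        ∫ θ in {θ | v θ ≤ n}, (1 - bν θ * (bE θ)⁻¹ * bh θ).re ∂m ≤ 1 + 1 / ((n : ℝ) + 1) := by
  have hn0 : (0 : ℝ) ≤ n := n.cast_nonneg
  have hfin := finite_mv hv
  obtain ⟨ε, hε⟩ : ∃ ε : ℝ, ε = 1 / (4 * ((n : ℝ) + 1)) := ⟨_, rfl⟩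
  have hε0 : 0 < ε := by rw [hε]; positivity
  have h3ε : 3 * ε ≤ 1 / ((n : ℝ) + 1) := by
    rw [hε, mul_one_div, div_le_div_iff₀ (by positivity) (by positivity)]
    linarith
  -- N
  obtain ⟨N, hN⟩ : ∃ N : ℕ, ∫ θ, max (v θ - N) 0 ∂m < (1 / 2 : ℝ) ^ n := by
    have h1 := tendsto_tail hv h0 zero_mem_disc
    have h2 := (h1.eventually (gt_mem_nhds (show (0 : ℝ) < (1 / 2 : ℝ) ^ n by positivity))).exists
    obtain ⟨N, hN⟩ := h2
    exact ⟨N, by rwa [Pz_zero_pt] at hN⟩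
  have hN0 : (0 : ℝ) ≤ N := N.cast_nonneg
  have hi := integrable_trunc hv h0 N hN0
  have hfin1 := finite_mv hi.1
  have hfin2 := finite_mv hi.2
  obtain ⟨bO, hO'⟩ := exists_BV (BddHolOn.Sg (mv fun θ => max (v θ - N) 0))
  have hO := BV.of_nt hO'
  set R : ℂ → ℂ := fun z => Complex.exp (Hg (mv fun θ => min (v θ) N) z) with hR
  have hRn : ∀ z ∈ disc, ‖R z‖ ≤ Real.exp N := by
    intro z hz
    rw [hR]
    simp only
    rw [Complex.norm_exp, Hg_mv_re hi.1 (fun θ => le_min (h0 θ) hN0) hz]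
    exact Real.exp_le_exp.2 (Pz_min_le hv h0 N hN0 hz)
  have hRb : BddHolOn disc R := ⟨(differentiableOn_Hg _).cexp, _, hRn⟩
  obtain ⟨bR, hbR'⟩ := exists_BV hRb
  have hbR := BV.of_nt hbR'
  have hrel : ∀ᵐ θ ∂m, bO θ = bE θ * bR θ := by
    refine hO.unique ((hE.mul hbR).congr fun z hz => ?_)
    simp only [hR, Sg]
    rw [Hg_mv_split hv h0 N hN0 hz, ← Complex.exp_add]
    congr 1
    ring
  have hEn := bv_outer hv h0 hE
  have hEne : ∀ᵐ θ ∂m, bE θ ≠ 0 := by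
    filter_upwards [hEn] with θ h1 h2
    rw [h2, norm_zero] at h1
    exact (Real.exp_pos _).ne h1
  have hbRn := hbR.bound hRn
  -- K
  obtain ⟨K, hKn, hK⟩ : ∃ K : ℝ, (n : ℝ) ≤ K ∧ (1 + Real.exp N * n) * m.real {θ | K < v θ} ≤ ε := by
    set c : ℝ := 1 + Real.exp N * n with hc
    have hc0 : 0 < c := by positivity
    have hV0 : 0 ≤ ∫ θ, v θ ∂m := integral_nonneg h0
    refine ⟨max (n : ℝ) (c * (∫ θ, v θ ∂m) / ε + 1), le_max_left _ _, ?_⟩
    set K := max (n : ℝ) (c * (∫ θ, v θ ∂m) / ε + 1) with hKdef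
    have hK1 : c * (∫ θ, v θ ∂m) / ε + 1 ≤ K := le_max_right _ _
    have hq : 0 ≤ c * (∫ θ, v θ ∂m) / ε := by positivity
    have hK0 : 0 < K := by linarith
    have h1 := mul_meas_ge_le_integral_of_nonneg (μ := m) (Eventually.of_forall h0) hv K
    have h2 : m.real {θ | K < v θ} ≤ m.real {θ | K ≤ v θ} :=
      measureReal_mono (fun θ (hθ : K < v θ) => hθ.le)
    have h3 : c * (∫ θ, v θ ∂m) ≤ K * ε := by
      have : c * (∫ θ, v θ ∂m) / ε ≤ K := by linarith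
      rwa [div_le_iff₀ hε0] at this
    have h4 : K * m.real {θ | K < v θ} ≤ ∫ θ, v θ ∂m :=
      (mul_le_mul_of_nonneg_left h2 hK0.le).trans h1
    have h5 : K * (c * m.real {θ | K < v θ}) ≤ K * ε := by nlinarith
    exact le_of_mul_le_mul_left h5 hK0
  set S1 : Set ℝ := {θ | v θ ≤ n} with hS1
  set S2 : Set ℝ := {θ | (n : ℝ) < v θ} ∩ {θ | v θ ≤ K} with hS2
  set S3 : Set ℝ := {θ | K < v θ} with hS3
  have mS1 : MeasurableSet S1 := measurableSet_le hvm measurable_const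
  have mS2 : MeasurableSet S2 :=
    (measurableSet_lt measurable_const hvm).inter (measurableSet_le hvm measurable_const)
  have mS3 : MeasurableSet S3 := measurableSet_lt measurable_const hvm
  have hEm : AEStronglyMeasurable bE m := hE.aesm (BddHolOn.Sg (mv v)).1.continuousOn
  have hEb : ∀ᵐ θ ∂m, ∀ S : Set ℝ, S ⊆ {θ | v θ ≤ K} →
      ‖S.indicator (fun θ => (bE θ)⁻¹) θ‖ ≤ Real.exp K := by
    filter_upwards [hEn] with θ h1 S hS
    by_cases hθ : θ ∈ S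
    · rw [indicator_of_mem hθ, norm_inv, h1, Real.exp_neg, inv_inv]
      exact Real.exp_le_exp.2 (hS hθ)
    · rw [indicator_of_notMem hθ, norm_zero]
      exact (Real.exp_pos _).le
  have hφ : ∀ S : Set ℝ, MeasurableSet S → S ⊆ {θ | v θ ≤ K} →
      Integrable (S.indicator (fun θ => (bE θ)⁻¹)) m := by
    intro S mS hS
    refine Integrable.of_bound (hEm.inv₀.indicator mS) (Real.exp K) ?_
    filter_upwards [hEb] with θ h1
    exact h1 S hS
  have hS1K : S1 ⊆ {θ | v θ ≤ K} := fun θ (hθ : v θ ≤ n) => hθ.trans hKn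
  have hS2K : S2 ⊆ {θ | v θ ≤ K} := fun θ hθ => hθ.2
  obtain ⟨δ1, hδ1, ht1⟩ := test (hφ S1 mS1 hS1K) (n : ℝ) hn0 hε0
  obtain ⟨δ2, hδ2, ht2⟩ := test (hφ S2 mS2 hS2K) (n : ℝ) hn0 hε0
  obtain ⟨ν, hνf, hνS, hνm, hνδ⟩ := approx hi.2 (fun θ => le_max_right _ _) (lt_min hδ1 hδ2)
  refine ⟨ν, hνf, hνS, ?_, ?_⟩
  · rw [← hνm] at hN
    rw [← ENNReal.ofReal_toReal (measure_ne_top ν univ)]
    refine (ENNReal.ofReal_le_ofReal hN.le).trans (le_of_eq ?_)
    rw [ENNReal.ofReal_pow (by norm_num), one_div, ENNReal.ofReal_inv_of_pos (by norm_num)]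
    norm_num
  intro h bν bh hh hh0 hhn hbν hbh hpos
  have hhm : AEStronglyMeasurable bh m := hbh.aesm hh.1.continuousOn
  have hνmeas : AEStronglyMeasurable bν m := hbν.aesm (BddHolOn.Sg ν).1.continuousOn
  have hOmeas : AEStronglyMeasurable bO m := hO.aesm (BddHolOn.Sg _).1.continuousOn
  have hRmeas : AEStronglyMeasurable bR m := hbR.aesm hRb.1.continuousOn
  have hνb := hbν.bound (fun z hz => norm_Sg_le ν hz)
  have hOb := hO.bound (fun z hz => norm_Sg_le _ hz)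
  have hhb := hbh.bound hhn
  set G : ℝ → ℝ := fun θ => (1 - bν θ * (bE θ)⁻¹ * bh θ).re with hG
  set G' : ℝ → ℝ := fun θ => (1 - bR θ * bh θ).re with hG'
  have hG'n : ∀ᵐ θ ∂m, ‖G' θ‖ ≤ 1 + Real.exp N * n := by
    filter_upwards [hbRn, hhb] with θ h1 h2
    rw [hG']
    simp only
    refine (Complex.abs_re_le_norm _).trans ((norm_sub_le _ _).trans ?_)
    rw [norm_one, norm_mul]
    gcongr
  have hF'm : AEStronglyMeasurable (fun θ => 1 - bR θ * bh θ) m :=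
    aestronglyMeasurable_const.sub (hRmeas.mul hhm)
  have hG'i : Integrable G' m :=
    Integrable.of_bound (Complex.continuous_re.comp_aestronglyMeasurable hF'm) _ hG'n
  have hG'1 : ∫ θ, G' θ ∂m = 1 := by
    have hb : BV (fun z => 1 + -(R z * h z)) (fun θ => 1 - bR θ * bh θ) := by
      filter_upwards [hbR, hbh] with θ h1 h2
      simp only [← sub_eq_add_neg]
      exact tendsto_const_nhds.sub (h1.mul h2)
    have h1 := bdd_zero ((BddHolOn.const disc 1).add (hRb.mul hh).neg) hb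
    have hF'i : Integrable (fun θ => 1 - bR θ * bh θ) m := by
      refine Integrable.of_bound hF'm (1 + Real.exp N * n) ?_
      filter_upwards [hbRn, hhb] with θ h1 h2
      refine (norm_sub_le _ _).trans ?_
      rw [norm_one, norm_mul]
      gcongr
    have h2 := integral_re (𝕜 := ℂ) hF'i
    rw [h1] at h2
    have h3 : ∫ θ, G' θ ∂m = (1 + -(R 0 * h 0)).re := h2
    rw [h3, hh0]
    simp
  -- comparison
  have hcmp : ∀ S : Set ℝ, MeasurableSet S → S ⊆ {θ | v θ ≤ K} →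
      ‖∫ θ, S.indicator (fun θ => (bE θ)⁻¹) θ * ((bν θ - bO θ) * bh θ) ∂m‖ ≤ ε →
      IntegrableOn G S m ∧ |(∫ θ in S, G θ ∂m) - ∫ θ in S, G' θ ∂m| ≤ ε := by
    intro S mS hS ht
    set X : ℝ → ℂ := fun θ => S.indicator (fun θ => (bE θ)⁻¹) θ * ((bν θ - bO θ) * bh θ) with hX
    have hXi : Integrable X m := by
      refine (hφ S mS hS).mul_bdd (c := 2 * n) ((hνmeas.sub hOmeas).mul hhm) ?_
      filter_upwards [hνb, hOb, hhb] with θ h1 h2 h3
      rw [norm_mul]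
      refine mul_le_mul ((norm_sub_le _ _).trans ?_) h3 (norm_nonneg _) (by norm_num)
      linarith
    have hXre : Integrable (fun θ => (X θ).re) m := hXi.re
    have hGe : ∀ᵐ θ ∂m, θ ∈ S → G θ = G' θ - (X θ).re := by
      filter_upwards [hrel, hEne] with θ h1 h2 hθ
      rw [hG, hG', hX]
      simp only
      rw [indicator_of_mem hθ, ← Complex.sub_re]
      congr 1
      rw [h1]
      field_simp
      ring
    have hGe' : G =ᵐ[m.restrict S] fun θ => G' θ - (X θ).re := (ae_restrict_iff' mS).2 hGe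
    have hi1 : IntegrableOn (fun θ => G' θ - (X θ).re) S m := (hG'i.sub hXre).integrableOn
    refine ⟨hi1.congr hGe'.symm, ?_⟩
    rw [integral_congr_ae hGe', integral_sub hG'i.integrableOn hXre.integrableOn]
    have h1 : ∫ θ in S, (X θ).re ∂m = ∫ θ, (X θ).re ∂m := by
      refine setIntegral_eq_integral_of_forall_compl_eq_zero fun θ hθ => ?_
      rw [hX]
      simp only
      rw [indicator_of_notMem hθ]
      simp
    rw [h1]
    have h2 : ∫ θ, (X θ).re ∂m = (∫ θ, X θ ∂m).re := integral_re (𝕜 := ℂ) hXi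
    rw [h2]
    have h3 := (Complex.abs_re_le_norm (∫ θ, X θ ∂m)).trans ht
    rw [sub_sub_cancel_left, abs_neg]
    exact h3
  have r1 := hcmp S1 mS1 hS1K (ht1 (Sg ν) (Sg (mv fun θ => max (v θ - N) 0)) h bν bO bh
    (BddHolOn.Sg ν) (BddHolOn.Sg _) hh hbν hO hbh (fun z hz => norm_Sg_le _ hz)
    (fun z hz => norm_Sg_le _ hz) hhn (fun z hz => (hνδ z hz).trans (min_le_left _ _)))
  have r2 := hcmp S2 mS2 hS2K (ht2 (Sg ν) (Sg (mv fun θ => max (v θ - N) 0)) h bν bO bh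
    (BddHolOn.Sg ν) (BddHolOn.Sg _) hh hbν hO hbh (fun z hz => norm_Sg_le _ hz)
    (fun z hz => norm_Sg_le _ hz) hhn (fun z hz => (hνδ z hz).trans (min_le_right _ _)))
  refine ⟨r1.1, ?_⟩
  have e1 : (∫ θ in S1, G' θ ∂m) + ∫ θ in S1ᶜ, G' θ ∂m = 1 := by
    rw [integral_add_compl mS1 hG'i, hG'1]
  have e2 : ∫ θ in S1ᶜ, G' θ ∂m = (∫ θ in S2, G' θ ∂m) + ∫ θ in S3, G' θ ∂m := by
    rw [← setIntegral_union _ mS3 hG'i.integrableOn hG'i.integrableOn]
    · congr 2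
      ext θ
      simp only [hS1, hS2, hS3, mem_compl_iff, mem_setOf_eq, mem_union, mem_inter_iff, not_le]
      constructor
      · intro h
        rcases le_or_gt (v θ) K with h' | h'
        · exact Or.inl ⟨h, h'⟩
        · exact Or.inr h'
      · rintro (h | h)
        · exact h.1
        · exact lt_of_le_of_lt hKn h
    · rw [Set.disjoint_left]
      intro θ h1 h2
      have h1' : v θ ≤ K := h1.2
      have h2' : K < v θ := h2
      linarith
  have e3 : 0 ≤ ∫ θ in S2, G θ ∂m := by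
    refine setIntegral_nonneg_of_ae ?_
    exact hpos
  have e4 : |∫ θ in S3, G' θ ∂m| ≤ ε := by
    refine le_trans ?_ hK
    rw [← Real.norm_eq_abs]
    refine norm_setIntegral_le_of_norm_le_const_ae (measure_lt_top _ _) ?_
    exact ae_restrict_of_ae hG'n
  have a1 := abs_le.1 r1.2
  have a2 := abs_le.1 r2.2
  have a4 := abs_le.1 e4
  linarith [a1.1, a1.2, a2.1, a2.2, a4.1, a4.2]

theorem key {v : ℝ → ℝ} (hvm : Measurable v) (hv : Integrable v m) (h0 : ∀ θ, 0 ≤ v θ) {bE : ℝ → ℂ}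
    (hE : BV (Sg (mv v)) bE) :
    ∃ c : ℂ → ℂ, BddHolOn disc c ∧ (∀ z ∈ disc, ‖c z‖ ≤ 1) ∧ (∀ z, c z ≠ 0) ∧
      ∃ bc : ℝ → ℂ, (∀ᵐ θ ∂m, NTLim c (pt θ) (bc θ)) ∧ (∀ᵐ θ ∂m, ‖bc θ‖ = 1) ∧
      ∀ (h : ℂ → ℂ) (bh : ℝ → ℂ), BddHolOn disc h → h 0 = 0 → BV h bh →
        (∀ᵐ θ ∂m, 0 ≤ (1 - bc θ * (bE θ)⁻¹ * bh θ).re) →
        Integrable (fun θ => (1 - bc θ * (bE θ)⁻¹ * bh θ).re) m ∧
        ∫ θ, (1 - bc θ * (bE θ)⁻¹ * bh θ).re ∂m ≤ 1 := by
  choose ν hνf hνS hνm hν using step hvm hv h0 hE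
  have hfin : IsFiniteMeasure (Measure.sum ν) := by
    constructor
    rw [Measure.sum_apply _ MeasurableSet.univ]
    refine lt_of_le_of_lt (ENNReal.tsum_le_tsum hνm) ?_
    rw [ENNReal.tsum_geometric]
    simp
  obtain ⟨bc, hbc⟩ := exists_BV (BddHolOn.Sg (Measure.sum ν))
  refine ⟨Sg (Measure.sum ν), BddHolOn.Sg _, fun z hz => norm_Sg_le _ hz, fun z => Sg_ne_zero _ z,
    bc, hbc, inner_sum ν hνS hfin (BV.of_nt hbc), ?_⟩
  intro h bh hh hh0 hbh hpos
  obtain ⟨C, hC⟩ := hh.2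
  obtain ⟨M, hM⟩ := exists_nat_ge C
  have hstep : ∀ n : ℕ, M ≤ n →
      IntegrableOn (fun θ => (1 - bc θ * (bE θ)⁻¹ * bh θ).re) {θ | v θ ≤ n} m ∧
        ∫ θ in {θ | v θ ≤ n}, (1 - bc θ * (bE θ)⁻¹ * bh θ).re ∂m ≤ 1 + 1 / ((n : ℝ) + 1) := by
    intro n hn
    have hdec := Measure.sum_add_sum_compl ({n} : Set ℕ) ν
    have hf1 : IsFiniteMeasure (Measure.sum fun i : (({n} : Set ℕ)ᶜ : Set ℕ) => ν i) :=
      isFiniteMeasure_of_le (Measure.sum ν) (by rw [← hdec]; exact Measure.le_add_left le_rfl)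
    have hsing : (Measure.sum fun i : ({n} : Set ℕ) => ν i) = ν n := by
      rw [Measure.sum_fintype]
      simp
    rw [hsing] at hdec
    obtain ⟨a, ha⟩ := exists_BV (BddHolOn.Sg (ν n))
    obtain ⟨b, hb⟩ := exists_BV (BddHolOn.Sg (Measure.sum fun i : (({n} : Set ℕ)ᶜ : Set ℕ) => ν i))
    have ha' := BV.of_nt ha
    have hb' := BV.of_nt hb
    have hl2 : BV (Sg (Measure.sum ν)) (fun θ => a θ * b θ) := by
      refine BV.congr (ha'.mul hb') fun z hz => ?_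
      rw [← hdec]
      exact (Sg_add (ν n) (Measure.sum fun i : (({n} : Set ℕ)ᶜ : Set ℕ) => ν i) hz).symm
    have heq := (BV.of_nt hbc).unique hl2
    have heq2 : ∀ᵐ θ ∂m, (1 - bc θ * (bE θ)⁻¹ * bh θ).re = (1 - a θ * (bE θ)⁻¹ * (b θ * bh θ)).re := by
      filter_upwards [heq] with θ h1
      rw [h1]
      congr 2
      ring
    have hr := hν n (fun z => Sg (Measure.sum fun i : (({n} : Set ℕ)ᶜ : Set ℕ) => ν i) z * h z) a
      (fun θ => b θ * bh θ) ((BddHolOn.Sg _).mul hh) (by simp only [hh0, mul_zero]) (by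
        intro z hz
        rw [norm_mul]
        have h1 := norm_Sg_le (Measure.sum fun i : (({n} : Set ℕ)ᶜ : Set ℕ) => ν i) hz
        have h2 : ‖h z‖ ≤ n := (hC z hz).trans (hM.trans (by exact_mod_cast hn))
        have h3 := norm_nonneg (h z)
        calc ‖Sg (Measure.sum fun i : (({n} : Set ℕ)ᶜ : Set ℕ) => ν i) z‖ * ‖h z‖
            ≤ 1 * ‖h z‖ := mul_le_mul_of_nonneg_right h1 h3
          _ ≤ n := by rwa [one_mul]) ha' (hb'.mul hbh) (by
        filter_upwards [hpos, heq2] with θ h1 h2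
        rwa [← h2])
    have heq3 : (fun θ => (1 - bc θ * (bE θ)⁻¹ * bh θ).re) =ᵐ[m.restrict {θ | v θ ≤ n}]
        fun θ => (1 - a θ * (bE θ)⁻¹ * (b θ * bh θ)).re := ae_restrict_of_ae heq2
    exact ⟨hr.1.congr heq3.symm, by rw [integral_congr_ae heq3]; exact hr.2⟩
  have hcov : AECover m atTop (fun i : ℕ => {θ : ℝ | v θ ≤ ((i + M : ℕ) : ℝ)}) := by
    constructor
    · refine Eventually.of_forall fun θ => ?_
      filter_upwards [eventually_ge_atTop ⌈v θ⌉₊] with i hi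
      have h1 : v θ ≤ ⌈v θ⌉₊ := Nat.le_ceil _
      have h2 : ((⌈v θ⌉₊ : ℕ) : ℝ) ≤ ((i + M : ℕ) : ℝ) := by exact_mod_cast (by omega)
      exact h1.trans h2
    · intro i
      exact measurableSet_le hvm measurable_const
  have hint : Integrable (fun θ => (1 - bc θ * (bE θ)⁻¹ * bh θ).re) m := by
    refine hcov.integrable_of_integral_bounded_of_nonneg_ae 2 (fun i => (hstep (i + M) (by omega)).1)
      hpos (Eventually.of_forall fun i => ?_)
    refine (hstep (i + M) (by omega)).2.trans ?_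
    have : 1 / (((i + M : ℕ) : ℝ) + 1) ≤ 1 := by
      rw [div_le_one (by positivity)]
      have : (0 : ℝ) ≤ ((i + M : ℕ) : ℝ) := Nat.cast_nonneg _
      linarith
    linarith
  refine ⟨hint, ?_⟩
  have ht := hcov.integral_tendsto_of_countably_generated hint
  have ht2 : Tendsto (fun i : ℕ => (1 : ℝ) + 1 / (((i + M : ℕ) : ℝ) + 1)) atTop (𝓝 (1 + 0)) := by
    refine tendsto_const_nhds.add ?_
    exact (tendsto_add_atTop_iff_nat (f := fun i : ℕ => 1 / ((i : ℝ) + 1)) M).2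
      tendsto_one_div_add_atTop_nhds_zero_nat
  rw [add_zero] at ht2
  exact le_of_tendsto_of_tendsto' ht ht2 fun i => (hstep (i + M) (by omega)).2

end Run7.h308
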