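import Pool.Agent.Run7.h308.Outer

set_option autoImplicit false
set_option maxHeartbeats 800000

namespace Run7.h308

open Complex MeasureTheory Filter Topology Set Metric

lemma isPreconnected_disc : IsPreconnected disc := (convex_ball (0 : ℂ) 1).isPreconnected

lemma analyticOnNhd_disc {h : ℂ → ℂ} (hd : DifferentiableOn ℂ h disc) : AnalyticOnNhd ℂ h disc :=
  hd.analyticOnNhd isOpen_disc

lemma ev_ne {h : ℂ → ℂ} (hd : DifferentiableOn ℂ h disc) (hne : ∃ z ∈ disc, h z ≠ 0) {x : ℂ}
    (hx : x ∈ disc) : ∀ᶠ z in 𝓝[≠] x, h z ≠ 0 := by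
  rcases (analyticOnNhd_disc hd x hx).eventually_eq_zero_or_eventually_ne_zero with h1 | h1
  · exfalso
    obtain ⟨z, hz, hz1⟩ := hne
    exact hz1 ((analyticOnNhd_disc hd).eqOn_zero_of_preconnected_of_eventuallyEq_zero
      isPreconnected_disc hx h1 hz)
  · exact h1

lemma ae_ne_circle {h : ℂ → ℂ} (hd : DifferentiableOn ℂ h disc) (hne : ∃ z ∈ disc, h z ≠ 0) {r : ℝ}
    (h0 : 0 < r) (h1 : r < 1) : ∀ᵐ θ ∂m, h (r * pt θ) ≠ 0 := by
  have h2 : {z | h z ≠ 0} ∈ codiscreteWithin (sphere (0 : ℂ) |r|) := by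
    rw [mem_codiscreteWithin]
    intro x hx
    rw [disjoint_principal_right]
    have hx' : x ∈ disc := by
      rw [mem_sphere, dist_zero_right, abs_of_pos h0] at hx
      rw [mem_disc, hx]
      exact h1
    filter_upwards [ev_ne hd hne hx'] with z hz hz2
    exact hz2.2 hz
  have h3 := circleMap_preimage_codiscrete h0.ne' h2
  have h4 : circleMap 0 r ⁻¹' {z | h z ≠ 0} ∈ codiscreteWithin (Ioc (0 : ℝ) (2 * Real.pi)) :=
    codiscreteWithin_mono (subset_univ _) h3
  have h5 := ae_restrict_le_codiscreteWithin (μ := (volume : Measure ℝ)) measurableSet_Ioc h4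
  unfold m
  refine Measure.ae_smul_measure ?_ _
  filter_upwards [h5] with θ hθ
  simpa [circleMap, pt] using hθ

lemma jensen_low {h : ℂ → ℂ} (hd : DifferentiableOn ℂ h disc) :
    ∃ L : ℝ, ∀ r : ℝ, 1 / 2 ≤ r → r < 1 →
      Integrable (fun θ => Real.log ‖h (r * pt θ)‖) m ∧ L ≤ ∫ θ, Real.log ‖h (r * pt θ)‖ ∂m := by
  refine ⟨((meromorphicOrderAt h 0).untop₀ : ℝ) * Real.log (1 / 2) +
    Real.log ‖meromorphicTrailingCoeffAt h 0‖, fun r h0 h1 => ?_⟩
  have hr : 0 < r := by linarith
  have hsub : closedBall (0 : ℂ) |r| ⊆ disc := by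
    intro z hz
    rw [mem_closedBall, dist_zero_right, abs_of_pos hr] at hz
    rw [mem_disc]
    linarith
  have ha : AnalyticOnNhd ℂ h (closedBall 0 |r|) := (analyticOnNhd_disc hd).mono hsub
  constructor
  · have h2 := (ha.meromorphicOn.mono_set sphere_subset_closedBall).circleIntegrable_log_norm
      (c := 0) (R := r)
    unfold CircleIntegrable at h2
    rw [intervalIntegrable_iff, uIoc_of_le two_pi_pos.le] at h2
    unfold m
    refine Integrable.smul_measure ?_ ENNReal.ofReal_ne_top
    refine h2.congr (Eventually.of_forall fun θ => ?_)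
    simp [circleMap, pt]
  · have h2 := ha.meromorphicOn.circleAverage_log_norm hr.ne'
    have h3 := integral_m_circle (fun z => Real.log ‖h z‖) r
    rw [h3, h2]
    have hdiv : 0 ≤ MeromorphicOn.divisor h (closedBall 0 |r|) := MeromorphicOn.AnalyticOnNhd.divisor_nonneg ha
    have h4 : 0 ≤ ∑ᶠ u, (MeromorphicOn.divisor h (closedBall 0 |r|) u : ℝ) *
        Real.log (r * ‖0 - u‖⁻¹) := by
      refine finsum_nonneg fun u => ?_
      by_cases hu : u ∈ closedBall (0 : ℂ) |r|
      · have h5 : (0 : ℝ) ≤ (MeromorphicOn.divisor h (closedBall 0 |r|) u : ℝ) := by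
          exact_mod_cast hdiv u
        refine mul_nonneg h5 ?_
        rw [zero_sub, norm_neg]
        rw [mem_closedBall, dist_zero_right, abs_of_pos hr] at hu
        rcases (norm_nonneg u).eq_or_lt with h6 | h6
        · rw [← h6]; simp
        · refine Real.log_nonneg ?_
          rw [← div_eq_mul_inv, one_le_div h6]
          exact hu
      · have : MeromorphicOn.divisor h (closedBall 0 |r|) u = 0 := by
          simp [hu]
        rw [this]
        simp
    have h5 : MeromorphicOn.divisor h (closedBall 0 |r|) 0 = (meromorphicOrderAt h 0).untop₀ := by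
      rw [MeromorphicOn.divisor_apply ha.meromorphicOn (by simp)]
    have h6 : (0 : ℝ) ≤ ((meromorphicOrderAt h 0).untop₀ : ℝ) := by
      have := hdiv 0
      rw [h5] at this
      exact_mod_cast this
    have h7 : Real.log (1 / 2) ≤ Real.log r := Real.log_le_log (by norm_num) h0
    rw [h5]
    nlinarith

/-- the boundary function of a non-zero bounded holomorphic function is log-integrable -/
theorem log_int_aux {h : ℂ → ℂ} (hh : BddHolOn disc h) (hne : ∃ z ∈ disc, h z ≠ 0) {b : ℝ → ℂ}
    (hb : BV h b) (hbM : Measurable b) : (∀ᵐ θ ∂m, b θ ≠ 0) ∧ Integrable (fun θ => Real.log ‖b θ‖) m := by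
  obtain ⟨C, hC0, hC⟩ := bdd_rad hh
  obtain ⟨L, hL⟩ := jensen_low hh.1
  have hbC : ∀ᵐ θ ∂m, ‖b θ‖ ≤ C := by
    filter_upwards [hb] with θ hθ
    refine le_of_tendsto hθ.norm ?_
    filter_upwards [ev_Ico] with r hr
    exact hC r hr.1.le hr.2 θ
  have hbm : AEStronglyMeasurable b m := hb.aesm hh.1.continuousOn
  -- for positive ε
  have key : ∀ ε : ℝ, 0 < ε → ε ≤ 1 → L ≤ ∫ θ, Real.log (‖b θ‖ + ε) ∂m := by
    intro ε hε hε1
    have hbd : ∀ x : ℝ, 0 ≤ x → x ≤ C → |Real.log (x + ε)| ≤ |Real.log ε| + |Real.log (C + 1)| := by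
      intro x hx0 hxC
      have h1 : Real.log ε ≤ Real.log (x + ε) := Real.log_le_log hε (by linarith)
      have h2 : Real.log (x + ε) ≤ Real.log (C + 1) := Real.log_le_log (by linarith) (by linarith)
      rw [abs_le]
      constructor
      · have := neg_abs_le (Real.log ε)
        have := abs_nonneg (Real.log (C + 1))
        linarith
      · have := le_abs_self (Real.log (C + 1))
        have := abs_nonneg (Real.log ε)
        linarith
    have ht : Tendsto (fun r : ℝ => ∫ θ, Real.log (‖h (r * pt θ)‖ + ε) ∂m) (𝓝[<] 1)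
        (𝓝 (∫ θ, Real.log (‖b θ‖ + ε) ∂m)) := by
      refine tendsto_integral_filter_of_dominated_convergence
        (fun _ => |Real.log ε| + |Real.log (C + 1)|) ?_ ?_ (integrable_const _) ?_
      · filter_upwards [ev_Ico] with r hr
        refine Continuous.aestronglyMeasurable ?_
        refine Continuous.log (((cont_rad hh.1.continuousOn hr.1.le hr.2).norm).add continuous_const) ?_
        intro θ
        positivity
      · filter_upwards [ev_Ico] with r hr
        exact Eventually.of_forall fun θ => hbd _ (norm_nonneg _) (hC r hr.1.le hr.2 θ)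
      · filter_upwards [hb] with θ hθ
        exact (hθ.norm.add_const ε).log (by positivity)
    refine ge_of_tendsto ht ?_
    filter_upwards [Ioo_mem_nhdsLT (show (1 / 2 : ℝ) < 1 by norm_num)] with r hr
    obtain ⟨h1, h2⟩ := hL r hr.1.le hr.2
    have hr0 : 0 < r := by have := hr.1; linarith
    refine h2.trans (integral_mono_ae h1 ?_ ?_)
    · refine Integrable.of_bound (C := |Real.log ε| + |Real.log (C + 1)|)
        (Continuous.aestronglyMeasurable ?_) ?_
      · refine Continuous.log (((cont_rad hh.1.continuousOn hr0.le hr.2).norm).add continuous_const) ?_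
        intro θ
        positivity
      · exact Eventually.of_forall fun θ => hbd _ (norm_nonneg _) (hC r hr0.le hr.2 θ)
    · filter_upwards [ae_ne_circle hh.1 hne hr0 hr.2] with θ hθ
      exact Real.log_le_log (norm_pos_iff.2 hθ) (by linarith)
  -- Fatou
  set M : ℝ := Real.log (C + 1)
  set u : ℕ → ℝ → ENNReal := fun k θ => ENNReal.ofReal (M - Real.log (‖b θ‖ + 1 / ((k : ℝ) + 1))) with hu
  have hek : ∀ k : ℕ, 0 < 1 / ((k : ℝ) + 1) ∧ 1 / ((k : ℝ) + 1) ≤ 1 := fun k => by
    constructor
    · positivity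
    · rw [div_le_one (by positivity)]
      have : (0 : ℝ) ≤ k := k.cast_nonneg
      linarith
  have hum : ∀ k, Measurable (u k) := fun k => by
    refine Measurable.ennreal_ofReal (Measurable.sub measurable_const ?_)
    exact Real.measurable_log.comp (hbM.norm.add_const _)
  have hnn : ∀ k : ℕ, ∀ᵐ θ ∂m, 0 ≤ M - Real.log (‖b θ‖ + 1 / ((k : ℝ) + 1)) := fun k => by
    filter_upwards [hbC] with θ hθ
    have h2 : Real.log (‖b θ‖ + 1 / ((k : ℝ) + 1)) ≤ Real.log (C + 1) := by
      refine Real.log_le_log ?_ (add_le_add hθ (hek k).2)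
      have := (hek k).1
      positivity
    linarith
  have huint : ∀ k, ∫⁻ θ, u k θ ∂m ≤ ENNReal.ofReal (M - L) := by
    intro k
    have hi : Integrable (fun θ => Real.log (‖b θ‖ + 1 / ((k : ℝ) + 1))) m := by
      refine Integrable.of_bound (C := |Real.log (1 / ((k : ℝ) + 1))| + |Real.log (C + 1)|) ?_ ?_
      · exact (Real.measurable_log.comp_aemeasurable (hbm.norm.aemeasurable.add_const _)).aestronglyMeasurable
      · filter_upwards [hbC] with θ hθ
        have h1 : Real.log (1 / ((k : ℝ) + 1)) ≤ Real.log (‖b θ‖ + 1 / ((k : ℝ) + 1)) :=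
          Real.log_le_log (hek k).1 (by linarith [norm_nonneg (b θ)])
        have h2 : Real.log (‖b θ‖ + 1 / ((k : ℝ) + 1)) ≤ Real.log (C + 1) := by
          refine Real.log_le_log ?_ (add_le_add hθ (hek k).2)
          have := (hek k).1
          positivity
        rw [Real.norm_eq_abs, abs_le]
        constructor
        · have := neg_abs_le (Real.log (1 / ((k : ℝ) + 1)))
          have := abs_nonneg (Real.log (C + 1))
          linarith
        · have := le_abs_self (Real.log (C + 1))
          have := abs_nonneg (Real.log (1 / ((k : ℝ) + 1)))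
          linarith
    rw [hu]
    simp only
    rw [← ofReal_integral_eq_lintegral_ofReal
      (f := fun θ => M - Real.log (‖b θ‖ + 1 / ((k : ℝ) + 1))) ((integrable_const M).sub hi) (hnn k)]
    refine ENNReal.ofReal_le_ofReal ?_
    rw [integral_sub (integrable_const M) hi]
    have := key _ (hek k).1 (hek k).2
    simp only [integral_const, probReal_univ, smul_eq_mul, one_mul]
    linarith
  have hF : ∫⁻ θ, liminf (fun k => u k θ) atTop ∂m ≤ ENNReal.ofReal (M - L) := by
    refine (lintegral_liminf_le hum).trans ?_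
    refine liminf_le_of_frequently_le' (Eventually.frequently (Eventually.of_forall huint))
  have hlt : ∀ᵐ θ ∂m, liminf (fun k => u k θ) atTop < ⊤ := by
    exact ae_lt_top (Measurable.liminf hum) (ne_of_lt (lt_of_le_of_lt hF ENNReal.ofReal_lt_top))
  have hlime : Tendsto (fun k : ℕ => 1 / ((k : ℝ) + 1)) atTop (𝓝 0) := tendsto_one_div_add_atTop_nhds_zero_nat
  have hne0 : ∀ᵐ θ ∂m, b θ ≠ 0 := by
    filter_upwards [hlt] with θ hθ h0
    have : Tendsto (fun k => u k θ) atTop (𝓝 ⊤) := by
      rw [hu]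
      simp only [h0, norm_zero, zero_add]
      have h1 : Tendsto (fun k : ℕ => 1 / ((k : ℝ) + 1)) atTop (𝓝[>] 0) :=
        tendsto_nhdsWithin_iff.2 ⟨hlime, Eventually.of_forall fun k => (hek k).1⟩
      have h2 : Tendsto (fun k : ℕ => M - Real.log (1 / ((k : ℝ) + 1))) atTop atTop := by
        simp_rw [sub_eq_add_neg]
        exact tendsto_atTop_add_const_left _ _
          (tendsto_neg_atBot_atTop.comp (Real.tendsto_log_nhdsGT_zero.comp h1))
      exact ENNReal.tendsto_ofReal_atTop.comp h2
    rw [this.liminf_eq] at hθ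
    exact lt_irrefl _ hθ
  refine ⟨hne0, ?_⟩
  have hlimeq : ∀ᵐ θ ∂m, liminf (fun k => u k θ) atTop = ENNReal.ofReal (M - Real.log ‖b θ‖) := by
    filter_upwards [hne0] with θ hθ
    refine Tendsto.liminf_eq ?_
    rw [hu]
    refine (ENNReal.continuous_ofReal.tendsto _).comp (Tendsto.sub tendsto_const_nhds ?_)
    have h1 : Tendsto (fun k : ℕ => ‖b θ‖ + 1 / ((k : ℝ) + 1)) atTop (𝓝 ‖b θ‖) := by
      simpa using hlime.const_add ‖b θ‖
    exact h1.log (norm_ne_zero_iff.2 hθ)
  have hI : Integrable (fun θ => M - Real.log ‖b θ‖) m := by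
    refine ⟨(AEMeasurable.sub aemeasurable_const
      (Real.measurable_log.comp_aemeasurable hbm.norm.aemeasurable)).aestronglyMeasurable, ?_⟩
    rw [hasFiniteIntegral_iff_norm]
    have : ∫⁻ θ, ENNReal.ofReal ‖M - Real.log ‖b θ‖‖ ∂m = ∫⁻ θ, liminf (fun k => u k θ) atTop ∂m := by
      refine lintegral_congr_ae ?_
      filter_upwards [hlimeq, hbC, hne0] with θ h1 h2 h3
      rw [h1, Real.norm_of_nonneg]
      have : Real.log ‖b θ‖ ≤ Real.log (C + 1) := Real.log_le_log (norm_pos_iff.2 h3) (by linarith)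
      linarith
    rw [this]
    exact lt_of_le_of_lt hF ENNReal.ofReal_lt_top
  have := (integrable_const M).sub hI
  refine this.congr (Eventually.of_forall fun θ => ?_)
  simp

theorem log_int {h : ℂ → ℂ} (hh : BddHolOn disc h) (hne : ∃ z ∈ disc, h z ≠ 0) {b : ℝ → ℂ}
    (hb : BV h b) : (∀ᵐ θ ∂m, b θ ≠ 0) ∧ Integrable (fun θ => Real.log ‖b θ‖) m := by
  have hbm : AEStronglyMeasurable b m := hb.aesm hh.1.continuousOn
  have he := hbm.ae_eq_mk
  obtain ⟨h1, h2⟩ := log_int_aux hh hne (hb.congr_ae he) hbm.stronglyMeasurable_mk.measurable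
  constructor
  · filter_upwards [h1, he] with θ h3 h4
    rwa [h4]
  · refine h2.congr ?_
    filter_upwards [he] with θ h4
    rw [h4]

end Run7.h308
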