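import Pool.Agent.Run7.h308.Defs

set_option autoImplicit false
set_option maxHeartbeats 800000

namespace Run7.h308

open Matrix
open scoped ComplexOrder

/-- sum of squares -/
noncomputable def ns {ι : Type*} [Fintype ι] (x : ι → ℂ) : ℝ := ∑ i, ‖x i‖ ^ 2

section basic
variable {ι κ : Type*} [Fintype ι] [Fintype κ]

lemma ns_nonneg (x : ι → ℂ) : 0 ≤ ns x := Finset.sum_nonneg fun _ _ => by positivity

@[simp] lemma ns_zero : ns (0 : ι → ℂ) = 0 := by simp [ns]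

lemma ns_eq_zero {x : ι → ℂ} (h : ns x = 0) : x = 0 := by
  funext i
  have h1 := (Finset.sum_eq_zero_iff_of_nonneg (fun i _ => by positivity)).1 h i (Finset.mem_univ i)
  simpa using h1

lemma star_dot_self (x : ι → ℂ) : star x ⬝ᵥ x = (ns x : ℂ) := by
  unfold ns dotProduct
  push_cast
  refine Finset.sum_congr rfl fun i _ => ?_
  rw [Pi.star_apply, Complex.star_def, mul_comm, Complex.mul_conj, Complex.normSq_eq_norm_sq]
  push_cast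
  rfl

lemma le_ns (x : ι → ℂ) (i : ι) : ‖x i‖ ^ 2 ≤ ns x :=
  Finset.single_le_sum (f := fun i => ‖x i‖ ^ 2) (fun _ _ => by positivity) (Finset.mem_univ i)

lemma ns_neg (x : ι → ℂ) : ns (-x) = ns x := by simp [ns]

lemma ns_smul (c : ℂ) (x : ι → ℂ) : ns (c • x) = ‖c‖ ^ 2 * ns x := by
  unfold ns
  rw [Finset.mul_sum]
  refine Finset.sum_congr rfl fun i _ => ?_
  rw [Pi.smul_apply, smul_eq_mul, norm_mul]
  ring

lemma ns_single [DecidableEq ι] (k : ι) : ns (Pi.single k (1 : ℂ)) = 1 := by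
  unfold ns
  rw [Finset.sum_eq_single k]
  · simp
  · intro b _ hb
    simp [hb]
  · simp

lemma ns_sub_le (a c : ι → ℂ) {s : ℝ} (hs : 0 < s) :
    ns (a - c) ≤ (1 + 1 / s) * ns a + (1 + s) * ns c := by
  unfold ns
  rw [Finset.mul_sum, Finset.mul_sum, ← Finset.sum_add_distrib]
  refine Finset.sum_le_sum fun i _ => ?_
  rw [Pi.sub_apply]
  have h1 := norm_sub_le (a i) (c i)
  have h2 := norm_nonneg (a i)
  have h3 := norm_nonneg (c i)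
  have h4 : ‖a i - c i‖ ^ 2 ≤ (‖a i‖ + ‖c i‖) ^ 2 := pow_le_pow_left₀ (norm_nonneg _) h1 2
  have h5 : 0 ≤ (‖a i‖ - s * ‖c i‖) ^ 2 / s := by positivity
  have h6 : (‖a i‖ - s * ‖c i‖) ^ 2 / s = 1 / s * ‖a i‖ ^ 2 + s * ‖c i‖ ^ 2 - 2 * ‖a i‖ * ‖c i‖ := by
    field_simp
    ring
  nlinarith

lemma ns_mulVec_le (A : Matrix ι κ ℂ) (x : κ → ℂ) :
    ns (A *ᵥ x) ≤ (∑ i, ∑ j, ‖A i j‖ ^ 2) * ns x := by
  unfold ns
  rw [Finset.sum_mul]
  refine Finset.sum_le_sum fun i _ => ?_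
  have h1 : ‖(A *ᵥ x) i‖ ≤ ∑ j, ‖A i j‖ * ‖x j‖ := by
    unfold mulVec dotProduct
    refine (norm_sum_le _ _).trans (le_of_eq ?_)
    simp
  have h2 := Finset.sum_mul_sq_le_sq_mul_sq Finset.univ (fun j => ‖A i j‖) (fun j => ‖x j‖)
  exact (pow_le_pow_left₀ (norm_nonneg _) h1 2).trans h2

lemma mulVec_inj_det [DecidableEq ι] {A : Matrix ι ι ℂ} (h : ∀ x, A *ᵥ x = 0 → x = 0) : A.det ≠ 0 := by
  intro h0
  obtain ⟨v, hv, hv2⟩ := Matrix.exists_mulVec_eq_zero_iff.2 h0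
  exact hv (h v hv2)

end basic

variable {p q : ℕ}

/-- the quadratic form of `J` -/
noncomputable def qf (x : Fin p ⊕ Fin q → ℂ) : ℝ := ns (fun i => x (Sum.inl i)) - ns (fun i => x (Sum.inr i))

lemma qf_elim (x : Fin p → ℂ) (y : Fin q → ℂ) : qf (Sum.elim x y) = ns x - ns y := rfl

lemma mulVec_elim (M : Matrix (Fin p ⊕ Fin q) (Fin p ⊕ Fin q) ℂ) (x : Fin p → ℂ) (y : Fin q → ℂ) :
    M *ᵥ (Sum.elim x y) = Sum.elim (M.toBlocks₁₁ *ᵥ x + M.toBlocks₁₂ *ᵥ y)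
      (M.toBlocks₂₁ *ᵥ x + M.toBlocks₂₂ *ᵥ y) := by
  conv_lhs => rw [← fromBlocks_toBlocks M, fromBlocks_mulVec]
  rfl

lemma J_sq : J p q * J p q = 1 := by
  unfold J
  rw [fromBlocks_multiply]
  simp

lemma J_herm : (J p q)ᴴ = J p q := by
  unfold J
  rw [fromBlocks_conjTranspose]
  simp

lemma J_form (x : Fin p ⊕ Fin q → ℂ) : star x ⬝ᵥ (J p q *ᵥ x) = (qf x : ℂ) := by
  have h : J p q *ᵥ x = Sum.elim (fun i => x (Sum.inl i)) (fun i => - x (Sum.inr i)) := by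
    unfold J
    rw [fromBlocks_mulVec]
    funext i
    cases i with
    | inl i => simp [Function.comp_def]
    | inr i => simp [Function.comp_def, neg_mulVec]
  rw [h]
  unfold dotProduct qf
  rw [Fintype.sum_sum_type]
  push_cast
  rw [← star_dot_self, ← star_dot_self]
  unfold dotProduct
  rw [sub_eq_add_neg]
  congr 1
  rw [← Finset.sum_neg_distrib]
  refine Finset.sum_congr rfl fun i _ => ?_
  simp

/-- contractivity in the metric `J` -/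
def JC (M : Matrix (Fin p ⊕ Fin q) (Fin p ⊕ Fin q) ℂ) : Prop := ∀ x, qf (M *ᵥ x) ≤ qf x

lemma form_conj (M : Matrix (Fin p ⊕ Fin q) (Fin p ⊕ Fin q) ℂ) (x : Fin p ⊕ Fin q → ℂ) :
    star x ⬝ᵥ ((Mᴴ * J p q * M) *ᵥ x) = (qf (M *ᵥ x) : ℂ) := by
  rw [← J_form, Matrix.mul_assoc, ← mulVec_mulVec, dotProduct_mulVec, ← star_mulVec, mulVec_mulVec]

lemma JC_iff (M : Matrix (Fin p ⊕ Fin q) (Fin p ⊕ Fin q) ℂ) :
    (J p q - Mᴴ * J p q * M).PosSemidef ↔ JC M := by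
  rw [posSemidef_iff_dotProduct_mulVec]
  have key : ∀ x, star x ⬝ᵥ ((J p q - Mᴴ * J p q * M) *ᵥ x) = ((qf x - qf (M *ᵥ x) : ℝ) : ℂ) := by
    intro x
    rw [sub_mulVec, dotProduct_sub, J_form, form_conj]
    push_cast
    rfl
  constructor
  · rintro ⟨_, h⟩ x
    have h1 := h x
    rw [key x, Complex.zero_le_real] at h1
    linarith
  · intro h
    refine ⟨?_, fun x => ?_⟩
    · unfold IsHermitian
      rw [conjTranspose_sub, conjTranspose_mul, conjTranspose_mul, conjTranspose_conjTranspose, J_herm,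
        Matrix.mul_assoc]
    · rw [key x, Complex.zero_le_real]
      have := h x
      linarith

lemma JC.mul {M N : Matrix (Fin p ⊕ Fin q) (Fin p ⊕ Fin q) ℂ} (hM : JC M) (hN : JC N) :
    JC (M * N) := by
  intro x
  rw [← mulVec_mulVec]
  exact (hM _).trans (hN x)

lemma JC.det22 {M : Matrix (Fin p ⊕ Fin q) (Fin p ⊕ Fin q) ℂ} (hM : JC M) :
    M.toBlocks₂₂.det ≠ 0 := by
  refine mulVec_inj_det fun y hy => ?_
  have h := hM (Sum.elim 0 y)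
  rw [mulVec_elim, hy, qf_elim, qf_elim] at h
  simp only [mulVec_zero, zero_add, ns_zero] at h
  have h1 := ns_nonneg (M.toBlocks₁₂ *ᵥ y)
  have h2 := ns_nonneg y
  exact ns_eq_zero (by linarith)

lemma JC.kappa {M : Matrix (Fin p ⊕ Fin q) (Fin p ⊕ Fin q) ℂ} (hM : JC M) (x : Fin p → ℂ) :
    ns ((M.toBlocks₂₂⁻¹ * M.toBlocks₂₁) *ᵥ x) ≤ ns x := by
  have hu : IsUnit M.toBlocks₂₂.det := hM.det22.isUnit
  have h := hM (Sum.elim x (-((M.toBlocks₂₂⁻¹ * M.toBlocks₂₁) *ᵥ x)))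
  rw [mulVec_elim, qf_elim, qf_elim, ns_neg] at h
  have h1 : M.toBlocks₂₁ *ᵥ x + M.toBlocks₂₂ *ᵥ -((M.toBlocks₂₂⁻¹ * M.toBlocks₂₁) *ᵥ x) = 0 := by
    rw [mulVec_neg, mulVec_mulVec, ← Matrix.mul_assoc, Matrix.mul_nonsing_inv _ hu, Matrix.one_mul,
      add_neg_cancel]
  rw [h1, ns_zero] at h
  have h2 := ns_nonneg (M.toBlocks₁₁ *ᵥ x + M.toBlocks₁₂ *ᵥ -((M.toBlocks₂₂⁻¹ * M.toBlocks₂₁) *ᵥ x))
  linarith

/-- `J`-unitary matrices -/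
def JU (L : Matrix (Fin p ⊕ Fin q) (Fin p ⊕ Fin q) ℂ) : Prop := Lᴴ * J p q * L = J p q

lemma JU.qf {L : Matrix (Fin p ⊕ Fin q) (Fin p ⊕ Fin q) ℂ} (h : JU L) (x : Fin p ⊕ Fin q → ℂ) :
    qf (L *ᵥ x) = qf x := by
  have h1 := form_conj L x
  rw [h, J_form] at h1
  exact_mod_cast h1.symm

lemma JU.inv_mul {L : Matrix (Fin p ⊕ Fin q) (Fin p ⊕ Fin q) ℂ} (h : JU L) :
    (J p q * Lᴴ * J p q) * L = 1 := by
  unfold JU at h
  rw [Matrix.mul_assoc, Matrix.mul_assoc, ← Matrix.mul_assoc Lᴴ, h, J_sq]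

lemma JU.mul_inv {L : Matrix (Fin p ⊕ Fin q) (Fin p ⊕ Fin q) ℂ} (h : JU L) :
    L * (J p q * Lᴴ * J p q) = 1 := mul_eq_one_comm.1 h.inv_mul

lemma JU.adj {L : Matrix (Fin p ⊕ Fin q) (Fin p ⊕ Fin q) ℂ} (h : JU L) :
    L * J p q * Lᴴ = J p q := by
  have h1 := h.mul_inv
  have h2 : L * J p q * Lᴴ = (L * (J p q * Lᴴ * J p q)) * J p q := by
    simp only [Matrix.mul_assoc, J_sq, Matrix.mul_one]
  rw [h2, h1, Matrix.one_mul]

lemma JU.blocks {L : Matrix (Fin p ⊕ Fin q) (Fin p ⊕ Fin q) ℂ} (h : JU L) :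
    L.toBlocks₁₁ * L.toBlocks₁₁ᴴ - L.toBlocks₁₂ * L.toBlocks₁₂ᴴ = 1 ∧
    L.toBlocks₂₁ * L.toBlocks₁₁ᴴ - L.toBlocks₂₂ * L.toBlocks₁₂ᴴ = 0 ∧
    L.toBlocks₂₁ * L.toBlocks₂₁ᴴ - L.toBlocks₂₂ * L.toBlocks₂₂ᴴ = -1 := by
  have h1 := h.adj
  rw [← fromBlocks_toBlocks L] at h1
  unfold J at h1
  rw [fromBlocks_multiply, fromBlocks_conjTranspose, fromBlocks_multiply] at h1
  simp only [Matrix.mul_one, Matrix.mul_zero, add_zero, zero_add, Matrix.mul_neg, Matrix.neg_mul] at h1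
  simp only [← sub_eq_add_neg] at h1
  have h2 := fromBlocks_inj.1 h1
  exact ⟨h2.1, h2.2.2.1, h2.2.2.2⟩

lemma JU.g {L : Matrix (Fin p ⊕ Fin q) (Fin p ⊕ Fin q) ℂ} (h : JU L)
    (hd : L.toBlocks₂₂.det ≠ 0) (y : Fin p → ℂ) :
    ns y ≤ (∑ i, ∑ j, ‖L.toBlocks₁₁ i j‖ ^ 2) *
      (ns y - ns ((L.toBlocks₂₂⁻¹ * L.toBlocks₂₁) *ᵥ y)) := by
  obtain ⟨b1, b2, b3⟩ := h.blocks
  have hu : IsUnit L.toBlocks₂₂.det := hd.isUnit
  have key : ∀ t : Fin p → ℂ, ns (L.toBlocks₁₁ᴴ *ᵥ t) - ns (L.toBlocks₁₂ᴴ *ᵥ t) = ns t := by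
    intro t
    have e : ∀ {k : ℕ} (A : Matrix (Fin p) (Fin k) ℂ), (ns (Aᴴ *ᵥ t) : ℂ) = star t ⬝ᵥ ((A * Aᴴ) *ᵥ t) := by
      intro k A
      rw [← star_dot_self, star_mulVec, conjTranspose_conjTranspose, ← dotProduct_mulVec, mulVec_mulVec]
    have h1 : ((ns (L.toBlocks₁₁ᴴ *ᵥ t) - ns (L.toBlocks₁₂ᴴ *ᵥ t) : ℝ) : ℂ) = (ns t : ℂ) := by
      push_cast
      rw [e, e, ← dotProduct_sub, ← sub_mulVec, b1, one_mulVec, star_dot_self]
    exact_mod_cast h1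
  have hinj : (L.toBlocks₁₁ᴴ).det ≠ 0 := by
    refine mulVec_inj_det fun t ht => ?_
    have h1 := key t
    rw [ht, ns_zero] at h1
    have h2 := ns_nonneg (L.toBlocks₁₂ᴴ *ᵥ t)
    have h3 := ns_nonneg t
    exact ns_eq_zero (by linarith)
  set t := (L.toBlocks₁₁ᴴ)⁻¹ *ᵥ y with ht
  have hy : L.toBlocks₁₁ᴴ *ᵥ t = y := by
    rw [ht, mulVec_mulVec, Matrix.mul_nonsing_inv _ hinj.isUnit, one_mulVec]
  have hg : (L.toBlocks₂₂⁻¹ * L.toBlocks₂₁) *ᵥ y = L.toBlocks₁₂ᴴ *ᵥ t := by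
    rw [← hy, mulVec_mulVec, Matrix.mul_assoc, sub_eq_zero.1 b2, ← Matrix.mul_assoc,
      Matrix.nonsing_inv_mul _ hu, Matrix.one_mul]
  have h1 := key t
  rw [hy] at h1
  rw [hg, h1]
  have h2 := ns_mulVec_le (L.toBlocks₁₁ᴴ) t
  rw [hy] at h2
  have h3 : (∑ i, ∑ j, ‖L.toBlocks₁₁ᴴ i j‖ ^ 2) = ∑ i, ∑ j, ‖L.toBlocks₁₁ i j‖ ^ 2 := by
    rw [Finset.sum_comm]
    refine Finset.sum_congr rfl fun i _ => Finset.sum_congr rfl fun j _ => ?_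
    rw [conjTranspose_apply, norm_star]
  rwa [h3] at h2

lemma diag_ns {ι κ : Type*} [Fintype ι] [Fintype κ] (A : Matrix ι κ ℂ) (i : ι) :
    (A * Aᴴ) i i = (ns (A i) : ℂ) := by
  rw [← star_dot_self, mul_apply, dotProduct]
  refine Finset.sum_congr rfl fun j _ => ?_
  rw [conjTranspose_apply, Pi.star_apply, mul_comm]

lemma JU.row11 {L : Matrix (Fin p ⊕ Fin q) (Fin p ⊕ Fin q) ℂ} (h : JU L) (i : Fin p) :
    ns (L.toBlocks₁₁ i) = 1 + ns (L.toBlocks₁₂ i) := by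
  obtain ⟨b1, b2, b3⟩ := h.blocks
  have h1 := congrFun (congrFun b1 i) i
  rw [Matrix.sub_apply, diag_ns, diag_ns, one_apply_eq] at h1
  have h2 : ns (L.toBlocks₁₁ i) - ns (L.toBlocks₁₂ i) = 1 := by exact_mod_cast h1
  linarith

lemma JU.row21 {L : Matrix (Fin p ⊕ Fin q) (Fin p ⊕ Fin q) ℂ} (h : JU L) (i : Fin q) :
    ns (L.toBlocks₂₁ i) + 1 = ns (L.toBlocks₂₂ i) := by
  obtain ⟨b1, b2, b3⟩ := h.blocks
  have h1 := congrFun (congrFun b3 i) i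
  rw [Matrix.sub_apply, diag_ns, diag_ns, Matrix.neg_apply, one_apply_eq] at h1
  have h2 : ns (L.toBlocks₂₁ i) - ns (L.toBlocks₂₂ i) = -1 := by exact_mod_cast h1
  linarith

lemma JU.mul {L M : Matrix (Fin p ⊕ Fin q) (Fin p ⊕ Fin q) ℂ} (h : JU L) (h2 : JU M) : JU (L * M) := by
  unfold JU at *
  rw [conjTranspose_mul]
  calc Mᴴ * Lᴴ * J p q * (L * M) = Mᴴ * (Lᴴ * J p q * L) * M := by simp only [Matrix.mul_assoc]
    _ = J p q := by rw [h, h2]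

end Run7.h308
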