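import Pool.Agent.Run7.h308.Chol

set_option autoImplicit false
set_option maxHeartbeats 800000

namespace Run7.h308

open Matrix MeasureTheory Filter Topology Set

/-- a bounded function is majorised by its outer part -/
lemma outer_major {h : ℂ → ℂ} (hh : BddHolOn disc h) {b : ℝ → ℂ} (hb : BV h b) {v : ℝ → ℝ}
    (hv : Integrable v m) (hv0 : ∀ θ, 0 ≤ v θ) (hbv : ∀ᵐ θ ∂m, ‖b θ‖ ≤ Real.exp (-v θ)) {z : ℂ}
    (hz : z ∈ disc) : ‖h z‖ ≤ Real.exp (-Pz v z) := by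
  have key : ∀ N : ℕ, ‖h z‖ ≤ Real.exp (-Pz (fun θ => min (v θ) N) z) := by
    intro N
    have hi := (integrable_trunc hv hv0 N N.cast_nonneg).1
    have h0 : ∀ θ, 0 ≤ min (v θ) (N : ℝ) := fun θ => le_min (hv0 θ) N.cast_nonneg
    have hfin := finite_mv hi
    have hR : BddHolOn disc (fun z => Complex.exp (Hg (mv fun θ => min (v θ) N) z)) := by
      refine ⟨(differentiableOn_Hg _).cexp, Real.exp N, fun z hz => ?_⟩
      rw [Complex.norm_exp, Hg_mv_re hi h0 hz]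
      exact Real.exp_le_exp.2 (Pz_min_le hv hv0 N N.cast_nonneg hz)
    obtain ⟨l, hl⟩ := exists_BV (BddHolOn.Sg (mv fun θ => min (v θ) N))
    have hl' := BV.of_nt hl
    have hl1 := bv_outer hi h0 hl'
    have hbR : BV (fun z => Complex.exp (Hg (mv fun θ => min (v θ) N) z)) (fun θ => (l θ)⁻¹) := by
      filter_upwards [hl', hl1] with θ h1 h2
      have hne : l θ ≠ 0 := by
        intro h3
        rw [h3, norm_zero] at h2
        exact (Real.exp_pos _).ne h2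
      refine (h1.inv₀ hne).congr fun r => ?_
      unfold Sg
      rw [← Complex.exp_neg, neg_neg]
    have h3 := max_bdd (hh.mul hR) (hb.mul hbR) (C := 1) (by
      filter_upwards [hbv, hl1] with θ h4 h5
      rw [norm_mul, norm_inv, h5, ← Real.exp_neg, neg_neg]
      calc ‖b θ‖ * Real.exp (min (v θ) N) ≤ Real.exp (-v θ) * Real.exp (v θ) := by
            refine mul_le_mul h4 (Real.exp_le_exp.2 (min_le_left _ _)) (Real.exp_pos _).le
              (Real.exp_pos _).le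
        _ = 1 := by rw [← Real.exp_add, neg_add_cancel, Real.exp_zero]) hz
    rw [norm_mul, Complex.norm_exp, Hg_mv_re hi h0 hz] at h3
    rw [Real.exp_neg, ← one_div, le_div_iff₀ (Real.exp_pos _)]
    exact h3
  have ht := (tendsto_tail hv hv0 hz)
  have ht2 : Tendsto (fun N : ℕ => Real.exp (-Pz (fun θ => min (v θ) N) z)) atTop
      (𝓝 (Real.exp (-Pz v z))) := by
    have h1 : Tendsto (fun N : ℕ => -(Pz v z - Pz (fun θ => max (v θ - N) 0) z)) atTop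
        (𝓝 (-(Pz v z - 0))) := (tendsto_const_nhds.sub ht).neg
    rw [sub_zero] at h1
    refine h1.rexp.congr fun N => ?_
    rw [Pz_split hv hv0 N N.cast_nonneg hz, add_sub_cancel_right]
  exact ge_of_tendsto' ht2 key

/-- scalar inner functions -/
def Inn (β : ℂ → ℂ) : Prop := BddHolOn disc β ∧ (∃ z ∈ disc, β z ≠ 0) ∧
  ∃ b : ℝ → ℂ, (∀ᵐ θ ∂m, NTLim β (pt θ) (b θ)) ∧ ∀ᵐ θ ∂m, ‖b θ‖ = 1

lemma Inn.mul {a b : ℂ → ℂ} (ha : Inn a) (hb : Inn b) : Inn (fun z => a z * b z) := by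
  obtain ⟨a1, a2, l, a3, a4⟩ := ha
  obtain ⟨b1, b2, k, b3, b4⟩ := hb
  refine ⟨a1.mul b1, nontriv_mul a1.1 b1.1 a2 b2, fun θ => l θ * k θ, ?_, ?_⟩
  · filter_upwards [a3, b3] with θ h1 h2
    exact h1.mul h2
  · filter_upwards [a4, b4] with θ h1 h2
    rw [norm_mul, h1, h2, one_mul]

lemma Inn.one : Inn (fun _ => 1) := ⟨BddHolOn.const _ _, ⟨0, zero_mem_disc, one_ne_zero⟩, fun _ => 1,
  Eventually.of_forall fun _ _ => tendsto_const_nhds, Eventually.of_forall fun _ => norm_one⟩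

/-- inner denominators -/
lemma mult_one {φ : ℂ → ℂ} (hφ : BddType disc φ) {b : ℝ → ℂ} (hb : ∀ᵐ θ ∂m, NTLim φ (pt θ) (b θ))
    (hb1 : ∀ᵐ θ ∂m, ‖b θ‖ ≤ 1) :
    ∃ β ψ : ℂ → ℂ, Inn β ∧ BddHolOn disc ψ ∧ ∀ᶠ z in GF, β z * φ z = ψ z := by
  obtain ⟨g, h, hg, hh, h1, h2⟩ := BddType.iff.1 hφ
  obtain ⟨C, hC⟩ := hh.2
  -- normalise the denominator
  obtain ⟨s, hs⟩ : ∃ s : ℝ, s = (|C| + 1)⁻¹ := ⟨_, rfl⟩
  have hs0 : 0 < s := by rw [hs]; positivity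
  have hk : BddHolOn disc (fun z => (s : ℂ) * h z) := (BddHolOn.const _ _).mul hh
  have hk1 : ∀ z ∈ disc, ‖(s : ℂ) * h z‖ ≤ 1 := by
    intro z hz
    rw [norm_mul, Complex.norm_real, Real.norm_of_nonneg hs0.le, hs, inv_mul_le_iff₀ (by positivity),
      mul_one]
    have := hC z hz
    have := le_abs_self C
    linarith
  have hsne : (s : ℂ) ≠ 0 := by exact_mod_cast hs0.ne'
  have hkne : ∃ z ∈ disc, (s : ℂ) * h z ≠ 0 := by
    obtain ⟨z, hz, hz2⟩ := h1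
    exact ⟨z, hz, mul_ne_zero hsne hz2⟩
  have hgk : BddHolOn disc (fun z => (s : ℂ) * g z) := (BddHolOn.const _ _).mul hg
  obtain ⟨l, hl⟩ := exists_BV hk
  obtain ⟨a, ha⟩ := exists_BV hgk
  obtain ⟨hl0, hlI⟩ := log_int hk hkne (BV.of_nt hl)
  have hl1 := (BV.of_nt hl).bound hk1
  have hv : Integrable (fun θ => max (-Real.log ‖l θ‖) 0) m := hlI.neg.pos_part
  have hfin := finite_mv hv
  have hv0 : ∀ θ, 0 ≤ max (-Real.log ‖l θ‖) 0 := fun θ => le_max_right _ _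
  obtain ⟨o, ho⟩ := exists_BV (BddHolOn.Sg (mv fun θ => max (-Real.log ‖l θ‖) 0))
  have ho1 := bv_outer hv hv0 (BV.of_nt ho)
  have hol : ∀ᵐ θ ∂m, ‖o θ‖ = ‖l θ‖ := by
    filter_upwards [ho1, hl1, hl0] with θ h3 h4 h5
    have h6 : Real.log ‖l θ‖ ≤ 0 := Real.log_nonpos (norm_nonneg _) h4
    rw [h3, max_eq_left (by linarith), neg_neg, Real.exp_log (norm_pos_iff.2 h5)]
  have hone : ∀ᵐ θ ∂m, o θ ≠ 0 := by
    filter_upwards [hol, hl0] with θ h3 h4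
    rw [← norm_ne_zero_iff, h3]
    exact norm_ne_zero_iff.2 h4
  have hmaj : ∀ z ∈ disc, ‖(s : ℂ) * h z‖ ≤ ‖Sg (mv fun θ => max (-Real.log ‖l θ‖) 0) z‖ := by
    intro z hz
    rw [norm_Sg_mv hv hv0 hz]
    refine outer_major hk (BV.of_nt hl) hv hv0 ?_ hz
    filter_upwards [ho1, hol] with θ h3 h4
    rw [← h3, h4]
  obtain ⟨β, hβ⟩ : ∃ β : ℂ → ℂ, β = fun z => (s : ℂ) * h z / Sg (mv fun θ => max (-Real.log ‖l θ‖) 0) z :=
    ⟨_, rfl⟩
  obtain ⟨ψ, hψ⟩ : ∃ ψ : ℂ → ℂ, ψ = fun z => (s : ℂ) * g z / Sg (mv fun θ => max (-Real.log ‖l θ‖) 0) z :=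
    ⟨_, rfl⟩
  have hinv : Sm (fun z => (Sg (mv fun θ => max (-Real.log ‖l θ‖) 0) z)⁻¹) := by
    refine ⟨(BddHolOn.Sg _).1.inv fun z _ => Sg_ne_zero _ z, _, hv, hv0, fun z hz => ?_⟩
    rw [norm_inv, norm_Sg_mv hv hv0 hz, Real.exp_neg, inv_inv]
  have sψ : Sm ψ := by
    rw [hψ]
    simp only [div_eq_mul_inv]
    exact (Sm.of_bdd hgk).mul hinv
  have bψ : BV ψ (fun θ => a θ / o θ) := by
    rw [hψ]
    filter_upwards [ha, ho, hone] with θ h3 h4 h5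
    exact (h3.radial).div h4.radial h5
  have hbl : ∀ᵐ θ ∂m, b θ = a θ / l θ := by
    have h3 : ∀ᵐ θ ∂m, ∀ L, NTLim φ (pt θ) L → NTLim (fun z => (s : ℂ) * g z / ((s : ℂ) * h z)) (pt θ) L := by
      refine GF.nt ?_
      filter_upwards [h2] with z hz
      rw [hz.2, mul_div_mul_left _ _ hsne]
    filter_upwards [h3, hb, ha, hl, hl0] with θ h4 h5 h6 h7 h8
    exact tendsto_nhds_unique (h4 _ h5).radial (h6.div h7 h8).radial
  refine ⟨β, ψ, ⟨⟨?_, 1, fun z hz => ?_⟩, ?_, fun θ => l θ / o θ, ?_, ?_⟩, ⟨sψ.1, 1, fun z hz => ?_⟩, ?_⟩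
  · rw [hβ]
    exact hk.1.div (BddHolOn.Sg _).1 fun z _ => Sg_ne_zero _ z
  · rw [hβ]
    simp only
    rw [norm_div, div_le_one (norm_pos_iff.2 (Sg_ne_zero _ _))]
    exact hmaj z hz
  · obtain ⟨z, hz, hz2⟩ := hkne
    refine ⟨z, hz, ?_⟩
    rw [hβ]
    exact div_ne_zero hz2 (Sg_ne_zero _ _)
  · filter_upwards [hl, ho, hone] with θ h3 h4 h5
    rw [hβ]
    exact h3.div h4 h5
  · filter_upwards [hol, hl0] with θ h3 h4
    rw [norm_div, h3, div_self (norm_ne_zero_iff.2 h4)]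
  · refine sψ.maxp bψ ?_ hz
    filter_upwards [hbl, hb1, hol] with θ h3 h4 h5
    rw [norm_div, h5, ← norm_div, ← h3]
    exact h4
  · filter_upwards [h2] with z hz
    rw [hβ, hψ]
    simp only
    rw [hz.2]
    have := hz.1
    field_simp

lemma mult_fam {ι : Type} [Fintype ι] {φ : ι → ℂ → ℂ} (hφ : ∀ i, BddType disc (φ i)) {b : ι → ℝ → ℂ}
    (hb : ∀ i, ∀ᵐ θ ∂m, NTLim (φ i) (pt θ) (b i θ)) (hb1 : ∀ i, ∀ᵐ θ ∂m, ‖b i θ‖ ≤ 1) :
    ∃ β : ℂ → ℂ, Inn β ∧ ∀ i, ∃ ψ : ℂ → ℂ, BddHolOn disc ψ ∧ ∀ᶠ z in GF, β z * φ i z = ψ z := by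
  classical
  have key : ∀ s : Finset ι, ∃ β : ℂ → ℂ, Inn β ∧ ∀ i ∈ s, ∃ ψ : ℂ → ℂ, BddHolOn disc ψ ∧
      ∀ᶠ z in GF, β z * φ i z = ψ z := by
    intro s
    induction s using Finset.induction_on with
    | empty => exact ⟨fun _ => 1, Inn.one, fun i hi => by simp at hi⟩
    | insert i s hi ih =>
      obtain ⟨β, hβ, h⟩ := ih
      obtain ⟨γ, ψ, hγ, hψ, h2⟩ := mult_one (hφ i) (hb i) (hb1 i)
      refine ⟨fun z => β z * γ z, hβ.mul hγ, fun j hj => ?_⟩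
      rw [Finset.mem_insert] at hj
      rcases hj with rfl | hj
      · refine ⟨fun z => β z * ψ z, hβ.1.mul hψ, ?_⟩
        filter_upwards [h2] with z hz
        rw [mul_assoc, hz]
      · obtain ⟨ψ', h3, h4⟩ := h j hj
        refine ⟨fun z => γ z * ψ' z, hγ.1.mul h3, ?_⟩
        filter_upwards [h4] with z hz
        rw [← hz]
        ring
  obtain ⟨β, h1, h2⟩ := key Finset.univ
  exact ⟨β, h1, fun i => h2 i (Finset.mem_univ i)⟩

lemma bt_ne_of_bv {F : ℂ → ℂ} (hF : BddType disc F) {b : ℝ → ℂ}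
    (hb : ∀ᵐ θ ∂m, NTLim F (pt θ) (b θ)) (hne : ∀ᵐ θ ∂m, b θ ≠ 0) : ∀ᶠ z in GF, F z ≠ 0 := by
  rcases hF.dich with h | h
  · exfalso
    have h1 := GF.cone h
    obtain ⟨θ, h2, h3, h4⟩ := (h1.and (hb.and hne)).exists
    have := tendsto_neBot θ
    have t2 : Tendsto F (𝓝[{z : ℂ | ‖z‖ < 1 ∧ ‖z - pt θ‖ ≤ 1 * (1 - ‖z‖)}] (pt θ))
        (𝓝 0) := tendsto_const_nhds.congr' ((h2 1).mono fun z hz => hz.symm)
    exact h4 (tendsto_nhds_unique (h3 1) t2)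
  · exact h

end Run7.h308
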