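import Pool.Agent.Run7.h308.Refl

set_option autoImplicit false
set_option maxHeartbeats 800000

namespace Run7.h308

open Matrix MeasureTheory Filter Topology Set
open scoped ComplexOrder

variable {p q : ℕ}

lemma tendsto_minv {α ι : Type*} [Fintype ι] [DecidableEq ι] {F : Filter α} {M : α → Matrix ι ι ℂ}
    {a : Matrix ι ι ℂ} (hM : Tendsto M F (𝓝 a)) (ha : a.det ≠ 0) :
    Tendsto (fun z => (M z)⁻¹) F (𝓝 a⁻¹) := by
  have hd : Tendsto (fun z => (M z).det) F (𝓝 a.det) := by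
    have h : Continuous (fun A : Matrix ι ι ℂ => A.det) := Continuous.matrix_det continuous_id
    exact (h.tendsto a).comp hM
  have had : Tendsto (fun z => (M z).adjugate) F (𝓝 a.adjugate) := by
    have h : Continuous (fun A : Matrix ι ι ℂ => A.adjugate) := Continuous.matrix_adjugate continuous_id
    exact (h.tendsto a).comp hM
  refine tendsto_mat fun i k => ?_
  simp only [inv_def, Matrix.smul_apply, smul_eq_mul, Ring.inverse_eq_inv']
  exact (hd.inv₀ ha).mul (tendsto_entry had i k)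

lemma tendsto_ct {α ι κ : Type*} {F : Filter α} {M : α → Matrix ι κ ℂ}
    {a : Matrix ι κ ℂ} (hM : Tendsto M F (𝓝 a)) : Tendsto (fun z => (M z)ᴴ) F (𝓝 aᴴ) := by
  refine tendsto_mat fun i k => ?_
  simp only [conjTranspose_apply]
  exact (tendsto_entry hM k i).star

lemma NTLim.mm {ι κ l : Type} [Fintype κ] {M : ℂ → Matrix ι κ ℂ} {N : ℂ → Matrix κ l ℂ}
    {a : Matrix ι κ ℂ} {b : Matrix κ l ℂ} {ζ : ℂ} (hM : NTLim M ζ a) (hN : NTLim N ζ b) :
    NTLim (fun z => M z * N z) ζ (a * b) := fun K => tendsto_mm (hM K) (hN K)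

lemma NTLim.minv {ι : Type} [Fintype ι] [DecidableEq ι] {M : ℂ → Matrix ι ι ℂ}
    {a : Matrix ι ι ℂ} {ζ : ℂ} (hM : NTLim M ζ a) (ha : a.det ≠ 0) :
    NTLim (fun z => (M z)⁻¹) ζ a⁻¹ := fun K => tendsto_minv (hM K) ha

lemma contr_form {ι κ : Type*} [Fintype ι] [Fintype κ] [DecidableEq κ] (M : Matrix ι κ ℂ) (x : κ → ℂ) :
    star x ⬝ᵥ ((1 - Mᴴ * M) *ᵥ x) = ((ns x - ns (M *ᵥ x) : ℝ) : ℂ) := by
  rw [sub_mulVec, dotProduct_sub, one_mulVec, ← mulVec_mulVec, dotProduct_mulVec, ← star_mulVec,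
    star_dot_self, star_dot_self]
  push_cast
  rfl

lemma contr_iff {ι κ : Type*} [Fintype ι] [Fintype κ] [DecidableEq κ] (M : Matrix ι κ ℂ) :
    (1 - Mᴴ * M).PosSemidef ↔ ∀ x, ns (M *ᵥ x) ≤ ns x := by
  rw [posSemidef_iff_dotProduct_mulVec]
  constructor
  · rintro ⟨_, h⟩ x
    have h1 := h x
    rw [contr_form, Complex.zero_le_real] at h1
    linarith
  · intro h
    refine ⟨?_, fun x => ?_⟩
    · unfold IsHermitian
      rw [conjTranspose_sub, conjTranspose_mul, conjTranspose_conjTranspose, conjTranspose_one]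
    · rw [contr_form, Complex.zero_le_real]
      have := h x
      linarith

lemma Schur.contr {f : ℂ → Matrix (Fin p) (Fin q) ℂ} (hf : Schur f) {z : ℂ} (hz : z ∈ disc)
    (x : Fin q → ℂ) : ns (f z *ᵥ x) ≤ ns x := (contr_iff _).1 (hf.2 z hz) x

lemma Schur.bdd {f : ℂ → Matrix (Fin p) (Fin q) ℂ} (hf : Schur f) : MP (BddHolOn disc) f := by
  intro i k
  refine ⟨hf.1 i k, 1, fun z hz => ?_⟩
  have h1 := (le_ns _ i).trans (hf.contr hz (Pi.single k 1))
  rw [ns_single, mulVec_single_one, col_apply] at h1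
  exact (sq_le_one_iff₀ (norm_nonneg _)).1 h1

lemma JU.blocks' {L : Matrix (Fin p ⊕ Fin q) (Fin p ⊕ Fin q) ℂ} (h : JU L) :
    L.toBlocks₁₁ᴴ * L.toBlocks₁₂ - L.toBlocks₂₁ᴴ * L.toBlocks₂₂ = 0 ∧
    L.toBlocks₂₂ᴴ * L.toBlocks₂₂ - L.toBlocks₁₂ᴴ * L.toBlocks₁₂ = 1 := by
  have h1 := h
  unfold JU at h1
  rw [← fromBlocks_toBlocks L] at h1
  unfold J at h1
  rw [fromBlocks_conjTranspose, fromBlocks_multiply, fromBlocks_multiply] at h1
  simp only [Matrix.mul_one, Matrix.mul_zero, add_zero, zero_add, Matrix.mul_neg, Matrix.neg_mul] at h1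
  simp only [← sub_eq_add_neg] at h1
  have h2 := fromBlocks_inj.1 h1
  refine ⟨h2.2.1, ?_⟩
  have h3 := congrArg (fun X => -X) h2.2.2.2
  simp only [neg_neg, neg_sub] at h3
  exact h3

lemma JU.det11 {L : Matrix (Fin p ⊕ Fin q) (Fin p ⊕ Fin q) ℂ} (h : JU L) :
    L.toBlocks₁₁.det ≠ 0 := by
  obtain ⟨b1, b2, b3⟩ := h.blocks
  have hinj : (L.toBlocks₁₁ᴴ).det ≠ 0 := by
    refine mulVec_inj_det fun t ht => ?_
    have e : ∀ {k : ℕ} (A : Matrix (Fin p) (Fin k) ℂ), (ns (Aᴴ *ᵥ t) : ℂ) = star t ⬝ᵥ ((A * Aᴴ) *ᵥ t) := by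
      intro k A
      rw [← star_dot_self, star_mulVec, conjTranspose_conjTranspose, ← dotProduct_mulVec, mulVec_mulVec]
    have h1 : ((ns (L.toBlocks₁₁ᴴ *ᵥ t) - ns (L.toBlocks₁₂ᴴ *ᵥ t) : ℝ) : ℂ) = (ns t : ℂ) := by
      push_cast
      rw [e, e, ← dotProduct_sub, ← sub_mulVec, b1, one_mulVec, star_dot_self]
    have h1' : ns (L.toBlocks₁₁ᴴ *ᵥ t) - ns (L.toBlocks₁₂ᴴ *ᵥ t) = ns t := by exact_mod_cast h1
    rw [ht, ns_zero] at h1'
    have h2 := ns_nonneg (L.toBlocks₁₂ᴴ *ᵥ t)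
    have h3 := ns_nonneg t
    exact ns_eq_zero (by linarith)
  rw [det_conjTranspose] at hinj
  intro h0
  rw [h0] at hinj
  simp at hinj

lemma tendsto_neBot (θ : ℝ) :
    (𝓝[{z : ℂ | ‖z‖ < 1 ∧ ‖z - pt θ‖ ≤ 1 * (1 - ‖z‖)}] (pt θ)).NeBot := (tendsto_rad_nt θ).neBot

theorem nec {W : ℂ → Matrix (Fin p ⊕ Fin q) (Fin p ⊕ Fin q) ℂ} {f : ℂ → Matrix (Fin p) (Fin q) ℂ}
    (hf : Schur f) (hW : JInner p q W) (he : IsEta W f) :
    HasPseudocontinuation f ∧ LogDetIntegrable f := by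
  obtain ⟨b, hb⟩ := hf.bdd.bdd_bv
  obtain ⟨w, hw1, hw2, -⟩ := hW.bv
  have hG : ∀ᶠ z in GF, f z * (W z).toBlocks₂₂ = (W z).toBlocks₁₂ := by
    filter_upwards [hW.ev, GF.disc] with z h1 h2
    rw [he z h2 h1.1, Matrix.mul_assoc, Matrix.nonsing_inv_mul _ h1.2.1.det22.isUnit, Matrix.mul_one]
  have hbw : ∀ᵐ θ ∂m, b θ * (w θ).toBlocks₂₂ = (w θ).toBlocks₁₂ := by
    filter_upwards [hb, hw1, GF.cone hG] with θ h1 h2 h3
    have := tendsto_neBot θ
    have t1 := tendsto_mm (h1 1) (tendsto_b22 (h2 1))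
    exact tendsto_nhds_unique (t1.congr' (h3 1)) (tendsto_b12 (h2 1))
  constructor
  · refine ⟨fun z => ((W (rf z)).toBlocks₂₁ * (W (rf z)).toBlocks₁₁⁻¹)ᴴ, fun i k => ?_, ?_⟩
    · have h1 : MP (BddType disc) (fun z => (W z).toBlocks₂₁ * (W z).toBlocks₁₁⁻¹) := by
        refine Alg.bt.mm ?_ (MP.bt_inv (M := fun z => (W z).toBlocks₁₁) ?_)
        · exact fun i k => hW.bddType (Sum.inr i) (Sum.inl k)
        · exact fun i k => hW.bddType (Sum.inl i) (Sum.inl k)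
      exact (h1 k i).refl_out
    · filter_upwards [hb, hw1, hw2, hbw] with θ h1 h2 h3 h4
      refine ⟨b θ, h1, ?_⟩
      have h5 : NTLim (fun z => (W z).toBlocks₂₁ * (W z).toBlocks₁₁⁻¹) (pt θ)
          ((w θ).toBlocks₂₁ * (w θ).toBlocks₁₁⁻¹) :=
        fun K => tendsto_mm (tendsto_b21 (h2 K)) (tendsto_minv (tendsto_b11 (h2 K)) h3.det11)
      have h6 : NTLimExt (fun z => ((W (rf z)).toBlocks₂₁ * (W (rf z)).toBlocks₁₁⁻¹)ᴴ) (pt θ)
          ((w θ).toBlocks₂₁ * (w θ).toBlocks₁₁⁻¹)ᴴ :=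
        fun K => tendsto_ct ((h5.refl (norm_pt θ)) K)
      have h7 : ((w θ).toBlocks₂₁ * (w θ).toBlocks₁₁⁻¹)ᴴ = b θ := by
        have h8 := sub_eq_zero.1 h3.blocks'.1
        rw [← h4, ← Matrix.mul_assoc] at h8
        have h9 := congrArg (fun X => X * (w θ).toBlocks₂₂⁻¹) h8
        simp only [Matrix.mul_assoc, Matrix.mul_nonsing_inv _ h3.jc.det22.isUnit, Matrix.mul_one] at h9
        have hu : IsUnit ((w θ).toBlocks₁₁ᴴ).det := by
          rw [det_conjTranspose, isUnit_iff_ne_zero, star_ne_zero]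
          exact h3.det11
        rw [conjTranspose_mul, conjTranspose_nonsing_inv, ← h9, ← Matrix.mul_assoc,
          Matrix.nonsing_inv_mul _ hu, Matrix.one_mul]
      rw [← h7]
      exact h6
  · have hdet : ∀ᵐ θ ∂m, (1 - b θ * (b θ)ᴴ).det = ((‖(w θ).toBlocks₂₂.det‖ ^ 2 : ℝ) : ℂ)⁻¹ := by
      filter_upwards [hw2, hbw] with θ h1 h2
      have h3 := h1.blocks'.2
      have h4 : (w θ).toBlocks₂₂ᴴ * (1 - (b θ)ᴴ * b θ) * (w θ).toBlocks₂₂ = 1 := by
        calc (w θ).toBlocks₂₂ᴴ * (1 - (b θ)ᴴ * b θ) * (w θ).toBlocks₂₂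
            = (w θ).toBlocks₂₂ᴴ * (w θ).toBlocks₂₂ -
              (b θ * (w θ).toBlocks₂₂)ᴴ * (b θ * (w θ).toBlocks₂₂) := by
              rw [conjTranspose_mul]
              simp only [Matrix.mul_sub, Matrix.sub_mul, Matrix.mul_assoc, Matrix.one_mul]
          _ = 1 := by rw [h2, h3]
      have h5 := congrArg Matrix.det h4
      rw [det_mul, det_mul, det_conjTranspose, det_one] at h5
      rw [det_one_sub_mul_comm]
      have h6 : ((‖(w θ).toBlocks₂₂.det‖ ^ 2 : ℝ) : ℂ) = (w θ).toBlocks₂₂.det * star (w θ).toBlocks₂₂.det := by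
        rw [Complex.star_def, Complex.mul_conj, Complex.normSq_eq_norm_sq]
      rw [h6]
      refine eq_inv_of_mul_eq_one_left ?_
      rw [← h5]
      ring
    refine ⟨b, hb, ?_, ?_⟩
    · filter_upwards [hdet, hw2] with θ h1 h2
      rw [h1, ← Complex.ofReal_inv, Complex.ofReal_re]
      have := norm_pos_iff.2 h2.jc.det22
      positivity
    · have h22 : BddType disc (fun z => (W z).toBlocks₂₂.det) :=
        Alg.bt.det (M := fun z => (W z).toBlocks₂₂) fun i k => hW.bddType (Sum.inr i) (Sum.inr k)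
      have h1 := h22.bv_ne (b := fun θ => (w θ).toBlocks₂₂.det) (by
        filter_upwards [hW.ev] with z hz
        exact hz.2.1.det22) (by
        filter_upwards [hw1] with θ h2
        have h : Continuous (fun A : Matrix (Fin q) (Fin q) ℂ => A.det) :=
          Continuous.matrix_det continuous_id
        exact (h.tendsto _).comp (tendsto_b22 h2.radial))
      refine (h1.2.const_mul (-2)).congr ?_
      filter_upwards [hdet] with θ h2
      rw [h2, ← Complex.ofReal_inv, Complex.ofReal_re, Real.log_inv, Real.log_pow]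
      push_cast
      ring

end Run7.h308
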