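import Pool.Agent.Run7.h308.Four

set_option autoImplicit false
set_option maxHeartbeats 800000

namespace Run7.h308

open Complex MeasureTheory Filter Topology Set Metric

lemma norm_sub_symm (r : ℝ) (s t : ℝ) : ‖pt t - r * pt s‖ = ‖pt s - r * pt t‖ := by
  have h : ∀ s t : ℝ, ‖pt t - r * pt s‖ ^ 2 = 1 + r ^ 2 - 2 * r * (pt t * (starRingEnd ℂ) (pt s)).re := by
    intro s t
    rw [← Complex.normSq_eq_norm_sq, Complex.normSq_sub, Complex.normSq_eq_norm_sq,
      Complex.normSq_eq_norm_sq, norm_mul, norm_pt, norm_pt, Complex.norm_real]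
    simp only [map_mul, Complex.conj_ofReal, one_pow, mul_one, Real.norm_eq_abs, sq_abs]
    have : pt t * (↑r * (starRingEnd ℂ) (pt s)) = (r : ℂ) * (pt t * (starRingEnd ℂ) (pt s)) := by ring
    rw [this, Complex.re_ofReal_mul]
    ring
  have h1 := h s t
  have h2 := h t s
  have h3 : (pt t * (starRingEnd ℂ) (pt s)).re = (pt s * (starRingEnd ℂ) (pt t)).re := by
    simp only [Complex.mul_re, Complex.conj_re, Complex.conj_im]
    ring
  rw [h3, ← h2] at h1
  exact (pow_left_inj₀ (norm_nonneg _) (norm_nonneg _) two_ne_zero).1 h1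

lemma norm_r_pt {r : ℝ} (hr : 0 ≤ r) (θ : ℝ) : ‖(r : ℂ) * pt θ‖ = r := by
  rw [norm_mul, norm_pt, mul_one, Complex.norm_real, Real.norm_of_nonneg hr]

lemma pk_symm {r : ℝ} (hr : 0 ≤ r) (s t : ℝ) : pk (r * pt s) t = pk (r * pt t) s := by
  unfold pk
  rw [norm_r_pt hr, norm_r_pt hr, norm_sub_symm]

lemma pk_pow {r : ℝ} (h0 : 0 ≤ r) (h1 : r < 1) (t : ℝ) (n : ℕ) :
    ∫ θ, pk (r * pt t) θ • (pt θ ^ n) ∂m = (r * pt t) ^ n := by
  have hb : BddHolOn disc (fun z : ℂ => z ^ n) := by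
    refine ⟨(differentiable_id.pow n).differentiableOn, 1, fun z hz => ?_⟩
    rw [norm_pow]
    exact pow_le_one₀ (norm_nonneg _) (mem_disc.1 hz).le
  have hv : BV (fun z : ℂ => z ^ n) (fun θ => pt θ ^ n) := by
    refine Eventually.of_forall fun θ => ?_
    have h : Continuous (fun r : ℝ => ((r : ℂ) * pt θ) ^ n) := by fun_prop
    have := h.tendsto 1
    simp only [ofReal_one, one_mul] at this
    exact this.mono_left nhdsWithin_le_nhds
  exact poisson hb hv (rad_mem h0 h1 t)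

lemma conj_pt_pow (θ : ℝ) (n : ℕ) : (starRingEnd ℂ) (pt θ ^ n) = pt θ ^ (-(n : ℤ)) := by
  rw [map_pow, zpow_neg, zpow_natCast, ← inv_pow]
  congr 1
  rw [← Complex.inv_eq_conj (norm_pt θ)]

lemma pk_zpow {r : ℝ} (h0 : 0 ≤ r) (h1 : r < 1) (t : ℝ) (n : ℤ) :
    ∫ θ, pk (r * pt t) θ • (pt θ ^ n) ∂m = (r : ℂ) ^ n.natAbs * pt t ^ n := by
  rcases Int.eq_nat_or_neg n with ⟨k, rfl | rfl⟩
  · simp only [zpow_natCast, Int.natAbs_natCast]
    rw [pk_pow h0 h1, mul_pow]
  · have h2 : ∀ θ, pk (r * pt t) θ • (pt θ ^ (-(k : ℤ))) =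
        (starRingEnd ℂ) (pk (r * pt t) θ • (pt θ ^ k)) := by
      intro θ
      rw [← conj_pt_pow]
      simp only [Complex.real_smul, map_mul, Complex.conj_ofReal]
    simp_rw [h2]
    rw [integral_conj, pk_pow h0 h1, mul_pow, map_mul, conj_pt_pow, map_pow, Complex.conj_ofReal]
    simp

lemma Pz_cont {v : ℝ → ℝ} (hv : Integrable v m) (h0 : ∀ θ, 0 ≤ v θ) {r : ℝ} (hr0 : 0 ≤ r)
    (hr1 : r < 1) : Continuous fun θ => Pz v (r * pt θ) := by
  have := finite_mv hv
  have h1 : Continuous fun θ => (Hg (mv v) (r * pt θ)).re :=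
    Complex.continuous_re.comp (cont_rad (differentiableOn_Hg (mv v)).continuousOn hr0 hr1)
  refine h1.congr fun θ => ?_
  exact Hg_mv_re hv h0 (rad_mem hr0 hr1 θ)

lemma fub {v : ℝ → ℝ} (hv : Integrable v m) {r : ℝ} (hr0 : 0 ≤ r) (hr1 : r < 1) (n : ℤ) :
    ∫ θ, (Pz v (r * pt θ) : ℂ) * pt θ ^ n ∂m = ∫ t, (v t : ℂ) * ((r : ℂ) ^ n.natAbs * pt t ^ n) ∂m := by
  have hK : Continuous (fun x : ℝ × ℝ => pk (r * pt x.1) x.2) := by
    unfold pk
    refine Continuous.div ?_ ?_ fun x => ?_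
    · have := continuous_pt
      fun_prop
    · have := continuous_pt
      fun_prop
    · have := pt_sub_ne (rad_mem hr0 hr1 x.1) x.2
      have := norm_pos_iff.2 this
      positivity
  have hK2 : Continuous (fun x : ℝ × ℝ => ((pk (r * pt x.1) x.2 : ℝ) : ℂ) * pt x.1 ^ n) :=
    (Complex.continuous_ofReal.comp hK).mul ((continuous_pt.comp continuous_fst).zpow₀ n
      fun x => Or.inl (pt_ne _))
  have hI : Integrable (fun x : ℝ × ℝ => ((v x.2 : ℝ) : ℂ) *
      (((pk (r * pt x.1) x.2 : ℝ) : ℂ) * pt x.1 ^ n)) (m.prod m) := by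
    refine ((hv.comp_snd m).ofReal).mul_bdd (c := 2 / (1 - r)) hK2.aestronglyMeasurable
      (Eventually.of_forall fun x => ?_)
    rw [norm_mul, norm_zpow, norm_pt, one_zpow, mul_one, Complex.norm_real,
      Real.norm_of_nonneg (pk_nonneg (rad_mem hr0 hr1 _) _)]
    have := pk_le (rad_mem hr0 hr1 x.1) x.2
    rwa [norm_r_pt hr0] at this
  have h1 : ∀ θ, (Pz v (r * pt θ) : ℂ) * pt θ ^ n =
      ∫ t, ((v t : ℝ) : ℂ) * (((pk (r * pt θ) t : ℝ) : ℂ) * pt θ ^ n) ∂m := by
    intro θ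
    unfold Pz
    rw [← integral_complex_ofReal, ← integral_mul_const]
    congr 1
    ext t
    push_cast
    ring
  simp_rw [h1]
  rw [integral_integral_swap hI]
  congr 1
  ext t
  rw [integral_const_mul]
  congr 1
  rw [← pk_zpow hr0 hr1]
  congr 1
  ext θ
  rw [pk_symm hr0 θ t, Complex.real_smul]

lemma fub0 {v : ℝ → ℝ} (hv : Integrable v m) {r : ℝ} (hr0 : 0 ≤ r) (hr1 : r < 1) :
    ∫ θ, Pz v (r * pt θ) ∂m = ∫ t, v t ∂m := by
  have := fub hv hr0 hr1 0
  simp only [zpow_zero, mul_one, Int.natAbs_zero, pow_zero] at this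
  rw [integral_complex_ofReal, integral_complex_ofReal] at this
  exact_mod_cast this

lemma Pz_eq_log {v : ℝ → ℝ} (hv : Integrable v m) (h0 : ∀ θ, 0 ≤ v θ) {z : ℂ} (hz : z ∈ disc) :
    Pz v z = -Real.log ‖Sg (mv v) z‖ := by
  rw [norm_Sg_mv hv h0 hz, Real.log_exp, neg_neg]

/-- bounded case -/
lemma bv_bdd {v : ℝ → ℝ} (hv : Integrable v m) (h0 : ∀ θ, 0 ≤ v θ) {N : ℝ} (hN : ∀ θ, v θ ≤ N)
    {l : ℝ → ℂ} (hl : BV (Sg (mv v)) l) : ∀ᵐ θ ∂m, ‖l θ‖ = Real.exp (-v θ) := by
  have := finite_mv hv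
  have hN0 : 0 ≤ N := (h0 0).trans (hN 0)
  have hPN : ∀ z ∈ disc, Pz v z ≤ N := fun z hz => by
    have := Pz_mono hv (integrable_const N) (Eventually.of_forall hN) hz
    rwa [Pz_const N hz] at this
  have hlm : AEStronglyMeasurable l m := hl.aesm (BddHolOn.Sg _).1.continuousOn
  -- the limit is bounded below
  have hlow : ∀ᵐ θ ∂m, Real.exp (-N) ≤ ‖l θ‖ := by
    filter_upwards [hl] with θ hθ
    refine ge_of_tendsto hθ.norm ?_
    filter_upwards [ev_Ico] with r hr
    have hz := rad_mem hr.1.le hr.2 θ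
    rw [norm_Sg_mv hv h0 hz]
    exact Real.exp_le_exp.2 (neg_le_neg (hPN _ hz))
  have hup : ∀ᵐ θ ∂m, ‖l θ‖ ≤ 1 := hl.bound fun z hz => norm_Sg_le _ hz
  have hlim : ∀ᵐ θ ∂m, Tendsto (fun r : ℝ => Pz v (r * pt θ)) (𝓝[<] 1) (𝓝 (-Real.log ‖l θ‖)) := by
    filter_upwards [hl, hlow] with θ hθ h1
    have hpos : 0 < ‖l θ‖ := lt_of_lt_of_le (Real.exp_pos _) h1
    have h2 := (hθ.norm.log hpos.ne').neg
    refine h2.congr' ?_
    filter_upwards [ev_Ico] with r hr
    exact (Pz_eq_log hv h0 (rad_mem hr.1.le hr.2 θ)).symm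
  have hLm : AEStronglyMeasurable (fun θ => -Real.log ‖l θ‖) m :=
    (Real.measurable_log.comp_aemeasurable hlm.norm.aemeasurable).neg.aestronglyMeasurable
  have hLb : ∀ᵐ θ ∂m, ‖-Real.log ‖l θ‖‖ ≤ N := by
    filter_upwards [hlow, hup] with θ h1 h2
    have hpos : 0 < ‖l θ‖ := lt_of_lt_of_le (Real.exp_pos _) h1
    have h3 : -N ≤ Real.log ‖l θ‖ := by
      rw [← Real.log_exp (-N)]
      exact Real.log_le_log (Real.exp_pos _) h1
    have h4 := Real.log_nonpos hpos.le h2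
    rw [norm_neg, Real.norm_eq_abs, abs_of_nonpos h4]
    linarith
  have hw : ∀ᵐ θ ∂m, (((-Real.log ‖l θ‖ - v θ : ℝ)) : ℂ) = 0 := by
    refine ae_zero_of_four (C := N + N) ?_ ?_ fun n => ?_
    · exact Complex.continuous_ofReal.comp_aestronglyMeasurable (hLm.sub hv.1)
    · filter_upwards [hLb] with θ h1
      rw [Complex.norm_real]
      refine (norm_sub_le _ _).trans (add_le_add h1 ?_)
      rw [Real.norm_of_nonneg (h0 θ)]
      exact hN θ
    · have hLi : Integrable (fun θ => ((-Real.log ‖l θ‖ : ℝ) : ℂ) * pt θ ^ n) m := by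
        refine Integrable.of_bound ((Complex.continuous_ofReal.comp_aestronglyMeasurable hLm).mul
          (continuous_pt.zpow₀ n fun θ => Or.inl (pt_ne _)).aestronglyMeasurable) N ?_
        filter_upwards [hLb] with θ h1
        rw [norm_mul, norm_zpow, norm_pt, one_zpow, mul_one, Complex.norm_real]
        exact h1
      have hvi : Integrable (fun θ => ((v θ : ℝ) : ℂ) * pt θ ^ n) m := by
        refine Integrable.of_bound ((Complex.continuous_ofReal.comp_aestronglyMeasurable hv.1).mul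
          (continuous_pt.zpow₀ n fun θ => Or.inl (pt_ne _)).aestronglyMeasurable) N
          (Eventually.of_forall fun θ => ?_)
        rw [norm_mul, norm_zpow, norm_pt, one_zpow, mul_one, Complex.norm_real,
          Real.norm_of_nonneg (h0 θ)]
        exact hN θ
      have e1 : ∀ θ, (((-Real.log ‖l θ‖ - v θ : ℝ)) : ℂ) * pt θ ^ n =
          ((-Real.log ‖l θ‖ : ℝ) : ℂ) * pt θ ^ n - ((v θ : ℝ) : ℂ) * pt θ ^ n := by
        intro θ
        push_cast
        ring
      simp_rw [e1]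
      rw [integral_sub hLi hvi, sub_eq_zero]
      have t1 : Tendsto (fun r : ℝ => ∫ θ, (Pz v (r * pt θ) : ℂ) * pt θ ^ n ∂m) (𝓝[<] 1)
          (𝓝 (∫ θ, ((-Real.log ‖l θ‖ : ℝ) : ℂ) * pt θ ^ n ∂m)) := by
        refine tendsto_integral_filter_of_dominated_convergence (fun _ => N) ?_ ?_
          (integrable_const _) ?_
        · filter_upwards [ev_Ico] with r hr
          exact ((Complex.continuous_ofReal.comp (Pz_cont hv h0 hr.1.le hr.2)).mul
            (continuous_pt.zpow₀ n fun θ => Or.inl (pt_ne _))).aestronglyMeasurable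
        · filter_upwards [ev_Ico] with r hr
          refine Eventually.of_forall fun θ => ?_
          rw [norm_mul, norm_zpow, norm_pt, one_zpow, mul_one, Complex.norm_real,
            Real.norm_of_nonneg (Pz_nonneg h0 (rad_mem hr.1.le hr.2 θ))]
          exact hPN _ (rad_mem hr.1.le hr.2 θ)
        · filter_upwards [hlim] with θ hθ
          exact ((Complex.continuous_ofReal.tendsto _).comp hθ).mul_const _
      have t2 : Tendsto (fun r : ℝ => ∫ t, (v t : ℂ) * ((r : ℂ) ^ n.natAbs * pt t ^ n) ∂m) (𝓝[<] 1)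
          (𝓝 (∫ θ, ((v θ : ℝ) : ℂ) * pt θ ^ n ∂m)) := by
        have e2 : ∀ r : ℝ, ∫ t, (v t : ℂ) * ((r : ℂ) ^ n.natAbs * pt t ^ n) ∂m =
            (r : ℂ) ^ n.natAbs * ∫ θ, ((v θ : ℝ) : ℂ) * pt θ ^ n ∂m := by
          intro r
          rw [← integral_const_mul]
          congr 1
          ext t
          ring
        simp_rw [e2]
        have h : Continuous (fun r : ℝ => (r : ℂ) ^ n.natAbs * ∫ θ, ((v θ : ℝ) : ℂ) * pt θ ^ n ∂m) := by
          fun_prop
        have := h.tendsto 1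
        simp only [ofReal_one, one_pow, one_mul] at this
        exact this.mono_left nhdsWithin_le_nhds
      refine tendsto_nhds_unique t1 (t2.congr' ?_)
      filter_upwards [ev_Ico] with r hr
      exact (fub hv hr.1.le hr.2 n).symm
  filter_upwards [hw, hlow] with θ h1 h2
  have h3 : -Real.log ‖l θ‖ - v θ = 0 := by exact_mod_cast h1
  have hpos : 0 < ‖l θ‖ := lt_of_lt_of_le (Real.exp_pos _) h2
  rw [← Real.exp_log hpos]
  congr 1
  linarith

/-- boundary values of outer functions -/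
theorem bv_outer {v : ℝ → ℝ} (hv : Integrable v m) (h0 : ∀ θ, 0 ≤ v θ)
    {l : ℝ → ℂ} (hl : BV (Sg (mv v)) l) : ∀ᵐ θ ∂m, ‖l θ‖ = Real.exp (-v θ) := by
  have := finite_mv hv
  -- upper bound
  have hup : ∀ᵐ θ ∂m, ∀ N : ℕ, ‖l θ‖ ≤ Real.exp (-min (v θ) N) := by
    rw [ae_all_iff]
    intro N
    have hNi := (integrable_trunc hv h0 N N.cast_nonneg).1
    have hN0 : ∀ θ, 0 ≤ min (v θ) N := fun θ => le_min (h0 θ) N.cast_nonneg
    have := finite_mv hNi
    obtain ⟨lN, hlN⟩ := exists_BV (BddHolOn.Sg (mv fun θ => min (v θ) N))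
    have hlN' := BV.of_nt hlN
    filter_upwards [hl, hlN', bv_bdd hNi hN0 (fun θ => min_le_right _ _) hlN'] with θ h1 h2 h3
    rw [← h3]
    refine le_of_tendsto_of_tendsto h1.norm h2.norm ?_
    filter_upwards [ev_Ico] with r hr
    have hz := rad_mem hr.1.le hr.2 θ
    rw [norm_Sg_mv hv h0 hz, norm_Sg_mv hNi hN0 hz]
    refine Real.exp_le_exp.2 (neg_le_neg ?_)
    exact Pz_mono hNi hv (Eventually.of_forall fun θ => min_le_left _ _) hz
  have hup2 : ∀ᵐ θ ∂m, ‖l θ‖ ≤ Real.exp (-v θ) := by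
    filter_upwards [hup] with θ hθ
    have := hθ ⌈v θ⌉₊
    rwa [min_eq_left (Nat.le_ceil _)] at this
  -- Fatou
  set Λ : ℕ → ℝ → ENNReal := fun k θ => ENNReal.ofReal (Pz v (rs k * pt θ)) with hΛ
  have hΛm : ∀ k, Measurable (Λ k) := fun k =>
    (Pz_cont hv h0 (rs_pos k).le (rs_lt k)).measurable.ennreal_ofReal
  have hΛint : ∀ k, ∫⁻ θ, Λ k θ ∂m = ENNReal.ofReal (∫ t, v t ∂m) := by
    intro k
    rw [← fub0 hv (rs_pos k).le (rs_lt k), ofReal_integral_eq_lintegral_ofReal]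
    · -- integrability
      have hc := Pz_cont hv h0 (rs_pos k).le (rs_lt k)
      by_contra hcon
      have h1 : ∀ θ, Pz v (rs k * pt θ) ≤ 2 / (1 - rs k) * ∫ t, v t ∂m := by
        intro θ
        unfold Pz
        rw [← integral_const_mul]
        refine integral_mono (integrable_mul_pk hv (rad_mem (rs_pos k).le (rs_lt k) θ))
          (hv.const_mul _) fun t => ?_
        simp only
        rw [mul_comm]
        refine mul_le_mul_of_nonneg_right ?_ (h0 t)
        have := pk_le (rad_mem (rs_pos k).le (rs_lt k) θ) t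
        rwa [norm_r_pt (rs_pos k).le] at this
      exact hcon (Integrable.of_bound hc.aestronglyMeasurable _ (Eventually.of_forall fun θ => by
        rw [Real.norm_of_nonneg (Pz_nonneg h0 (rad_mem (rs_pos k).le (rs_lt k) θ))]
        exact h1 θ))
    · exact Eventually.of_forall fun θ => Pz_nonneg h0 (rad_mem (rs_pos k).le (rs_lt k) θ)
  have hF : ∫⁻ θ, liminf (fun k => Λ k θ) atTop ∂m ≤ ∫⁻ θ, ENNReal.ofReal (v θ) ∂m := by
    refine (lintegral_liminf_le hΛm).trans ?_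
    simp_rw [hΛint]
    rw [ofReal_integral_eq_lintegral_ofReal hv (Eventually.of_forall h0)]
    simp
  have hk : ∀ θ k, Pz v (rs k * pt θ) = -Real.log ‖Sg (mv v) (rs k * pt θ)‖ := fun θ k =>
    Pz_eq_log hv h0 (rad_mem (rs_pos k).le (rs_lt k) θ)
  -- limits of Λ
  have hl0 : ∀ᵐ θ ∂m, l θ = 0 → liminf (fun k => Λ k θ) atTop = ⊤ := by
    filter_upwards [hl] with θ hθ hz
    have h1 : Tendsto (fun k => ‖Sg (mv v) (rs k * pt θ)‖) atTop (𝓝[>] 0) := by
      refine tendsto_nhdsWithin_iff.2 ⟨?_, Eventually.of_forall fun k =>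
        norm_pos_iff.2 (Sg_ne_zero _ _)⟩
      have := (hθ.comp rs_tendsto).norm
      rwa [hz, norm_zero] at this
    have h2 : Tendsto (fun k => Pz v (rs k * pt θ)) atTop atTop := by
      simp_rw [hk θ]
      exact tendsto_neg_atBot_atTop.comp (Real.tendsto_log_nhdsGT_zero.comp h1)
    exact (ENNReal.tendsto_ofReal_atTop.comp h2).liminf_eq
  have hl1 : ∀ᵐ θ ∂m, l θ ≠ 0 → liminf (fun k => Λ k θ) atTop = ENNReal.ofReal (-Real.log ‖l θ‖) := by
    filter_upwards [hl] with θ hθ hz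
    have h1 : Tendsto (fun k => Pz v (rs k * pt θ)) atTop (𝓝 (-Real.log ‖l θ‖)) := by
      simp_rw [hk θ]
      exact (((hθ.comp rs_tendsto).norm).log (norm_ne_zero_iff.2 hz)).neg
    exact ((ENNReal.continuous_ofReal.tendsto _).comp h1).liminf_eq
  have hle : (fun θ => ENNReal.ofReal (v θ)) ≤ᵐ[m] fun θ => liminf (fun k => Λ k θ) atTop := by
    filter_upwards [hl0, hl1, hup2] with θ h1 h2 h3
    by_cases hz : l θ = 0
    · simp only [h1 hz, le_top]
    · simp only [h2 hz]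
      refine ENNReal.ofReal_le_ofReal ?_
      have hpos := norm_pos_iff.2 hz
      have := Real.log_le_log hpos h3
      rw [Real.log_exp] at this
      linarith
  have hfin : ∫⁻ θ, ENNReal.ofReal (v θ) ∂m ≠ ⊤ := by
    rw [← ofReal_integral_eq_lintegral_ofReal hv (Eventually.of_forall h0)]
    exact ENNReal.ofReal_ne_top
  have heq := ae_eq_of_ae_le_of_lintegral_le hle hfin
    (Measurable.liminf hΛm).aemeasurable hF
  have hb1 : ∀ᵐ θ ∂m, ‖l θ‖ ≤ 1 := hl.bound fun z hz => norm_Sg_le _ hz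
  filter_upwards [heq, hl0, hl1, hb1] with θ h1 h2 h3 hle1
  by_cases hz : l θ = 0
  · rw [h2 hz] at h1
    exact absurd h1 ENNReal.ofReal_ne_top
  · rw [h3 hz] at h1
    have hpos := norm_pos_iff.2 hz
    have h5 : v θ = -Real.log ‖l θ‖ := by
      have h6 := congrArg ENNReal.toReal h1
      rw [ENNReal.toReal_ofReal (h0 θ), ENNReal.toReal_ofReal] at h6
      · exact h6
      · have := Real.log_nonpos hpos.le hle1
        linarith
    rw [h5, neg_neg, Real.exp_log hpos]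

end Run7.h308
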