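import Pool.Agent.Run7.h308.Mult

set_option autoImplicit false
set_option maxHeartbeats 800000

namespace Run7.h308

open Matrix MeasureTheory Filter Topology Set
open scoped ComplexOrder

variable {p q : ℕ}

/-- Potapov-Ginzburg transform -/
noncomputable def pg (T : Matrix (Fin p ⊕ Fin q) (Fin p ⊕ Fin q) ℂ) :
    Matrix (Fin p ⊕ Fin q) (Fin p ⊕ Fin q) ℂ :=
  fromBlocks (T.toBlocks₁₁ - T.toBlocks₁₂ * T.toBlocks₂₂⁻¹ * T.toBlocks₂₁) (T.toBlocks₁₂ * T.toBlocks₂₂⁻¹)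
    (-(T.toBlocks₂₂⁻¹ * T.toBlocks₂₁)) T.toBlocks₂₂⁻¹

lemma ns_elim (x : Fin p → ℂ) (y : Fin q → ℂ) : ns (Sum.elim x y) = ns x + ns y := by
  unfold ns
  rw [Fintype.sum_sum_type]
  rfl

lemma pg_rel {T : Matrix (Fin p ⊕ Fin q) (Fin p ⊕ Fin q) ℂ} (hT : T.toBlocks₂₂.det ≠ 0)
    (u : Fin p → ℂ) (v : Fin q → ℂ) :
    ∃ a c, pg T *ᵥ Sum.elim u v = Sum.elim a c ∧ T *ᵥ Sum.elim u c = Sum.elim a v := by
  refine ⟨(pg T).toBlocks₁₁ *ᵥ u + (pg T).toBlocks₁₂ *ᵥ v, (pg T).toBlocks₂₁ *ᵥ u + (pg T).toBlocks₂₂ *ᵥ v,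
    mulVec_elim _ _ _, ?_⟩
  rw [mulVec_elim]
  unfold pg
  simp only [toBlocks_fromBlocks₁₁, toBlocks_fromBlocks₁₂, toBlocks_fromBlocks₂₁, toBlocks_fromBlocks₂₂]
  have hu : IsUnit T.toBlocks₂₂.det := hT.isUnit
  have e1 : T.toBlocks₁₁ *ᵥ u + T.toBlocks₁₂ *ᵥ (-(T.toBlocks₂₂⁻¹ * T.toBlocks₂₁) *ᵥ u + T.toBlocks₂₂⁻¹ *ᵥ v) =
      (T.toBlocks₁₁ - T.toBlocks₁₂ * T.toBlocks₂₂⁻¹ * T.toBlocks₂₁) *ᵥ u + (T.toBlocks₁₂ * T.toBlocks₂₂⁻¹) *ᵥ v := by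
    rw [mulVec_add, mulVec_mulVec, mulVec_mulVec, sub_mulVec, Matrix.mul_neg, neg_mulVec,
      Matrix.mul_assoc]
    abel
  have e2 : T.toBlocks₂₁ *ᵥ u + T.toBlocks₂₂ *ᵥ (-(T.toBlocks₂₂⁻¹ * T.toBlocks₂₁) *ᵥ u + T.toBlocks₂₂⁻¹ *ᵥ v) =
      v := by
    rw [mulVec_add, mulVec_mulVec, mulVec_mulVec, Matrix.mul_neg, neg_mulVec, ← Matrix.mul_assoc,
      Matrix.mul_nonsing_inv _ hu, Matrix.one_mul, one_mulVec]
    abel
  rw [e1, e2]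

lemma pg_JC {T : Matrix (Fin p ⊕ Fin q) (Fin p ⊕ Fin q) ℂ} (hT : T.toBlocks₂₂.det ≠ 0)
    (h : ∀ x, ns (T *ᵥ x) ≤ ns x) : JC (pg T) := by
  intro x
  obtain ⟨u, v, rfl⟩ : ∃ u v, x = Sum.elim u v :=
    ⟨x ∘ Sum.inl, x ∘ Sum.inr, (Sum.elim_comp_inl_inr x).symm⟩
  obtain ⟨a, c, h1, h2⟩ := pg_rel hT u v
  have h3 := h (Sum.elim u c)
  rw [h2, ns_elim, ns_elim] at h3
  rw [h1, qf_elim, qf_elim]
  linarith

lemma unit_ns {ι : Type*} [Fintype ι] [DecidableEq ι] {T : Matrix ι ι ℂ} (h : Tᴴ * T = 1) (x : ι → ℂ) :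
    ns (T *ᵥ x) = ns x := by
  have h1 := contr_form T x
  rw [h, sub_self, zero_mulVec, dotProduct_zero] at h1
  have h2 : ns x - ns (T *ᵥ x) = 0 := by exact_mod_cast h1.symm
  linarith

lemma JU_of_qf {W : Matrix (Fin p ⊕ Fin q) (Fin p ⊕ Fin q) ℂ} (h : ∀ x, qf (W *ᵥ x) = qf x) : JU W := by
  have h1 : (J p q - Wᴴ * J p q * W).PosSemidef := (JC_iff W).2 fun x => (h x).le
  have h2 : (J p q - Wᴴ * J p q * W).trace = 0 := by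
    refine Finset.sum_eq_zero fun i _ => ?_
    have h3 : star (Pi.single i 1 : Fin p ⊕ Fin q → ℂ) ⬝ᵥ ((J p q - Wᴴ * J p q * W) *ᵥ Pi.single i 1) = 0 := by
      rw [sub_mulVec, dotProduct_sub, J_form, form_conj, h, sub_self]
    rw [mulVec_single_one] at h3
    have h4 : star (Pi.single i 1 : Fin p ⊕ Fin q → ℂ) = Pi.single i 1 := by
      rw [← Pi.single_star, star_one]
    rw [h4, single_dotProduct, one_mul] at h3
    exact h3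
  have h3 := h1.trace_eq_zero_iff.1 h2
  exact (sub_eq_zero.1 h3).symm

lemma pg_JU {T : Matrix (Fin p ⊕ Fin q) (Fin p ⊕ Fin q) ℂ} (hT : T.toBlocks₂₂.det ≠ 0)
    (h : Tᴴ * T = 1) : JU (pg T) := by
  refine JU_of_qf fun x => ?_
  obtain ⟨u, v, rfl⟩ : ∃ u v, x = Sum.elim u v :=
    ⟨x ∘ Sum.inl, x ∘ Sum.inr, (Sum.elim_comp_inl_inr x).symm⟩
  obtain ⟨a, c, h1, h2⟩ := pg_rel hT u v
  have h3 := unit_ns h (Sum.elim u c)
  rw [h2, ns_elim, ns_elim] at h3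
  rw [h1, qf_elim, qf_elim]
  linarith

lemma dot_cs {ι : Type*} [Fintype ι] (y w : ι → ℂ) : ‖star y ⬝ᵥ w‖ ^ 2 ≤ ns y * ns w := by
  have h1 : ‖star y ⬝ᵥ w‖ ≤ ∑ j, ‖y j‖ * ‖w j‖ := by
    unfold dotProduct
    refine (norm_sum_le _ _).trans (le_of_eq ?_)
    simp
  have h2 := Finset.sum_mul_sq_le_sq_mul_sq Finset.univ (fun j => ‖y j‖) (fun j => ‖w j‖)
  exact (pow_le_pow_left₀ (norm_nonneg _) h1 2).trans h2

/-- maximum principle for matrix functions -/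
lemma mat_max {ι : Type} [Fintype ι] [DecidableEq ι] {T : ℂ → Matrix ι ι ℂ} (hT : MP (BddHolOn disc) T)
    {t : ℝ → Matrix ι ι ℂ} (ht : ∀ᵐ θ ∂m, NTLim T (pt θ) (t θ)) (hu : ∀ᵐ θ ∂m, (t θ)ᴴ * t θ = 1)
    {z : ℂ} (hz : z ∈ disc) (x : ι → ℂ) : ns (T z *ᵥ x) ≤ ns x := by
  obtain ⟨y, hy⟩ : ∃ y, y = T z *ᵥ x := ⟨_, rfl⟩
  have hφ : BddHolOn disc (fun w => ∑ i, star y i * ∑ j, T w i j * x j) :=
    BddHolOn.sum _ fun i _ => (BddHolOn.const _ _).mul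
      (BddHolOn.sum _ fun j _ => (hT i j).mul (BddHolOn.const _ _))
  have hb : BV (fun w => ∑ i, star y i * ∑ j, T w i j * x j)
      (fun θ => ∑ i, star y i * ∑ j, t θ i j * x j) := by
    filter_upwards [ht] with θ h
    exact tendsto_finsetSum _ fun i _ => tendsto_const_nhds.mul
      (tendsto_finsetSum _ fun j _ => (tendsto_entry h.radial i j).mul_const _)
  have h1 := max_bdd hφ hb (C := Real.sqrt (ns y * ns x)) (by
    filter_upwards [hu] with θ h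
    have h2 := dot_cs y (t θ *ᵥ x)
    rw [unit_ns h] at h2
    refine Real.le_sqrt_of_sq_le ?_
    exact h2) hz
  have h2 : ∑ i, star y i * ∑ j, T z i j * x j = (ns y : ℂ) := by
    have h3 : ∀ i, ∑ j, T z i j * x j = y i := by
      intro i
      rw [hy]
      rfl
    rw [← star_dot_self y]
    simp_rw [h3]
    rfl
  rw [h2, Complex.norm_real, Real.norm_of_nonneg (ns_nonneg y)] at h1
  have h3 : ns y ^ 2 ≤ ns y * ns x := by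
    have h4 := pow_le_pow_left₀ (ns_nonneg y) h1 2
    rwa [Real.sq_sqrt (mul_nonneg (ns_nonneg _) (ns_nonneg _))] at h4
  rw [← hy]
  by_contra hc
  push Not at hc
  have h5 := ns_nonneg x
  nlinarith

end Run7.h308
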