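import Pool.Agent.Run7.h308.RegE

set_option autoImplicit false
set_option maxHeartbeats 800000

namespace Run7.h308

open MeasureTheory Filter Topology Set

/-- reflection of points -/
noncomputable def rf (z : ℂ) : ℂ := 1 / (starRingEnd ℂ) z

lemma norm_rf (z : ℂ) : ‖rf z‖ = 1 / ‖z‖ := by
  unfold rf
  rw [norm_div, norm_one, RCLike.norm_conj]

lemma rf_rf (z : ℂ) : rf (rf z) = z := by
  unfold rf
  simp

lemma rf_sub {ζ : ℂ} (hζ : ‖ζ‖ = 1) {z : ℂ} (hz : z ≠ 0) : ‖rf z - ζ‖ = ‖z - ζ‖ / ‖z‖ := by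
  have hz' : (starRingEnd ℂ) z ≠ 0 := by simpa using hz
  have h1 : ζ * (starRingEnd ℂ) ζ = 1 := by
    rw [Complex.mul_conj, Complex.normSq_eq_norm_sq, hζ]
    simp
  have h2 : rf z - ζ = ζ * (starRingEnd ℂ) (ζ - z) / (starRingEnd ℂ) z := by
    unfold rf
    rw [map_sub, mul_sub, h1]
    field_simp
  rw [h2, norm_div, norm_mul, hζ, one_mul, RCLike.norm_conj, RCLike.norm_conj, norm_sub_rev]

lemma rf_self {ζ : ℂ} (hζ : ‖ζ‖ = 1) : rf ζ = ζ := by
  have hne : ζ ≠ 0 := by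
    intro h
    rw [h, norm_zero] at hζ
    exact zero_ne_one hζ
  have := rf_sub hζ hne
  rw [sub_self, norm_zero, zero_div] at this
  exact sub_eq_zero.1 (norm_eq_zero.1 this)

lemma rf_cont {ζ : ℂ} (hζ : ‖ζ‖ = 1) : Tendsto rf (𝓝 ζ) (𝓝 ζ) := by
  have hne : (starRingEnd ℂ) ζ ≠ 0 := by
    intro h
    have := RCLike.norm_conj ζ
    rw [h, norm_zero, hζ] at this
    exact zero_ne_one this
  have h : ContinuousAt rf ζ := by
    unfold rf
    exact continuousAt_const.div (Complex.continuous_conj.continuousAt) hne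
  have h2 := h.tendsto
  rwa [rf_self hζ] at h2

lemma rf_cone_out {ζ : ℂ} (hζ : ‖ζ‖ = 1) (K : ℝ) :
    Tendsto rf (𝓝[{z : ℂ | 1 < ‖z‖ ∧ ‖z - ζ‖ ≤ K * (‖z‖ - 1)}] ζ)
      (𝓝[{z : ℂ | ‖z‖ < 1 ∧ ‖z - ζ‖ ≤ K * (1 - ‖z‖)}] ζ) := by
  rw [tendsto_nhdsWithin_iff]
  refine ⟨(rf_cont hζ).mono_left nhdsWithin_le_nhds, ?_⟩
  filter_upwards [self_mem_nhdsWithin] with z hz
  have h1 : (1 : ℝ) < ‖z‖ := hz.1
  have h0 : 0 < ‖z‖ := by linarith
  have hz0 : z ≠ 0 := norm_pos_iff.1 h0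
  refine ⟨?_, ?_⟩
  · rw [norm_rf, div_lt_one h0]
    exact h1
  · rw [rf_sub hζ hz0, norm_rf]
    have h2 : K * (1 - 1 / ‖z‖) = K * (‖z‖ - 1) / ‖z‖ := by field_simp
    rw [h2]
    exact div_le_div_of_nonneg_right hz.2 h0.le

lemma rf_cone_in {ζ : ℂ} (hζ : ‖ζ‖ = 1) (K : ℝ) :
    Tendsto rf (𝓝[{z : ℂ | ‖z‖ < 1 ∧ ‖z - ζ‖ ≤ K * (1 - ‖z‖)}] ζ)
      (𝓝[{z : ℂ | 1 < ‖z‖ ∧ ‖z - ζ‖ ≤ K * (‖z‖ - 1)}] ζ) := by
  rw [tendsto_nhdsWithin_iff]
  refine ⟨(rf_cont hζ).mono_left nhdsWithin_le_nhds, ?_⟩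
  have hne : ζ ≠ 0 := by
    intro h
    rw [h, norm_zero] at hζ
    exact zero_ne_one hζ
  have h3 : ∀ᶠ z in 𝓝[{z : ℂ | ‖z‖ < 1 ∧ ‖z - ζ‖ ≤ K * (1 - ‖z‖)}] ζ, z ≠ 0 :=
    nhdsWithin_le_nhds (continuousAt_id.eventually_ne hne)
  filter_upwards [self_mem_nhdsWithin, h3] with z hz hz0
  have h1 : ‖z‖ < 1 := hz.1
  have h0 : 0 < ‖z‖ := norm_pos_iff.2 hz0
  refine ⟨?_, ?_⟩
  · rw [norm_rf, lt_div_iff₀ h0, one_mul]
    exact h1
  · rw [rf_sub hζ hz0, norm_rf]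
    have h2 : K * (1 / ‖z‖ - 1) = K * (1 - ‖z‖) / ‖z‖ := by field_simp
    rw [h2]
    exact div_le_div_of_nonneg_right hz.2 h0.le

lemma NTLim.refl {E : Type} [TopologicalSpace E] {F : ℂ → E} {ζ : ℂ} (hζ : ‖ζ‖ = 1) {L : E}
    (h : NTLim F ζ L) : NTLimExt (fun z => F (rf z)) ζ L := fun K => (h K).comp (rf_cone_out hζ K)

lemma NTLimExt.refl {E : Type} [TopologicalSpace E] {F : ℂ → E} {ζ : ℂ} (hζ : ‖ζ‖ = 1) {L : E}
    (h : NTLimExt F ζ L) : NTLim (fun z => F (rf z)) ζ L := fun K => (h K).comp (rf_cone_in hζ K)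

lemma NTLim.map {E E' : Type} [TopologicalSpace E] [TopologicalSpace E'] {F : ℂ → E} {ζ : ℂ} {L : E}
    (h : NTLim F ζ L) {φ : E → E'} (hφ : ContinuousAt φ L) : NTLim (fun z => φ (F z)) ζ (φ L) :=
  fun K => hφ.tendsto.comp (h K)

lemma NTLimExt.map {E E' : Type} [TopologicalSpace E] [TopologicalSpace E'] {F : ℂ → E} {ζ : ℂ} {L : E}
    (h : NTLimExt F ζ L) {φ : E → E'} (hφ : ContinuousAt φ L) : NTLimExt (fun z => φ (F z)) ζ (φ L) :=
  fun K => hφ.tendsto.comp (h K)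

lemma isOpen_extr : IsOpen extr := isOpen_lt continuous_const continuous_norm

/-- differentiability of the reflected function -/
lemma refl_diff {a : ℂ → ℂ} {z : ℂ} (hz : z ≠ 0) (ha : DifferentiableAt ℂ a (rf z)) :
    DifferentiableAt ℂ (fun w => (starRingEnd ℂ) (a (rf w))) z := by
  have h1 : DifferentiableAt ℂ (fun u => (starRingEnd ℂ) (a ((starRingEnd ℂ) u))) (z⁻¹) := by
    have h2 : DifferentiableAt ℂ a ((starRingEnd ℂ) z⁻¹) := by
      have : (starRingEnd ℂ) z⁻¹ = rf z := by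
        unfold rf
        rw [map_inv₀, one_div]
      rwa [this]
    exact (differentiableAt_conj_conj_iff (f := a)).2 h2
  have h3 : DifferentiableAt ℂ (fun w : ℂ => w⁻¹) z := differentiableAt_inv hz
  have h4 := DifferentiableAt.comp z h1 h3
  refine h4.congr_of_eventuallyEq (Eventually.of_forall fun w => ?_)
  simp [rf]

lemma rf_mem_disc {z : ℂ} (hz : z ∈ extr) : rf z ∈ disc := by
  have h1 : (1 : ℝ) < ‖z‖ := hz
  rw [mem_disc, norm_rf, div_lt_one (by linarith)]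
  exact h1

lemma rf_mem_extr {z : ℂ} (hz : z ∈ disc) (h0 : z ≠ 0) : rf z ∈ extr := by
  have h1 : 0 < ‖z‖ := norm_pos_iff.2 h0
  have h2 := mem_disc.1 hz
  show 1 < ‖rf z‖
  rw [norm_rf, lt_div_iff₀ h1, one_mul]
  exact h2

lemma ne_zero_of_extr {z : ℂ} (hz : z ∈ extr) : z ≠ 0 := by
  intro h
  have h1 : (1 : ℝ) < ‖z‖ := hz
  rw [h, norm_zero] at h1
  linarith

lemma BddHolOn.refl_out {a : ℂ → ℂ} (ha : BddHolOn disc a) :
    BddHolOn extr (fun z => (starRingEnd ℂ) (a (rf z))) := by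
  obtain ⟨h1, C, hC⟩ := ha
  refine ⟨fun z hz => ?_, C, fun z hz => ?_⟩
  · exact (refl_diff (ne_zero_of_extr hz)
      (h1.differentiableAt (isOpen_disc.mem_nhds (rf_mem_disc hz)))).differentiableWithinAt
  · rw [RCLike.norm_conj]
    exact hC _ (rf_mem_disc hz)

lemma BddHolOn.refl_in {a : ℂ → ℂ} (ha : BddHolOn extr a) :
    BddHolOn disc (fun z => z ^ 2 * (starRingEnd ℂ) (a (rf z))) := by
  obtain ⟨h1, C, hC⟩ := ha
  have hb : ∀ z ∈ disc, ‖z ^ 2 * (starRingEnd ℂ) (a (rf z))‖ ≤ |C| * ‖z‖ ^ 2 := by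
    intro z hz
    rw [norm_mul, RCLike.norm_conj, norm_pow]
    by_cases h0 : z = 0
    · rw [h0]
      simp
    · have h2 := hC _ (rf_mem_extr hz h0)
      have h3 := le_abs_self C
      have h4 : 0 ≤ ‖z‖ ^ 2 := by positivity
      nlinarith
  refine ⟨fun z hz => ?_, |C|, fun z hz => ?_⟩
  · by_cases h0 : z = 0
    · rw [h0]
      have h2 : HasDerivAt (fun z => z ^ 2 * (starRingEnd ℂ) (a (rf z))) 0 0 := by
        rw [hasDerivAt_iff_isLittleO]
        simp only [ne_eq, OfNat.ofNat_ne_zero, not_false_eq_true, zero_pow, zero_mul, sub_zero,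
          smul_zero]
        have h3 : (fun z : ℂ => z ^ 2 * (starRingEnd ℂ) (a (rf z))) =O[𝓝 0] fun z => z ^ 2 := by
          refine Asymptotics.IsBigO.of_bound |C| ?_
          filter_upwards [isOpen_disc.mem_nhds zero_mem_disc] with z hz
          have := hb z hz
          rwa [norm_pow]
        refine h3.trans_isLittleO ?_
        have h4 : (fun z : ℂ => z ^ 2) =o[𝓝 0] fun z => z ^ 1 :=
          Asymptotics.isLittleO_pow_pow (by norm_num)
        simpa using h4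
      exact h2.differentiableAt.differentiableWithinAt
    · have h2 := refl_diff h0 (h1.differentiableAt (isOpen_extr.mem_nhds (rf_mem_extr hz h0)))
      exact ((differentiableAt_pow 2).mul h2).differentiableWithinAt
  · refine (hb z hz).trans ?_
    have h2 := mem_disc.1 hz
    have h3 : ‖z‖ ^ 2 ≤ 1 := pow_le_one₀ (norm_nonneg _) h2.le
    have := abs_nonneg C
    nlinarith

lemma BddType.refl_out {f : ℂ → ℂ} (hf : BddType disc f) :
    BddType extr (fun z => (starRingEnd ℂ) (f (rf z))) := by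
  obtain ⟨g, h, hg, hh, h1, h2⟩ := hf
  refine ⟨_, _, hg.refl_out, hh.refl_out, ?_, fun z hz hz2 => ?_⟩
  · have h3 : ∀ᶠ z in 𝓝[≠] (0 : ℂ), z ∈ disc :=
      eventually_nhdsWithin_of_eventually_nhds (isOpen_disc.mem_nhds zero_mem_disc)
    have h4 : ∀ᶠ z in 𝓝[≠] (0 : ℂ), z ≠ 0 := self_mem_nhdsWithin
    obtain ⟨z, ⟨h5, h6⟩, h7⟩ := (((ev_ne hh.1 h1 zero_mem_disc).and h3).and h4).exists
    refine ⟨rf z, rf_mem_extr h6 h7, ?_⟩
    rw [rf_rf]
    simpa using h5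
  · have h3 : h (rf z) ≠ 0 := by simpa using hz2
    show (starRingEnd ℂ) (f (rf z)) = _
    rw [h2 _ (rf_mem_disc hz) h3, map_div₀]

lemma BddType.refl_in {f : ℂ → ℂ} (hf : BddType extr f) :
    BddType disc (fun z => (starRingEnd ℂ) (f (rf z))) := by
  obtain ⟨g, h, hg, hh, ⟨z0, hz0, hz1⟩, h2⟩ := hf
  refine ⟨_, _, hg.refl_in, hh.refl_in, ⟨rf z0, rf_mem_disc hz0, ?_⟩, fun z hz hz2 => ?_⟩
  · rw [rf_rf]
    have h3 : rf z0 ≠ 0 := by
      unfold rf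
      simpa using ne_zero_of_extr hz0
    exact mul_ne_zero (pow_ne_zero 2 h3) (by simpa using hz1)
  · have h4 : z ≠ 0 := by
      intro h
      rw [h] at hz2
      simp at hz2
    have h3 : h (rf z) ≠ 0 := by
      have := right_ne_zero_of_mul hz2
      simpa using this
    show (starRingEnd ℂ) (f (rf z)) = _
    rw [h2 _ (rf_mem_extr hz h4) h3, map_div₀]
    rw [mul_div_mul_left _ _ (pow_ne_zero 2 h4)]

end Run7.h308
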