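import Pool.Agent.Run7.h308.FM
import Pool.Agent.Run7.h308.Key

set_option autoImplicit false
set_option maxHeartbeats 800000

namespace Run7.h308

open Matrix MeasureTheory Filter Topology Set

variable {p q : ℕ}

lemma one_add_sum_le {ι : Type*} (s : Finset ι) (a : ι → ℝ) (ha : ∀ i, 0 ≤ a i) :
    1 + ∑ i ∈ s, a i ≤ Real.exp (∑ i ∈ s, Real.log (1 + a i)) := by
  classical
  induction s using Finset.induction_on with
  | empty => simp
  | insert i s hi ih =>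
    rw [Finset.sum_insert hi, Finset.sum_insert hi, Real.exp_add, Real.exp_log (by have := ha i; linarith)]
    have h1 := ha i
    have h2 : 0 ≤ ∑ i ∈ s, a i := Finset.sum_nonneg fun i _ => ha i
    have h3 : (1 + a i) * (1 + ∑ i ∈ s, a i) ≤ (1 + a i) * Real.exp (∑ i ∈ s, Real.log (1 + a i)) :=
      mul_le_mul_of_nonneg_left ih (by linarith)
    nlinarith

lemma log_one_add_le {x : ℝ} (hx : 0 ≤ x) : Real.log (1 + 3 * x ^ 2) ≤ Real.log 4 + 2 * Real.posLog x := by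
  have h1 := le_exp_posLog hx
  have h2 : 1 ≤ Real.exp (Real.posLog x) := Real.one_le_exp Real.posLog_nonneg
  have h3 : 1 + 3 * x ^ 2 ≤ 4 * Real.exp (Real.posLog x) ^ 2 := by nlinarith
  have h4 := Real.log_le_log (by positivity) h3
  rw [Real.log_mul (by norm_num) (by positivity), Real.log_pow, Real.log_exp] at h4
  simpa using h4

lemma exists_v {W : ℂ → Matrix (Fin p ⊕ Fin q) (Fin p ⊕ Fin q) ℂ} (h : JInner p q W) :
    ∃ v : ℝ → ℝ, Measurable v ∧ Integrable v m ∧ (∀ θ, 0 ≤ v θ) ∧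
      ∀ᵐ θ ∂m, ∀ L, NTLim W (pt θ) L →
        1 + 3 * ∑ i, ∑ j, ‖L.toBlocks₁₁ i j‖ ^ 2 ≤ Real.exp (v θ) := by
  obtain ⟨b, hb1, hb2, hb3⟩ := h.bv
  set a : Fin p × Fin p → ℝ → ℝ := fun ij θ => 3 * ‖b θ (Sum.inl ij.1) (Sum.inl ij.2)‖ ^ 2 with ha
  set v : ℝ → ℝ := fun θ => ∑ ij : Fin p × Fin p, Real.log (1 + a ij θ) with hv
  have hlog0 : ∀ ij θ, 0 ≤ Real.log (1 + a ij θ) := by
    intro ij θ
    refine Real.log_nonneg ?_
    have : 0 ≤ a ij θ := by rw [ha]; positivity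
    linarith
  have hvi : Integrable v m := by
    rw [hv]
    refine integrable_finsetSum _ fun ij _ => ?_
    have hm1 : AEMeasurable (fun θ => b θ (Sum.inl ij.1) (Sum.inl ij.2)) m :=
      (hb3 (Sum.inl ij.1) (Sum.inl ij.2)).1.aemeasurable
    refine Integrable.mono' (g := fun θ => Real.log 4 +
      2 * Real.posLog ‖b θ (Sum.inl ij.1) (Sum.inl ij.2)‖) ?_ ?_ ?_
    · exact (integrable_const _).add ((hb3 (Sum.inl ij.1) (Sum.inl ij.2)).2.const_mul 2)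
    · refine AEMeasurable.aestronglyMeasurable ?_
      rw [ha]
      fun_prop
    · refine Eventually.of_forall fun θ => ?_
      rw [Real.norm_of_nonneg (hlog0 _ _)]
      exact log_one_add_le (norm_nonneg _)
  refine ⟨fun θ => max (hvi.1.mk v θ) 0, ?_, ?_, fun θ => le_max_right _ _, ?_⟩
  · exact (hvi.1.stronglyMeasurable_mk.measurable).max measurable_const
  · refine hvi.congr ?_
    filter_upwards [hvi.1.ae_eq_mk] with θ hθ
    rw [← hθ, max_eq_left]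
    exact Finset.sum_nonneg fun _ _ => hlog0 _ _
  · filter_upwards [hvi.1.ae_eq_mk, hb1] with θ hθ h1 L hL
    have h2 : L = b θ := tendsto_nhds_unique hL.radial h1.radial
    rw [h2]
    have h3 : v θ ≤ max (hvi.1.mk v θ) 0 := by
      rw [← hθ]
      exact le_max_left _ _
    refine le_trans ?_ (Real.exp_le_exp.2 h3)
    have h4 := one_add_sum_le Finset.univ (fun ij => a ij θ) (fun ij => by simp only [ha]; positivity)
    refine le_trans (le_of_eq ?_) h4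
    rw [ha]
    simp only
    rw [← Finset.mul_sum, Fintype.sum_prod_type]
    rfl

lemma asing_data {U : ℂ → Matrix (Fin p ⊕ Fin q) (Fin p ⊕ Fin q) ℂ} (hU : JInner p q U)
    (hA : ASingular U) :
    ∃ Uh Ui : ℂ → Matrix (Fin p ⊕ Fin q) (Fin p ⊕ Fin q) ℂ, MP Sm Uh ∧ MP Sm Ui ∧
      (∀ᶠ z in GF, U z = Uh z) ∧ (∀ᶠ z in GF, (U z)⁻¹ = Ui z) ∧ (∀ z ∈ disc, Uh z * Ui z = 1) ∧
      ∀ z ∈ disc, JC (Uh z) := by
  obtain ⟨h1, h2⟩ := hA
  choose F hF1 hF2 using h1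
  choose G hG1 hG2 using h2
  obtain ⟨Uh, hUh⟩ : ∃ Uh : ℂ → Matrix (Fin p ⊕ Fin q) (Fin p ⊕ Fin q) ℂ,
      Uh = fun z => Matrix.of fun i k => F i k z := ⟨_, rfl⟩
  obtain ⟨Ui, hUi⟩ : ∃ Ui : ℂ → Matrix (Fin p ⊕ Fin q) (Fin p ⊕ Fin q) ℂ,
      Ui = fun z => Matrix.of fun i k => G i k z := ⟨_, rfl⟩
  have e1 : ∀ᶠ z in GF, U z = Uh z := by
    have : ∀ᶠ z in GF, ∀ i k, U z i k = F i k z := by
      rw [eventually_all]
      intro i
      rw [eventually_all]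
      exact fun k => hF2 i k
    filter_upwards [this] with z hz
    ext i k
    rw [hUh]
    exact hz i k
  have e2 : ∀ᶠ z in GF, (U z)⁻¹ = Ui z := by
    have : ∀ᶠ z in GF, ∀ i k, (U z)⁻¹ i k = G i k z := by
      rw [eventually_all]
      intro i
      rw [eventually_all]
      exact fun k => hG2 i k
    filter_upwards [this] with z hz
    ext i k
    rw [hUi]
    exact hz i k
  have s1 : MP Sm Uh := by
    intro i k
    rw [hUh]
    exact (hF1 i k).sm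
  have s2 : MP Sm Ui := by
    intro i k
    rw [hUi]
    exact (hG1 i k).sm
  refine ⟨Uh, Ui, s1, s2, e1, e2, ?_, ?_⟩
  · intro z hz
    refine cont_eq (f := fun z => Uh z * Ui z) (g := fun _ => 1)
      (MP.sm_cont (Alg.sm.mm s1 s2)) continuousOn_const ?_ hz
    filter_upwards [e1, e2, hU.ev] with z h3 h4 h5
    rw [← h3, ← h4]
    exact Matrix.mul_nonsing_inv _ h5.2.2.isUnit
  · intro z hz x
    have hc1 : ContinuousOn (fun z => qf (Uh z *ᵥ x)) disc := by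
      refine continuous_qf.comp_continuousOn ?_
      have h : Continuous (fun A : Matrix (Fin p ⊕ Fin q) (Fin p ⊕ Fin q) ℂ => A *ᵥ x) :=
        Continuous.matrix_mulVec continuous_id continuous_const
      exact h.comp_continuousOn (MP.sm_cont s1)
    refine cont_le hc1 (g := fun _ => qf x) continuousOn_const ?_ hz
    filter_upwards [e1, hU.ev] with z h3 h5
    have := h5.2.1 x
    rwa [h3] at this

lemma inv_data {ε0 : Matrix (Fin p) (Fin q) ℂ} {κ : ℂ → Matrix (Fin q) (Fin p) ℂ}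
    (hκ : MP (BddHolOn disc) κ) (hκ1 : ∀ z ∈ disc, ∀ x, ns (κ z *ᵥ x) ≤ ns x) {δ : ℝ} (hδ : 0 < δ)
    (hδ1 : δ ≤ 1) (hε : ∀ a, δ * ns a ≤ ns a - ns (ε0 *ᵥ a)) :
    ∃ R : ℂ → Matrix (Fin q) (Fin q) ℂ, MP (BddHolOn disc) R ∧
      (∀ z ∈ disc, R z * (1 + κ z * ε0) = 1) ∧ (∀ z ∈ disc, (1 + κ z * ε0) * R z = 1) := by
  have hdet : ∀ z ∈ disc, (1 + κ z * ε0).det ≠ 0 := by
    intro z hz
    refine mulVec_inj_det fun a ha => ?_
    have h1 := inv_bound (hκ1 z hz) hδ hδ1 hε a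
    rw [ha, ns_zero, mul_zero] at h1
    exact ns_eq_zero (le_antisymm h1 (ns_nonneg a))
  have hT : MP (BddHolOn disc) (fun z => 1 + κ z * ε0) :=
    Alg.bdd.madd (Alg.bdd.mconst 1) (Alg.bdd.mm hκ (Alg.bdd.mconst ε0))
  have hR2 : ∀ z ∈ disc, (1 + κ z * ε0) * (1 + κ z * ε0)⁻¹ = 1 := fun z hz =>
    Matrix.mul_nonsing_inv _ (hdet z hz).isUnit
  have hdiff : MP (fun f => DifferentiableOn ℂ f disc) (fun z => (1 + κ z * ε0)⁻¹) := by
    refine Alg.diff.inv (hT.mono fun _ h => h.1) ?_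
    exact (Alg.diff.det (M := fun z => 1 + κ z * ε0) (hT.mono fun _ h => h.1)).inv hdet
  refine ⟨fun z => (1 + κ z * ε0)⁻¹, fun i k => ⟨hdiff i k, 1 + 2 / δ * (1 + 2 / δ), ?_⟩,
    fun z hz => Matrix.nonsing_inv_mul _ (hdet z hz).isUnit, hR2⟩
  intro z hz
  have h1 := inv_bound (hκ1 z hz) hδ hδ1 hε ((1 + κ z * ε0)⁻¹ *ᵥ Pi.single k 1)
  rw [mulVec_mulVec, hR2 z hz, one_mulVec, ns_single, mul_one] at h1
  have h2 := (le_ns _ i).trans h1
  rw [mulVec_single_one, col_apply] at h2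
  show ‖((1 + κ z * ε0)⁻¹ : Matrix (Fin q) (Fin q) ℂ) i k‖ ≤ _
  generalize ‖((1 + κ z * ε0)⁻¹ : Matrix (Fin q) (Fin q) ℂ) i k‖ = x at h2 ⊢
  nlinarith [sq_nonneg (x - 1)]

end Run7.h308
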