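import Pool.Agent.Run7.h308.RegA

set_option autoImplicit false
set_option maxHeartbeats 800000

namespace Run7.h308

open Matrix MeasureTheory Filter Topology Set

variable {p q : ℕ}

lemma mul_21 {a b c d e f : Type*} [Fintype c] [Fintype d] (M : Matrix (a ⊕ b) (c ⊕ d) ℂ)
    (N : Matrix (c ⊕ d) (e ⊕ f) ℂ) :
    (M * N).toBlocks₂₁ = M.toBlocks₂₁ * N.toBlocks₁₁ + M.toBlocks₂₂ * N.toBlocks₂₁ := by
  conv_lhs => rw [← fromBlocks_toBlocks M, ← fromBlocks_toBlocks N, fromBlocks_multiply]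
  rfl

lemma mul_22 {a b c d e f : Type*} [Fintype c] [Fintype d] (M : Matrix (a ⊕ b) (c ⊕ d) ℂ)
    (N : Matrix (c ⊕ d) (e ⊕ f) ℂ) :
    (M * N).toBlocks₂₂ = M.toBlocks₂₁ * N.toBlocks₁₂ + M.toBlocks₂₂ * N.toBlocks₂₂ := by
  conv_lhs => rw [← fromBlocks_toBlocks M, ← fromBlocks_toBlocks N, fromBlocks_multiply]
  rfl

lemma mul_11 {a b c d e f : Type*} [Fintype c] [Fintype d] (M : Matrix (a ⊕ b) (c ⊕ d) ℂ)
    (N : Matrix (c ⊕ d) (e ⊕ f) ℂ) :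
    (M * N).toBlocks₁₁ = M.toBlocks₁₁ * N.toBlocks₁₁ + M.toBlocks₁₂ * N.toBlocks₂₁ := by
  conv_lhs => rw [← fromBlocks_toBlocks M, ← fromBlocks_toBlocks N, fromBlocks_multiply]
  rfl

lemma mul_12 {a b c d e f : Type*} [Fintype c] [Fintype d] (M : Matrix (a ⊕ b) (c ⊕ d) ℂ)
    (N : Matrix (c ⊕ d) (e ⊕ f) ℂ) :
    (M * N).toBlocks₁₂ = M.toBlocks₁₁ * N.toBlocks₁₂ + M.toBlocks₁₂ * N.toBlocks₂₂ := by
  conv_lhs => rw [← fromBlocks_toBlocks M, ← fromBlocks_toBlocks N, fromBlocks_multiply]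
  rfl

lemma alg_G {W0 U : Matrix (Fin p ⊕ Fin q) (Fin p ⊕ Fin q) ℂ} {c : ℂ} {κ g0 : Matrix (Fin q) (Fin p) ℂ}
    {ε0 : Matrix (Fin p) (Fin q) ℂ} {R L F : Matrix (Fin q) (Fin q) ℂ} {A : Matrix (Fin p) (Fin q) ℂ}
    (hW0 : JC W0) (hdU : U.det ≠ 0)
    (hV : JC (W0 * fromBlocks (c • 1) 0 0 1 * U⁻¹))
    (hκ : κ = (W0 * fromBlocks (c • 1) 0 0 1 * U⁻¹).toBlocks₂₂⁻¹ *
      (W0 * fromBlocks (c • 1) 0 0 1 * U⁻¹).toBlocks₂₁)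
    (hg0 : g0 = W0.toBlocks₂₂⁻¹ * W0.toBlocks₂₁)
    (hR : (1 + κ * ε0) * R = 1) (hL : L = R * (κ * U.toBlocks₁₂ + U.toBlocks₂₂))
    (hAF : U * fromRows A F = fromRows (ε0 * L) L) : c • (g0 * A) + F = 1 := by
  obtain ⟨V, hVdef⟩ : ∃ V, V = W0 * fromBlocks (c • 1) 0 0 1 * U⁻¹ := ⟨_, rfl⟩
  rw [← hVdef] at hV hκ
  have hWV : W0 * fromBlocks (c • 1) 0 0 1 = V * U := by
    rw [hVdef, Matrix.mul_assoc, Matrix.nonsing_inv_mul _ hdU.isUnit, Matrix.mul_one]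
  have e21 : c • W0.toBlocks₂₁ = V.toBlocks₂₁ * U.toBlocks₁₁ + V.toBlocks₂₂ * U.toBlocks₂₁ := by
    rw [← mul_21, ← hWV, mul_21]
    simp
  have e22 : W0.toBlocks₂₂ = V.toBlocks₂₁ * U.toBlocks₁₂ + V.toBlocks₂₂ * U.toBlocks₂₂ := by
    rw [← mul_22, ← hWV, mul_22]
    simp
  have hV22 : IsUnit V.toBlocks₂₂.det := hV.det22.isUnit
  have hW22 : IsUnit W0.toBlocks₂₂.det := hW0.det22.isUnit
  obtain ⟨Λ, hΛ⟩ : ∃ Λ, Λ = κ * U.toBlocks₁₂ + U.toBlocks₂₂ := ⟨_, rfl⟩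
  rw [← hΛ] at hL
  have hVκ : V.toBlocks₂₂ * κ = V.toBlocks₂₁ := by
    rw [hκ, ← Matrix.mul_assoc, Matrix.mul_nonsing_inv _ hV22, Matrix.one_mul]
  have h1 : V.toBlocks₂₂ * Λ = W0.toBlocks₂₂ := by
    rw [hΛ, Matrix.mul_add, ← Matrix.mul_assoc, hVκ, e22]
  have h2 : V.toBlocks₂₂ * (κ * U.toBlocks₁₁ + U.toBlocks₂₁) = c • W0.toBlocks₂₁ := by
    rw [Matrix.mul_add, ← Matrix.mul_assoc, hVκ, e21]
  have hrows : U * fromRows A F = fromRows (U.toBlocks₁₁ * A + U.toBlocks₁₂ * F)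
      (U.toBlocks₂₁ * A + U.toBlocks₂₂ * F) := by
    conv_lhs => rw [← fromBlocks_toBlocks U, fromBlocks_mul_fromRows]
  rw [hrows, fromRows_inj.eq_iff] at hAF
  have hWg : W0.toBlocks₂₂ * g0 = W0.toBlocks₂₁ := by
    rw [hg0, ← Matrix.mul_assoc, Matrix.mul_nonsing_inv _ hW22, Matrix.one_mul]
  have k1 : (κ * U.toBlocks₁₁ + U.toBlocks₂₁) * A + Λ * F = Λ := by
    calc (κ * U.toBlocks₁₁ + U.toBlocks₂₁) * A + Λ * F
        = κ * (U.toBlocks₁₁ * A + U.toBlocks₁₂ * F) + (U.toBlocks₂₁ * A + U.toBlocks₂₂ * F) := by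
          rw [hΛ]
          simp only [Matrix.add_mul, Matrix.mul_add, Matrix.mul_assoc]
          abel
      _ = (1 + κ * ε0) * L := by
          rw [hAF.1, hAF.2, Matrix.add_mul, Matrix.one_mul, Matrix.mul_assoc, add_comm]
      _ = Λ := by
          rw [hL, ← Matrix.mul_assoc, hR, Matrix.one_mul]
  have k2 : W0.toBlocks₂₂ * (c • (g0 * A) + F) = W0.toBlocks₂₂ := by
    calc W0.toBlocks₂₂ * (c • (g0 * A) + F) = (c • W0.toBlocks₂₁) * A + W0.toBlocks₂₂ * F := by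
          rw [Matrix.mul_add, Matrix.mul_smul, ← Matrix.mul_assoc, hWg, Matrix.smul_mul]
      _ = V.toBlocks₂₂ * ((κ * U.toBlocks₁₁ + U.toBlocks₂₁) * A + Λ * F) := by
          rw [← h2, ← h1]
          simp only [Matrix.mul_add, Matrix.add_mul, Matrix.mul_assoc]
      _ = W0.toBlocks₂₂ := by rw [k1, h1]
  have k3 := congrArg (fun X => W0.toBlocks₂₂⁻¹ * X) k2
  simp only [← Matrix.mul_assoc, Matrix.nonsing_inv_mul _ hW22, Matrix.one_mul] at k3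
  exact k3

/-- the data of the regularity argument -/
structure RD (W0 U : ℂ → Matrix (Fin p ⊕ Fin q) (Fin p ⊕ Fin q) ℂ) (c : ℂ → ℂ)
    (g0 : ℂ → Matrix (Fin q) (Fin p) ℂ) (Uh Ui : ℂ → Matrix (Fin p ⊕ Fin q) (Fin p ⊕ Fin q) ℂ)
    (ε0 : Matrix (Fin p) (Fin q) ℂ) (δ : ℝ) (L F : ℂ → Matrix (Fin q) (Fin q) ℂ)
    (A : ℂ → Matrix (Fin p) (Fin q) ℂ) : Prop where
  g0b : MP (BddHolOn disc) g0
  g0c : ∀ z ∈ disc, ∀ x, ns (g0 z *ᵥ x) ≤ ns x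
  g0e : ∀ᶠ z in GF, g0 z = (W0 z).toBlocks₂₂⁻¹ * (W0 z).toBlocks₂₁
  sUh : MP Sm Uh
  sUi : MP Sm Ui
  eU : ∀ᶠ z in GF, U z = Uh z
  inv : ∀ z ∈ disc, Uh z * Ui z = 1
  δ0 : 0 < δ
  hδ : ∀ a, δ * ns a ≤ ns a - ns (ε0 *ᵥ a)
  sL : MP Sm L
  sF : MP Sm F
  sA : MP Sm A
  rows : ∀ z ∈ disc, Uh z * fromRows (A z) (F z) = fromRows (ε0 * L z) (L z)
  gAF : ∀ z ∈ disc, c z • (g0 z * A z) + F z = 1
  A0 : A 0 = 0
  L0 : ∀ k, 1 ≤ ns (L 0 *ᵥ Pi.single k 1) - ns (ε0 *ᵥ (L 0 *ᵥ Pi.single k 1))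

theorem constr {W0 U : ℂ → Matrix (Fin p ⊕ Fin q) (Fin p ⊕ Fin q) ℂ} (h0 : JInner p q W0)
    (hU : JInner p q U) (hA : ASingular U) {c : ℂ → ℂ} (hcb : BddHolOn disc c)
    (hV : JInner p q (fun z => (W0 z * fromBlocks (c z • 1) 0 0 1) * (U z)⁻¹)) :
    ∃ g0 Uh Ui ε0 δ L F A, RD W0 U c g0 Uh Ui ε0 δ L F A := by
  obtain ⟨g0, g0b, g0c, g0e⟩ := h0.kappa
  obtain ⟨κ, κb, κc, κe⟩ := hV.kappa
  obtain ⟨Uh, Ui, sUh, sUi, eU, eUi, inv, hJC⟩ := asing_data hU hA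
  obtain ⟨ε0, hε0⟩ : ∃ ε0, ε0 = (Uh 0).toBlocks₁₂ * (Uh 0).toBlocks₂₂⁻¹ := ⟨_, rfl⟩
  obtain ⟨hε1, ⟨δ, δ0, δ1, hδ⟩, hε2⟩ := eps_facts (hJC 0 zero_mem_disc) hε0
  obtain ⟨R, Rb, hR1, hR2⟩ := inv_data κb κc δ0 δ1 hδ
  obtain ⟨L, hL⟩ : ∃ L : ℂ → Matrix (Fin q) (Fin q) ℂ,
      L = fun z => R z * (κ z * (Uh z).toBlocks₁₂ + (Uh z).toBlocks₂₂) := ⟨_, rfl⟩
  obtain ⟨E0, hE0⟩ : ∃ E0 : Matrix (Fin p ⊕ Fin q) (Fin q) ℂ, E0 = fromRows ε0 1 := ⟨_, rfl⟩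
  obtain ⟨B, hB⟩ : ∃ B : ℂ → Matrix (Fin p ⊕ Fin q) (Fin q) ℂ, B = fun z => Ui z * (E0 * L z) :=
    ⟨_, rfl⟩
  have sL : MP Sm L := by
    rw [hL]
    refine Alg.sm.mm Rb.bdd_sm (Alg.sm.madd (Alg.sm.mm κb.bdd_sm ?_) ?_)
    · exact fun i k => sUh (Sum.inl i) (Sum.inr k)
    · exact fun i k => sUh (Sum.inr i) (Sum.inr k)
  have sB : MP Sm B := by
    rw [hB]
    exact Alg.sm.mm sUi (Alg.sm.mm (Alg.sm.mconst E0) sL)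
  have sA : MP Sm (fun z => (B z).toRows₁) := fun i k => sB (Sum.inl i) k
  have sF : MP Sm (fun z => (B z).toRows₂) := fun i k => sB (Sum.inr i) k
  have hEL : ∀ z, E0 * L z = fromRows (ε0 * L z) (L z) := by
    intro z
    rw [hE0, fromRows_mul, Matrix.one_mul]
  have hrows : ∀ z ∈ disc, Uh z * fromRows (B z).toRows₁ (B z).toRows₂ = fromRows (ε0 * L z) (L z) := by
    intro z hz
    rw [fromRows_toRows, hB, ← hEL, ← Matrix.mul_assoc, inv z hz, Matrix.one_mul]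
  have hL0 : L 0 = (Uh 0).toBlocks₂₂ := by
    rw [hL]
    simp only
    rw [← hε1, ← Matrix.mul_assoc]
    have h1 : κ 0 * ε0 * (Uh 0).toBlocks₂₂ + (Uh 0).toBlocks₂₂ = (1 + κ 0 * ε0) * (Uh 0).toBlocks₂₂ := by
      rw [Matrix.add_mul, Matrix.one_mul, add_comm]
    rw [h1, ← Matrix.mul_assoc, hR1 0 zero_mem_disc, Matrix.one_mul]
  refine ⟨g0, Uh, Ui, ε0, δ, L, fun z => (B z).toRows₂, fun z => (B z).toRows₁, g0b, g0c, g0e, sUh, sUi,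
    eU, inv, δ0, hδ, sL, sF, sA, hrows, ?_, ?_, ?_⟩
  · intro z hz
    refine cont_eq (f := fun z => c z • (g0 z * (B z).toRows₁) + (B z).toRows₂) (g := fun _ => 1)
      ?_ continuousOn_const ?_ hz
    · have h1 : MP Sm (fun z => c z • (g0 z * (B z).toRows₁) + (B z).toRows₂) :=
        Alg.sm.madd (Alg.sm.msmul (Sm.of_bdd hcb) (Alg.sm.mm g0b.bdd_sm sA)) sF
      exact h1.sm_cont
    · filter_upwards [h0.ev, hU.ev, hV.ev, g0e, κe, eU, GF.disc] with z h1 h2 h3 h4 h5 h6 h7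
      have hr := hrows z h7
      rw [← h6] at hr
      refine alg_G (W0 := W0 z) (U := U z) (κ := κ z) (R := R z) h1.2.1 h2.2.2 h3.2.1 h5 h4 (hR2 z h7) ?_ hr
      rw [hL]
      simp only
      rw [h6]
  · have h1 : Uh 0 * (fromRows (0 : Matrix (Fin p) (Fin q) ℂ) (1 : Matrix (Fin q) (Fin q) ℂ)) =
        E0 * L 0 := by
      conv_lhs => rw [← fromBlocks_toBlocks (Uh 0), fromBlocks_mul_fromRows]
      rw [hEL, hL0, hε1]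
      simp
    have hUiUh : Ui 0 * Uh 0 = 1 := mul_eq_one_comm.1 (inv 0 zero_mem_disc)
    have h2 : B 0 = (fromRows (0 : Matrix (Fin p) (Fin q) ℂ) (1 : Matrix (Fin q) (Fin q) ℂ)) := by
      rw [hB]
      simp only
      rw [← h1, ← Matrix.mul_assoc, hUiUh, Matrix.one_mul]
    simp only [h2]
    rfl
  · intro k
    rw [hL0]
    exact hε2 k

end Run7.h308
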