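import Pool.Agent.Run7.h308.RegB

set_option autoImplicit false
set_option maxHeartbeats 800000

namespace Run7.h308

open Matrix MeasureTheory Filter Topology Set

variable {p q : ℕ}

lemma tendsto_rows {α ι ι' κ : Type*} {G : Filter α} {M : α → Matrix ι κ ℂ} {N : α → Matrix ι' κ ℂ}
    {a : Matrix ι κ ℂ} {b : Matrix ι' κ ℂ} (hM : Tendsto M G (𝓝 a)) (hN : Tendsto N G (𝓝 b)) :
    Tendsto (fun z => fromRows (M z) (N z)) G (𝓝 (fromRows a b)) := by
  refine tendsto_mat fun i k => ?_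
  cases i with
  | inl i => exact tendsto_entry hM i k
  | inr i => exact tendsto_entry hN i k

lemma JU.jc {L : Matrix (Fin p ⊕ Fin q) (Fin p ⊕ Fin q) ℂ} (h : JU L) : JC L := fun x => (h.qf x).le

lemma Qf_eq (ε0 : Matrix (Fin p) (Fin q) ℂ) (a b : Fin q → ℂ) :
    Qf ε0 a b = ∑ j, (star a j - (star (ε0 *ᵥ a) ᵥ* ε0) j) * b j := by
  unfold Qf
  rw [dotProduct_mulVec, ← sub_dotProduct]
  rfl

theorem anal {W0 U : ℂ → Matrix (Fin p ⊕ Fin q) (Fin p ⊕ Fin q) ℂ} {c : ℂ → ℂ}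
    {g0 : ℂ → Matrix (Fin q) (Fin p) ℂ} {Uh Ui : ℂ → Matrix (Fin p ⊕ Fin q) (Fin p ⊕ Fin q) ℂ}
    {ε0 : Matrix (Fin p) (Fin q) ℂ} {δ : ℝ} {L F : ℂ → Matrix (Fin q) (Fin q) ℂ}
    {A : ℂ → Matrix (Fin p) (Fin q) ℂ} (D : RD W0 U c g0 Uh Ui ε0 δ L F A) (h0 : JInner p q W0)
    (hU : JInner p q U) {v : ℝ → ℝ} (hv : Integrable v m) (hv0 : ∀ θ, 0 ≤ v θ)
    (hvW : ∀ᵐ θ ∂m, ∀ L, NTLim W0 (pt θ) L →
      1 + 3 * ∑ i, ∑ j, ‖L.toBlocks₁₁ i j‖ ^ 2 ≤ Real.exp (v θ))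
    {bE : ℝ → ℂ} (hE : BV (Sg (mv v)) bE) {bc : ℝ → ℂ} (hbc : BV c bc)
    (hbc1 : ∀ᵐ θ ∂m, ‖bc θ‖ = 1)
    (hkey : ∀ (h : ℂ → ℂ) (bh : ℝ → ℂ), BddHolOn disc h → h 0 = 0 → BV h bh →
      (∀ᵐ θ ∂m, 0 ≤ (1 - bc θ * (bE θ)⁻¹ * bh θ).re) →
      Integrable (fun θ => (1 - bc θ * (bE θ)⁻¹ * bh θ).re) m ∧
        ∫ θ, (1 - bc θ * (bE θ)⁻¹ * bh θ).re ∂m ≤ 1) : ∀ z ∈ disc, A z = 0 := by
  have hfin := finite_mv hv
  obtain ⟨w, hw1, hw2, -⟩ := h0.bv
  obtain ⟨ub, hub⟩ := D.sUh.sm_bv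
  obtain ⟨gb, hgb⟩ := D.g0b.bdd_bv
  obtain ⟨lb, hlb⟩ := D.sL.sm_bv
  obtain ⟨ab, hab⟩ := D.sA.sm_bv
  obtain ⟨fb, hfb⟩ := D.sF.sm_bv
  have hubJ : ∀ᵐ θ ∂m, JU (ub θ) := by
    filter_upwards [hub, hU.bdry, GF.nt D.eU] with θ h1 ⟨L', h2, h3⟩ h4
    have h5 : L' = ub θ := tendsto_nhds_unique (h4 L' h2).radial h1.radial
    unfold JU
    rw [← h5]
    exact h3
  have e1 : ∀ᵐ θ ∂m, ub θ * fromRows (ab θ) (fb θ) = fromRows (ε0 * lb θ) (lb θ) := by
    filter_upwards [hub, hab, hfb, hlb] with θ h1 h2 h3 h4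
    have t1 : Tendsto (fun r : ℝ => Uh (r * pt θ) * fromRows (A (r * pt θ)) (F (r * pt θ))) (𝓝[<] 1)
        (𝓝 (ub θ * fromRows (ab θ) (fb θ))) := tendsto_mm h1.radial (tendsto_rows h2.radial h3.radial)
    have t2 : Tendsto (fun r : ℝ => fromRows (ε0 * L (r * pt θ)) (L (r * pt θ))) (𝓝[<] 1)
        (𝓝 (fromRows (ε0 * lb θ) (lb θ))) :=
      tendsto_rows (tendsto_mm tendsto_const_nhds h4.radial) h4.radial
    refine tendsto_nhds_unique (t1.congr' ?_) t2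
    filter_upwards [ev_Ico] with r hr
    exact D.rows _ (rad_mem hr.1.le hr.2 θ)
  have e2 : ∀ᵐ θ ∂m, bc θ • (gb θ * ab θ) + fb θ = 1 := by
    filter_upwards [hbc, hgb, hab, hfb] with θ h1 h2 h3 h4
    have t1 : Tendsto (fun r : ℝ => c (r * pt θ) • (g0 (r * pt θ) * A (r * pt θ)) + F (r * pt θ))
        (𝓝[<] 1) (𝓝 (bc θ • (gb θ * ab θ) + fb θ)) :=
      (Tendsto.smul h1 (tendsto_mm h2.radial h3.radial)).add h4.radial
    refine tendsto_nhds_unique (t1.congr' ?_) tendsto_const_nhds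
    filter_upwards [ev_Ico] with r hr
    exact D.gAF _ (rad_mem hr.1.le hr.2 θ)
  have e3 : ∀ᵐ θ ∂m, ∀ x, ns (gb θ *ᵥ x) ≤ ns x := by
    filter_upwards [hgb] with θ h1 x
    have t1 : Tendsto (fun r : ℝ => ns (g0 (r * pt θ) *ᵥ x)) (𝓝[<] 1) (𝓝 (ns (gb θ *ᵥ x))) :=
      (continuous_ns.tendsto _).comp (tendsto_mulVec h1.radial x)
    refine le_of_tendsto t1 ?_
    filter_upwards [ev_Ico] with r hr
    exact D.g0c _ (rad_mem hr.1.le hr.2 θ) x
  have e4 : ∀ᵐ θ ∂m, ∀ y, ns y ≤ (∑ i, ∑ j, ‖(w θ).toBlocks₁₁ i j‖ ^ 2) * (ns y - ns (gb θ *ᵥ y)) := by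
    have hG : ∀ᶠ z in GF, (W0 z).toBlocks₂₂ * g0 z = (W0 z).toBlocks₂₁ := by
      filter_upwards [D.g0e, h0.ev] with z h1 h2
      rw [h1, ← Matrix.mul_assoc, Matrix.mul_nonsing_inv _ h2.2.1.det22.isUnit, Matrix.one_mul]
    filter_upwards [hw1, hw2, hgb, GF.cone hG] with θ h1 h2 h3 h4 y
    have t1 := tendsto_mm (tendsto_b22 (h1 1)) (h3 1)
    have t2 := tendsto_b21 (h1 1)
    have hne : (𝓝[{z : ℂ | ‖z‖ < 1 ∧ ‖z - pt θ‖ ≤ 1 * (1 - ‖z‖)}] (pt θ)).NeBot :=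
      (tendsto_rad_nt θ).neBot
    have h5 := tendsto_nhds_unique (t1.congr' (h4 1)) t2
    have hd := h2.jc.det22
    have h6 : gb θ = (w θ).toBlocks₂₂⁻¹ * (w θ).toBlocks₂₁ := by
      rw [← h5, ← Matrix.mul_assoc, Matrix.nonsing_inv_mul _ hd.isUnit, Matrix.one_mul]
    rw [h6]
    exact h2.g hd y
  have hpos : ∀ a, ns (ε0 *ᵥ a) ≤ ns a := by
    intro a
    have h1 := D.hδ a
    have h2 : 0 ≤ δ * ns a := mul_nonneg D.δ0.le (ns_nonneg a)
    linarith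
  -- entries
  have main : ∀ k : Fin q, ∀ᵐ θ ∂m, ∀ j, ab θ j k = 0 := by
    intro k
    have hmeas : ∀ {ι : Type} [Fintype ι] {M : ℂ → Matrix ι (Fin q) ℂ} {b : ℝ → Matrix ι (Fin q) ℂ},
        MP Sm M → (∀ᵐ θ ∂m, NTLim M (pt θ) (b θ)) → ∀ i, BV (fun z => M z i k) (fun θ => b θ i k) ∧
          AEStronglyMeasurable (fun θ => b θ i k) m := by
      intro ι _ M b hM hb i
      have h1 : BV (fun z => M z i k) (fun θ => b θ i k) := by
        filter_upwards [hb] with θ h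
        exact tendsto_entry h.radial i k
      exact ⟨h1, h1.aesm (hM i k).1.continuousOn⟩
    -- pointwise facts
    have pw : ∀ᵐ θ ∂m, (2 * (fb θ k k).re = 1 + (ns (ab θ *ᵥ Pi.single k 1) -
        ns (gb θ *ᵥ (ab θ *ᵥ Pi.single k 1))) + (ns (lb θ *ᵥ Pi.single k 1) -
        ns (ε0 *ᵥ (lb θ *ᵥ Pi.single k 1)))) ∧ (∀ j, ‖ab θ j k‖ ≤ Real.exp (v θ)) ∧
        1 - fb θ k k = bc θ * (gb θ * ab θ) k k := by
      filter_upwards [e1, e2, e3, e4, hubJ, hbc1, hw1, hvW] with θ h1 h2 h3 h4 h5 h6 h7 h8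
      have hg : ∀ y, ns ((bc θ • gb θ) *ᵥ y) = ns (gb θ *ᵥ y) := by
        intro y
        rw [smul_mulVec, ns_smul, h6, one_pow, one_mul]
      have k1 : ub θ *ᵥ Sum.elim (ab θ *ᵥ Pi.single k 1) (fb θ *ᵥ Pi.single k 1) =
          Sum.elim (ε0 *ᵥ (lb θ *ᵥ Pi.single k 1)) (lb θ *ᵥ Pi.single k 1) := by
        rw [← fromRows_mulVec, mulVec_mulVec, h1, fromRows_mulVec, mulVec_mulVec]
      have k2 : (bc θ • gb θ) *ᵥ (ab θ *ᵥ Pi.single k 1) + fb θ *ᵥ Pi.single k 1 = Pi.single k 1 := by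
        rw [mulVec_mulVec, ← add_mulVec, Matrix.smul_mul, h2, one_mulVec]
      have k3 := ptwise h5 k1 k2
      have hcol : ∀ {ι : Type} (M : Matrix ι (Fin q) ℂ) i, (M *ᵥ Pi.single k 1) i = M i k := by
        intro ι M i
        rw [mulVec_single_one, col_apply]
      have k4 := fun j => ptwise_bound k2 k3 (hpos _) (by rw [hg]; exact h3 _)
        (w := ∑ i, ∑ j, ‖(w θ).toBlocks₁₁ i j‖ ^ 2)
        (Finset.sum_nonneg fun _ _ => Finset.sum_nonneg fun _ _ => by positivity)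
        (by rw [hg]; exact h4 _) j
      rw [hg] at k3
      refine ⟨?_, fun j => ?_, ?_⟩
      · rw [← k3, hcol]
      · have := k4 j
        rw [hcol] at this
        exact this.trans (h8 _ h7)
      · have := congrFun (congrFun h2 k) k
        rw [Matrix.add_apply, Matrix.smul_apply, one_apply_eq, smul_eq_mul] at this
        rw [← this]
        ring
    -- the function h
    have hAE : ∀ j, BddHolOn disc (fun z => A z j k * Sg (mv v) z) := by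
      intro j
      refine ⟨(D.sA j k).1.mul (BddHolOn.Sg (mv v)).1, 1, fun z hz => ?_⟩
      have h1 := (D.sA j k).max_exp (hmeas D.sA hab j).1 hv hv0 (by
        filter_upwards [pw] with θ h2
        exact h2.2.1 j) hz
      rw [norm_mul, norm_Sg_mv hv hv0 hz, Real.exp_neg, mul_inv_le_iff₀ (Real.exp_pos _), one_mul]
      exact h1
    have hh : BddHolOn disc (fun z => ∑ j, g0 z k j * (A z j k * Sg (mv v) z)) :=
      BddHolOn.sum _ fun j _ => (D.g0b k j).mul (hAE j)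
    have hh0 : ∑ j, g0 0 k j * (A 0 j k * Sg (mv v) 0) = 0 := by
      refine Finset.sum_eq_zero fun j _ => ?_
      rw [D.A0, Matrix.zero_apply]
      ring
    have hbh : BV (fun z => ∑ j, g0 z k j * (A z j k * Sg (mv v) z))
        (fun θ => ∑ j, gb θ k j * (ab θ j k * bE θ)) := by
      filter_upwards [hgb, hab, hE] with θ h1 h2 h3
      exact tendsto_finsetSum _ fun j _ =>
        (tendsto_entry h1.radial k j).mul ((tendsto_entry h2.radial j k).mul h3)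
    have hEne : ∀ᵐ θ ∂m, bE θ ≠ 0 := by
      filter_upwards [bv_outer hv hv0 hE] with θ h1 h2
      rw [h2, norm_zero] at h1
      exact (Real.exp_pos _).ne h1
    have hF : ∀ᵐ θ ∂m, 1 - bc θ * (bE θ)⁻¹ * (∑ j, gb θ k j * (ab θ j k * bE θ)) = fb θ k k := by
      filter_upwards [pw, hEne] with θ h1 h2
      have h3 : ∑ j, gb θ k j * (ab θ j k * bE θ) = bE θ * (gb θ * ab θ) k k := by
        rw [mul_apply, Finset.mul_sum]
        refine Finset.sum_congr rfl fun j _ => ?_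
        ring
      rw [h3, mul_assoc, ← mul_assoc (bE θ)⁻¹, inv_mul_cancel₀ h2, one_mul, ← h1.2.2]
      ring
    have q1nn : ∀ᵐ θ ∂m, 0 ≤ ns (ab θ *ᵥ Pi.single k 1) - ns (gb θ *ᵥ (ab θ *ᵥ Pi.single k 1)) := by
      filter_upwards [e3] with θ h1
      have := h1 (ab θ *ᵥ Pi.single k 1)
      linarith
    obtain ⟨kI, kle⟩ := hkey _ _ hh hh0 hbh (by
      filter_upwards [hF, pw, q1nn] with θ h1 h2 h3
      rw [h1]
      have h4 := hpos (lb θ *ᵥ Pi.single k 1)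
      have h5 := h2.1
      linarith)
    have hFre : (fun θ => (1 - bc θ * (bE θ)⁻¹ * (∑ j, gb θ k j * (ab θ j k * bE θ))).re) =ᵐ[m]
        fun θ => (fb θ k k).re := by
      filter_upwards [hF] with θ h1
      rw [h1]
    have kI' : Integrable (fun θ => (fb θ k k).re) m := kI.congr hFre
    rw [integral_congr_ae hFre] at kle
    -- lower bound
    obtain ⟨l0, hl0⟩ : ∃ l0, l0 = L 0 *ᵥ Pi.single k 1 := ⟨_, rfl⟩
    obtain ⟨a, ha⟩ : ∃ a, a = ns l0 - ns (ε0 *ᵥ l0) := ⟨_, rfl⟩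
    have ha1 : 1 ≤ a := by
      rw [ha, hl0]
      exact D.L0 k
    have ha0 : 0 < a := by linarith
    have hφ : Sm (fun z => Qf ε0 l0 (L z *ᵥ Pi.single k 1)) := by
      have h1 : Sm (fun z => ∑ j, (star l0 j - (star (ε0 *ᵥ l0) ᵥ* ε0) j) * L z j k) :=
        Sm.sum _ fun j _ => (Sm.const _).mul (D.sL j k)
      refine h1.congr fun z _ => ?_
      rw [Qf_eq]
      refine Finset.sum_congr rfl fun j _ => ?_
      rw [mulVec_single_one, col_apply]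
    have hbφ : BV (fun z => Qf ε0 l0 (L z *ᵥ Pi.single k 1))
        (fun θ => Qf ε0 l0 (lb θ *ᵥ Pi.single k 1)) := by
      filter_upwards [hlb] with θ h1
      simp only [Qf_eq, mulVec_single_one, col_apply]
      exact tendsto_finsetSum _ fun j _ => tendsto_const_nhds.mul (tendsto_entry h1.radial j k)
    have hφm : AEStronglyMeasurable (fun θ => Qf ε0 l0 (lb θ *ᵥ Pi.single k 1)) m :=
      hbφ.aesm hφ.1.continuousOn
    have hφle : ∀ᵐ θ ∂m, ‖Qf ε0 l0 (lb θ *ᵥ Pi.single k 1)‖ ^ 2 ≤ a * (2 * (fb θ k k).re - 1 -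
        (ns (ab θ *ᵥ Pi.single k 1) - ns (gb θ *ᵥ (ab θ *ᵥ Pi.single k 1)))) := by
      filter_upwards [pw] with θ h1
      have h2 := Qf_cs hpos (a := l0) (by rw [← ha]; exact ha0) (lb θ *ᵥ Pi.single k 1)
      rw [← ha] at h2
      have h3 : 2 * (fb θ k k).re - 1 -
        (ns (ab θ *ᵥ Pi.single k 1) - ns (gb θ *ᵥ (ab θ *ᵥ Pi.single k 1))) =
        ns (lb θ *ᵥ Pi.single k 1) - ns (ε0 *ᵥ (lb θ *ᵥ Pi.single k 1)) := by
        have := h1.1
        linarith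
      rw [h3]
      exact h2
    have hXI : Integrable (fun θ => a * (2 * (fb θ k k).re - 1)) m :=
      ((kI'.const_mul 2).sub (integrable_const 1)).const_mul a
    have hφI : Integrable (fun θ => ‖Qf ε0 l0 (lb θ *ᵥ Pi.single k 1)‖ ^ 2) m := by
      refine hXI.mono' (hφm.norm.pow 2) ?_
      filter_upwards [hφle, q1nn] with θ h1 h2
      rw [norm_pow, norm_norm]
      refine h1.trans ?_
      have := mul_nonneg ha0.le h2
      linarith
    have hsq := hφ.sq_le hbφ hφI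
    have hφ0 : Qf ε0 l0 (L 0 *ᵥ Pi.single k 1) = (a : ℂ) := by
      rw [← hl0, Qf_self, ha]
    rw [hφ0, Complex.norm_real, Real.norm_of_nonneg ha0.le] at hsq
    have hzero : ∫ θ, (a * (2 * (fb θ k k).re - 1) - ‖Qf ε0 l0 (lb θ *ᵥ Pi.single k 1)‖ ^ 2) ∂m ≤ 0 := by
      rw [integral_sub hXI hφI, integral_const_mul, integral_sub (kI'.const_mul 2) (integrable_const 1),
        integral_const_mul, integral_const, probReal_univ, one_smul]
      nlinarith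
    have hnn : ∀ᵐ θ ∂m, 0 ≤ a * (2 * (fb θ k k).re - 1) - ‖Qf ε0 l0 (lb θ *ᵥ Pi.single k 1)‖ ^ 2 := by
      filter_upwards [hφle, q1nn] with θ h1 h2
      have := mul_nonneg ha0.le h2
      linarith
    have heq : ∫ θ, (a * (2 * (fb θ k k).re - 1) - ‖Qf ε0 l0 (lb θ *ᵥ Pi.single k 1)‖ ^ 2) ∂m = 0 :=
      le_antisymm hzero (integral_nonneg_of_ae hnn)
    have hae := (integral_eq_zero_iff_of_nonneg_ae hnn (hXI.sub hφI)).1 heq
    filter_upwards [hae, hφle, q1nn, e4] with θ h1 h2 h3 h4 j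
    simp only [Pi.zero_apply] at h1
    have h5 : a * (ns (ab θ *ᵥ Pi.single k 1) - ns (gb θ *ᵥ (ab θ *ᵥ Pi.single k 1))) ≤ 0 := by
      linarith
    have h6 : ns (ab θ *ᵥ Pi.single k 1) - ns (gb θ *ᵥ (ab θ *ᵥ Pi.single k 1)) = 0 := by
      refine le_antisymm ?_ h3
      by_contra hc
      push Not at hc
      have := mul_pos ha0 hc
      linarith
    have h7 := h4 (ab θ *ᵥ Pi.single k 1)
    rw [h6, mul_zero] at h7
    have h8 := ns_eq_zero (le_antisymm h7 (ns_nonneg _))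
    have h9 := congrFun h8 j
    rw [mulVec_single_one, col_apply] at h9
    exact h9
  intro z hz
  ext j k
  have hBV : BV (fun z => A z j k) (fun θ => ab θ j k) := by
    filter_upwards [hab] with θ h
    exact tendsto_entry h.radial j k
  have h1 := (D.sA j k).maxp hBV (C := 0) (by
    filter_upwards [main k] with θ h2
    rw [h2 j, norm_zero]) hz
  exact norm_le_zero_iff.1 h1

end Run7.h308
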