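import Pool.Agent.Run7.h308.RegC

set_option autoImplicit false
set_option maxHeartbeats 800000

namespace Run7.h308

open Matrix MeasureTheory Filter Topology Set

variable {p q : ℕ}

/-- signs -/
def sg (p q : ℕ) : Fin p ⊕ Fin q → ℂ := Sum.elim (fun _ => 1) (fun _ => -1)

lemma J_diag : J p q = Matrix.diagonal (sg p q) := by
  unfold J sg
  rw [← Matrix.diagonal_one, ← Matrix.diagonal_one, Matrix.diagonal_neg, Matrix.fromBlocks_diagonal]

lemma sg_sq (i : Fin p ⊕ Fin q) : sg p q i * sg p q i = 1 := by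
  cases i <;> simp [sg]

lemma sg_norm (i : Fin p ⊕ Fin q) : ‖sg p q i‖ = 1 := by
  cases i <;> simp [sg]

lemma JMJ (M : Matrix (Fin p ⊕ Fin q) (Fin p ⊕ Fin q) ℂ) (i k : Fin p ⊕ Fin q) :
    (J p q * M * J p q) i k = sg p q i * M i k * sg p q k := by
  rw [J_diag, mul_diagonal, diagonal_mul]

theorem fin_const {W0 U : ℂ → Matrix (Fin p ⊕ Fin q) (Fin p ⊕ Fin q) ℂ} {c : ℂ → ℂ}
    {g0 : ℂ → Matrix (Fin q) (Fin p) ℂ} {Uh Ui : ℂ → Matrix (Fin p ⊕ Fin q) (Fin p ⊕ Fin q) ℂ}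
    {ε0 : Matrix (Fin p) (Fin q) ℂ} {δ : ℝ} {L F : ℂ → Matrix (Fin q) (Fin q) ℂ}
    {A : ℂ → Matrix (Fin p) (Fin q) ℂ} (D : RD W0 U c g0 Uh Ui ε0 δ L F A)
    (hU : JInner p q U) (hA0 : ∀ z ∈ disc, A z = 0) : ∃ C, EqOff disc U (fun _ => C) := by
  obtain ⟨ub, hub⟩ := D.sUh.sm_bv
  obtain ⟨vb, hvb⟩ := D.sUi.sm_bv
  have hubJ : ∀ᵐ θ ∂m, JU (ub θ) := by
    filter_upwards [hub, hU.bdry, GF.nt D.eU] with θ h1 ⟨L', h2, h3⟩ h4
    have h5 : L' = ub θ := tendsto_nhds_unique (h4 L' h2).radial h1.radial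
    unfold JU
    rw [← h5]
    exact h3
  have hb : ∀ z ∈ disc, (Uh z).toBlocks₁₂ = ε0 * (Uh z).toBlocks₂₂ := by
    intro z hz
    have h1 := D.rows z hz
    have h2 := D.gAF z hz
    rw [hA0 z hz, Matrix.mul_zero, smul_zero, zero_add] at h2
    rw [hA0 z hz, h2] at h1
    have h3 : Uh z * (fromRows (0 : Matrix (Fin p) (Fin q) ℂ) (1 : Matrix (Fin q) (Fin q) ℂ)) =
        fromRows (Uh z).toBlocks₁₂ (Uh z).toBlocks₂₂ := by
      conv_lhs => rw [← fromBlocks_toBlocks (Uh z), fromBlocks_mul_fromRows]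
      simp
    rw [h3, fromRows_inj.eq_iff] at h1
    rw [h1.1, h1.2]
  have hbb : ∀ᵐ θ ∂m, (ub θ).toBlocks₁₂ = ε0 * (ub θ).toBlocks₂₂ := by
    filter_upwards [hub] with θ h1
    have t1 := tendsto_b12 h1.radial
    have t2 := tendsto_mm (tendsto_const_nhds (x := ε0)) (tendsto_b22 h1.radial)
    refine tendsto_nhds_unique (t1.congr' ?_) t2
    filter_upwards [ev_Ico] with r hr
    exact hb _ (rad_mem hr.1.le hr.2 θ)
  obtain ⟨K, hK⟩ : ∃ K : ℝ, K = 1 + (q : ℝ) * (1 / δ) + 1 / δ := ⟨_, rfl⟩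
  have hδ := D.δ0
  have hq0 : (0 : ℝ) ≤ (q : ℝ) * (1 / δ) := by positivity
  have hδ1 : (0 : ℝ) ≤ 1 / δ := by positivity
  have hbound : ∀ᵐ θ ∂m, ∀ i k, ‖ub θ i k‖ ^ 2 ≤ K := by
    filter_upwards [hbb, hubJ] with θ h1 h2
    have c22 : ∀ k, ns ((ub θ).toBlocks₂₂ *ᵥ Pi.single k 1) ≤ 1 / δ ∧
        ns ((ub θ).toBlocks₁₂ *ᵥ Pi.single k 1) ≤ 1 / δ := by
      intro k
      have h3 := h2.qf (Sum.elim 0 (Pi.single k 1))
      rw [mulVec_elim, qf_elim, qf_elim, ns_single] at h3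
      simp only [mulVec_zero, zero_add, ns_zero] at h3
      have h4 := D.hδ ((ub θ).toBlocks₂₂ *ᵥ Pi.single k 1)
      rw [mulVec_mulVec, ← h1] at h4
      have h5 : ns ((ub θ).toBlocks₂₂ *ᵥ Pi.single k 1) ≤ 1 / δ := by
        rw [le_div_iff₀ hδ]
        linarith
      exact ⟨h5, by linarith⟩
    have e22 : ∀ i k, ‖(ub θ).toBlocks₂₂ i k‖ ^ 2 ≤ 1 / δ := by
      intro i k
      have := (le_ns _ i).trans (c22 k).1
      rwa [mulVec_single_one, col_apply] at this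
    have e12 : ∀ i k, ‖(ub θ).toBlocks₁₂ i k‖ ^ 2 ≤ 1 / δ := by
      intro i k
      have := (le_ns _ i).trans (c22 k).2
      rwa [mulVec_single_one, col_apply] at this
    have r22 : ∀ i, ns ((ub θ).toBlocks₂₂ i) ≤ (q : ℝ) * (1 / δ) := by
      intro i
      unfold ns
      refine (Finset.sum_le_sum fun k _ => e22 i k).trans (le_of_eq ?_)
      simp
    have r12 : ∀ i, ns ((ub θ).toBlocks₁₂ i) ≤ (q : ℝ) * (1 / δ) := by
      intro i
      unfold ns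
      refine (Finset.sum_le_sum fun k _ => e12 i k).trans (le_of_eq ?_)
      simp
    intro i k
    rw [hK]
    rcases i with i | i <;> rcases k with k | k
    · have h3 := h2.row11 i
      have h4 := le_ns ((ub θ).toBlocks₁₁ i) k
      have h5 := r12 i
      have h6 : ‖ub θ (Sum.inl i) (Sum.inl k)‖ ^ 2 = ‖(ub θ).toBlocks₁₁ i k‖ ^ 2 := rfl
      linarith
    · have h4 := e12 i k
      have h6 : ‖ub θ (Sum.inl i) (Sum.inr k)‖ ^ 2 = ‖(ub θ).toBlocks₁₂ i k‖ ^ 2 := rfl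
      linarith
    · have h3 := h2.row21 i
      have h4 := le_ns ((ub θ).toBlocks₂₁ i) k
      have h5 := r22 i
      have h6 : ‖ub θ (Sum.inr i) (Sum.inl k)‖ ^ 2 = ‖(ub θ).toBlocks₂₁ i k‖ ^ 2 := rfl
      linarith
    · have h4 := e22 i k
      have h6 : ‖ub θ (Sum.inr i) (Sum.inr k)‖ ^ 2 = ‖(ub θ).toBlocks₂₂ i k‖ ^ 2 := rfl
      linarith
  have hbound' : ∀ᵐ θ ∂m, ∀ i k, ‖ub θ i k‖ ≤ 1 + K := by
    filter_upwards [hbound] with θ h1 i k
    have h2 := h1 i k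
    have h3 := norm_nonneg (ub θ i k)
    nlinarith [sq_nonneg (‖ub θ i k‖ - 1)]
  have hvub : ∀ᵐ θ ∂m, vb θ = J p q * (ub θ)ᴴ * J p q := by
    filter_upwards [hub, hvb, hubJ] with θ h1 h2 h3
    have t1 := tendsto_mm h1.radial h2.radial
    have h4 : ub θ * vb θ = 1 := by
      refine tendsto_nhds_unique (t1.congr' ?_) tendsto_const_nhds
      filter_upwards [ev_Ico] with r hr
      exact D.inv _ (rad_mem hr.1.le hr.2 θ)
    calc vb θ = (J p q * (ub θ)ᴴ * J p q) * ub θ * vb θ := by rw [h3.inv_mul, Matrix.one_mul]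
      _ = J p q * (ub θ)ᴴ * J p q := by rw [Matrix.mul_assoc, h4, Matrix.mul_one]
  have hve : ∀ᵐ θ ∂m, ∀ i k, vb θ i k = sg p q i * (starRingEnd ℂ) (ub θ k i) * sg p q k := by
    filter_upwards [hvub] with θ h1 i k
    rw [h1, JMJ, conjTranspose_apply]
    rfl
  have bU : ∀ i k, BV (fun z => Uh z i k) (fun θ => ub θ i k) := by
    intro i k
    filter_upwards [hub] with θ h
    exact tendsto_entry h.radial i k
  have bV : ∀ i k, BV (fun z => Ui z i k) (fun θ => vb θ i k) := by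
    intro i k
    filter_upwards [hvb] with θ h
    exact tendsto_entry h.radial i k
  have BU : ∀ i k, BddHolOn disc (fun z => Uh z i k) := by
    intro i k
    refine ⟨(D.sUh i k).1, 1 + K, fun z hz => (D.sUh i k).maxp (bU i k) ?_ hz⟩
    filter_upwards [hbound'] with θ h1
    exact h1 i k
  have BVi : ∀ i k, BddHolOn disc (fun z => Ui z i k) := by
    intro i k
    refine ⟨(D.sUi i k).1, 1 + K, fun z hz => (D.sUi i k).maxp (bV i k) ?_ hz⟩
    filter_upwards [hbound', hve] with θ h1 h2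
    rw [h2 i k, norm_mul, norm_mul, sg_norm, sg_norm, one_mul, mul_one, RCLike.norm_conj]
    exact h1 k i
  have hconst : ∀ z ∈ disc, Uh z = Uh 0 := by
    intro z hz
    ext i k
    refine conj_const (u := fun z => Uh z i k) (w := fun z => (sg p q k * sg p q i) * Ui z k i)
      (BU i k) ((BddHolOn.const _ _).mul (BVi k i)) (bU i k)
      (b := fun θ => (sg p q k * sg p q i) * vb θ k i) ((BV.const _).mul (bV k i)) ?_ hz
    filter_upwards [hve] with θ h1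
    rw [h1 k i]
    have h2 := sg_sq (p := p) (q := q) k
    have h3 := sg_sq (p := p) (q := q) i
    calc sg p q k * sg p q i * (sg p q k * (starRingEnd ℂ) (ub θ i k) * sg p q i)
        = (sg p q k * sg p q k) * (sg p q i * sg p q i) * (starRingEnd ℂ) (ub θ i k) := by ring
      _ = (starRingEnd ℂ) (ub θ i k) := by rw [h2, h3, one_mul, one_mul]
  refine ⟨Uh 0, ?_⟩
  have : ∀ᶠ z in GF, U z = Uh 0 := by
    filter_upwards [D.eU, GF.disc] with z h1 h2
    rw [h1, hconst z h2]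
  exact this

lemma diag_mulVec (c : ℂ) (x : Fin p → ℂ) (y : Fin q → ℂ) :
    (fromBlocks (c • 1) 0 0 1 : Matrix (Fin p ⊕ Fin q) (Fin p ⊕ Fin q) ℂ) *ᵥ Sum.elim x y =
      Sum.elim (c • x) y := by
  rw [mulVec_elim]
  simp only [toBlocks_fromBlocks₁₁, toBlocks_fromBlocks₁₂, toBlocks_fromBlocks₂₁, toBlocks_fromBlocks₂₂,
    zero_mulVec, one_mulVec, add_zero, zero_add, smul_mulVec]

lemma diag_JC {c : ℂ} (hc : ‖c‖ ≤ 1) :
    JC (fromBlocks (c • 1) 0 0 1 : Matrix (Fin p ⊕ Fin q) (Fin p ⊕ Fin q) ℂ) := by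
  intro x
  obtain ⟨x1, x2, rfl⟩ : ∃ x1 x2, x = Sum.elim x1 x2 :=
    ⟨x ∘ Sum.inl, x ∘ Sum.inr, (Sum.elim_comp_inl_inr x).symm⟩
  rw [diag_mulVec, qf_elim, qf_elim, ns_smul]
  have h1 := ns_nonneg x1
  have h2 : ‖c‖ ^ 2 ≤ 1 := pow_le_one₀ (norm_nonneg _) hc
  nlinarith

lemma diag_JU {c : ℂ} (hc : ‖c‖ = 1) :
    JU (fromBlocks (c • 1) 0 0 1 : Matrix (Fin p ⊕ Fin q) (Fin p ⊕ Fin q) ℂ) := by
  unfold JU J
  rw [fromBlocks_conjTranspose, fromBlocks_multiply, fromBlocks_multiply]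
  have h1 : c * (starRingEnd ℂ) c = 1 := by
    rw [Complex.mul_conj, Complex.normSq_eq_norm_sq, hc]
    simp
  simp [smul_smul, h1]

/-- the modification of a `j`-inner function by a scalar inner function -/
theorem mod_jinner {W0 : ℂ → Matrix (Fin p ⊕ Fin q) (Fin p ⊕ Fin q) ℂ} (h0 : JInner p q W0)
    {c : ℂ → ℂ} (hcb : BddHolOn disc c) (hc1 : ∀ z ∈ disc, ‖c z‖ ≤ 1) (hc0 : ∀ z, c z ≠ 0)
    {bc : ℝ → ℂ} (hbc : ∀ᵐ θ ∂m, NTLim c (pt θ) (bc θ)) (hbc1 : ∀ᵐ θ ∂m, ‖bc θ‖ = 1) :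
    JInner p q (fun z => W0 z * fromBlocks (c z • 1) 0 0 1) := by
  have hD : ∀ {P : (ℂ → ℂ) → Prop} (_ : Alg P) (_ : P c),
      MP P (fun z => (fromBlocks (c z • 1) 0 0 1 : Matrix (Fin p ⊕ Fin q) (Fin p ⊕ Fin q) ℂ)) := by
    intro P hP hc i k
    rcases i with i | i <;> rcases k with k | k
    · exact hP.msmul hc (hP.mconst (1 : Matrix (Fin p) (Fin p) ℂ)) i k
    · exact hP.const 0
    · exact hP.const 0
    · exact hP.const _
  have hdet : ∀ z, (fromBlocks (c z • 1) 0 0 1 : Matrix (Fin p ⊕ Fin q) (Fin p ⊕ Fin q) ℂ).det ≠ 0 := by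
    intro z
    rw [det_fromBlocks_zero₂₁, det_smul, det_one, det_one, mul_one, mul_one]
    exact pow_ne_zero _ (hc0 z)
  refine ⟨Alg.bt.mm h0.bddType (hD Alg.bt (BddType.of_bdd hcb)), ?_, ?_, ?_⟩
  · obtain ⟨z, hz, h1, h2, h3⟩ := GF.exists h0.ev
    refine ⟨z, hz, (Alg.an z).mm h1 (hD (Alg.an z) (analyticOnNhd_disc hcb.1 z hz)), ?_⟩
    rw [det_mul]
    exact mul_ne_zero h3 (hdet z)
  · intro z hz h1
    have hcA := analyticOnNhd_disc hcb.1 z hz
    have h2 : AnAt W0 z := by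
      have h3 : MP (fun f => AnalyticAt ℂ f z) (fun z => (W0 z * fromBlocks (c z • 1) 0 0 1) *
          fromBlocks ((c z)⁻¹ • 1) 0 0 1) := by
        refine (Alg.an z).mm h1 ?_
        intro i k
        have hci : AnalyticAt ℂ (fun z => (c z)⁻¹) z := hcA.inv (hc0 z)
        rcases i with i | i <;> rcases k with k | k
        · exact (Alg.an z).msmul hci ((Alg.an z).mconst (1 : Matrix (Fin p) (Fin p) ℂ)) i k
        · exact (Alg.an z).const 0
        · exact (Alg.an z).const 0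
        · exact (Alg.an z).const _
      have h4 : (fun z => (W0 z * fromBlocks (c z • 1) 0 0 1) *
          (fromBlocks ((c z)⁻¹ • 1) 0 0 1 : Matrix (Fin p ⊕ Fin q) (Fin p ⊕ Fin q) ℂ)) = W0 := by
        funext w
        rw [Matrix.mul_assoc, fromBlocks_multiply]
        have h5 : (c w • (1 : Matrix (Fin p) (Fin p) ℂ)) * ((c w)⁻¹ • 1) = 1 := by
          rw [Matrix.smul_mul, Matrix.one_mul, smul_smul, mul_inv_cancel₀ (hc0 w), one_smul]
        simp [h5]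
      rw [h4] at h3
      exact h3
    have h3 := (JC_iff _).1 (h0.contr z hz h2)
    exact (JC_iff _).2 (h3.mul (diag_JC (hc1 z hz)))
  · filter_upwards [h0.bdry, hbc, hbc1] with θ ⟨L, h1, h2⟩ h3 h4
    refine ⟨L * fromBlocks (bc θ • 1) 0 0 1, fun K => ?_, ?_⟩
    · refine tendsto_mm (h1 K) ?_
      refine tendsto_mat fun i k => ?_
      rcases i with i | i <;> rcases k with k | k
      · exact (h3 K).mul_const _
      · exact tendsto_const_nhds
      · exact tendsto_const_nhds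
      · exact tendsto_const_nhds
    · have h5 : JU L := h2
      exact h5.mul (diag_JU h4)

/-- Every `j`-inner function becomes left regular after multiplication by a scalar inner function
in the first diagonal block. -/
theorem exists_leftRegular {W0 : ℂ → Matrix (Fin p ⊕ Fin q) (Fin p ⊕ Fin q) ℂ} (h0 : JInner p q W0) :
    ∃ c : ℂ → ℂ, BddHolOn disc c ∧ (∀ z ∈ disc, ‖c z‖ ≤ 1) ∧ (∀ z, c z ≠ 0) ∧
      LeftRegular (fun z => W0 z * fromBlocks (c z • 1) 0 0 1) := by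
  obtain ⟨v, hvm, hv, hv0, hvW⟩ := exists_v h0
  have hfin := finite_mv hv
  obtain ⟨bE, hbE⟩ := exists_BV (BddHolOn.Sg (mv v))
  obtain ⟨c, hcb, hc1, hc0, bc, hbc, hbc1, hkey⟩ := key hvm hv hv0 (BV.of_nt hbE)
  refine ⟨c, hcb, hc1, hc0, mod_jinner h0 hcb hc1 hc0 hbc hbc1, ?_⟩
  intro U hU hA hV
  obtain ⟨g0, Uh, Ui, ε0, δ, L, F, A, D⟩ := constr h0 hU hA hcb hV
  exact fin_const D hU (anal D h0 hU hv hv0 hvW (BV.of_nt hbE) (BV.of_nt hbc) hbc1 hkey)

end Run7.h308
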