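import Pool.Agent.Run7.h308.RegD

set_option autoImplicit false

namespace Run7.h308

open Matrix MeasureTheory Filter Topology Set

variable {p q : ℕ}

/-- analyticity of the modified function gives analyticity of the original one -/
lemma anAt_of_mod {W0 : ℂ → Matrix (Fin p ⊕ Fin q) (Fin p ⊕ Fin q) ℂ} {c : ℂ → ℂ}
    (hcb : BddHolOn disc c) (hc0 : ∀ z, c z ≠ 0) {z : ℂ} (hz : z ∈ disc)
    (h : AnAt (fun z => W0 z * fromBlocks (c z • 1) 0 0 1) z) : AnAt W0 z := by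
  have hcA := analyticOnNhd_disc hcb.1 z hz
  have h3 : MP (fun f => AnalyticAt ℂ f z) (fun z => (W0 z * fromBlocks (c z • 1) 0 0 1) *
      fromBlocks ((c z)⁻¹ • 1) 0 0 1) := by
    refine (Alg.an z).mm h ?_
    intro i k
    have hci : AnalyticAt ℂ (fun z => (c z)⁻¹) z := hcA.inv (hc0 z)
    rcases i with i | i <;> rcases k with k | k
    · exact (Alg.an z).msmul hci ((Alg.an z).mconst (1 : Matrix (Fin p) (Fin p) ℂ)) i k
    · exact (Alg.an z).const 0
    · exact (Alg.an z).const 0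
    · exact (Alg.an z).const _
  have h4 : (fun z => (W0 z * fromBlocks (c z • 1) 0 0 1) *
      (fromBlocks ((c z)⁻¹ • 1) 0 0 1 : Matrix (Fin p ⊕ Fin q) (Fin p ⊕ Fin q) ℂ)) = W0 := by
    funext w
    rw [Matrix.mul_assoc, fromBlocks_multiply]
    have h5 : (c w • (1 : Matrix (Fin p) (Fin p) ℂ)) * ((c w)⁻¹ • 1) = 1 := by
      rw [Matrix.smul_mul, Matrix.one_mul, smul_smul, mul_inv_cancel₀ (hc0 w), one_smul]
    simp [h5]
  rw [h4] at h3
  exact h3

theorem eta_iff (f : ℂ → Matrix (Fin p) (Fin q) ℂ) :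
    (∃ W, LeftRegular W ∧ IsEta W f) ↔ ∃ W, JInner p q W ∧ IsEta W f := by
  constructor
  · rintro ⟨W, h1, h2⟩
    exact ⟨W, h1.1, h2⟩
  · rintro ⟨W, h1, h2⟩
    obtain ⟨c, hcb, hc1, hc0, hc⟩ := exists_leftRegular h1
    refine ⟨_, hc, fun z hz h => ?_⟩
    rw [h2 z hz (anAt_of_mod hcb hc0 hz h)]
    rw [mul_12, mul_22]
    simp

end Run7.h308
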