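import Pool.Agent.Run7.h308.Smir

set_option autoImplicit false
set_option maxHeartbeats 800000

namespace Run7.h308

open Complex MeasureTheory Filter Topology Set Metric

lemma countable_pt (w : ℂ) : {θ : ℝ | pt θ = w}.Countable := by
  by_cases h : ∃ s, pt s = w
  · obtain ⟨s, rfl⟩ := h
    refine (countable_range (fun n : ℤ => s + n * (2 * Real.pi))).mono ?_
    intro θ hθ
    simp only [mem_setOf_eq, pt] at hθ
    rw [Complex.exp_eq_exp_iff_exists_int] at hθ
    obtain ⟨n, hn⟩ := hθ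
    refine ⟨n, ?_⟩
    have h2 : ((θ : ℂ)) * I = ((s + n * (2 * Real.pi) : ℝ) : ℂ) * I := by
      rw [hn]; push_cast; ring
    have h3 := mul_right_cancel₀ I_ne_zero h2
    exact_mod_cast h3.symm
  · have : {θ : ℝ | pt θ = w} = ∅ := by
      ext θ
      simp only [mem_setOf_eq, mem_empty_iff_false, iff_false]
      intro h2
      exact h ⟨θ, h2⟩
    rw [this]
    exact countable_empty

lemma ae_pt_not_mem {S : Set ℝ} (hS : S.Countable) : ∀ᵐ θ ∂m, ∀ s ∈ S, pt s ≠ pt θ := by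
  apply ae_m
  have h : (⋃ s ∈ S, {θ : ℝ | pt θ = pt s}).Countable := hS.biUnion fun s _ => countable_pt _
  have h2 := h.measure_zero (volume : Measure ℝ)
  rw [ae_iff]
  refine measure_mono_null ?_ h2
  intro θ hθ
  simp only [mem_setOf_eq, not_forall, not_not, ne_eq] at hθ
  obtain ⟨s, hs, hs2⟩ := hθ
  simp only [mem_iUnion, mem_setOf_eq]
  exact ⟨s, hs, hs2.symm⟩

lemma tendsto_pk_zero {s θ : ℝ} (h : pt s ≠ pt θ) :
    Tendsto (fun r : ℝ => pk (r * pt θ) s) (𝓝[<] 1) (𝓝 0) := by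
  unfold pk
  have h1 : Continuous (fun r : ℝ => 1 - ‖(r : ℂ) * pt θ‖ ^ 2) := by fun_prop
  have h2 : Continuous (fun r : ℝ => ‖pt s - (r : ℂ) * pt θ‖ ^ 2) := by fun_prop
  have h3 := (h1.tendsto 1).div (h2.tendsto 1) (by
    simp only [ofReal_one, one_mul]
    have := norm_pos_iff.2 (sub_ne_zero.2 h)
    positivity)
  simp only [ofReal_one, one_mul, norm_pt, one_pow, sub_self, zero_div] at h3
  exact h3.mono_left nhdsWithin_le_nhds

/-- singular inner functions with finitely many atoms -/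
lemma inner_of_finite (ν : Measure ℝ) [IsFiniteMeasure ν] {S : Set ℝ} (hS : S.Finite)
    (hν : ν Sᶜ = 0) {l : ℝ → ℂ} (hl : BV (Sg ν) l) : ∀ᵐ θ ∂m, ‖l θ‖ = 1 := by
  filter_upwards [hl, ae_pt_not_mem hS.countable] with θ h1 h2
  have h3 : Tendsto (fun r : ℝ => (Hg ν (r * pt θ)).re) (𝓝[<] 1) (𝓝 0) := by
    rw [Metric.tendsto_nhds]
    intro ε hε
    have h4 : ∀ᶠ r : ℝ in 𝓝[<] 1, ∀ s ∈ S, pk (r * pt θ) s < ε / (ν.real univ + 1) := by
      rw [hS.eventually_all]
      intro s hs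
      exact (tendsto_pk_zero (h2 s hs)).eventually (gt_mem_nhds (by positivity))
    filter_upwards [h4, ev_Ico] with r hr hr2
    have hz := rad_mem hr2.1.le hr2.2 θ
    rw [Real.dist_eq, sub_zero, abs_of_nonneg (Hg_re_nonneg ν hz), Hg_re ν hz]
    have h5 : ∫ s, pk (r * pt θ) s ∂ν ≤ ∫ s, ε / (ν.real univ + 1) ∂ν := by
      refine integral_mono_ae (integrable_pk ν hz) (integrable_const _) ?_
      have : ∀ᵐ s ∂ν, s ∈ S := by rw [ae_iff]; exact hν
      filter_upwards [this] with s hs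
      exact (hr s hs).le
    refine lt_of_le_of_lt h5 ?_
    rw [integral_const, smul_eq_mul]
    have hpos : 0 ≤ ν.real univ := measureReal_nonneg
    rw [mul_div_assoc', div_lt_iff₀ (by positivity)]
    nlinarith
  have h4 : Tendsto (fun r : ℝ => ‖Sg ν (r * pt θ)‖) (𝓝[<] 1) (𝓝 1) := by
    have := h3.neg.rexp
    rw [neg_zero, Real.exp_zero] at this
    refine this.congr fun r => ?_
    rw [norm_Sg]
  exact tendsto_nhds_unique h1.norm h4

lemma norm_pt_sub_pt (s t : ℝ) : ‖pt s - pt t‖ ≤ |s - t| := by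
  have h : pt s - pt t = pt t * (Complex.exp (((s - t : ℝ) : ℂ) * I) - 1) := by
    unfold pt
    rw [mul_sub, ← Complex.exp_add, mul_one]
    congr 2
    push_cast
    ring
  rw [h, norm_mul, norm_pt, one_mul]
  have := Real.norm_exp_I_mul_ofReal_sub_one_le (x := s - t)
  rw [mul_comm] at this
  simpa using this

lemma hk_sub {z : ℂ} (hz : z ∈ disc) (s t : ℝ) :
    ‖hk z s - hk z t‖ ≤ 2 * |s - t| / (1 - ‖z‖) ^ 2 := by
  have h1 := pt_sub_ne hz s
  have h2 := pt_sub_ne hz t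
  have hz' := mem_disc.1 hz
  have e : hk z s - hk z t = 2 * z * (pt t - pt s) / ((pt s - z) * (pt t - z)) := by
    unfold hk
    field_simp
    ring
  rw [e, norm_div, norm_mul, norm_mul, norm_mul]
  have h3 := norm_pt_sub z s
  have h4 := norm_pt_sub z t
  have h5 : 0 < 1 - ‖z‖ := by linarith
  have h6 := norm_pt_sub_pt t s
  rw [abs_sub_comm] at h6
  have h7 : ‖(2 : ℂ)‖ = 2 := by simp
  rw [h7]
  refine div_le_div₀ (by positivity) ?_ (by positivity) ?_
  · have := norm_nonneg z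
    have := norm_nonneg (pt t - pt s)
    nlinarith
  · rw [sq]
    exact mul_le_mul h3 h4 h5.le (by linarith)

lemma exp_sub_le {a b : ℂ} (hb : 0 ≤ b.re) (h : ‖a - b‖ ≤ 1) :
    ‖Complex.exp (-a) - Complex.exp (-b)‖ ≤ 2 * ‖a - b‖ := by
  have e : Complex.exp (-a) - Complex.exp (-b) = Complex.exp (-b) * (Complex.exp (-(a - b)) - 1) := by
    rw [mul_sub, ← Complex.exp_add, mul_one]
    congr 2
    ring
  rw [e, norm_mul, Complex.norm_exp]
  have h1 : Real.exp (-b).re ≤ 1 := by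
    rw [Real.exp_le_one_iff, Complex.neg_re]; linarith
  have h2 := Complex.norm_exp_sub_one_le (x := -(a - b)) (by rwa [norm_neg])
  rw [norm_neg] at h2
  have := norm_nonneg (Complex.exp (-(a - b)) - 1)
  have := Real.exp_pos (-b).re
  nlinarith [norm_nonneg (a - b)]

/-- grid function -/
noncomputable def grid (k : ℕ) (θ : ℝ) : ℝ := (⌊(k : ℝ) * θ⌋ : ℝ) / k

lemma grid_meas (k : ℕ) : Measurable (grid k) := by
  unfold grid
  have : Measurable fun θ : ℝ => (⌊(k : ℝ) * θ⌋ : ℤ) := Int.measurable_floor.comp (measurable_const_mul _)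
  have h2 : Measurable fun n : ℤ => (n : ℝ) := measurable_from_top
  exact (h2.comp this).div_const _

lemma grid_near {k : ℕ} (hk : 0 < k) (θ : ℝ) : |grid k θ - θ| ≤ 1 / k := by
  have hk' : (0 : ℝ) < k := by exact_mod_cast hk
  have h1 := Int.floor_le ((k : ℝ) * θ)
  have h2 := Int.lt_floor_add_one ((k : ℝ) * θ)
  unfold grid
  rw [abs_le]
  constructor
  · rw [neg_le_sub_iff_le_add, ← sub_le_iff_le_add, sub_eq_add_neg]
    have : θ + -(1 / (k : ℝ)) = (k * θ - 1) / k := by field_simp; ring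
    rw [this]
    exact div_le_div_of_nonneg_right (by linarith) hk'.le
  · rw [sub_le_iff_le_add]
    have : 1 / (k : ℝ) + θ = (k * θ + 1) / k := by field_simp; ring
    rw [this]
    exact div_le_div_of_nonneg_right (by linarith) hk'.le

lemma grid_fin (k : ℕ) : (grid k '' Ioc (0 : ℝ) (2 * Real.pi)).Finite := by
  refine ((Set.finite_Icc (0 : ℤ) ⌊(k : ℝ) * (2 * Real.pi)⌋).image fun j : ℤ => (j : ℝ) / k).subset ?_
  rintro _ ⟨θ, hθ, rfl⟩
  refine ⟨⌊(k : ℝ) * θ⌋, ⟨?_, ?_⟩, rfl⟩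
  · exact Int.floor_nonneg.2 (mul_nonneg k.cast_nonneg hθ.1.le)
  · exact Int.floor_le_floor (mul_le_mul_of_nonneg_left hθ.2 k.cast_nonneg)

/-- approximation by atomic measures -/
lemma approx {v : ℝ → ℝ} (hv : Integrable v m) (h0 : ∀ θ, 0 ≤ v θ) {δ : ℝ} (hδ : 0 < δ) :
    ∃ ν : Measure ℝ, IsFiniteMeasure ν ∧ (∃ S : Set ℝ, S.Finite ∧ ν Sᶜ = 0) ∧
      ν.real univ = ∫ θ, v θ ∂m ∧ ∀ z : ℂ, ‖z‖ ≤ 1 / 2 → ‖Sg ν z - Sg (mv v) z‖ ≤ δ := by
  have hfin := finite_mv hv
  set V := (mv v).real univ with hV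
  have hV0 : 0 ≤ V := measureReal_nonneg
  obtain ⟨k, hkk⟩ := exists_nat_gt (max (16 * V / δ) (8 * V))
  have hk1 : 16 * V / δ < k := (le_max_left _ _).trans_lt hkk
  have hk2 : 8 * V < k := (le_max_right _ _).trans_lt hkk
  have hk0 : (0 : ℝ) < k := lt_of_le_of_lt (by positivity) hk2
  have hk0' : 0 < k := by exact_mod_cast hk0
  refine ⟨(mv v).map (grid k), inferInstance, ⟨_, grid_fin k, ?_⟩, ?_, ?_⟩
  · rw [Measure.map_apply (grid_meas k) (grid_fin k).measurableSet.compl]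
    have h1 : ∀ᵐ θ ∂(mv v), θ ∈ Ioc (0 : ℝ) (2 * Real.pi) :=
      (withDensity_absolutelyContinuous m _).ae_le ae_mem_Ioc
    rw [ae_iff] at h1
    refine measure_mono_null ?_ h1
    intro θ hθ hmem
    exact hθ ⟨θ, hmem, rfl⟩
  · rw [← mv_univ hv h0, measureReal_def, measureReal_def, Measure.map_apply (grid_meas k) MeasurableSet.univ,
      preimage_univ]
  · intro z hz
    have hzd : z ∈ disc := mem_disc.2 (by linarith)
    have e1 : Hg ((mv v).map (grid k)) z = ∫ θ, hk z (grid k θ) ∂(mv v) := by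
      unfold Hg
      rw [integral_map (grid_meas k).aemeasurable (continuous_hk hzd).aestronglyMeasurable]
    have hi1 : Integrable (fun θ => Run7.h308.hk z (grid k θ)) (mv v) :=
      Integrable.of_bound ((continuous_hk hzd).measurable.comp (grid_meas k)).aestronglyMeasurable
        (2 / (1 - ‖z‖)) (Eventually.of_forall fun θ => norm_hk_le hzd _)
    have h1 : ‖Hg ((mv v).map (grid k)) z - Hg (mv v) z‖ ≤ 8 * V / k := by
      rw [e1]
      unfold Hg
      rw [← integral_sub hi1 (integrable_hk _ hzd)]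
      have h2 : ∀ θ, ‖Run7.h308.hk z (grid k θ) - Run7.h308.hk z θ‖ ≤ 8 / k := by
        intro θ
        refine (hk_sub hzd _ _).trans ?_
        have h3 := grid_near hk0' θ
        have h4 : 1 / 4 ≤ (1 - ‖z‖) ^ 2 := by nlinarith [norm_nonneg z]
        rw [div_le_div_iff₀ (by positivity) hk0]
        have h5 : |grid k θ - θ| * k ≤ 1 := by
          rwa [le_div_iff₀ hk0] at h3
        nlinarith
      have h3 := norm_integral_le_of_norm_le_const (μ := mv v) (Eventually.of_forall h2)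
      refine h3.trans (le_of_eq ?_)
      rw [← hV]
      ring
    have h2 : 8 * V / k ≤ 1 := by rw [div_le_one hk0]; exact hk2.le
    have h3 := exp_sub_le (Hg_re_nonneg (mv v) hzd) (h1.trans h2)
    unfold Sg
    refine h3.trans ?_
    have h4 : 16 * V / k ≤ δ := by
      rw [div_le_iff₀ hk0]
      rw [div_lt_iff₀ hδ] at hk1
      linarith
    calc 2 * ‖Hg ((mv v).map (grid k)) z - Hg (mv v) z‖ ≤ 2 * (8 * V / k) := by linarith
      _ = 16 * V / k := by ring
      _ ≤ δ := h4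

/-- Fourier coefficients from the values on a small circle -/
lemma coef {g : ℂ → ℂ} (hg : BddHolOn disc g) {G : ℝ → ℂ} (hG : BV g G) {η : ℝ}
    (hη : ∀ z : ℂ, ‖z‖ ≤ 1 / 2 → ‖g z‖ ≤ η) (n : ℤ) :
    ‖∫ θ, G θ * pt θ ^ n ∂m‖ ≤ (1 / 2 : ℝ) ^ n * η := by
  obtain ⟨C, hC0, hC⟩ := bdd_rad hg
  have hconst : ∀ r : ℝ, 1 / 2 ≤ r → r < 1 →
      ∫ θ, ((r : ℂ) * pt θ) ^ n * g (r * pt θ) ∂m =
        ∫ θ, (((1 / 2 : ℝ) : ℂ) * pt θ) ^ n * g (((1 / 2 : ℝ) : ℂ) * pt θ) ∂m := by
    intro r h0 h1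
    rw [integral_m_circle (fun z => z ^ n * g z) r, integral_m_circle (fun z => z ^ n * g z) (1 / 2),
      Real.circleAverage_eq_circleIntegral (by linarith), Real.circleAverage_eq_circleIntegral (by norm_num)]
    congr 1
    have hne : ∀ z ∈ closedBall (0 : ℂ) r \ ball 0 (1 / 2), z ≠ 0 ∧ z ∈ disc := by
      intro z hz
      have h2 := hz.2
      have h3 := hz.1
      rw [mem_closedBall, dist_zero_right] at h3
      rw [mem_ball, dist_zero_right, not_lt] at h2
      refine ⟨norm_pos_iff.1 (by linarith), mem_disc.2 (by linarith)⟩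
    have hdiff : ∀ z, z ≠ 0 → z ∈ disc → DifferentiableAt ℂ (fun z => z ^ n * g z) z := by
      intro z h2 h3
      exact (differentiableAt_zpow.2 (Or.inl h2)).mul
        ((hg.1 z h3).differentiableAt (isOpen_disc.mem_nhds h3))
    refine Complex.circleIntegral_sub_center_inv_smul_eq_of_differentiable_on_annulus_off_countable
      (by norm_num) h0 countable_empty ?_ ?_
    · intro z hz
      obtain ⟨h2, h3⟩ := hne z hz
      exact (hdiff z h2 h3).continuousAt.continuousWithinAt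
    · intro z hz
      have h4 : z ∈ closedBall (0 : ℂ) r \ ball 0 (1 / 2) :=
        ⟨ball_subset_closedBall hz.1.1, fun h => hz.1.2 (ball_subset_closedBall h)⟩
      obtain ⟨h2, h3⟩ := hne z h4
      exact hdiff z h2 h3
  have hlim : Tendsto (fun r : ℝ => ∫ θ, ((r : ℂ) * pt θ) ^ n * g (r * pt θ) ∂m) (𝓝[<] 1)
      (𝓝 (∫ θ, pt θ ^ n * G θ ∂m)) := by
    refine tendsto_integral_filter_of_dominated_convergence (fun _ => 2 ^ n.natAbs * C) ?_ ?_
      (integrable_const _) ?_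
    · filter_upwards [ev_Ico] with r hr
      refine Continuous.aestronglyMeasurable ?_
      refine Continuous.mul ?_ (cont_rad hg.1.continuousOn hr.1.le hr.2)
      refine (continuous_const.mul continuous_pt).zpow₀ n fun θ => Or.inl ?_
      have : (r : ℂ) ≠ 0 := by exact_mod_cast hr.1.ne'
      exact mul_ne_zero this (pt_ne θ)
    · filter_upwards [Ioo_mem_nhdsLT (show (1 / 2 : ℝ) < 1 by norm_num)] with r hr
      refine Eventually.of_forall fun θ => ?_
      have hr0 : 0 < r := by have := hr.1; linarith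
      rw [norm_mul, norm_zpow, norm_r_pt hr0.le]
      refine mul_le_mul ?_ (hC r hr0.le hr.2 θ) (norm_nonneg _) (by positivity)
      rcases Int.eq_nat_or_neg n with ⟨k, rfl | rfl⟩
      · simp only [zpow_natCast, Int.natAbs_natCast]
        exact (pow_le_one₀ hr0.le hr.2.le).trans (one_le_pow₀ (by norm_num))
      · simp only [zpow_neg, zpow_natCast, Int.natAbs_neg, Int.natAbs_natCast]
        rw [← inv_pow]
        refine pow_le_pow_left₀ (by positivity) ?_ k
        rw [inv_le_comm₀ hr0 two_pos]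
        have := hr.1
        linarith
    · filter_upwards [hG] with θ hθ
      refine Tendsto.mul ?_ hθ
      have h2 : ContinuousAt (fun r : ℝ => ((r : ℂ) * pt θ) ^ n) 1 := by
        refine ContinuousAt.zpow₀ (by fun_prop) n (Or.inl ?_)
        simpa using pt_ne θ
      have := h2.tendsto
      simp only [ofReal_one, one_mul] at this
      exact this.mono_left nhdsWithin_le_nhds
  have heq : ∫ θ, pt θ ^ n * G θ ∂m =
      ∫ θ, (((1 / 2 : ℝ) : ℂ) * pt θ) ^ n * g (((1 / 2 : ℝ) : ℂ) * pt θ) ∂m := by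
    refine tendsto_nhds_unique hlim (tendsto_const_nhds.congr' ?_)
    filter_upwards [Ioo_mem_nhdsLT (show (1 / 2 : ℝ) < 1 by norm_num)] with r hr
    exact (hconst r hr.1.le hr.2).symm
  have hcomm : ∫ θ, G θ * pt θ ^ n ∂m = ∫ θ, pt θ ^ n * G θ ∂m := by
    congr 1
    ext θ
    ring
  rw [hcomm, heq]
  have h2 : ∀ θ, ‖(((1 / 2 : ℝ) : ℂ) * pt θ) ^ n * g (((1 / 2 : ℝ) : ℂ) * pt θ)‖ ≤ (1 / 2 : ℝ) ^ n * η := by
    intro θ
    rw [norm_mul, norm_zpow, norm_r_pt (by norm_num)]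
    refine mul_le_mul_of_nonneg_left (hη _ ?_) (by positivity)
    rw [norm_r_pt (by norm_num)]
  have := norm_integral_le_of_norm_le_const (μ := m) (Eventually.of_forall h2)
  simpa using this

/-- test functionals -/
lemma test {φ : ℝ → ℂ} (hφ : Integrable φ m) (M : ℝ) (hM : 0 ≤ M) {ε : ℝ} (hε : 0 < ε) :
    ∃ δ : ℝ, 0 < δ ∧ ∀ (B O h : ℂ → ℂ) (bB bO bh : ℝ → ℂ), BddHolOn disc B → BddHolOn disc O →
      BddHolOn disc h → BV B bB → BV O bO → BV h bh → (∀ z ∈ disc, ‖B z‖ ≤ 1) →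
      (∀ z ∈ disc, ‖O z‖ ≤ 1) → (∀ z ∈ disc, ‖h z‖ ≤ M) →
      (∀ z : ℂ, ‖z‖ ≤ 1 / 2 → ‖B z - O z‖ ≤ δ) →
      ‖∫ θ, φ θ * ((bB θ - bO θ) * bh θ) ∂m‖ ≤ ε := by
  obtain ⟨a, ha⟩ := dens hφ (ε := ε / (4 * (M + 1))) (by positivity)
  set K : ℝ := ∑ n ∈ a.support, ‖a n‖ * (1 / 2 : ℝ) ^ n with hK
  have hK0 : 0 ≤ K := Finset.sum_nonneg fun n _ => by positivity
  refine ⟨ε / (2 * (K + 1) * (M + 1)), by positivity, ?_⟩
  intro B O h bB bO bh hB hO hh vB vO vh nB nO nh hBO
  set P : ℝ → ℂ := fun θ => a.sum (fun n c => c * pt θ ^ n) with hP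
  have hPc : Continuous P := by
    rw [hP]
    simp only [Finsupp.sum]
    refine continuous_finsetSum _ fun n _ => continuous_const.mul ?_
    exact continuous_pt.zpow₀ n fun θ => Or.inl (pt_ne θ)
  have hPi : Integrable P m := by
    refine Integrable.of_bound hPc.aestronglyMeasurable (∑ n ∈ a.support, ‖a n‖)
      (Eventually.of_forall fun θ => ?_)
    rw [hP]
    simp only [Finsupp.sum]
    refine (norm_sum_le _ _).trans (Finset.sum_le_sum fun n _ => ?_)
    rw [norm_mul, norm_zpow, norm_pt, one_zpow, mul_one]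
  set g : ℂ → ℂ := fun z => (B z + - O z) * h z with hgdef
  have hg : BddHolOn disc g := (hB.add hO.neg).mul hh
  have hgv : BV g (fun θ => (bB θ - bO θ) * bh θ) := by
    filter_upwards [vB, vO, vh] with θ h1 h2 h3
    simp only [hgdef, ← sub_eq_add_neg]
    exact (h1.sub h2).mul h3
  have hgm : AEStronglyMeasurable (fun θ => (bB θ - bO θ) * bh θ) m := hgv.aesm hg.1.continuousOn
  have hgb : ∀ z ∈ disc, ‖g z‖ ≤ 2 * M := by
    intro z hz
    simp only [hgdef, ← sub_eq_add_neg]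
    rw [norm_mul]
    refine mul_le_mul ((norm_sub_le _ _).trans ?_) (nh z hz) (norm_nonneg _) (by norm_num)
    linarith [nB z hz, nO z hz]
  have hGb := hgv.bound hgb
  have hGi : Integrable (fun θ => (bB θ - bO θ) * bh θ) m := Integrable.of_bound hgm _ hGb
  have hη : ∀ z : ℂ, ‖z‖ ≤ 1 / 2 → ‖g z‖ ≤ ε / (2 * (K + 1) * (M + 1)) * M := by
    intro z hz
    simp only [hgdef, ← sub_eq_add_neg]
    rw [norm_mul]
    exact mul_le_mul (hBO z hz) (nh z (mem_disc.2 (by linarith))) (norm_nonneg _) (by positivity)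
  have e : ∀ θ, φ θ * ((bB θ - bO θ) * bh θ) =
      (φ θ - P θ) * ((bB θ - bO θ) * bh θ) + P θ * ((bB θ - bO θ) * bh θ) := fun θ => by ring
  simp_rw [e]
  have hi1 : Integrable (fun θ => (φ θ - P θ) * ((bB θ - bO θ) * bh θ)) m :=
    (hφ.sub hPi).mul_bdd (c := 2 * M) hgm hGb
  have hi2 : Integrable (fun θ => P θ * ((bB θ - bO θ) * bh θ)) m :=
    hPi.mul_bdd (c := 2 * M) hgm hGb
  rw [integral_add hi1 hi2]
  have t1 : ‖∫ θ, (φ θ - P θ) * ((bB θ - bO θ) * bh θ) ∂m‖ ≤ ε / 2 := by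
    refine (norm_integral_le_of_norm_le (g := fun θ => ‖φ θ - P θ‖ * (2 * M))
      ((hφ.sub hPi).norm.mul_const _) ?_).trans ?_
    · filter_upwards [hGb] with θ h1
      rw [norm_mul]
      exact mul_le_mul_of_nonneg_left h1 (norm_nonneg _)
    · rw [integral_mul_const]
      have h1 : (∫ θ, ‖φ θ - P θ‖ ∂m) * (2 * M) ≤ ε / (4 * (M + 1)) * (2 * M) :=
        mul_le_mul_of_nonneg_right ha.le (by positivity)
      refine h1.trans ?_
      rw [div_mul_eq_mul_div, div_le_div_iff₀ (by positivity) (by norm_num)]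
      nlinarith
  have t2 : ‖∫ θ, P θ * ((bB θ - bO θ) * bh θ) ∂m‖ ≤ ε / 2 := by
    have e2 : ∀ θ, P θ * ((bB θ - bO θ) * bh θ) =
        ∑ n ∈ a.support, a n * (((bB θ - bO θ) * bh θ) * pt θ ^ n) := by
      intro θ
      rw [hP]
      simp only [Finsupp.sum]
      rw [Finset.sum_mul]
      refine Finset.sum_congr rfl fun n _ => ?_
      ring
    simp_rw [e2]
    rw [integral_finsetSum]
    · refine (norm_sum_le _ _).trans ?_
      have h1 : ∀ n ∈ a.support, ‖∫ θ, a n * (((bB θ - bO θ) * bh θ) * pt θ ^ n) ∂m‖ ≤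
          (‖a n‖ * (1 / 2 : ℝ) ^ n) * (ε / (2 * (K + 1) * (M + 1)) * M) := by
        intro n _
        rw [integral_const_mul, norm_mul, mul_assoc]
        exact mul_le_mul_of_nonneg_left (coef hg hgv hη n) (norm_nonneg _)
      refine (Finset.sum_le_sum h1).trans ?_
      rw [← Finset.sum_mul, ← hK]
      rw [div_mul_eq_mul_div, mul_div_assoc', div_le_div_iff₀ (by positivity) (by norm_num)]
      have : K * M ≤ (K + 1) * (M + 1) := by nlinarith
      nlinarith
    · intro n _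
      refine Integrable.const_mul ?_ _
      refine hGi.mul_bdd (c := 1) ?_ (Eventually.of_forall fun θ => ?_)
      · exact (continuous_pt.zpow₀ n fun θ => Or.inl (pt_ne θ)).aestronglyMeasurable
      · rw [norm_zpow, norm_pt, one_zpow]
  refine (norm_add_le _ _).trans ?_
  linarith

end Run7.h308
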