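import Pool.Agent.Run7.h308.Logint

set_option autoImplicit false
set_option maxHeartbeats 800000

namespace Run7.h308

open Complex MeasureTheory Filter Topology Set Metric

/-- working form of the Smirnov class -/
def Sm (f : ℂ → ℂ) : Prop :=
  DifferentiableOn ℂ f disc ∧ ∃ v : ℝ → ℝ, Integrable v m ∧ (∀ θ, 0 ≤ v θ) ∧
    ∀ z ∈ disc, ‖f z‖ ≤ Real.exp (Pz v z)

lemma Sm.of_bdd {f : ℂ → ℂ} (hf : BddHolOn disc f) : Sm f := by
  obtain ⟨h1, C, hC⟩ := hf
  refine ⟨h1, fun _ => |C|, integrable_const _, fun _ => abs_nonneg _, fun z hz => ?_⟩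
  rw [Pz_const _ hz]
  have h2 := hC z hz
  have h3 := Real.add_one_le_exp |C|
  have h4 := le_abs_self C
  linarith

lemma Sm.const (c : ℂ) : Sm (fun _ => c) := Sm.of_bdd (BddHolOn.const _ c)

lemma Sm.mul {f g : ℂ → ℂ} (hf : Sm f) (hg : Sm g) : Sm (fun z => f z * g z) := by
  obtain ⟨h1, u, hu, hu0, h2⟩ := hf
  obtain ⟨h3, v, hv, hv0, h4⟩ := hg
  refine ⟨h1.mul h3, fun θ => u θ + v θ, hu.add hv, fun θ => add_nonneg (hu0 θ) (hv0 θ),
    fun z hz => ?_⟩
  rw [Pz_add hu hv hz, Real.exp_add, norm_mul]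
  exact mul_le_mul (h2 z hz) (h4 z hz) (norm_nonneg _) (Real.exp_pos _).le

lemma Sm.add {f g : ℂ → ℂ} (hf : Sm f) (hg : Sm g) : Sm (fun z => f z + g z) := by
  obtain ⟨h1, u, hu, hu0, h2⟩ := hf
  obtain ⟨h3, v, hv, hv0, h4⟩ := hg
  have hlog : 0 ≤ Real.log 2 := Real.log_nonneg (by norm_num)
  refine ⟨h1.add h3, fun θ => (u θ + v θ) + Real.log 2, (hu.add hv).add (integrable_const _),
    fun θ => add_nonneg (add_nonneg (hu0 θ) (hv0 θ)) hlog, fun z hz => ?_⟩
  rw [Pz_add (u := fun θ => u θ + v θ) (hu.add hv) (integrable_const _) hz, Pz_const _ hz,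
    Pz_add hu hv hz, Real.exp_add, Real.exp_add, Real.exp_log two_pos]
  have a1 : 1 ≤ Real.exp (Pz u z) := Real.one_le_exp (Pz_nonneg hu0 hz)
  have a2 : 1 ≤ Real.exp (Pz v z) := Real.one_le_exp (Pz_nonneg hv0 hz)
  have := norm_add_le (f z) (g z)
  have := h2 z hz
  have := h4 z hz
  nlinarith

lemma Sm.sum {ι : Type*} (s : Finset ι) {f : ι → ℂ → ℂ} (hf : ∀ i ∈ s, Sm (f i)) :
    Sm (fun z => ∑ i ∈ s, f i z) := by
  classical
  induction s using Finset.induction_on with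
  | empty => simpa using Sm.const 0
  | insert i s hi ih =>
    simp only [Finset.sum_insert hi]
    exact (hf i (Finset.mem_insert_self _ _)).add (ih fun j hj => hf j (Finset.mem_insert_of_mem hj))

lemma Sm.neg {f : ℂ → ℂ} (hf : Sm f) : Sm (fun z => - f z) := by
  have := (Sm.const (-1)).mul hf
  simpa using this

lemma Sm.congr {f g : ℂ → ℂ} (hf : Sm f) (h : ∀ z ∈ disc, g z = f z) : Sm g := by
  obtain ⟨h1, u, hu, hu0, h2⟩ := hf
  exact ⟨h1.congr h, u, hu, hu0, fun z hz => by rw [h z hz]; exact h2 z hz⟩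

lemma NTLim.mul {f g : ℂ → ℂ} {ζ a b : ℂ} (hf : NTLim f ζ a) (hg : NTLim g ζ b) :
    NTLim (fun z => f z * g z) ζ (a * b) := fun K => (hf K).mul (hg K)

lemma NTLim.div {f g : ℂ → ℂ} {ζ a b : ℂ} (hf : NTLim f ζ a) (hg : NTLim g ζ b) (hb : b ≠ 0) :
    NTLim (fun z => f z / g z) ζ (a / b) := fun K => (hf K).div (hg K) hb

lemma BV.mul {f g : ℂ → ℂ} {a b : ℝ → ℂ} (hf : BV f a) (hg : BV g b) :
    BV (fun z => f z * g z) (fun θ => a θ * b θ) := by
  filter_upwards [hf, hg] with θ h1 h2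
  exact h1.mul h2

lemma BV.add {f g : ℂ → ℂ} {a b : ℝ → ℂ} (hf : BV f a) (hg : BV g b) :
    BV (fun z => f z + g z) (fun θ => a θ + b θ) := by
  filter_upwards [hf, hg] with θ h1 h2
  exact h1.add h2

lemma BV.const (c : ℂ) : BV (fun _ => c) (fun _ => c) :=
  Eventually.of_forall fun _ => tendsto_const_nhds

lemma Sm.bv {f : ℂ → ℂ} (hf : Sm f) : ∃ b : ℝ → ℂ, (∀ᵐ θ ∂m, NTLim f (pt θ) (b θ)) := by
  obtain ⟨h1, v, hv, hv0, h2⟩ := hf
  have := finite_mv hv
  have hS := BddHolOn.Sg (mv v)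
  have hg : BddHolOn disc (fun z => f z * Sg (mv v) z) := by
    refine ⟨h1.mul hS.1, 1, fun z hz => ?_⟩
    rw [norm_mul, norm_Sg_mv hv hv0 hz, Real.exp_neg]
    have := Real.exp_pos (Pz v z)
    rw [mul_inv_le_iff₀ this, one_mul]
    exact h2 z hz
  obtain ⟨a, ha⟩ := exists_BV hg
  obtain ⟨l, hl⟩ := exists_BV hS
  have hl0 := (log_int hS ⟨0, zero_mem_disc, Sg_ne_zero _ _⟩ (BV.of_nt hl)).1
  refine ⟨fun θ => a θ / l θ, ?_⟩
  filter_upwards [ha, hl, hl0] with θ h3 h4 h5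
  have h6 := h3.div h4 h5
  intro K
  refine (h6 K).congr fun z => ?_
  rw [mul_div_assoc, div_self (Sg_ne_zero _ _), mul_one]

/-- truncated multiplier -/
lemma Sm.trunc {f : ℂ → ℂ} {v : ℝ → ℝ} (h1 : DifferentiableOn ℂ f disc) (hv : Integrable v m)
    (hv0 : ∀ θ, 0 ≤ v θ) (h2 : ∀ z ∈ disc, ‖f z‖ ≤ Real.exp (Pz v z)) (N : ℕ) :
    BddHolOn disc (fun z => f z * Sg (mv fun θ => max (v θ - N) 0) z) := by
  have hi := (integrable_trunc hv hv0 N N.cast_nonneg)
  have := finite_mv hi.2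
  have hS := BddHolOn.Sg (mv fun θ => max (v θ - N) 0)
  refine ⟨h1.mul hS.1, Real.exp N, fun z hz => ?_⟩
  rw [norm_mul, norm_Sg_mv hi.2 (fun θ => le_max_right _ _) hz]
  have h3 := Pz_split hv hv0 N N.cast_nonneg hz
  have h4 := Pz_min_le hv hv0 N N.cast_nonneg hz
  calc ‖f z‖ * Real.exp (-Pz (fun θ => max (v θ - N) 0) z)
      ≤ Real.exp (Pz v z) * Real.exp (-Pz (fun θ => max (v θ - N) 0) z) :=
        mul_le_mul_of_nonneg_right (h2 z hz) (Real.exp_pos _).le
    _ = Real.exp (Pz (fun θ => min (v θ) N) z) := by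
        rw [← Real.exp_add]
        congr 1
        linarith
    _ ≤ Real.exp N := Real.exp_le_exp.2 h4

lemma trunc_tendsto {v : ℝ → ℝ} (hv : Integrable v m) (hv0 : ∀ θ, 0 ≤ v θ) {z : ℂ}
    (hz : z ∈ disc) :
    Tendsto (fun N : ℕ => ‖Sg (mv fun θ => max (v θ - N) 0) z‖) atTop (𝓝 1) := by
  have h := (tendsto_tail hv hv0 hz).neg.rexp
  rw [neg_zero, Real.exp_zero] at h
  refine h.congr fun N => ?_
  rw [norm_Sg_mv (integrable_trunc hv hv0 N N.cast_nonneg).2 (fun θ => le_max_right _ _) hz]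

/-- Smirnov's maximum principle -/
theorem Sm.maxp {f : ℂ → ℂ} (hf : Sm f) {b : ℝ → ℂ} (hb : BV f b) {C : ℝ}
    (hC : ∀ᵐ θ ∂m, ‖b θ‖ ≤ C) {z : ℂ} (hz : z ∈ disc) : ‖f z‖ ≤ C := by
  obtain ⟨h1, v, hv, hv0, h2⟩ := hf
  have key : ∀ N : ℕ, ‖f z‖ * ‖Sg (mv fun θ => max (v θ - N) 0) z‖ ≤ C := by
    intro N
    have hi := (integrable_trunc hv hv0 N N.cast_nonneg)
    have := finite_mv hi.2
    have hS := BddHolOn.Sg (mv fun θ => max (v θ - N) 0)
    obtain ⟨l, hl⟩ := exists_BV hS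
    have hl' := BV.of_nt hl
    have hl1 : ∀ᵐ θ ∂m, ‖l θ‖ ≤ 1 := hl'.bound fun z hz => norm_Sg_le _ hz
    rw [← norm_mul]
    refine max_bdd (Sm.trunc h1 hv hv0 h2 N) (hb.mul hl') ?_ hz
    filter_upwards [hC, hl1] with θ h3 h4
    rw [norm_mul]
    nlinarith [norm_nonneg (b θ), norm_nonneg (l θ)]
  have ht := (trunc_tendsto hv hv0 hz).const_mul ‖f z‖
  rw [mul_one] at ht
  exact le_of_tendsto' ht key

theorem Sm.max_exp {f : ℂ → ℂ} (hf : Sm f) {b : ℝ → ℂ} (hb : BV f b) {v : ℝ → ℝ}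
    (hv : Integrable v m) (hv0 : ∀ θ, 0 ≤ v θ)
    (hC : ∀ᵐ θ ∂m, ‖b θ‖ ≤ Real.exp (v θ)) {z : ℂ} (hz : z ∈ disc) :
    ‖f z‖ ≤ Real.exp (Pz v z) := by
  have := finite_mv hv
  have hS := BddHolOn.Sg (mv v)
  obtain ⟨l, hl⟩ := exists_BV hS
  have hl' := BV.of_nt hl
  have hl1 := bv_outer hv hv0 hl'
  have h := (hf.mul (Sm.of_bdd hS)).maxp (hb.mul hl') (C := 1) (by
    filter_upwards [hC, hl1] with θ h3 h4
    rw [norm_mul, h4, Real.exp_neg, mul_inv_le_iff₀ (Real.exp_pos _), one_mul]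
    exact h3) hz
  rwa [norm_mul, norm_Sg_mv hv hv0 hz, Real.exp_neg, mul_inv_le_iff₀ (Real.exp_pos _), one_mul] at h

lemma pk_zero (θ : ℝ) : pk 0 θ = 1 := by
  rw [← hk_re, hk_zero]
  simp

lemma bdd_zero {h : ℂ → ℂ} (hh : BddHolOn disc h) {b : ℝ → ℂ} (hb : BV h b) :
    ∫ θ, b θ ∂m = h 0 := by
  rw [← poisson hh hb zero_mem_disc]
  simp [pk_zero]

lemma sq_int_le {w : ℝ → ℝ} (hw : Integrable w m) (hw2 : Integrable (fun θ => w θ ^ 2) m) :
    (∫ θ, w θ ∂m) ^ 2 ≤ ∫ θ, w θ ^ 2 ∂m := by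
  set c := ∫ θ, w θ ∂m with hc
  have h : 0 ≤ ∫ θ, (w θ - c) ^ 2 ∂m := integral_nonneg fun θ => sq_nonneg _
  have e : ∀ θ, (w θ - c) ^ 2 = w θ ^ 2 - 2 * c * w θ + c ^ 2 := fun θ => by ring
  simp_rw [e] at h
  rw [integral_add (f := fun θ => w θ ^ 2 - 2 * c * w θ) (hw2.sub (hw.const_mul _))
    (integrable_const _), integral_sub hw2 (hw.const_mul _), integral_const_mul, ← hc] at h
  simp only [integral_const, probReal_univ, smul_eq_mul, one_mul] at h
  nlinarith

theorem Sm.sq_le {f : ℂ → ℂ} (hf : Sm f) {b : ℝ → ℂ} (hb : BV f b)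
    (hb2 : Integrable (fun θ => ‖b θ‖ ^ 2) m) : ‖f 0‖ ^ 2 ≤ ∫ θ, ‖b θ‖ ^ 2 ∂m := by
  obtain ⟨h1, v, hv, hv0, h2⟩ := hf
  have key : ∀ N : ℕ, (‖f 0‖ * ‖Sg (mv fun θ => max (v θ - N) 0) 0‖) ^ 2 ≤ ∫ θ, ‖b θ‖ ^ 2 ∂m := by
    intro N
    have hi := (integrable_trunc hv hv0 N N.cast_nonneg)
    have := finite_mv hi.2
    have hS := BddHolOn.Sg (mv fun θ => max (v θ - N) 0)
    obtain ⟨l, hl⟩ := exists_BV hS
    have hl' := BV.of_nt hl
    have hl1 : ∀ᵐ θ ∂m, ‖l θ‖ ≤ 1 := hl'.bound fun z hz => norm_Sg_le _ hz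
    have hB := Sm.trunc h1 hv hv0 h2 N
    have hbl := hb.mul hl'
    obtain ⟨C, hC⟩ := hB.2
    have hbd := hbl.bound hC
    have hmm : AEStronglyMeasurable (fun θ => b θ * l θ) m := hbl.aesm hB.1.continuousOn
    have hi1 : Integrable (fun θ => ‖b θ * l θ‖) m := (Integrable.of_bound hmm C hbd).norm
    have hi2 : Integrable (fun θ => ‖b θ * l θ‖ ^ 2) m := by
      refine Integrable.of_bound (hmm.norm.pow 2) (|C| ^ 2) ?_
      filter_upwards [hbd] with θ h5
      rw [norm_pow, norm_norm]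
      exact pow_le_pow_left₀ (norm_nonneg _) (h5.trans (le_abs_self _)) 2
    rw [← norm_mul]
    have h3 := bdd_zero hB hbl
    rw [← h3]
    calc ‖∫ θ, b θ * l θ ∂m‖ ^ 2 ≤ (∫ θ, ‖b θ * l θ‖ ∂m) ^ 2 :=
          pow_le_pow_left₀ (norm_nonneg _) (norm_integral_le_integral_norm _) 2
      _ ≤ ∫ θ, ‖b θ * l θ‖ ^ 2 ∂m := sq_int_le hi1 hi2
      _ ≤ ∫ θ, ‖b θ‖ ^ 2 ∂m := by
          refine integral_mono_ae hi2 hb2 ?_
          filter_upwards [hl1] with θ h4
          rw [norm_mul, mul_pow]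
          have : ‖l θ‖ ^ 2 ≤ 1 := pow_le_one₀ (norm_nonneg _) h4
          nlinarith [sq_nonneg ‖b θ‖]
  have ht := ((trunc_tendsto hv hv0 zero_mem_disc).const_mul ‖f 0‖).pow 2
  rw [mul_one] at ht
  exact le_of_tendsto' ht key

lemma le_exp_posLog {x : ℝ} (hx : 0 ≤ x) : x ≤ Real.exp (Real.posLog x) := by
  rcases hx.eq_or_lt with h | h
  · rw [← h]; exact (Real.exp_pos _).le
  · calc x = Real.exp (Real.log x) := (Real.exp_log h).symm
      _ ≤ Real.exp (Real.posLog x) := Real.exp_le_exp.2 (by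
        rw [Real.posLog_apply]; exact le_max_right _ _)

/-- subharmonicity of `log⁺ |F|` -/
lemma posLog_sub {F : ℂ → ℂ} (hF : DifferentiableOn ℂ F disc) {r : ℝ} (h0 : 0 ≤ r) (h1 : r < 1)
    {z : ℂ} (hz : z ∈ disc) :
    ‖F (r * z)‖ ≤ Real.exp (Pz (fun θ => Real.posLog ‖F (r * pt θ)‖) z) := by
  have hsub : ∀ w ∈ closedBall (0 : ℂ) 1, (r : ℂ) * w ∈ disc := by
    intro w hw
    rw [mem_closedBall, dist_zero_right] at hw
    rw [mem_disc, norm_mul, Complex.norm_real, Real.norm_of_nonneg h0]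
    nlinarith [norm_nonneg w]
  have hc : ContinuousOn (fun w : ℂ => F (r * w)) (closedBall 0 1) :=
    hF.continuousOn.comp (by fun_prop) hsub
  have hB : BddHolOn disc (fun w : ℂ => F (r * w)) := by
    refine ⟨hF.comp (by fun_prop) fun w hw => hsub w (ball_subset_closedBall hw), ?_⟩
    obtain ⟨C, hC⟩ := (isCompact_closedBall (0 : ℂ) 1).exists_bound_of_continuousOn hc
    exact ⟨C, fun w hw => hC w (ball_subset_closedBall hw)⟩
  have hcr : Continuous fun θ => F (r * pt θ) := cont_rad hF.continuousOn h0 h1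
  have hbv : BV (fun w : ℂ => F (r * w)) (fun θ => F (r * pt θ)) := by
    refine Eventually.of_forall fun θ => ?_
    have h2 : ContinuousAt F (r * pt θ) :=
      (hF _ (rad_mem h0 h1 θ)).continuousWithinAt.continuousAt (isOpen_disc.mem_nhds (rad_mem h0 h1 θ))
    have h3 : Tendsto (fun s : ℝ => (r : ℂ) * (s * pt θ)) (𝓝[<] 1) (𝓝 (r * pt θ)) := by
      have h : Continuous (fun s : ℝ => (r : ℂ) * (s * pt θ)) := by fun_prop
      have := h.tendsto 1
      simp only [ofReal_one, one_mul] at this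
      exact this.mono_left nhdsWithin_le_nhds
    exact h2.tendsto.comp h3
  have hpc : Continuous fun θ => Real.posLog ‖F (r * pt θ)‖ :=
    Real.continuous_posLog.comp hcr.norm
  obtain ⟨C, hC0, hC⟩ := bdd_rad hB
  have hi : Integrable (fun θ => Real.posLog ‖F (r * pt θ)‖) m := by
    obtain ⟨C', hC'⟩ := hB.2
    refine Integrable.of_bound hpc.aestronglyMeasurable (Real.posLog |C'|) ?_
    filter_upwards [hbv.bound hC'] with θ hθ
    rw [Real.norm_of_nonneg Real.posLog_nonneg]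
    exact Real.posLog_le_posLog (norm_nonneg _) (hθ.trans (le_abs_self _))
  exact (Sm.of_bdd hB).max_exp hbv hi (fun θ => Real.posLog_nonneg)
    (Eventually.of_forall fun θ => le_exp_posLog (norm_nonneg _)) hz

/-- the definition of the Smirnov class implies the working form -/
theorem Smirnov.sm {F : ℂ → ℂ} (hF : Smirnov F) : Sm F := by
  obtain ⟨b, hb, hsup, hfin⟩ := hF.sup
  have hbv := BV.of_nt hb
  have hbm : AEStronglyMeasurable b m := hbv.aesm hF.holo.continuousOn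
  set u : ℝ → ℝ := fun θ => Real.posLog ‖b θ‖ with hu
  have hum : AEStronglyMeasurable u m := Real.continuous_posLog.comp_aestronglyMeasurable hbm.norm
  have hui : Integrable u m := by
    refine ⟨hum, ?_⟩
    rw [hasFiniteIntegral_iff_norm]
    refine lt_of_eq_of_lt (lintegral_congr fun θ => ?_) hfin
    rw [Real.norm_of_nonneg Real.posLog_nonneg]
  set w : ℕ → ℝ → ℝ := fun k θ => Real.posLog ‖F (rs k * pt θ)‖ with hw
  have hwc : ∀ k, Continuous (w k) := fun k =>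
    Real.continuous_posLog.comp (cont_rad hF.holo.continuousOn (rs_pos k).le (rs_lt k)).norm
  have hwle : ∀ k, ∫⁻ θ, ENNReal.ofReal (w k θ) ∂m ≤ ∫⁻ θ, ENNReal.ofReal (u θ) ∂m := by
    intro k
    rw [← hsup]
    exact le_iSup₂_of_le (rs k) ⟨(rs_pos k).le, rs_lt k⟩ le_rfl
  have hwi : ∀ k, Integrable (w k) m := by
    intro k
    refine ⟨(hwc k).aestronglyMeasurable, ?_⟩
    rw [hasFiniteIntegral_iff_norm]
    refine lt_of_le_of_lt (le_trans (le_of_eq (lintegral_congr fun θ => ?_)) (hwle k)) hfin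
    rw [Real.norm_of_nonneg Real.posLog_nonneg]
  have hwle' : ∀ k, ∫ θ, w k θ ∂m ≤ ∫ θ, u θ ∂m := by
    intro k
    have h1 := hwle k
    rw [← ofReal_integral_eq_lintegral_ofReal (hwi k) (Eventually.of_forall fun θ => Real.posLog_nonneg),
      ← ofReal_integral_eq_lintegral_ofReal hui (Eventually.of_forall fun θ => Real.posLog_nonneg)] at h1
    exact (ENNReal.ofReal_le_ofReal_iff (integral_nonneg fun θ => Real.posLog_nonneg)).1 h1
  have hae : ∀ᵐ θ ∂m, Tendsto (fun k => w k θ) atTop (𝓝 (u θ)) := by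
    filter_upwards [hbv] with θ hθ
    exact (Real.continuous_posLog.tendsto _).comp (hθ.comp rs_tendsto).norm
  -- positive part of the difference tends to zero
  have hpos : Tendsto (fun k => ∫ θ, max (u θ - w k θ) 0 ∂m) atTop (𝓝 0) := by
    have : Tendsto (fun k => ∫ θ, max (u θ - w k θ) 0 ∂m) atTop (𝓝 (∫ θ, (0 : ℝ) ∂m)) := by
      refine tendsto_integral_of_dominated_convergence u (fun k => ?_) hui (fun k => ?_) ?_
      · exact (hum.sub (hwc k).aestronglyMeasurable).sup aestronglyMeasurable_const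
      · refine Eventually.of_forall fun θ => ?_
        rw [Real.norm_of_nonneg (le_max_right _ _)]
        have h1 : 0 ≤ w k θ := Real.posLog_nonneg
        have h2 : 0 ≤ u θ := Real.posLog_nonneg
        exact max_le (by linarith) h2
      · filter_upwards [hae] with θ hθ
        have := (hθ.const_sub (u θ)).max (tendsto_const_nhds (x := (0 : ℝ)))
        simpa using this
    simpa using this
  have hL1 : Tendsto (fun k => ∫ θ, |w k θ - u θ| ∂m) atTop (𝓝 0) := by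
    refine squeeze_zero (fun k => integral_nonneg fun θ => abs_nonneg _) (fun k => ?_)
      (by simpa using hpos.const_mul 2)
    have e : ∀ θ, |w k θ - u θ| = (w k θ - u θ) + 2 * max (u θ - w k θ) 0 := by
      intro θ
      rcases le_total (u θ) (w k θ) with h | h
      · rw [abs_of_nonneg (by linarith), max_eq_right (by linarith)]; ring
      · rw [abs_of_nonpos (by linarith), max_eq_left (by linarith)]; ring
    simp_rw [e]
    have hmi : Integrable (fun θ => max (u θ - w k θ) 0) m := by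
      refine hui.mono ((hum.sub (hwc k).aestronglyMeasurable).sup aestronglyMeasurable_const) ?_
      refine Eventually.of_forall fun θ => ?_
      have h1 : 0 ≤ w k θ := Real.posLog_nonneg
      have h2 : 0 ≤ u θ := Real.posLog_nonneg
      rw [Real.norm_of_nonneg (le_max_right _ _), Real.norm_of_nonneg h2]
      exact max_le (by linarith) h2
    rw [integral_add (f := fun θ => w k θ - u θ) ((hwi k).sub hui) (hmi.const_mul 2),
      integral_sub (hwi k) hui, integral_const_mul]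
    have := hwle' k
    linarith
  refine ⟨hF.holo, u, hui, fun θ => Real.posLog_nonneg, fun z hz => ?_⟩
  have hP : Tendsto (fun k => Pz (w k) z) atTop (𝓝 (Pz u z)) := by
    rw [tendsto_iff_dist_tendsto_zero]
    refine squeeze_zero (fun k => dist_nonneg) (fun k => ?_)
      (by simpa using hL1.const_mul (2 / (1 - ‖z‖)))
    rw [Real.dist_eq]
    unfold Pz
    rw [← integral_sub (integrable_mul_pk (hwi k) hz) (integrable_mul_pk hui hz),
      ← integral_const_mul, ← Real.norm_eq_abs]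
    have hg : Integrable (fun θ => 2 / (1 - ‖z‖) * |w k θ - u θ|) m :=
      ((hwi k).sub hui).abs.const_mul _
    refine norm_integral_le_of_norm_le hg (Eventually.of_forall fun θ => ?_)
    rw [← sub_mul, norm_mul, Real.norm_eq_abs, Real.norm_of_nonneg (pk_nonneg hz θ), mul_comm]
    exact mul_le_mul_of_nonneg_right (pk_le hz θ) (abs_nonneg _)
  have hlim : Tendsto (fun k => ‖F (rs k * z)‖) atTop (𝓝 ‖F z‖) := by
    have h3 : ContinuousAt F z := (hF.holo z hz).continuousWithinAt.continuousAt (isOpen_disc.mem_nhds hz)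
    have h4 : Tendsto (fun r : ℝ => (r : ℂ) * z) (𝓝[<] 1) (𝓝 z) := by
      have h : Continuous (fun r : ℝ => (r : ℂ) * z) := by fun_prop
      have := h.tendsto 1
      simp only [ofReal_one, one_mul] at this
      exact this.mono_left nhdsWithin_le_nhds
    exact (h3.tendsto.comp (h4.comp rs_tendsto)).norm
  refine le_of_tendsto_of_tendsto' hlim hP.rexp fun k => ?_
  exact posLog_sub hF.holo (rs_pos k).le (rs_lt k) hz

end Run7.h308
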